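import Pool.Agent.H48.BR.Core4

set_option autoImplicit false

/-! # The cases `[L : F] = 3, 2, 1` -/

namespace BrR

namespace TwSym

variable {p : ℕ} [Fact p.Prime] {N : Type*} [Field N] {V : Type*} [AddCommGroup V]
  [Module (ZMod p) V] {L : Subfield N} {γ : N ≃+* N} {ω : ZMod p} (S : TwSym p N V L γ ω)

include S

/-- `B (γ u) y = ω² B u y` -/
theorem three_left (hω : ω ^ 2 + ω + 1 = 0) (hω1 : ω ≠ 1)
    (hL : ∀ x ∈ L, γ x ∈ L) (h3 : ∀ x, γ (γ (γ x)) = x)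
    (u y : N) (hu : u ∈ L) (hu0 : u ≠ 0) (hy : y ∈ L) (hy0 : y ≠ 0) :
    S.B (γ u) y = ω ^ 2 • S.B u y ∧ S.B u (γ y) = ω ^ 2 • S.B u y := by
  obtain ⟨u1, hu1⟩ : ∃ u1, γ u = u1 := ⟨_, rfl⟩
  obtain ⟨u2, hu2⟩ : ∃ u2, γ u1 = u2 := ⟨_, rfl⟩
  obtain ⟨y1, hy1⟩ : ∃ y1, γ y = y1 := ⟨_, rfl⟩
  obtain ⟨y2, hy2⟩ : ∃ y2, γ y1 = y2 := ⟨_, rfl⟩
  have hu3 : γ u2 = u := by have := h3 u; rwa [hu1, hu2] at this
  have hy3 : γ y2 = y := by have := h3 y; rwa [hy1, hy2] at this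
  have u1L : u1 ∈ L := hu1 ▸ hL u hu
  have u2L : u2 ∈ L := hu2 ▸ hL _ u1L
  have y1L : y1 ∈ L := hy1 ▸ hL y hy
  have y2L : y2 ∈ L := hy2 ▸ hL _ y1L
  have u10 : u1 ≠ 0 := by rw [← hu1]; simpa using hu0
  have u20 : u2 ≠ 0 := by rw [← hu2]; simpa using u10
  have y10 : y1 ≠ 0 := by rw [← hy1]; simpa using hy0
  have y20 : y2 ≠ 0 := by rw [← hy2]; simpa using y10
  have n1 : S.B u y + S.B u y1 + S.B u y2 = 0 := by
    rw [← S.mul_right _ _ _ hu0 hy0 y10, ← S.mul_right _ _ _ hu0 (mul_ne_zero hy0 y10) y20]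
    refine S.fixed_right _ _ (mul_ne_zero (mul_ne_zero hy0 y10) y20) hu0
      (mul_mem (mul_mem hy y1L) y2L) ?_
    simp only [map_mul, hy1, hy2, hy3]
    ring
  have n2 : S.B u y + S.B u1 y + S.B u2 y = 0 := by
    rw [← S.mul_left _ _ _ hu0 u10 hy0, ← S.mul_left _ _ _ (mul_ne_zero hu0 u10) u20 hy0]
    refine S.fixed _ _ (mul_ne_zero (mul_ne_zero hu0 u10) u20) hy0
      (mul_mem (mul_mem hu u1L) u2L) ?_
    simp only [map_mul, hu1, hu2, hu3]
    ring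
  have e1 : S.B u1 y = ω • S.B u y2 := by
    have := S.equi u y2 hu0 y20
    rwa [hu1, hy3] at this
  have e2 : S.B u2 y = ω ^ 2 • S.B u y1 := by
    have h1 := S.equi u1 y2 u10 y20
    rw [hu2, hy3] at h1
    have h2 := S.equi u y1 hu0 y10
    rw [hu1, hy2] at h2
    rw [h1, h2, smul_smul]
    congr 1
    ring
  have hsub : ω - 1 ≠ 0 := sub_ne_zero.mpr hω1
  -- c = ω² b
  have key : S.B u y2 = ω ^ 2 • S.B u y1 := by
    have h1 : (ω - 1) • (S.B u y2 - ω ^ 2 • S.B u y1) = 0 := by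
      rw [e1, e2] at n2
      have h5 : (ω - 1) • (S.B u y2 - ω ^ 2 • S.B u y1)
          = (S.B u y + ω • S.B u y2 + ω ^ 2 • S.B u y1) - (S.B u y + S.B u y1 + S.B u y2)
            + (-(ω ^ 3) + 1 : ZMod p) • S.B u y1 := by
        module
      have h6 : -(ω ^ 3) + 1 = 0 := by linear_combination -(ω - 1) * hω
      rw [h5, n1, n2, h6, zero_smul]
      simp
    exact sub_eq_zero.mp ((smul_eq_zero.mp h1).resolve_left hsub)
  have hb : S.B u y = ω • S.B u y1 := by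
    rw [key] at n1
    have h5 : S.B u y = (S.B u y + S.B u y1 + ω ^ 2 • S.B u y1) + (-1 - ω ^ 2 : ZMod p) • S.B u y1 := by
      module
    rw [h5, n1, zero_add]
    congr 1
    linear_combination -hω
  have hω3 : ω ^ 2 * ω = 1 := by linear_combination (ω - 1) * hω
  have hb' : S.B u y1 = ω ^ 2 • S.B u y := by
    rw [hb, smul_smul, hω3, one_smul]
  rw [hu1, hy1]
  refine ⟨?_, hb'⟩
  rw [e1, key, hb', smul_smul, smul_smul]
  congr 1
  linear_combination ω ^ 2 * hω3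

/-- **The case `[L : F] = 3`**. -/
theorem three (hω : ω ^ 2 + ω + 1 = 0) (hω1 : ω ≠ 1)
    (hL : ∀ x ∈ L, γ x ∈ L) (h3 : ∀ x, γ (γ (γ x)) = x)
    (hdim : ∀ e : Fin 4 → N, (∀ i, e i ∈ L) → ∃ c : Fin 4 → N, (∃ i, c i ≠ 0) ∧
      (∀ i, c i ∈ L ∧ γ (c i) = c i) ∧ c 0 * e 0 + c 1 * e 1 + c 2 * e 2 + c 3 * e 3 = 0)
    (a b : N) (ha : a ∈ L) (ha0 : a ≠ 0) (hb : b ∈ L) (hb0 : b ≠ 0) :
    S.B a b = 0 := by
  by_cases hfix : γ a = a
  · exact S.fixed a b ha0 hb0 ha hfix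
  have hω0 : ω ≠ 0 := by rintro rfl; norm_num at hω
  have hγa0 : γ a ≠ 0 := by simpa using ha0
  -- `W a` contains `F + F a`
  have lin : ∀ u f g, u ∈ L → u ≠ 0 → f ∈ L → g ∈ L → γ f = f → γ g = g → f + g * u ≠ 0 →
      S.B u (f + g * u) = 0 := by
    intro u f g hu hu0 hf hg hγf hγg hne
    by_cases hg0 : g = 0
    · rw [hg0, zero_mul, add_zero] at hne ⊢
      exact S.fixed_right f u hne hu0 hf hγf
    by_cases hf0 : f = 0
    · rw [hf0, zero_add, S.mul_right u g u hu0 hg0 hu0, S.self u hu0,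
        S.fixed_right g u hg0 hu0 hg hγg, add_zero]
    have h1 := S.st3 f (g * u) _ hf0 (mul_ne_zero hg0 hu0) hne rfl
    rw [S.fixed f _ hf0 (mul_ne_zero hg0 hu0) hf hγf, S.fixed f _ hf0 hne hf hγf,
      S.mul_right _ g u hne hg0 hu0, S.fixed_right g _ hg0 hne hg hγg] at h1
    rw [S.anti u _ hu0 hne]
    simp only [zero_add] at h1
    rw [← h1, neg_zero]
  have lin2 : ∀ f g, f ∈ L → g ∈ L → γ f = f → γ g = g → f + g * γ a ≠ 0 →
      S.B a (f + g * γ a) = 0 := by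
    intro f g hf hg hγf hγg hne
    have h1 := lin (γ a) f g (hL a ha) hγa0 hf hg hγf hγg hne
    have hyL : f + g * γ a ∈ L := add_mem hf (mul_mem hg (hL a ha))
    rw [(S.three_left hω hω1 hL h3 a _ ha ha0 hyL hne).1] at h1
    exact (smul_eq_zero.mp h1).resolve_left (pow_ne_zero _ hω0)
  obtain ⟨c, ⟨i, hi⟩, hc, hsum⟩ := hdim ![b, b * γ a, 1, a] (by
    intro i
    fin_cases i
    · exact hb
    · exact mul_mem hb (hL a ha)
    · exact one_mem L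
    · exact ha)
  simp only [Matrix.cons_val_zero, Matrix.cons_val_one, Matrix.cons_val] at hsum
  have indep : ∀ f g, f ∈ L → g ∈ L → γ f = f → γ g = g → f + g * a = 0 → f = 0 ∧ g = 0 := by
    intro f g hf hg hγf hγg h
    have hg0 : g = 0 := by
      by_contra hg0
      apply hfix
      have h1 : a = -f / g := by
        rw [eq_div_iff hg0]
        linear_combination h
      rw [h1, map_div₀, map_neg, hγf, hγg]
    rw [hg0, zero_mul, add_zero] at h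
    exact ⟨h, hg0⟩
  have hE : b * (c 0 + c 1 * γ a) = -c 2 + (-c 3) * a := by linear_combination hsum
  have hn1 : c 0 + c 1 * γ a ≠ 0 := by
    intro h
    rw [h, mul_zero] at hE
    obtain ⟨h2, h4⟩ := indep (-c 2) (-c 3) (neg_mem (hc 2).1) (neg_mem (hc 3).1)
      (by rw [map_neg, (hc 2).2]) (by rw [map_neg, (hc 3).2]) hE.symm
    have h5 : c 0 + c 1 * a = 0 := by
      have := congrArg γ (congrArg γ h)
      simpa [(hc 0).2, (hc 1).2, h3] using this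
    obtain ⟨h6, h7⟩ := indep _ _ (hc 0).1 (hc 1).1 (hc 0).2 (hc 1).2 h5
    apply hi
    fin_cases i
    · exact h6
    · exact h7
    · simpa using h2
    · simpa using h4
  have hn2 : -c 2 + (-c 3) * a ≠ 0 := by
    rw [← hE]
    exact mul_ne_zero hb0 hn1
  have h1 := lin a (-c 2) (-c 3) ha ha0 (neg_mem (hc 2).1) (neg_mem (hc 3).1)
      (by rw [map_neg, (hc 2).2]) (by rw [map_neg, (hc 3).2]) hn2
  rw [← hE, S.mul_right _ _ _ ha0 hb0 hn1,
    lin2 (c 0) (c 1) (hc 0).1 (hc 1).1 (hc 0).2 (hc 1).2 hn1, add_zero] at h1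
  exact h1

/-- **The case `[L : F] = 2`**. -/
theorem two (hω : ω = -1) (h2 : (2 : ZMod p) ≠ 0)
    (hL : ∀ x ∈ L, γ x ∈ L) (h2γ : ∀ x, γ (γ x) = x)
    (a b : N) (ha : a ∈ L) (ha0 : a ≠ 0) (hb : b ∈ L) (hb0 : b ≠ 0) :
    S.B a b = 0 := by
  have ka0 : γ a ≠ 0 := by simpa using ha0
  have kb0 : γ b ≠ 0 := by simpa using hb0
  subst hω
  have h1 := S.equi a b ha0 hb0
  rw [neg_smul, one_smul] at h1
  have h5 : S.B a b + S.B a (γ b) = 0 := by
    rw [← S.mul_right _ _ _ ha0 hb0 kb0]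
    refine S.fixed_right _ a (mul_ne_zero hb0 kb0) ha0 (mul_mem hb (hL b hb)) ?_
    rw [map_mul, h2γ, mul_comm]
  have h6 : S.B a (γ b) + S.B (γ a) (γ b) = 0 := by
    rw [← S.mul_left _ _ _ ha0 ka0 kb0]
    refine S.fixed _ _ (mul_ne_zero ha0 ka0) kb0 (mul_mem ha (hL a ha)) ?_
    rw [map_mul, h2γ, mul_comm]
  have h7 : (2 : ZMod p) • S.B a b = 0 := by
    rw [two_smul]
    linear_combination (norm := abel) h5 - h6 + h1
  exact (smul_eq_zero.mp h7).resolve_left h2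

end TwSym

end BrR
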