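import Pool.Agent.H48.BR.Kum

set_option autoImplicit false

/-! # Row Inn: inner automorphisms (about 120 lines)

`inn g c (h,k) = g • c (g⁻¹ h g) (g⁻¹ k g)`.
* `inn_coc`: `c ∈ Coc ⊤` ⇒ `inn g c / c ∈ Cob ⊤`, with `b h = c g (g⁻¹ h g) / c h g`. Check: from the cocycle identity at
  `(g, h', k')`, `(h, g, k')`, `(h, k, g)` with `h' = g⁻¹ h g`, `k' = g⁻¹ k g` (`g h' = h g`, `g k' = k g`):
    (1) `g • c h' k' * c g (h' k') = c (g h') k' * c g h'`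
    (2) `h • c g k' * c h (g k') = c (h g) k' * c h g`
    (3) `h • c k g * c h (k g) = c (h k) g * c h k`.
  Divide (1) by (2) and use (3): `g • c h' k' / c h k = b h * h • b k / b (h k)` (note `g (h'k') = (h k) g`, so
  `g⁻¹ (h k) g = h' k'`). `b` is LC1 (`LC2.left/right`, `LC1.conj`, `LC1.comp₂`).
* `inn_cob`: `H` normal, `c = dd b` on `H`: `inn g c = dd b'` on `H` with `b' h = g • b (g⁻¹ h g)`; LC1: `LC1.conj`, `.comp`.
* `inn_mul`: clear.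
* `inn_sy`: `H` normal, fixes `ζ`; `α^p`, `β^p` fixed by `H`, `g • ζ = pw p ζ w`, `p` prime (so `w ≠ 0`): on `H × H`
  `inn g (sy α β) h k = pw p ζ (w⁻¹ * (lg (h • g•α / g•α) * lg (k • g•β / g•β)))`.
  `h • g • α / g • α = g • (h' • α / α) = g • pw p ζ (lg (h'•α/α)) = pw p ζ (w * lg (h' • α/α))`, so
  `lg (h • g•α / g•α) = w * lg (h' • α / α)`; and `g • pw p ζ (x y) = pw p ζ (w x y)`.
* `inn_sy'`: in terms of `sy`: `inn g (sy α β) h k = (sy (g•α) (g•β) h k) ^ (w⁻¹).val`. -/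

namespace BrR

variable {F Ω : Type} [Field F] [Field Ω] [Algebra F Ω]

/-- conjugation by `g` -/
def inn (g : Gal(Ω/F)) (c : Gal(Ω/F) → Gal(Ω/F) → Ωˣ) : Gal(Ω/F) → Gal(Ω/F) → Ωˣ :=
  fun h k => g • c (g⁻¹ * h * g) (g⁻¹ * k * g)

theorem inn_mul (g : Gal(Ω/F)) (c c' : Gal(Ω/F) → Gal(Ω/F) → Ωˣ) :
    inn g (c * c') = inn g c * inn g c' := by
  funext h k
  simp only [inn, Pi.mul_apply, smul_mul']

theorem Inn_alg (A1 A2 A3 A4 A5 A6 A7 A8 A9 A10 : Ωˣ) (h1 : A1 * A2 = A3 * A4)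
    (h2 : A5 * A6 = A3 * A7) (h3 : A8 * A6 = A9 * A10) :
    A1 / A10 = A4 / A7 * (A5 / A8) / (A2 / A9) := by
  have h1' := congrArg Units.val h1
  have h2' := congrArg Units.val h2
  have h3' := congrArg Units.val h3
  push_cast at h1' h2' h3'
  apply Units.ext
  push_cast
  have n1 := A1.ne_zero
  have n2 := A2.ne_zero
  have n3 := A3.ne_zero
  have n4 := A4.ne_zero
  have n5 := A5.ne_zero
  have n6 := A6.ne_zero
  have n7 := A7.ne_zero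
  have n8 := A8.ne_zero
  have n9 := A9.ne_zero
  have n10 := A10.ne_zero
  field_simp
  linear_combination (A7 : Ω) * A8 * h1' - (A4 : Ω) * A8 * h2' + (A4 : Ω) * A5 * h3'

variable [IsGalois F Ω]

theorem inn_coc (g : Gal(Ω/F)) {c : Gal(Ω/F) → Gal(Ω/F) → Ωˣ} (hc : c ∈ Coc ⊤) :
    inn g c / c ∈ Cob ⊤ := by
  refine ⟨fun h => c g (g⁻¹ * h * g) / c h g,
    ((hc.1.right g).conj g g).comp₂ (hc.1.left g) (· / ·), ?_⟩
  intro h _ k _
  have e1 : g * (g⁻¹ * h * g) = h * g := by group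
  have e2 : g * (g⁻¹ * k * g) = k * g := by group
  have e3 : (g⁻¹ * h * g) * (g⁻¹ * k * g) = g⁻¹ * (h * k) * g := by group
  have h1 := hc.2 g trivial (g⁻¹ * h * g) trivial (g⁻¹ * k * g) trivial
  have h2 := hc.2 h trivial g trivial (g⁻¹ * k * g) trivial
  have h3 := hc.2 h trivial k trivial g trivial
  rw [e1, e3] at h1
  rw [e2] at h2
  simp only [Pi.div_apply, inn, dd, smul_div']
  exact Inn_alg _ _ _ _ _ _ _ _ _ _ h1 h2 h3

theorem inn_cob {H : Subgroup Gal(Ω/F)} (hH : H.Normal) (g : Gal(Ω/F))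
    {c : Gal(Ω/F) → Gal(Ω/F) → Ωˣ} (hc : c ∈ Cob H) : inn g c ∈ Cob H := by
  obtain ⟨b, hb, hdb⟩ := hc
  have hb1 : LC1 (fun h => g • b h) := hb.comp (fun x => g • x)
  refine ⟨fun h => g • b (g⁻¹ * h * g), hb1.conj g g, ?_⟩
  intro h hh k hk
  have h1 : g⁻¹ * h * g ∈ H := by
    have := hH.conj_mem h hh g⁻¹
    rwa [inv_inv] at this
  have h2 : g⁻¹ * k * g ∈ H := by
    have := hH.conj_mem k hk g⁻¹
    rwa [inv_inv] at this
  have e1 : g * (g⁻¹ * h * g) = h * g := by group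
  have e3 : (g⁻¹ * h * g) * (g⁻¹ * k * g) = g⁻¹ * (h * k) * g := by group
  rw [inn, hdb _ h1 _ h2]
  simp only [dd, smul_div', smul_mul', smul_smul, e1, e3]

theorem Inn_lg {p : ℕ} [NeZero p] {ζ : Ωˣ} (hζ : IsPrimitiveRoot ζ p)
    {H : Subgroup Gal(Ω/F)} (hH : H.Normal) {α : Ωˣ}
    (hα : ∀ h ∈ H, h • (α ^ p) = α ^ p) (g : Gal(Ω/F))
    {w : ZMod p} (hw : g • ζ = pw p ζ w) {h : Gal(Ω/F)} (hh : h ∈ H) :
    lg p ζ (h • g • α / g • α) = w * lg p ζ ((g⁻¹ * h * g) • α / α) := by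
  have h1 : g⁻¹ * h * g ∈ H := by
    have := hH.conj_mem h hh g⁻¹
    rwa [inv_inv] at this
  have h2 : ((g⁻¹ * h * g) • α / α) ^ p = 1 := by
    rw [div_pow, ← smul_pow', hα _ h1, div_self']
  have h3 := pw_lg hζ h2
  have h4 : h • g • α / g • α = g • ((g⁻¹ * h * g) • α / α) := by
    rw [smul_div', smul_smul, smul_smul]
    congr 2
    group
  have h5 : h • g • α / g • α = pw p ζ (w * lg p ζ ((g⁻¹ * h * g) • α / α)) := by
    rw [h4, pw_mul hζ.pow_eq_one, ← hw, ← smul_pow']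
    conv_lhs => rw [← h3]
    rfl
  rw [h5]
  exact lg_pw hζ _

theorem inn_sy' {p : ℕ} (hp : p.Prime) {ζ : Ωˣ} (hζ : IsPrimitiveRoot ζ p)
    {H : Subgroup Gal(Ω/F)} (hH : H.Normal) (hζH : ∀ h ∈ H, h • ζ = ζ) {α β : Ωˣ}
    (hα : ∀ h ∈ H, h • (α ^ p) = α ^ p) (hβ : ∀ h ∈ H, h • (β ^ p) = β ^ p) (g : Gal(Ω/F))
    {w : (ZMod p)ˣ} (hw : g • ζ = pw p ζ (w : ZMod p)) {h k : Gal(Ω/F)} (hh : h ∈ H) (hk : k ∈ H) :
    inn g (sy p ζ α β) h k = (sy p ζ (g • α) (g • β) h k) ^ ((w⁻¹ : (ZMod p)ˣ) : ZMod p).val := by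
  have : NeZero p := ⟨hp.ne_zero⟩
  rw [inn, sy, sy, ← pw_mul hζ.pow_eq_one, Inn_lg hζ hH hα g hw hh, Inn_lg hζ hH hβ g hw hk,
    smul_pw, hw]
  have h1 : pw p (pw p ζ (w : ZMod p)) (lg p ζ ((g⁻¹ * h * g) • α / α) *
      lg p ζ ((g⁻¹ * k * g) • β / β)) = pw p ζ ((w : ZMod p) *
      (lg p ζ ((g⁻¹ * h * g) • α / α) * lg p ζ ((g⁻¹ * k * g) • β / β))) := by
    rw [pw_mul hζ.pow_eq_one (w : ZMod p)]
    rfl
  rw [h1]
  congr 1
  have h2 : (w : ZMod p) * ((w⁻¹ : (ZMod p)ˣ) : ZMod p) = 1 := by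
    rw [← Units.val_mul, mul_inv_cancel, Units.val_one]
  linear_combination (-(w : ZMod p) * lg p ζ ((g⁻¹ * h * g) • α / α) *
    lg p ζ ((g⁻¹ * k * g) • β / β)) * h2

end BrR
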