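import Pool.Agent.H48.BR.Sha

set_option autoImplicit false

/-! # Row Tra: twisted transfer of crossed homomorphisms (about 130 lines)

`trf κ x g = ∑ t : G ⧸ P, κ (g • t).out * x (uu g t)` for a `κ`-crossed homomorphism `x` on `P`.

* `trf_cr`: `uu (g h) t = uu g (h•t) * uu h t` (`uu_mul`), both factors in `P` (`uu_mem`), so
  `x (uu (g h) t) = x (uu g (h•t)) + κ (uu g (h•t)) * x (uu h t)`, and `κ (g•h•t).out * κ (uu g (h•t))
  = κ ((g•h•t).out * uu g (h•t)) = κ (g * (h•t).out) = κ g * κ (h•t).out` (`out_mul_uu`). Sum over `t`;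
  `∑ t, κ (g•h•t).out * x (uu g (h•t)) = trf κ x g` by reindexing `t ↦ h • t`.
* `trf_lc`: `U` ON for `κ` and `x` (the value at `g*u`), intersected with an ON subgroup of `P`: for `u ∈ U`
  `u • t = t` for all `t`, `(g u) • t = g • t`, `uu (g u) t = uu g t * (t.out⁻¹ u t.out)`.
* `trf_res`: `κ = 1`, `x = χ` on `P`, `χ` additive on `G`: `χ (uu g t) = χ g + χ t.out - χ (g•t).out`, sum:
  the last two sums cancel by reindexing; the result is `card (G ⧸ P) * χ g`.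
* `trf_normal`: `P` normal, `h ∈ P`: `h • t = t` so `uu h t = t.out⁻¹ * h * t.out`.
* `trf_map`: `φ : ZMod N →+* ZMod N'` commutes with the finite sum; `uu g t ∈ P`. -/

namespace BrR

variable {F Ω : Type} [Field F] [Field Ω] [Algebra F Ω]

/-- twisted transfer -/
noncomputable def trf {P : Subgroup Gal(Ω/F)} [Fintype (Gal(Ω/F) ⧸ P)] {N : ℕ}
    (κ x : Gal(Ω/F) → ZMod N) : Gal(Ω/F) → ZMod N :=
  fun g => ∑ t : Gal(Ω/F) ⧸ P, κ (g • t).out * x (uu g t)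

theorem trf_cr {P : Subgroup Gal(Ω/F)} [Fintype (Gal(Ω/F) ⧸ P)] {N : ℕ}
    (κ x : Gal(Ω/F) → ZMod N) (hκ : ∀ g h, κ (g * h) = κ g * κ h) (hx : Cr κ P x) :
    Cr κ ⊤ (trf (P := P) κ x) := by
  intro g _ h _
  have h1 : trf (P := P) κ x g =
      ∑ t : Gal(Ω/F) ⧸ P, κ (g • (h • t)).out * x (uu g (h • t)) :=
    (Equiv.sum_comp (MulAction.toPerm h : Equiv.Perm (Gal(Ω/F) ⧸ P))
      (fun t => κ (g • t).out * x (uu g t))).symm
  rw [h1]
  simp only [trf]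
  rw [Finset.mul_sum, ← Finset.sum_add_distrib]
  refine Finset.sum_congr rfl fun t _ => ?_
  rw [mul_smul, uu_mul, hx _ (uu_mem _ _) _ (uu_mem _ _)]
  have h2 : κ (g • (h • t)).out * κ (uu g (h • t)) = κ g * κ (h • t).out := by
    rw [← hκ, out_mul_uu, hκ]
  rw [mul_add, ← mul_assoc, h2, mul_assoc]

theorem trf_lc [IsGalois F Ω] {P : Subgroup Gal(Ω/F)} [Fintype (Gal(Ω/F) ⧸ P)]
    (hP : IsOpen (P : Set Gal(Ω/F))) {N : ℕ}
    (κ x : Gal(Ω/F) → ZMod N) (hκ : LC1 κ) (hx : LC1 x) : LC1 (trf (P := P) κ x) := by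
  obtain ⟨U, hU, h1⟩ := hx
  obtain ⟨W, hW, h2⟩ := (smo_quot hP).fix_finite Set.univ Set.finite_univ
  refine ⟨U ⊓ W, hU.inf hW, fun g u hu => ?_⟩
  simp only [trf]
  refine Finset.sum_congr rfl fun t _ => ?_
  have h3 : (g * u) • t = g • t := by rw [mul_smul, h2 u hu.2 t trivial]
  have h4 : uu (g * u) t = uu g t * (t.out⁻¹ * u * t.out) := by
    simp only [uu]
    rw [h3]
    group
  have h5 : t.out⁻¹ * u * t.out ∈ U := by
    have := hU.1.conj_mem u hu.1 t.out⁻¹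
    simpa using this
  rw [h3, h4, h1 _ _ h5]

theorem trf_res {P : Subgroup Gal(Ω/F)} [Fintype (Gal(Ω/F) ⧸ P)] {N : ℕ}
    (κ x χ : Gal(Ω/F) → ZMod N) (hκ : ∀ g, κ g = 1) (hχ : Hm ⊤ χ) (hx : ∀ g ∈ P, x g = χ g)
    (g : Gal(Ω/F)) : trf (P := P) κ x g = (Fintype.card (Gal(Ω/F) ⧸ P) : ZMod N) * χ g := by
  simp only [trf]
  have h1 : ∀ t : Gal(Ω/F) ⧸ P, κ (g • t).out * x (uu g t) =
      χ g + χ t.out - χ (g • t).out := by
    intro t
    have h2 := hχ (g • t).out trivial (uu g t) trivial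
    rw [out_mul_uu, hχ g trivial t.out trivial] at h2
    rw [hκ, one_mul, hx _ (uu_mem _ _), h2]
    ring
  rw [Finset.sum_congr rfl fun t _ => h1 t, Finset.sum_sub_distrib, Finset.sum_add_distrib]
  have h3 : ∑ t : Gal(Ω/F) ⧸ P, χ (g • t).out = ∑ t : Gal(Ω/F) ⧸ P, χ t.out :=
    Equiv.sum_comp (MulAction.toPerm g : Equiv.Perm (Gal(Ω/F) ⧸ P)) (fun t => χ t.out)
  rw [h3]
  simp

theorem trf_normal {P : Subgroup Gal(Ω/F)} [Fintype (Gal(Ω/F) ⧸ P)] (hP : P.Normal) {N : ℕ}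
    (κ x : Gal(Ω/F) → ZMod N) (h : Gal(Ω/F)) (hh : h ∈ P) :
    trf (P := P) κ x h = ∑ t : Gal(Ω/F) ⧸ P, κ t.out * x (t.out⁻¹ * h * t.out) := by
  simp only [trf]
  refine Finset.sum_congr rfl fun t _ => ?_
  have h1 : h • t = t := by
    have e : ((t.out : Gal(Ω/F)) : Gal(Ω/F) ⧸ P) = t := QuotientGroup.out_eq' t
    have h2 : h • ((t.out : Gal(Ω/F)) : Gal(Ω/F) ⧸ P) = ((h * t.out : Gal(Ω/F)) : Gal(Ω/F) ⧸ P) :=
      rfl
    conv_lhs => rw [← e, h2]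
    conv_rhs => rw [← e]
    rw [QuotientGroup.eq]
    have := hP.conj_mem _ (P.inv_mem hh) t.out⁻¹
    simpa [mul_assoc] using this
  rw [uu, h1]

theorem trf_map {P : Subgroup Gal(Ω/F)} [Fintype (Gal(Ω/F) ⧸ P)] {N N' : ℕ}
    (φ : ZMod N →+* ZMod N') (κ x : Gal(Ω/F) → ZMod N) (κ' x' : Gal(Ω/F) → ZMod N')
    (hκ : ∀ g, κ' g = φ (κ g)) (hx : ∀ g ∈ P, x' g = φ (x g)) (g : Gal(Ω/F)) :
    trf (P := P) κ' x' g = φ (trf (P := P) κ x g) := by
  simp only [trf]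
  rw [map_sum]
  refine Finset.sum_congr rfl fun t _ => ?_
  rw [map_mul, hκ, hx _ (uu_mem _ _)]

end BrR
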