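import Pool.Agent.H48.BR.Vn
import Pool.Agent.H48.BR.Tra
import Pool.Agent.H48.BR.Inn
import Pool.Agent.H48.BR.Core3

set_option autoImplicit false

/-! # Row Bn: the twisted trace of symbols on the fixed field of `H` and its properties (about 220 lines)

`H` open normal, fixes `ζ`; `w : G →* (ZMod p)ˣ` with `g • ζ = pw p ζ (w g)`; `N = Ω^H`.
`BB a b = ∑ t : G ⧸ H, (w t.out)⁻¹ • SF (t.out • a) (t.out • b)`.
For `a ∈ N` also `g • a ∈ N` (`H` normal).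

* `BB_mul_left/right`, `BB_steinberg`: termwise from `SF_*` (`g • a ≠ 0`, `g • (a a') = ..`).
* `BB_equi`: `BB (g•a) (g•b) = w g • BB a b`: `t.out • g • a = (t.out * g) • a` and `t.out * g = (t').out * h`, `h ∈ H`, where
  `t' = mk (t.out * g)`; `t ↦ mk (t.out * g)` is a bijection of `G ⧸ H` (inverse with `g⁻¹`; `H` normal);
  `(t.out * g) • a = t'.out • a`; `w t'.out = w t.out * w g` (`w` is trivial on `H`: `h • ζ = ζ = pw p ζ 1`, injectivity).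
  So `(w t.out)⁻¹ = w g * (w t'.out)⁻¹`.
* `BB_fixed`: hypothesis (A): `cp p ζ φ χ ∈ Cob ⊤` for all `φ` with `φ^p` fixed by `G` and all locally constant additive `χ`.
  `f ∈ Ω` fixed by `G`, `b ∈ N`, both `≠ 0`: `BB f b = 0`. PROOF. `φ^p = f`, `β^p = b`. For each `t` let `e_t k = lg (k • t.out • β / t.out • β)`,
  `k ∈ H`. `SF (t.out • f) (t.out • b) = SF f (t.out • b) = vc (sy φ (t.out • β))` (`SF_eq`), so `BB f b` is the class of the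
  function `c (h,k) = pw p ζ (lg (h•φ/φ) * ∑ t, (w t.out)⁻¹ * e_t k)` (`vc_smul`, `vc_sum`; or show: the product
  `∏ t, (sy φ (t.out•β))^((w t.out)⁻¹).val` has this value on `H×H`). And `e_t k = w t.out * e (t.out⁻¹ k t.out)`, `e k = lg (k•β/β)`
  (as in `inn_sy'`). So the exponent is `lg(h•φ/φ) * χ k` with `χ = trf (P := H) 1 e`
  (`trf_normal` with `κ = 1`), `χ` is additive on `G` and LC (`trf_cr`, `trf_lc`, `Cr 1 H e` from `kummer_conv` with `ε = 1`).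
  So `c = cp p ζ φ χ` on `H × H`, in `Cob ⊤ ≤ Cob H`. -/

namespace BrR

variable {F Ω : Type} [Field F] [Field Ω] [Algebra F Ω]

/-- twisted trace of symbols -/
noncomputable def BB (p : ℕ) (ζ : Ωˣ) (H : Subgroup Gal(Ω/F)) [Fintype (Gal(Ω/F) ⧸ H)]
    (w : Gal(Ω/F) →* (ZMod p)ˣ) (a b : Ω) : VV p H :=
  ∑ t : Gal(Ω/F) ⧸ H, (((w t.out)⁻¹ : (ZMod p)ˣ) : ZMod p) • SF p ζ H (t.out • a) (t.out • b)

/-- hypothesis (A): all cyclic algebras of degree `p` over `F` are split -/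
def HypA (F : Type) {Ω : Type} [Field F] [Field Ω] [Algebra F Ω] (p : ℕ) (ζ : Ωˣ) : Prop :=
  ∀ φ : Ωˣ, (∀ g : Gal(Ω/F), g • (φ ^ p) = φ ^ p) → ∀ χ : Gal(Ω/F) → ZMod p, LC1 χ → Hm ⊤ χ →
    cp p ζ φ χ ∈ Cob (⊤ : Subgroup Gal(Ω/F))

theorem Bn_fix {H : Subgroup Gal(Ω/F)} (hH : H.Normal) {a : Ω} (ha : ∀ h ∈ H, h • a = a)
    (g : Gal(Ω/F)) : ∀ h ∈ H, h • g • a = g • a := by
  intro h hh
  have h1 : g⁻¹ * h * g ∈ H := by
    have := hH.conj_mem h hh g⁻¹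
    rwa [inv_inv] at this
  have h2 : h • g • a = g • ((g⁻¹ * h * g) • a) := by
    rw [← mul_smul, ← mul_smul]
    congr 1
    group
  rw [h2, ha _ h1]

theorem Bn_ne {a : Ω} (ha : a ≠ 0) (g : Gal(Ω/F)) : g • a ≠ 0 := by
  rw [AlgEquiv.smul_def]
  exact (map_ne_zero g).2 ha

theorem Bn_coe_smul (g : Gal(Ω/F)) (u : Ωˣ) : ((g • u : Ωˣ) : Ω) = g • (u : Ω) := rfl

theorem Bn_fix_pow {H : Subgroup Gal(Ω/F)} {p : ℕ} {a : Ω} {α : Ωˣ} (hα : (α : Ω) ^ p = a)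
    (ha : ∀ h ∈ H, h • a = a) : ∀ h ∈ H, h • (α ^ p) = α ^ p := by
  intro h hh
  apply Units.ext
  rw [Bn_coe_smul, Units.val_pow_eq_pow_val, hα]
  exact ha h hh

theorem Bn_smul_pow {p : ℕ} {a : Ω} {α : Ωˣ} (hα : (α : Ω) ^ p = a) (g : Gal(Ω/F)) :
    ((g • α : Ωˣ) : Ω) ^ p = g • a := by
  rw [Bn_coe_smul, ← smul_pow', hα]

theorem Bn_pw_one {p : ℕ} [NeZero p] {ζ : Ωˣ} (hζ : ζ ^ p = 1) : pw p ζ (1 : ZMod p) = ζ := by
  have h := pw_natCast (N := p) hζ 1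
  rw [Nat.cast_one, pow_one] at h
  exact h

theorem Bn_pw_sum {p : ℕ} [NeZero p] {ζ : Ωˣ} (hζ : ζ ^ p = 1) {ι : Type} (s : Finset ι)
    (x : ι → ZMod p) : pw p ζ (∑ i ∈ s, x i) = ∏ i ∈ s, pw p ζ (x i) := by
  classical
  induction s using Finset.induction_on with
  | empty => simp [pw_zero]
  | insert i s hi ih => rw [Finset.sum_insert hi, Finset.prod_insert hi, pw_add hζ, ih]

/-- right translation on the quotient by a normal subgroup -/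
noncomputable def Bn_equiv {H : Subgroup Gal(Ω/F)} (hH : H.Normal) (g : Gal(Ω/F)) :
    (Gal(Ω/F) ⧸ H) ≃ (Gal(Ω/F) ⧸ H) where
  toFun t := QuotientGroup.mk (t.out * g)
  invFun t := QuotientGroup.mk (t.out * g⁻¹)
  left_inv t := by
    obtain ⟨h, hh⟩ := QuotientGroup.mk_out_eq_mul H (t.out * g)
    have h2 : g * (h : Gal(Ω/F)) * g⁻¹ ∈ H := hH.conj_mem _ h.2 g
    beta_reduce
    rw [hh]
    conv_rhs => rw [← QuotientGroup.out_eq' t]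
    rw [QuotientGroup.eq]
    have h3 : (t.out * g * (h : Gal(Ω/F)) * g⁻¹)⁻¹ * t.out = (g * (h : Gal(Ω/F)) * g⁻¹)⁻¹ := by
      group
    rw [h3]
    exact inv_mem h2
  right_inv t := by
    obtain ⟨h, hh⟩ := QuotientGroup.mk_out_eq_mul H (t.out * g⁻¹)
    have h2 : g⁻¹ * (h : Gal(Ω/F)) * g⁻¹⁻¹ ∈ H := hH.conj_mem _ h.2 g⁻¹
    rw [inv_inv] at h2
    beta_reduce
    rw [hh]
    conv_rhs => rw [← QuotientGroup.out_eq' t]
    rw [QuotientGroup.eq]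
    have h3 : (t.out * g⁻¹ * (h : Gal(Ω/F)) * g)⁻¹ * t.out = (g⁻¹ * (h : Gal(Ω/F)) * g)⁻¹ := by
      group
    rw [h3]
    exact inv_mem h2

theorem Bn_equiv_out {H : Subgroup Gal(Ω/F)} (hH : H.Normal) (g : Gal(Ω/F))
    (t : Gal(Ω/F) ⧸ H) : ∃ h ∈ H, (Bn_equiv hH g t).out = t.out * g * h := by
  obtain ⟨h, hh⟩ := QuotientGroup.mk_out_eq_mul H (t.out * g)
  exact ⟨h, h.2, hh⟩

section

variable [IsGalois F Ω] [IsSepClosed Ω] {p : ℕ} [Fact p.Prime] (hpΩ : (p : Ω) ≠ 0) {ζ : Ωˣ}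
  (hζ : IsPrimitiveRoot ζ p) {H : Subgroup Gal(Ω/F)} (hH : H.Normal)
  (hζH : ∀ h ∈ H, h • ζ = ζ) [Fintype (Gal(Ω/F) ⧸ H)] (w : Gal(Ω/F) →* (ZMod p)ˣ)
  (hw : ∀ g : Gal(Ω/F), g • ζ = pw p ζ (w g : ZMod p))

include hpΩ hζ hH hζH in
theorem BB_mul_left {a a' b : Ω} (ha0 : a ≠ 0) (ha0' : a' ≠ 0) (hb0 : b ≠ 0)
    (ha : ∀ h ∈ H, h • a = a) (ha' : ∀ h ∈ H, h • a' = a') (hb : ∀ h ∈ H, h • b = b) :
    BB p ζ H w (a * a') b = BB p ζ H w a b + BB p ζ H w a' b := by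
  unfold BB
  rw [← Finset.sum_add_distrib]
  refine Finset.sum_congr rfl fun t _ => ?_
  rw [← smul_add, smul_mul', SF_mul_left hpΩ hζ hζH (Bn_ne ha0 _) (Bn_ne ha0' _) (Bn_ne hb0 _)
    (Bn_fix hH ha _) (Bn_fix hH ha' _) (Bn_fix hH hb _)]

include hpΩ hζ hH hζH in
theorem BB_mul_right {a b b' : Ω} (ha0 : a ≠ 0) (hb0 : b ≠ 0) (hb0' : b' ≠ 0)
    (ha : ∀ h ∈ H, h • a = a) (hb : ∀ h ∈ H, h • b = b) (hb' : ∀ h ∈ H, h • b' = b') :
    BB p ζ H w a (b * b') = BB p ζ H w a b + BB p ζ H w a b' := by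
  unfold BB
  rw [← Finset.sum_add_distrib]
  refine Finset.sum_congr rfl fun t _ => ?_
  rw [← smul_add, smul_mul', SF_mul_right hpΩ hζ hζH (Bn_ne ha0 _) (Bn_ne hb0 _) (Bn_ne hb0' _)
    (Bn_fix hH ha _) (Bn_fix hH hb _) (Bn_fix hH hb' _)]

include hpΩ hζ hH hζH in
theorem BB_steinberg {a b : Ω} (ha0 : a ≠ 0) (hb0 : b ≠ 0)
    (ha : ∀ h ∈ H, h • a = a) (hb : ∀ h ∈ H, h • b = b) (hab : a + b = 1) :
    BB p ζ H w a b = 0 := by
  unfold BB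
  refine Finset.sum_eq_zero fun t _ => ?_
  have h1 : t.out • a + t.out • b = 1 := by
    rw [← smul_add, hab, smul_one]
  rw [SF_steinberg hpΩ hζ hζH (Bn_ne ha0 _) (Bn_ne hb0 _) (Bn_fix hH ha _) (Bn_fix hH hb _) h1,
    smul_zero]

omit [IsGalois F Ω] [IsSepClosed Ω] [Fintype (Gal(Ω/F) ⧸ H)] in
include hζ hζH hw in
theorem Bn_w_one {h : Gal(Ω/F)} (hh : h ∈ H) : w h = 1 := by
  have h1 : pw p ζ (w h : ZMod p) = pw p ζ 1 := by
    rw [Bn_pw_one hζ.pow_eq_one, ← hw, hζH h hh]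
  exact Units.ext (pw_injective hζ h1)

include hζ hH hζH hw in
theorem BB_equi {a b : Ω} (ha : ∀ h ∈ H, h • a = a) (hb : ∀ h ∈ H, h • b = b) (g : Gal(Ω/F)) :
    BB p ζ H w (g • a) (g • b) = (w g : ZMod p) • BB p ζ H w a b := by
  have key : ∀ t : Gal(Ω/F) ⧸ H,
      (((w t.out)⁻¹ : (ZMod p)ˣ) : ZMod p) • SF p ζ H (t.out • g • a) (t.out • g • b) =
      (w g : ZMod p) • ((((w (Bn_equiv hH g t).out)⁻¹ : (ZMod p)ˣ) : ZMod p) •
        SF p ζ H ((Bn_equiv hH g t).out • a) ((Bn_equiv hH g t).out • b)) := by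
    intro t
    obtain ⟨h, hh, ht⟩ := Bn_equiv_out hH g t
    have h1 : (Bn_equiv hH g t).out • a = t.out • g • a := by
      rw [ht, mul_smul, mul_smul, ha h hh]
    have h2 : (Bn_equiv hH g t).out • b = t.out • g • b := by
      rw [ht, mul_smul, mul_smul, hb h hh]
    have h3 : w (Bn_equiv hH g t).out = w t.out * w g := by
      rw [ht, map_mul, map_mul, Bn_w_one hζ hζH w hw hh, mul_one]
    have h4 : (w t.out)⁻¹ = w g * (w (Bn_equiv hH g t).out)⁻¹ := by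
      rw [h3]
      group
    rw [h1, h2, smul_smul (w g : ZMod p), ← Units.val_mul, ← h4]
  unfold BB
  rw [Finset.smul_sum, Finset.sum_congr rfl fun t _ => key t]
  exact Equiv.sum_comp (Bn_equiv hH g) (fun t : Gal(Ω/F) ⧸ H => (w g : ZMod p) •
    ((((w t.out)⁻¹ : (ZMod p)ˣ) : ZMod p) • SF p ζ H (t.out • a) (t.out • b)))

omit [IsGalois F Ω] [IsSepClosed Ω] [Fintype (Gal(Ω/F) ⧸ H)] in
include hζ hH hw in
theorem Bn_lg {β : Ωˣ} (hβ : ∀ h ∈ H, h • (β ^ p) = β ^ p) (g : Gal(Ω/F)) {k : Gal(Ω/F)}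
    (hk : k ∈ H) : lg p ζ (k • g • β / g • β) * (((w g)⁻¹ : (ZMod p)ˣ) : ZMod p) =
      lg p ζ ((g⁻¹ * k * g) • β / β) := by
  have h1 : g⁻¹ * k * g ∈ H := by
    have := hH.conj_mem k hk g⁻¹
    rwa [inv_inv] at this
  have h2 : ((g⁻¹ * k * g) • β / β) ^ p = 1 := by
    rw [div_pow, ← smul_pow', hβ _ h1, div_self']
  have h3 : k • g • β / g • β = g • ((g⁻¹ * k * g) • β / β) := by
    rw [smul_div', ← mul_smul, ← mul_smul]
    congr 2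
    group
  have h4 : g • ((g⁻¹ * k * g) • β / β) =
      pw p ζ ((w g : ZMod p) * lg p ζ ((g⁻¹ * k * g) • β / β)) := by
    conv_lhs => rw [← pw_lg hζ h2]
    rw [smul_pw, hw, pw_mul hζ.pow_eq_one]
    rfl
  rw [h3, h4, lg_pw hζ, mul_comm, ← mul_assoc, ← Units.val_mul, inv_mul_cancel, Units.val_one,
    one_mul]

include hpΩ hζ hH hζH hw in
theorem BB_fixed (hHo : IsOpen (H : Set Gal(Ω/F))) (hA : HypA F p ζ) {f b : Ω} (hf0 : f ≠ 0)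
    (hb0 : b ≠ 0) (hf : ∀ g : Gal(Ω/F), g • f = f) (hb : ∀ h ∈ H, h • b = b) :
    BB p ζ H w f b = 0 := by
  obtain ⟨φ, hφ⟩ : ∃ φ : Ωˣ, (φ : Ω) ^ p = f := ⟨rt' p f, rt'_spec hpΩ hf0⟩
  obtain ⟨β, hβ⟩ : ∃ β : Ωˣ, (β : Ω) ^ p = b := ⟨rt' p b, rt'_spec hpΩ hb0⟩
  have hφG : ∀ g : Gal(Ω/F), g • (φ ^ p) = φ ^ p := fun g =>
    Bn_fix_pow (H := ⊤) hφ (fun g _ => hf g) g (Subgroup.mem_top g)
  have hβH : ∀ h ∈ H, h • (β ^ p) = β ^ p := Bn_fix_pow hβ hb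
  have hε : ∀ g ∈ H, g • ζ = pw p ζ (1 : ZMod p) := fun g hg => by
    rw [Bn_pw_one hζ.pow_eq_one, hζH g hg]
  obtain ⟨k1, k2, k3⟩ := kummer_conv (H := H) hζ (fun _ => (1 : ZMod p)) hε β hβH
  set e : Gal(Ω/F) → ZMod p := fun g => lg p ζ (g • β / β) with he
  set χ : Gal(Ω/F) → ZMod p := trf (P := H) (fun _ => (1 : ZMod p)) e with hχ
  have hχlc : LC1 χ := trf_lc hHo _ _ (LC1.const 1) k1
  have hχcr := trf_cr (P := H) (fun _ => (1 : ZMod p)) e (fun _ _ => (one_mul _).symm) k3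
  have hχhm : Hm ⊤ χ := by
    intro g hg h hh
    have := hχcr g hg h hh
    rwa [one_mul] at this
  have hcob : cp p ζ φ χ ∈ Cob H := Cob_anti le_top (hA φ hφG χ hχlc hχhm)
  -- the terms
  have hmem : ∀ t : Gal(Ω/F) ⧸ H, sy p ζ φ (t.out • β) ∈ Vg p H := fun t =>
    sy_mem_Vg hζ hζH (fun h _ => hφG h)
      (Bn_fix_pow (Bn_smul_pow hβ t.out) (Bn_fix hH hb t.out))
  have hterm : ∀ t : Gal(Ω/F) ⧸ H,
      (((w t.out)⁻¹ : (ZMod p)ˣ) : ZMod p) • SF p ζ H (t.out • f) (t.out • b) =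
      vc ((sy p ζ φ (t.out • β)) ^ (((w t.out)⁻¹ : (ZMod p)ˣ) : ZMod p).val)
        (pow_mem (hmem t) _) := by
    intro t
    rw [← vc_smul, hf, SF_eq hpΩ hζ hζH hφ (Bn_smul_pow hβ t.out) (fun h _ => hf h)
      (Bn_fix hH hb t.out) (hmem t)]
  unfold BB
  rw [Finset.sum_congr rfl fun t _ => hterm t, ← vc_sum, vc_eq_zero]
  have hval : ∀ h ∈ H, ∀ k ∈ H, (∏ t : Gal(Ω/F) ⧸ H,
      (sy p ζ φ (t.out • β)) ^ (((w t.out)⁻¹ : (ZMod p)ˣ) : ZMod p).val) h k =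
      cp p ζ φ χ h k := by
    intro h hh k hk
    rw [Finset.prod_apply, Finset.prod_apply]
    have h1 : χ k = ∑ t : Gal(Ω/F) ⧸ H, e (t.out⁻¹ * k * t.out) := by
      rw [hχ, trf_normal hH _ _ k hk]
      exact Finset.sum_congr rfl fun t _ => one_mul _
    show _ = pw p ζ (lg p ζ (h • φ / φ) * χ k)
    rw [h1, Finset.mul_sum, Bn_pw_sum hζ.pow_eq_one]
    refine Finset.prod_congr rfl fun t _ => ?_
    show (pw p ζ (lg p ζ (h • φ / φ) * lg p ζ (k • t.out • β / t.out • β))) ^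
      (((w t.out)⁻¹ : (ZMod p)ˣ) : ZMod p).val = _
    rw [← pw_mul hζ.pow_eq_one, mul_assoc, Bn_lg hζ hH w hw hβH t.out hk]
  have hdiv := div_mem_Cob_of_eq hval
  have := mul_mem hdiv hcob
  rwa [div_mul_cancel] at this

end

end BrR
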