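import Pool.Agent.H48.BR.Rep

set_option autoImplicit false

/-! # Row Sko: Skolem-Noether for spanning representations (about 130 lines)

* `rho_basis`: if `ρ : B →ₐ[F] M_ι(Ω)` spans and `dim_F B ≤ |ι|²` then for a basis `b` of `B` over `F` the family `ρ (b i)` is a basis of
  `M_ι(Ω)` over `Ω` (spanning family of at most `dim` elements: `basisOfTopLeSpanOfCardEqFinrank`, the image of `ρ` is in the span of the
  `ρ (b i)` since `F`-linear combinations are `Ω`-linear combinations; `finrank_matrix`), `ρ` is injective and `dim_F B = |ι|²`.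
* `skolem`: `ρ, ρ'` two such maps of the same `B`: there is `P ∈ GL_ι(Ω)` with `P * ρ' b = ρ b * P`.
  PROOF. `Φ : M_ι(Ω) → M_ι(Ω)` the `Ω`-linear bijection with `Φ (ρ' (b i)) = ρ (b i)`; so `Φ (ρ' x) = ρ x` for all `x : B` (`F`-linearity in the basis).
  `Φ` is multiplicative: both sides of `Φ (X Y) = Φ X * Φ Y` are `Ω`-bilinear and agree on the basis `ρ' (b i)`; `Φ 1 = Φ (ρ' 1) = 1`. So `Φ` is an
  `Ω`-algebra automorphism, hence inner: transport to `Module.End Ω (ι → Ω)` by `Matrix.toLinAlgEquiv'` and use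
  `AlgEquiv.eq_linearEquivConjAlgEquiv`. So `Φ X = P X P⁻¹`, `ρ b = P * ρ' b * P⁻¹`.
* `scalar_of_comm`: `M` commutes with all `ρ b` ⇒ `M` commutes with all of `M_ι(Ω)` (span) ⇒ `M = a • 1`
  (`Matrix.mem_range_scalar_iff_commute_single` or center of the matrix ring). -/

namespace BrR

variable {F Ω : Type} [Field F] [Field Ω] [Algebra F Ω]

theorem Sko_span {B : Type} [Ring B] [Algebra F B] {ι : Type} [Fintype ι] [DecidableEq ι]
    (ρ : B →ₐ[F] Matrix ι ι Ω) (hspan : Submodule.span Ω (Set.range ρ) = ⊤)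
    {κ : Type} [Fintype κ] (b : Module.Basis κ F B) :
    Submodule.span Ω (Set.range (fun i => ρ (b i))) = ⊤ := by
  rw [eq_top_iff, ← hspan, Submodule.span_le]
  rintro _ ⟨x, rfl⟩
  rw [← b.sum_repr x, map_sum]
  refine sum_mem fun i _ => ?_
  rw [map_smul, ← algebraMap_smul Ω (b.repr x i) (ρ (b i))]
  exact Submodule.smul_mem _ _ (Submodule.subset_span ⟨i, rfl⟩)

theorem Sko_card {B : Type} [Ring B] [Algebra F B] {ι : Type} [Fintype ι] [DecidableEq ι]
    (ρ : B →ₐ[F] Matrix ι ι Ω) (hspan : Submodule.span Ω (Set.range ρ) = ⊤)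
    (hdim : Module.finrank F B ≤ Fintype.card ι ^ 2) {κ : Type} [Fintype κ]
    (b : Module.Basis κ F B) :
    Fintype.card κ = Fintype.card ι ^ 2 := by
  have h1 : Module.finrank F B = Fintype.card κ := Module.finrank_eq_card_basis b
  refine le_antisymm (h1 ▸ hdim) ?_
  have h2 := finrank_range_le_card (R := Ω) (fun i => ρ (b i))
  rw [Set.finrank, Sko_span ρ hspan b, finrank_top, Module.finrank_matrix,
    Module.finrank_self, mul_one] at h2
  rw [pow_two]
  exact h2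

theorem rho_basis {B : Type} [Ring B] [Algebra F B] {ι : Type} [Fintype ι] [DecidableEq ι]
    (ρ : B →ₐ[F] Matrix ι ι Ω) (hspan : Submodule.span Ω (Set.range ρ) = ⊤) (hfin : Module.Finite F B)
    (hdim : Module.finrank F B ≤ Fintype.card ι ^ 2) {κ : Type} [Fintype κ] (b : Module.Basis κ F B) :
    LinearIndependent Ω (fun i => ρ (b i)) ∧
      Submodule.span Ω (Set.range (fun i => ρ (b i))) = ⊤ := by
  refine ⟨?_, Sko_span ρ hspan b⟩
  refine linearIndependent_of_top_le_span_of_card_eq_finrank (Sko_span ρ hspan b).ge ?_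
  rw [Sko_card ρ hspan hdim b, Module.finrank_matrix, Module.finrank_self, mul_one, pow_two]

theorem rho_inj {B : Type} [Ring B] [Algebra F B] {ι : Type} [Fintype ι] [DecidableEq ι]
    (ρ : B →ₐ[F] Matrix ι ι Ω) (hspan : Submodule.span Ω (Set.range ρ) = ⊤) (hfin : Module.Finite F B)
    (hdim : Module.finrank F B ≤ Fintype.card ι ^ 2) :
    Function.Injective ρ ∧ Module.finrank F B = Fintype.card ι ^ 2 := by
  have b := Module.finBasis F B
  refine ⟨?_, ?_⟩
  · rw [injective_iff_map_eq_zero]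
    intro x hx
    have h1 := (rho_basis ρ hspan hfin hdim b).1
    rw [← b.sum_repr x, map_sum] at hx
    have h2 : ∑ i, (algebraMap F Ω (b.repr x i)) • ρ (b i) = 0 := by
      rw [← hx]
      refine Finset.sum_congr rfl fun i _ => ?_
      rw [map_smul, algebraMap_smul]
    have h3 := Fintype.linearIndependent_iff.1 h1 _ h2
    rw [← b.sum_repr x]
    refine Finset.sum_eq_zero fun i _ => ?_
    have h4 : b.repr x i = 0 := by
      have := h3 i
      rwa [map_eq_zero] at this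
    rw [h4, zero_smul]
  · have h1 := Sko_card ρ hspan hdim b
    rwa [Fintype.card_fin] at h1

theorem Sko_mul {B : Type} [Ring B] [Algebra F B] {ι : Type} [Fintype ι] [DecidableEq ι]
    (ρ ρ' : B →ₐ[F] Matrix ι ι Ω)
    (hspan' : Submodule.span Ω (Set.range ρ') = ⊤)
    (Φ : Matrix ι ι Ω ≃ₗ[Ω] Matrix ι ι Ω) (hΦ : ∀ x, Φ (ρ' x) = ρ x) (X Y : Matrix ι ι Ω) :
    Φ (X * Y) = Φ X * Φ Y := by
  have hX : X ∈ Submodule.span Ω (Set.range ρ') := by rw [hspan']; trivial
  have hY : Y ∈ Submodule.span Ω (Set.range ρ') := by rw [hspan']; trivial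
  induction hX using Submodule.span_induction with
  | mem x hx =>
    obtain ⟨x, rfl⟩ := hx
    induction hY using Submodule.span_induction with
    | mem y hy =>
      obtain ⟨y, rfl⟩ := hy
      rw [← map_mul, hΦ, hΦ, hΦ, map_mul]
    | zero => rw [mul_zero, map_zero, mul_zero]
    | add y z _ _ h1 h2 => rw [mul_add, map_add, h1, h2, map_add, mul_add]
    | smul a y _ h1 => rw [mul_smul_comm, map_smul, h1, map_smul, mul_smul_comm]
  | zero => rw [zero_mul, map_zero, zero_mul]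
  | add y z _ _ h1 h2 => rw [add_mul, map_add, h1, h2, map_add, add_mul]
  | smul a y _ h1 => rw [smul_mul_assoc, map_smul, h1, map_smul, smul_mul_assoc]

theorem Sko_inner {ι : Type} [Fintype ι] [DecidableEq ι]
    (Φ : Matrix ι ι Ω ≃ₐ[Ω] Matrix ι ι Ω) :
    ∃ P : (Matrix ι ι Ω)ˣ, ∀ X, (P : Matrix ι ι Ω) * X = Φ X * (P : Matrix ι ι Ω) := by
  obtain ⟨T, hT⟩ := AlgEquiv.eq_linearEquivConjAlgEquiv
    ((Matrix.toLinAlgEquiv' (R := Ω) (n := ι)).symm.trans (Φ.trans Matrix.toLinAlgEquiv'))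
  refine ⟨⟨Matrix.toLinAlgEquiv'.symm (T : (ι → Ω) →ₗ[Ω] (ι → Ω)),
    Matrix.toLinAlgEquiv'.symm (T.symm : (ι → Ω) →ₗ[Ω] (ι → Ω)), ?_, ?_⟩, fun X => ?_⟩
  · rw [← map_mul]
    have h1 : (T : (ι → Ω) →ₗ[Ω] (ι → Ω)) * (T.symm : (ι → Ω) →ₗ[Ω] (ι → Ω)) = 1 := by
      ext x
      simp
    rw [h1, map_one]
  · rw [← map_mul]
    have h1 : (T.symm : (ι → Ω) →ₗ[Ω] (ι → Ω)) * (T : (ι → Ω) →ₗ[Ω] (ι → Ω)) = 1 := by
      ext x
      simp
    rw [h1, map_one]
  · show Matrix.toLinAlgEquiv'.symm (T : (ι → Ω) →ₗ[Ω] (ι → Ω)) * X =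
      Φ X * Matrix.toLinAlgEquiv'.symm (T : (ι → Ω) →ₗ[Ω] (ι → Ω))
    apply (Matrix.toLinAlgEquiv' (R := Ω) (n := ι)).injective
    rw [map_mul, map_mul, AlgEquiv.apply_symm_apply]
    have h1 := congrArg (fun f => f (Matrix.toLinAlgEquiv' X)) hT
    simp only [AlgEquiv.trans_apply, AlgEquiv.symm_apply_apply, LinearEquiv.conjAlgEquiv_apply] at h1
    rw [h1]
    ext x
    simp

theorem skolem {B : Type} [Ring B] [Algebra F B] {ι : Type} [Fintype ι] [DecidableEq ι]
    (ρ ρ' : B →ₐ[F] Matrix ι ι Ω) (hspan : Submodule.span Ω (Set.range ρ) = ⊤)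
    (hspan' : Submodule.span Ω (Set.range ρ') = ⊤) (hfin : Module.Finite F B)
    (hdim : Module.finrank F B ≤ Fintype.card ι ^ 2) :
    ∃ P : (Matrix ι ι Ω)ˣ, ∀ b, (P : Matrix ι ι Ω) * ρ' b = ρ b * (P : Matrix ι ι Ω) := by
  have b := Module.finBasis F B
  obtain ⟨h1, h2⟩ := rho_basis ρ hspan hfin hdim b
  obtain ⟨h1', h2'⟩ := rho_basis ρ' hspan' hfin hdim b
  let e : Matrix ι ι Ω ≃ₗ[Ω] Matrix ι ι Ω :=
    (Module.Basis.mk h1' h2'.ge).equiv (Module.Basis.mk h1 h2.ge) (Equiv.refl _)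
  have he : ∀ i, e (ρ' (b i)) = ρ (b i) := by
    intro i
    have h3 := Module.Basis.equiv_apply (b := Module.Basis.mk h1' h2'.ge) i
      (b' := Module.Basis.mk h1 h2.ge) (e := Equiv.refl _)
    rw [Module.Basis.mk_apply, Equiv.refl_apply, Module.Basis.mk_apply] at h3
    exact h3
  have he2 : ∀ x, e (ρ' x) = ρ x := by
    intro x
    rw [← b.sum_repr x, map_sum, map_sum, map_sum]
    refine Finset.sum_congr rfl fun i _ => ?_
    have h3 : ρ' (b.repr x i • b i) = (algebraMap F Ω (b.repr x i)) • ρ' (b i) := by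
      rw [map_smul, algebraMap_smul]
    have h4 : ρ (b.repr x i • b i) = (algebraMap F Ω (b.repr x i)) • ρ (b i) := by
      rw [map_smul, algebraMap_smul]
    rw [h3, h4, map_smul, he]
  obtain ⟨P, hP⟩ := Sko_inner (AlgEquiv.ofLinearEquiv e
    ((congrArg e (map_one ρ').symm).trans ((he2 1).trans (map_one ρ))) (Sko_mul ρ ρ' hspan' e he2))
  refine ⟨P, fun x => ?_⟩
  rw [hP, AlgEquiv.ofLinearEquiv_apply, he2]

theorem scalar_of_comm {B : Type} [Ring B] [Algebra F B] {ι : Type} [Fintype ι] [DecidableEq ι]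
    (ρ : B →ₐ[F] Matrix ι ι Ω) (hspan : Submodule.span Ω (Set.range ρ) = ⊤) (M : Matrix ι ι Ω)
    (hM : ∀ b, M * ρ b = ρ b * M) : ∃ a : Ω, M = a • (1 : Matrix ι ι Ω) := by
  have h1 : ∀ X : Matrix ι ι Ω, M * X = X * M := by
    intro X
    have hX : X ∈ Submodule.span Ω (Set.range ρ) := by rw [hspan]; trivial
    induction hX using Submodule.span_induction with
    | mem x hx =>
      obtain ⟨x, rfl⟩ := hx
      exact hM x
    | zero => rw [mul_zero, zero_mul]
    | add y z _ _ h1 h2 => rw [mul_add, add_mul, h1, h2]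
    | smul a y _ h1 => rw [mul_smul_comm, smul_mul_assoc, h1]
  obtain ⟨a, ha⟩ := Matrix.mem_range_scalar_iff_commute_single'.2
    (fun i j => (h1 (Matrix.single i j 1)).symm)
  refine ⟨a, ?_⟩
  rw [← ha, Matrix.scalar_apply, Matrix.smul_one_eq_diagonal]

end BrR
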