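import Pool.Agent.H48.BR.Rep
import Pool.Agent.H48.BR.Sko

set_option autoImplicit false

/-! # Row Cls: the algebra determines the class; a split algebra has trivial class (about 120 lines)

* `isRep_class`: `IsRep F Ω B ι c`, `IsRep F Ω B ι c'` ⇒ `c' / c ∈ Cob ⊤`. `skolem` for `ρ, ρ'`: `P * ρ' b = ρ b * P`. Put `S g = P⁻¹ * T g * g(P) * (T' g)⁻¹`. It commutes with
  `ρ' b`: `T' g * g(ρ' b) = ρ' b * T' g` gives `(T' g)⁻¹ * ρ' b = g(ρ' b) * (T' g)⁻¹`; `g(P) * g(ρ' b) = g(ρ b) * g(P)`; `T g * g(ρ b) = ρ b * T g`; `P⁻¹ * ρ b = ρ' b * P⁻¹`.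
  So `S g = b g • 1` with `b g ∈ Ωˣ` (`scalar_of_comm`; invertible, if `ι` is nonempty), i.e. `P⁻¹ * T g * g(P) = b g • T' g`. The left side `T'' g` satisfies
  `T'' g * g(T'' h) = c g h • T'' (g h)`, so `c g h * b (g h) = b g * g • b h * c' g h`. `b` is LC1: `T, T'` are, and `g ↦ g(P)` is (`LC1.smul_elt` for the entries, `smo_field`).
* `isRep_split`: `B ≃ₐ M_m(F)` (`m` any) and `IsRep F Ω B ι c`, `ι` nonempty ⇒ `c ∈ Cob ⊤`: dimensions (`rho_inj`): `|ι|² = m²`, so `Fin m ≃ ι`; `isRep_matrix (Fin m)` transported by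
  `IsRep.reindex`, `IsRep.equiv` gives `IsRep F Ω B ι 1`; `isRep_class`. -/

namespace BrR

variable {F Ω : Type} [Field F] [Field Ω] [Algebra F Ω] [IsGalois F Ω]

omit [IsGalois F Ω] in
theorem Cls_map_mul {ι : Type} [Fintype ι] (g : Gal(Ω/F)) (M N : Matrix ι ι Ω) :
    (M * N).map g = M.map g * N.map g := by
  exact Matrix.map_mul (L := M) (M := N) (f := (g : Ω →+* Ω))

omit [IsGalois F Ω] in
theorem Cls_map_one {ι : Type} [Fintype ι] [DecidableEq ι] (g : Gal(Ω/F)) :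
    (1 : Matrix ι ι Ω).map g = 1 := by
  apply Matrix.map_one
  · exact map_zero g
  · exact map_one g

/-- the image of an invertible matrix -/
def Cls_mu {ι : Type} [Fintype ι] [DecidableEq ι] (g : Gal(Ω/F)) (P : (Matrix ι ι Ω)ˣ) :
    (Matrix ι ι Ω)ˣ where
  val := (P : Matrix ι ι Ω).map g
  inv := ((P⁻¹ : (Matrix ι ι Ω)ˣ) : Matrix ι ι Ω).map g
  val_inv := by rw [← Cls_map_mul, Units.mul_inv, Cls_map_one]
  inv_val := by rw [← Cls_map_mul, Units.inv_mul, Cls_map_one]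

omit [IsGalois F Ω] in
theorem Cls_map_map {ι : Type} [Fintype ι] (g h : Gal(Ω/F)) (M : Matrix ι ι Ω) :
    (M.map h).map g = M.map (g * h : Gal(Ω/F)) := by
  ext i j
  rfl

omit [IsGalois F Ω] in
theorem Cls_map_smul {ι : Type} [Fintype ι] (g : Gal(Ω/F)) (a : Ω) (M : Matrix ι ι Ω) :
    (a • M).map g = (g • a) • M.map g := by
  ext i j
  simp [Matrix.map_apply, Matrix.smul_apply]

omit [IsGalois F Ω] in
theorem Cls_smul_inj {ι : Type} [Fintype ι] [DecidableEq ι] [Nonempty ι] {a b : Ω}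
    {T : (Matrix ι ι Ω)ˣ} (h : a • (T : Matrix ι ι Ω) = b • (T : Matrix ι ι Ω)) : a = b := by
  have h1 := congrArg (fun M => M * ((T⁻¹ : (Matrix ι ι Ω)ˣ) : Matrix ι ι Ω)) h
  simp only [Matrix.smul_mul, Units.mul_inv] at h1
  obtain ⟨i⟩ := ‹Nonempty ι›
  have h2 := congrFun (congrFun h1 i) i
  simpa [Matrix.smul_apply] using h2

theorem isRep_class {B : Type} [Ring B] [Algebra F B] {ι : Type} [Fintype ι] [DecidableEq ι]
    [Nonempty ι] {c c' : Gal(Ω/F) → Gal(Ω/F) → Ωˣ} (h : IsRep F Ω B ι c) (h' : IsRep F Ω B ι c') :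
    c' / c ∈ Cob (⊤ : Subgroup Gal(Ω/F)) := by
  obtain ⟨ρ, T, hs, hf, hd, hlc, hTρ, hTT⟩ := h
  obtain ⟨ρ', T', hs', hf', hd', hlc', hTρ', hTT'⟩ := h'
  obtain ⟨P, hP⟩ := skolem ρ ρ' hs hs' hf hd
  -- the conjugated system
  obtain ⟨T2, hT2⟩ : ∃ T2 : Gal(Ω/F) → (Matrix ι ι Ω)ˣ, T2 = fun g => P⁻¹ * T g * Cls_mu g P :=
    ⟨_, rfl⟩
  have hT2v : ∀ g, (T2 g : Matrix ι ι Ω) = ((P⁻¹ : (Matrix ι ι Ω)ˣ) : Matrix ι ι Ω) * T g *
      (P : Matrix ι ι Ω).map g := by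
    intro g
    rw [hT2]
    rfl
  have hP' : ∀ b, ((P⁻¹ : (Matrix ι ι Ω)ˣ) : Matrix ι ι Ω) * ρ b =
      ρ' b * ((P⁻¹ : (Matrix ι ι Ω)ˣ) : Matrix ι ι Ω) := by
    intro b
    have h1 := hP b
    calc ((P⁻¹ : (Matrix ι ι Ω)ˣ) : Matrix ι ι Ω) * ρ b =
        ((P⁻¹ : (Matrix ι ι Ω)ˣ) : Matrix ι ι Ω) * (ρ b * (P : Matrix ι ι Ω)) *
          ((P⁻¹ : (Matrix ι ι Ω)ˣ) : Matrix ι ι Ω) := by
          rw [mul_assoc, mul_assoc, Units.mul_inv, mul_one]
      _ = _ := by rw [← h1, ← mul_assoc, Units.inv_mul, one_mul]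
  have hT2ρ : ∀ g b, (T2 g : Matrix ι ι Ω) * (ρ' b).map g = ρ' b * (T2 g : Matrix ι ι Ω) := by
    intro g b
    rw [hT2v, mul_assoc, ← Cls_map_mul, hP b, Cls_map_mul, mul_assoc, ← mul_assoc (T g : Matrix ι ι Ω),
      hTρ g b, mul_assoc (ρ b), ← mul_assoc _ (ρ b), hP' b]
    simp only [mul_assoc]
  have hscal : ∀ g, ∃ a : Ωˣ, (T2 g : Matrix ι ι Ω) = (a : Ω) • (T' g : Matrix ι ι Ω) := by
    intro g
    obtain ⟨a, ha⟩ := scalar_of_comm ρ' hs'
      ((T2 g : Matrix ι ι Ω) * (((T' g)⁻¹ : (Matrix ι ι Ω)ˣ) : Matrix ι ι Ω)) (by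
        intro b
        have h1 : (((T' g)⁻¹ : (Matrix ι ι Ω)ˣ) : Matrix ι ι Ω) * ρ' b =
            (ρ' b).map g * (((T' g)⁻¹ : (Matrix ι ι Ω)ˣ) : Matrix ι ι Ω) := by
          have h2 := hTρ' g b
          calc (((T' g)⁻¹ : (Matrix ι ι Ω)ˣ) : Matrix ι ι Ω) * ρ' b =
              (((T' g)⁻¹ : (Matrix ι ι Ω)ˣ) : Matrix ι ι Ω) * (ρ' b * (T' g : Matrix ι ι Ω)) *
                (((T' g)⁻¹ : (Matrix ι ι Ω)ˣ) : Matrix ι ι Ω) := by
                rw [mul_assoc, mul_assoc, Units.mul_inv, mul_one]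
            _ = _ := by rw [← h2, ← mul_assoc, Units.inv_mul, one_mul]
        rw [mul_assoc, h1, ← mul_assoc, hT2ρ, mul_assoc])
    have h3 : (T2 g : Matrix ι ι Ω) = a • (T' g : Matrix ι ι Ω) := by
      have h4 := congrArg (fun M => M * (T' g : Matrix ι ι Ω)) ha
      simpa only [mul_assoc, Units.inv_mul, mul_one, Matrix.smul_mul, one_mul] using h4
    have ha0 : a ≠ 0 := by
      rintro rfl
      rw [zero_smul] at h3
      exact (T2 g).ne_zero h3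
    exact ⟨Units.mk0 a ha0, h3⟩
  choose s hs2 using hscal
  -- local constancy
  have hslc : LC1 s := by
    obtain ⟨U1, hU1, h1⟩ := hlc
    obtain ⟨U2, hU2, h2⟩ := hlc'
    obtain ⟨U3, hU3, h3⟩ := Smo.fix_finite (smo_field (F := F) (Ω := Ω))
      (Set.range fun q : ι × ι => (P : Matrix ι ι Ω) q.1 q.2) (Set.finite_range _)
    refine ⟨U1 ⊓ U2 ⊓ U3, (hU1.inf hU2).inf hU3, fun g u hu => ?_⟩
    have e1 := h1 g u hu.1.1
    have e2 := h2 g u hu.1.2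
    have e3 : (P : Matrix ι ι Ω).map (g * u : Gal(Ω/F)) = (P : Matrix ι ι Ω).map g := by
      ext i j
      have h4 := h3 u hu.2 _ ⟨(i, j), rfl⟩
      show (g * u) ((P : Matrix ι ι Ω) i j) = g ((P : Matrix ι ι Ω) i j)
      rw [AlgEquiv.mul_apply]
      congr 1
    have e4 : (T2 (g * u) : Matrix ι ι Ω) = T2 g := by
      rw [hT2v, hT2v, e1, e3]
    rw [hs2, hs2, e2] at e4
    exact Units.ext (Cls_smul_inj e4)
  -- the relation
  have hT2T : ∀ g h, (T2 g : Matrix ι ι Ω) * ((T2 h : Matrix ι ι Ω)).map g =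
      (c g h : Ω) • (T2 (g * h) : Matrix ι ι Ω) := by
    intro g h
    have e1 : (P : Matrix ι ι Ω).map g * ((((P⁻¹ : (Matrix ι ι Ω)ˣ) : Matrix ι ι Ω) * T h *
        (P : Matrix ι ι Ω).map h)).map g =
        ((T h : Matrix ι ι Ω)).map g * (P : Matrix ι ι Ω).map (g * h : Gal(Ω/F)) := by
      rw [Cls_map_mul, Cls_map_mul, Cls_map_map, ← mul_assoc, ← mul_assoc, ← Cls_map_mul,
        Units.mul_inv, Cls_map_one, one_mul]
    rw [hT2v, hT2v h, mul_assoc, e1, mul_assoc, ← mul_assoc (T g : Matrix ι ι Ω), hTT g h,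
      Matrix.smul_mul, Matrix.mul_smul, hT2v (g * h)]
    simp only [mul_assoc]
  have key : ∀ g h, s g * g • s h * c' g h = c g h * s (g * h) := by
    intro g h
    have e1 := hT2T g h
    rw [hs2 g, hs2 h, hs2 (g * h), Cls_map_smul, Matrix.smul_mul, Matrix.mul_smul, hTT' g h,
      smul_smul, smul_smul, smul_smul] at e1
    have e2 := Cls_smul_inj e1
    apply Units.ext
    rw [Units.val_mul, Units.val_mul, Units.val_mul, ← e2]
    rfl
  refine ⟨s⁻¹, hslc.comp (·⁻¹), fun g _ h _ => ?_⟩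
  have k := key g h
  rw [Pi.div_apply, Pi.div_apply, dd_inv]
  unfold dd
  rw [inv_div, div_eq_div_iff_mul_eq_mul]
  calc c' g h * (s g * g • s h) = s g * g • s h * c' g h := mul_comm _ _
    _ = c g h * s (g * h) := k
    _ = s (g * h) * c g h := mul_comm _ _

theorem isRep_split {B : Type} [Ring B] [Algebra F B] {ι : Type} [Fintype ι] [DecidableEq ι]
    [Nonempty ι] {c : Gal(Ω/F) → Gal(Ω/F) → Ωˣ} (h : IsRep F Ω B ι c) {m : ℕ}
    (e : Nonempty (B ≃ₐ[F] Matrix (Fin m) (Fin m) F)) :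
    c ∈ Cob (⊤ : Subgroup Gal(Ω/F)) := by
  obtain ⟨e⟩ := e
  have hdim : Module.finrank F B = Fintype.card ι ^ 2 := by
    obtain ⟨ρ, T, hs, hf, hd, -⟩ := h
    exact (rho_inj ρ hs hf hd).2
  have hdim2 : Module.finrank F B = m * m := by
    rw [e.toLinearEquiv.finrank_eq, Module.finrank_matrix]
    simp
  have hm : m = Fintype.card ι := by
    rw [hdim, pow_two] at hdim2
    exact (Nat.mul_self_inj.1 hdim2).symm
  have e' : Fin m ≃ ι := Fintype.equivOfCardEq (by rw [Fintype.card_fin, hm])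
  have h1 : IsRep F Ω B ι (1 : Gal(Ω/F) → Gal(Ω/F) → Ωˣ) :=
    ((isRep_matrix (F := F) (Ω := Ω) (Fin m)).reindex e').equiv e.symm
  have h2 := isRep_class h1 h
  rwa [div_one] at h2

end BrR
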