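import Pool.Agent.H48.BR.Smo

set_option autoImplicit false

/-! # Row Cra: carry cochains (about 130 lines)

`car N a χ g h = a ^ (((χ g).val + (χ h).val) / N)`. On `H` (χ additive): `((χ g).val + (χ h).val) =
(χ (g*h)).val + N * (((χ g).val + (χ h).val) / N)` (`ZMod.val_add`, `Nat.mod_add_div`) (*).

* `car_coc`: `a` fixed by `H`. Cocycle identity: from (*) the exponents satisfy
  `e h k + e g (h k) = e (g h) k + e g h` (multiply by `N` and use (*) four times; `N > 0`).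
  LC2: `LC1.fst, LC1.snd, LC2.comp₂`.
* `car_self`: `(a^e)^N = a^(N e) = a^(χ̃ g) a^(χ̃ h) / a^(χ̃ (g h)) = dd (fun g => a^(χ g).val)` on `H`.
* `car_pow`: `θ' : G → ZMod (p^(j+1))`, `θ g = cast (θ' g) : ZMod (p^j)` so `(θ g).val = (θ' g).val % p^j`
  (`ZMod.val_cast_eq_mod...` or `ZMod.castHom` + `ZMod.val_natCast`), `δ g := (θ' g).val / p^j`. By (*) for
  both: `p * car' = car + δ g + δ h - δ (g h)` as integers. So `(car' )^p / car = dd (fun g => a ^ δ g)`.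
* `car_sy`: `b g := β ^ (χ g).val`; on `H`: `dd b g h = β^(χ̃ g) * (g • β)^(χ̃ h) / β^(χ̃ (g h)) =
  (β^p)^carry * (g • β / β)^(χ̃ h)` and `(g•β/β)^(χ̃ h) = pw p ζ (lg p ζ (g•β/β) * χ h) = sy p ζ β α g h`
  since `lg p ζ (h • α / α) = χ h` (`pw_mul`, `pw_lg`, `lg_pw`). -/

namespace BrR

variable {F Ω : Type} [Field F] [Field Ω] [Algebra F Ω] [IsGalois F Ω]

private theorem Cra_key {H : Subgroup Gal(Ω/F)} {N : ℕ} [NeZero N] {χ : Gal(Ω/F) → ZMod N}
    (hχ2 : Hm H χ) {g h : Gal(Ω/F)} (hg : g ∈ H) (hh : h ∈ H) :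
    (χ g).val + (χ h).val = (χ (g * h)).val + N * (((χ g).val + (χ h).val) / N) := by
  rw [hχ2 g hg h hh, ZMod.val_add, Nat.mod_add_div]

theorem car_coc {H : Subgroup Gal(Ω/F)} {N : ℕ} [NeZero N] {a : Ωˣ} (ha : ∀ h ∈ H, h • a = a)
    {χ : Gal(Ω/F) → ZMod N} (hχ : LC1 χ) (hχ2 : Hm H χ) : car N a χ ∈ Coc H := by
  rw [mem_Coc]
  refine ⟨hχ.fst.comp₂ hχ.snd (fun u v => a ^ ((u.val + v.val) / N)), ?_⟩
  intro g hg h hh k hk
  simp only [car]
  rw [smul_pow', ha g hg, ← pow_add, ← pow_add]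
  congr 1
  have e1 := Cra_key hχ2 hh hk
  have e2 := Cra_key hχ2 hg (H.mul_mem hh hk)
  have e3 := Cra_key hχ2 (H.mul_mem hg hh) hk
  have e4 := Cra_key hχ2 hg hh
  rw [mul_assoc] at e3
  apply Nat.eq_of_mul_eq_mul_left (NeZero.pos N)
  rw [mul_add, mul_add]
  generalize ((χ h).val + (χ k).val) / N = x1 at *
  generalize ((χ g).val + (χ (h * k)).val) / N = x2 at *
  generalize ((χ (g * h)).val + (χ k).val) / N = x3 at *
  generalize ((χ g).val + (χ h).val) / N = x4 at *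
  omega

theorem car_self {H : Subgroup Gal(Ω/F)} {N : ℕ} [NeZero N] {a : Ωˣ} (ha : ∀ h ∈ H, h • a = a)
    {χ : Gal(Ω/F) → ZMod N} (hχ : LC1 χ) (hχ2 : Hm H χ) : (car N a χ) ^ N ∈ Cob H := by
  refine ⟨fun g => a ^ (χ g).val, hχ.comp (fun u => a ^ u.val), ?_⟩
  intro g hg h hh
  simp only [Pi.pow_apply, car, dd]
  rw [smul_pow', ha g hg, ← pow_add, Cra_key hχ2 hg hh, pow_add, ← pow_mul, mul_comm _ N]
  rw [mul_div_cancel_left]
  have e1 := Cra_key hχ2 hg hh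
  congr 2
  rw [← e1]

theorem car_pow {H : Subgroup Gal(Ω/F)} {p j : ℕ} [NeZero p] {a : Ωˣ} (ha : ∀ h ∈ H, h • a = a)
    {θ : Gal(Ω/F) → ZMod (p ^ j)} {θ' : Gal(Ω/F) → ZMod (p ^ (j + 1))} (hθ : LC1 θ') (hθ2 : Hm H θ')
    (hcast : ∀ g, θ g = ((θ' g).cast : ZMod (p ^ j))) :
    (car (p ^ (j + 1)) a θ') ^ p / car (p ^ j) a θ ∈ Cob H := by
  have hval : ∀ g, (θ g).val = (θ' g).val % p ^ j := by
    intro g
    rw [hcast g, ZMod.cast_eq_val, ZMod.val_natCast]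
  refine ⟨fun g => a ^ ((θ' g).val / p ^ j), hθ.comp (fun u => a ^ (u.val / p ^ j)), ?_⟩
  intro g hg h hh
  simp only [Pi.div_apply, Pi.pow_apply, car, dd]
  rw [smul_pow', ha g hg, div_eq_div_iff_mul_eq_mul, ← pow_mul, ← pow_add, ← pow_add, ← pow_add]
  congr 1
  have e1 := Cra_key hθ2 hg hh
  rw [hval g, hval h]
  have hM : 0 < p ^ j := NeZero.pos _
  have e2 := Nat.div_add_mod (θ' g).val (p ^ j)
  have e3 := Nat.div_add_mod (θ' h).val (p ^ j)
  have e4 := Nat.div_add_mod (θ' (g * h)).val (p ^ j)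
  have e5 := Nat.div_add_mod ((θ' g).val % p ^ j + (θ' h).val % p ^ j) (p ^ j)
  have h4 := Nat.mod_lt (θ' (g * h)).val hM
  have h5 := Nat.mod_lt ((θ' g).val % p ^ j + (θ' h).val % p ^ j) hM
  generalize ((θ' g).val + (θ' h).val) / p ^ (j + 1) = E' at *
  generalize (θ' g).val = A at *
  generalize (θ' h).val = B at *
  generalize (θ' (g * h)).val = C at *
  rw [pow_succ] at e1
  generalize (A % p ^ j + B % p ^ j) / p ^ j = E at *
  generalize (A % p ^ j + B % p ^ j) % p ^ j = r at *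
  generalize A % p ^ j = a1 at *
  generalize B % p ^ j = b1 at *
  generalize C % p ^ j = c1 at *
  generalize A / p ^ j = dA at *
  generalize B / p ^ j = dB at *
  generalize C / p ^ j = dC at *
  have key : p ^ j * (dA + dB + E) + r = p ^ j * (E' * p + dC) + c1 := by
    have e6 : p ^ j * p * E' = p ^ j * (E' * p) := by ring
    rw [e6] at e1
    simp only [mul_add] at *
    omega
  have k1 : (p ^ j * (dA + dB + E) + r) / p ^ j = dA + dB + E := by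
    rw [Nat.mul_add_div hM, Nat.div_eq_of_lt h5, add_zero]
  have k2 : (p ^ j * (E' * p + dC) + c1) / p ^ j = E' * p + dC := by
    rw [Nat.mul_add_div hM, Nat.div_eq_of_lt h4, add_zero]
  rw [key, k2] at k1
  exact k1

theorem car_sy {H : Subgroup Gal(Ω/F)} {p : ℕ} [NeZero p] {ζ : Ωˣ} (hζ : IsPrimitiveRoot ζ p)
    (hζH : ∀ h ∈ H, h • ζ = ζ) {χ : Gal(Ω/F) → ZMod p} (hχ : LC1 χ) (hχ2 : Hm H χ) {α β : Ωˣ}
    (hα : ∀ h ∈ H, h • α = pw p ζ (χ h) * α) (hβ : ∀ h ∈ H, h • (β ^ p) = β ^ p) :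
    car p (β ^ p) χ * sy p ζ β α ∈ Cob H := by
  refine ⟨fun g => β ^ (χ g).val, hχ.comp (fun u => β ^ u.val), ?_⟩
  intro g hg h hh
  have h1 : (g • β / β) ^ p = 1 := by
    rw [div_pow, ← smul_pow', hβ g hg, div_self']
  have h2 : sy p ζ β α g h = (g • β / β) ^ (χ h).val := by
    rw [sy, hα h hh, mul_div_cancel_right, lg_pw hζ, pw_mul hζ.pow_eq_one, pw_lg hζ h1]
  have e1 := Cra_key hχ2 hg hh
  simp only [Pi.mul_apply]
  rw [h2]
  simp only [car, dd]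
  rw [smul_pow', div_pow, ← pow_mul, mul_div_assoc', div_eq_div_iff_mul_eq_mul]
  have h3 : β ^ (p * (((χ g).val + (χ h).val) / p)) * β ^ (χ (g * h)).val =
      β ^ (χ g).val * β ^ (χ h).val := by
    rw [← pow_add, ← pow_add]
    congr 1
    omega
  rw [mul_assoc, mul_comm ((g • β) ^ (χ h).val), ← mul_assoc, h3, mul_assoc, mul_assoc,
    mul_comm (β ^ (χ h).val)]

end BrR
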