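import Pool.Agent.H48.BR.H90

set_option autoImplicit false

/-! # Row Cyc: classes that become trivial on the kernel of a cyclic quotient (about 280 lines)

THEOREM `cyc`. `H` open, `χ : G → ZMod N` locally constant, additive on `H`, `σ ∈ H` with `χ σ = 1`,
`K = {h ∈ H | χ h = 0}`, `c` a cocycle on `H`, a coboundary on `K`. Then there is `a ∈ Ωˣ` fixed by `H` with
`c / a^carry ∈ Cob H`, `car N a χ (g,h) = a ^ ((χ g).val + (χ h).val) / N)`.

PROOF (group extension). Let `E = Ωˣ × H` (`H` as a type `↥H`) with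
`(a,g) * (b,h) = (a * g • b * c g h, g * h)`; the cocycle identity gives associativity (Coc condition:
`g • c h k * c g (h k) = c (g h) k * c g h`). From it `c 1 g = c 1 1` and `c g 1 = g • c 1 1`, so
`(c 1 1)⁻¹, 1` is the identity; every element is invertible: `E` is a group (define a structure with
`Group` instance, e.g. `Group.ofLeftAxioms`). `π : E →* H` the projection; the kernel consists of the
`ι a = (a * (c 1 1)⁻¹, 1)`, `ι : Ωˣ →* E` injective, and `x * ι a * x⁻¹ = ι (π x • a)`.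
Also `ι a * (b, g) = (a * b, g)`.
(1) `c = dd b` on `K`: `w : K → E`, `w n = (b n)⁻¹, n)` is multiplicative on `K`.
(2) Let `y₀ = (1, σ)`. For `n ∈ K`: `σ⁻¹ n σ ∈ K`; `y₀ * w (σ⁻¹ n σ) * y₀⁻¹` lies over `n`, so it is
 `ι (μ n) * w n` for a unique `μ n ∈ Ωˣ`; both `n ↦ y₀ w(σ⁻¹nσ) y₀⁻¹` and `w` are multiplicative, so
 `μ (n n') = μ n * n • μ n'`. `μ` is locally constant on `K` (`b` and `c` are; explicit formula for the
 first component). Extend by `1` outside `K` (`LC1.ite'`). `hilbert90` for the open subgroup `K` (open: it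
 contains `U ⊓ H` where `U` is from `LC1 χ`): `μ n = n • x / x` on `K`.
 Put `y = ι x * y₀`. Then `y * w (σ⁻¹ n σ) * y⁻¹ = ι x * ι (μ n) * w n * ι x⁻¹ = ι (x * μ n / n • x) * w n = w n`.
 So `y * w m = w (σ m σ⁻¹) * y` for all `m ∈ K`.
(3) `σ ^ N ∈ K`. `y ^ N` lies over `σ ^ N`: `y ^ N = ι a * w (σ ^ N)`. `y` commutes with `y ^ N` and with
 `w (σ ^ N)` (by (2)), hence with `ι a`: `σ • a = a`. For `n ∈ K`: `y ^ N * w n = w (σ^N n σ^{-N}) * y^N`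
 and `w (σ^N) * w n = w (σ^N n σ^{-N}) * w (σ^N)`, so `ι a` commutes with `w n`: `n • a = a`. Every `h ∈ H` is
 `σ ^ i * n`, `i = (χ h).val`, `n = σ^{-i} h ∈ K`, so `a` is fixed by `H`.
(4) `W h := y ^ (χ h).val * w (σ ^ (-(χ h).val) * h)` for `h ∈ H` lies over `h`. For `g, h ∈ H`, `i = (χ g).val`,
 `j = (χ h).val`: `W g * W h = y^i w n y^j w n' = y^(i+j) * w (σ^{-j} n σ^j n')`. If `i + j < N` then
 `(χ (g h)).val = i + j` and this is `W (g h)`; if `i + j ≥ N` then `(χ(gh)).val = i + j - N` and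
 `y^(i+j) = y^(i+j-N) * y^N = y^(i+j-N) * ι a * w (σ^N) = ι a * y^(i+j-N) * w(σ^N)`, so `W g W h = ι a * W (g h)`.
 (`ZMod.val_add`.) So `W g * W h = ι (a ^ ((i+j)/N)) * W (g h)`.
(5) Write `W h = ((B h)⁻¹, h)`. Comparing first components: `(B g)⁻¹ * g • (B h)⁻¹ * c g h =
 a^carry * (B (g h))⁻¹`, i.e. `c g h / a^carry = dd B g h` on `H`. `B` is locally constant on `H` (explicit
 formula of the first component of `y^i * w(n u) = (y_i * σ^i • (b (n u))⁻¹ * c (σ^i) (n u), ...)`, `y^i`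
 depends only on `i = (χ h).val`); extend it by `1` outside `H` (`LC1.ite'`). -/

namespace BrR

section ext

variable {S M : Type} [Group S] [CommGroup M] [MulDistribMulAction S M]

/-- the cocycle identity -/
def CycCo (c : S → S → M) : Prop := ∀ g h k, g • c h k * c g (h * k) = c (g * h) k * c g h

/-- the group extension given by a cocycle -/
@[ext] structure CycE {c : S → S → M} (hc : CycCo c) where
  a : M
  g : S

variable {c : S → S → M}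

theorem Cyc_one_left (hc : CycCo c) (h : S) : c 1 h = c 1 1 := by
  have := hc 1 1 h
  rw [one_smul, one_mul, one_mul] at this
  exact mul_left_cancel this

theorem Cyc_one_right (hc : CycCo c) (g : S) : c g 1 = g • c 1 1 := by
  have := hc g 1 1
  rw [mul_one, mul_one, mul_comm (c g 1)] at this
  exact (mul_right_cancel this).symm

instance Cyc_instMul (hc : CycCo c) : Mul (CycE hc) :=
  ⟨fun x y => ⟨x.a * x.g • y.a * c x.g y.g, x.g * y.g⟩⟩

instance Cyc_instOne (hc : CycCo c) : One (CycE hc) := ⟨⟨(c 1 1)⁻¹, 1⟩⟩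

instance Cyc_instInv (hc : CycCo c) : Inv (CycE hc) :=
  ⟨fun x => ⟨(c 1 1)⁻¹ * (c x.g⁻¹ x.g)⁻¹ * (x.g⁻¹ • x.a)⁻¹, x.g⁻¹⟩⟩

theorem Cyc_mul_a {hc : CycCo c} (x y : CycE hc) : (x * y).a = x.a * x.g • y.a * c x.g y.g := rfl

theorem Cyc_mul_g {hc : CycCo c} (x y : CycE hc) : (x * y).g = x.g * y.g := rfl

theorem Cyc_one_a {hc : CycCo c} : (1 : CycE hc).a = (c 1 1)⁻¹ := rfl

theorem Cyc_one_g {hc : CycCo c} : (1 : CycE hc).g = 1 := rfl

theorem Cyc_inv_a {hc : CycCo c} (x : CycE hc) :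
    (x⁻¹).a = (c 1 1)⁻¹ * (c x.g⁻¹ x.g)⁻¹ * (x.g⁻¹ • x.a)⁻¹ := rfl

theorem Cyc_inv_g {hc : CycCo c} (x : CycE hc) : (x⁻¹).g = x.g⁻¹ := rfl

instance Cyc_instGroup (hc : CycCo c) : Group (CycE hc) :=
  Group.ofLeftAxioms
    (by
      intro x y z
      ext
      · simp only [Cyc_mul_a, Cyc_mul_g, smul_mul', smul_smul]
        have h := hc x.g y.g z.g
        calc x.a * x.g • y.a * c x.g y.g * (x.g * y.g) • z.a * c (x.g * y.g) z.g
            = x.a * x.g • y.a * (x.g * y.g) • z.a * (c (x.g * y.g) z.g * c x.g y.g) := by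
              simp only [mul_assoc, mul_comm, mul_left_comm]
          _ = x.a * x.g • y.a * (x.g * y.g) • z.a * (x.g • c y.g z.g * c x.g (y.g * z.g)) := by
              rw [h]
          _ = x.a * (x.g • y.a * (x.g * y.g) • z.a * x.g • c y.g z.g) * c x.g (y.g * z.g) := by
              simp only [mul_assoc]
      · simp only [Cyc_mul_g, mul_assoc])
    (by
      intro x
      ext
      · rw [Cyc_mul_a, Cyc_one_a, Cyc_one_g, one_smul, Cyc_one_left hc x.g, mul_right_comm,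
          inv_mul_cancel, one_mul]
      · rw [Cyc_mul_g, Cyc_one_g, one_mul])
    (by
      intro x
      ext
      · rw [Cyc_mul_a, Cyc_inv_a, Cyc_inv_g, Cyc_one_a, inv_mul_cancel_right,
          inv_mul_cancel_right]
      · rw [Cyc_mul_g, Cyc_inv_g, Cyc_one_g, inv_mul_cancel])

/-- the embedding of the kernel -/
def Cyc_i (hc : CycCo c) (a : M) : CycE hc := ⟨a * (c 1 1)⁻¹, 1⟩

theorem Cyc_i_mul {hc : CycCo c} (a : M) (x : CycE hc) : Cyc_i hc a * x = ⟨a * x.a, x.g⟩ := by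
  ext
  · rw [Cyc_mul_a]
    simp only [Cyc_i]
    rw [one_smul, Cyc_one_left hc x.g, mul_right_comm, inv_mul_cancel_right]
  · rw [Cyc_mul_g]
    simp only [Cyc_i, one_mul]

theorem Cyc_mul_i {hc : CycCo c} (x : CycE hc) (a : M) :
    x * Cyc_i hc a = Cyc_i hc (x.g • a) * x := by
  rw [Cyc_i_mul]
  ext
  · rw [Cyc_mul_a]
    simp only [Cyc_i]
    rw [Cyc_one_right hc x.g, smul_mul', smul_inv', mul_assoc, mul_assoc, inv_mul_cancel, mul_one,
      mul_comm]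
  · rw [Cyc_mul_g]
    simp only [Cyc_i, mul_one]

theorem Cyc_i_i {hc : CycCo c} (a b : M) : Cyc_i hc a * Cyc_i hc b = Cyc_i hc (a * b) := by
  rw [Cyc_i_mul]
  simp only [Cyc_i, mul_assoc]

theorem Cyc_i_inj {hc : CycCo c} {a b : M} (h : Cyc_i hc a = Cyc_i hc b) : a = b := by
  have := congrArg CycE.a h
  simp only [Cyc_i] at this
  exact mul_right_cancel this

variable {N : ℕ} {χ : S → ZMod N}

/-- the section over `K` -/
def Cyc_w (hc : CycCo c) (b : S → M) (n : S) : CycE hc := ⟨(b n)⁻¹, n⟩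

/-- the comparison cochain -/
def Cyc_mu (c : S → S → M) (b : S → M) (σ n : S) : M :=
  (σ • b (σ⁻¹ * n * σ))⁻¹ * c σ (σ⁻¹ * n * σ) * b n * (c n σ)⁻¹

theorem Cyc_w_mul {hc : CycCo c} {b : S → M}
    (hb : ∀ g h, χ g = 0 → χ h = 0 → c g h = b g * g • b h / b (g * h)) {g h : S} (hg : χ g = 0)
    (hh : χ h = 0) : Cyc_w hc b g * Cyc_w hc b h = Cyc_w hc b (g * h) := by
  ext
  · rw [Cyc_mul_a]
    simp only [Cyc_w]
    rw [hb g h hg hh, smul_inv', ← mul_inv, div_eq_mul_inv, ← mul_assoc, inv_mul_cancel, one_mul]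
  · rw [Cyc_mul_g]
    rfl

theorem Cyc_chi_one (hχ : ∀ g h, χ (g * h) = χ g + χ h) : χ 1 = 0 := by
  have := hχ 1 1
  rw [mul_one] at this
  exact left_eq_add.mp this

theorem Cyc_chi_inv (hχ : ∀ g h, χ (g * h) = χ g + χ h) (g : S) : χ g⁻¹ = - χ g := by
  have := hχ g⁻¹ g
  rw [inv_mul_cancel, Cyc_chi_one hχ] at this
  exact eq_neg_of_add_eq_zero_left this.symm

theorem Cyc_chi_pow (hχ : ∀ g h, χ (g * h) = χ g + χ h) {σ : S} (hσ : χ σ = 1) (i : ℕ) :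
    χ (σ ^ i) = i := by
  induction i with
  | zero => rw [pow_zero, Cyc_chi_one hχ, Nat.cast_zero]
  | succ i ih => rw [pow_succ, hχ, ih, hσ, Nat.cast_succ]

theorem Cyc_conj (hχ : ∀ g h, χ (g * h) = χ g + χ h) {n : S} (hn : χ n = 0) (s : S) :
    χ (s⁻¹ * n * s) = 0 := by
  rw [hχ, hχ, hn, Cyc_chi_inv hχ]
  ring

theorem Cyc_conj' (hχ : ∀ g h, χ (g * h) = χ g + χ h) {n : S} (hn : χ n = 0) (s : S) :
    χ (s * n * s⁻¹) = 0 := by
  rw [hχ, hχ, hn, Cyc_chi_inv hχ]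
  ring

theorem Cyc_alg (p q r t : M) : p * q = p * q * r * t⁻¹ * r⁻¹ * t := by
  rw [mul_right_comm _ t⁻¹ r⁻¹, mul_inv_cancel_right, inv_mul_cancel_right]

/-- the defining property of `μ` -/
theorem Cyc_mu_spec (hc : CycCo c) (b : S → M) (σ n : S) :
    (⟨1, σ⟩ : CycE hc) * Cyc_w hc b (σ⁻¹ * n * σ) =
      Cyc_i hc (Cyc_mu c b σ n) * Cyc_w hc b n * ⟨1, σ⟩ := by
  rw [Cyc_i_mul]
  ext
  · rw [Cyc_mul_a, Cyc_mul_a]
    simp only [Cyc_w, Cyc_mu, smul_one, smul_inv', one_mul, mul_one]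
    exact Cyc_alg _ _ _ _
  · rw [Cyc_mul_g, Cyc_mul_g]
    simp only [Cyc_w]
    group

/-- `μ` is a cocycle on `K` -/
theorem Cyc_mu_mul (hc : CycCo c) (hχ : ∀ g h, χ (g * h) = χ g + χ h) {b : S → M}
    (hb : ∀ g h, χ g = 0 → χ h = 0 → c g h = b g * g • b h / b (g * h)) (σ : S) {g h : S}
    (hg : χ g = 0) (hh : χ h = 0) :
    Cyc_mu c b σ (g * h) = Cyc_mu c b σ g * g • Cyc_mu c b σ h := by
  apply Cyc_i_inj (hc := hc)
  have e1 := Cyc_mu_spec hc b σ g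
  have e2 := Cyc_mu_spec hc b σ h
  have e3 := Cyc_mu_spec hc b σ (g * h)
  have e4 : σ⁻¹ * (g * h) * σ = (σ⁻¹ * g * σ) * (σ⁻¹ * h * σ) := by group
  rw [e4, ← Cyc_w_mul hb (Cyc_conj hχ hg σ) (Cyc_conj hχ hh σ), ← mul_assoc, e1,
    mul_assoc (_ * _) (⟨1, σ⟩ : CycE hc), e2, ← Cyc_w_mul hb hg hh] at e3
  have e5 : Cyc_i hc (Cyc_mu c b σ g) * Cyc_w hc b g *
      (Cyc_i hc (Cyc_mu c b σ h) * Cyc_w hc b h * ⟨1, σ⟩) =
      Cyc_i hc (Cyc_mu c b σ g * g • Cyc_mu c b σ h) * (Cyc_w hc b g * Cyc_w hc b h) * ⟨1, σ⟩ := by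
    rw [← Cyc_i_i]
    have e6 : Cyc_w hc b g * Cyc_i hc (Cyc_mu c b σ h) =
        Cyc_i hc (g • Cyc_mu c b σ h) * Cyc_w hc b g := Cyc_mul_i _ _
    simp only [mul_assoc]
    rw [← mul_assoc (Cyc_w hc b g) (Cyc_i hc (Cyc_mu c b σ h)), e6]
    simp only [mul_assoc]
  rw [e5] at e3
  exact (mul_right_cancel (mul_right_cancel e3)).symm

/-- the explicit cochain `B` -/
def Cyc_B (c : S → S → M) (b : S → M) (σ : S) (F : ℕ → M) (i : ℕ) (h : S) : M :=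
  (F i * (σ ^ i • b ((σ ^ i)⁻¹ * h))⁻¹ * c (σ ^ i) ((σ ^ i)⁻¹ * h))⁻¹

/-- the abstract form of the theorem -/
theorem Cyc_abs [NeZero N] (hc : CycCo c) (hχ : ∀ g h, χ (g * h) = χ g + χ h) {b : S → M}
    (hb : ∀ g h, χ g = 0 → χ h = 0 → c g h = b g * g • b h / b (g * h)) {σ : S} (hσ : χ σ = 1)
    (x : M) (hx : ∀ n, χ n = 0 → Cyc_mu c b σ n = n • x / x) :
    ∃ a : M, (∀ h : S, h • a = a) ∧ ∃ F : ℕ → M, ∀ g h : S,
      c g h / a ^ (((χ g).val + (χ h).val) / N) =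
        Cyc_B c b σ F (χ g).val g * g • Cyc_B c b σ F (χ h).val h /
          Cyc_B c b σ F (χ (g * h)).val (g * h) := by
  set w : S → CycE hc := Cyc_w hc b with hw
  have hwg : ∀ n, (w n).g = n := fun n => rfl
  set y : CycE hc := Cyc_i hc x * ⟨1, σ⟩ with hy
  have hyg : y.g = σ := by rw [hy, Cyc_i_mul]
  -- (2)
  have hyw : ∀ m, χ m = 0 → y * w m = w (σ * m * σ⁻¹) * y := by
    intro m hm
    have e1 := Cyc_mu_spec hc b σ (σ * m * σ⁻¹)
    rw [show σ⁻¹ * (σ * m * σ⁻¹) * σ = m by group] at e1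
    have e2 := hx _ (Cyc_conj' hχ hm σ)
    rw [hy, mul_assoc]
    change Cyc_i hc x * ((⟨1, σ⟩ : CycE hc) * Cyc_w hc b m) = _
    rw [e1, e2, ← mul_assoc, ← mul_assoc, Cyc_i_i, mul_div_cancel, ← mul_assoc (w _),
      Cyc_mul_i, hwg]
  -- powers
  have hpg : ∀ i : ℕ, (y ^ i).g = σ ^ i := by
    intro i
    induction i with
    | zero => rw [pow_zero, pow_zero]; rfl
    | succ i ih => rw [pow_succ, Cyc_mul_g, ih, hyg, pow_succ]
  have hpow : ∀ (i : ℕ) (m : S), χ m = 0 → y ^ i * w m = w (σ ^ i * m * (σ ^ i)⁻¹) * y ^ i := by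
    intro i
    induction i with
    | zero => intro m _; simp
    | succ i ih =>
      intro m hm
      rw [pow_succ y, mul_assoc, hyw m hm, ← mul_assoc, ih _ (Cyc_conj' hχ hm σ), mul_assoc]
      congr 2
      rw [pow_succ]
      group
  have hwm : ∀ {g h : S}, χ g = 0 → χ h = 0 → w g * w h = w (g * h) :=
    fun hg hh => Cyc_w_mul hb hg hh
  have hN : χ (σ ^ N) = 0 := by rw [Cyc_chi_pow hχ hσ, ZMod.natCast_self]
  set a : M := (y ^ N).a * b (σ ^ N) with ha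
  have hyN : y ^ N = Cyc_i hc a * w (σ ^ N) := by
    rw [Cyc_i_mul]
    ext
    · simp only [hw, Cyc_w, ha]
      rw [mul_inv_cancel_right]
    · exact hpg N
  -- (3)
  have hfσ : σ • a = a := by
    have e1 : y * y ^ N = y ^ N * y := by rw [← pow_succ, ← pow_succ']
    rw [hyN, ← mul_assoc, Cyc_mul_i, hyg, mul_assoc (Cyc_i hc (σ • a)), hyw _ hN,
      show σ * σ ^ N * σ⁻¹ = σ ^ N by rw [← pow_succ', pow_succ, mul_inv_cancel_right],
      ← mul_assoc] at e1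
    exact Cyc_i_inj (mul_right_cancel (mul_right_cancel e1))
  have hfK : ∀ n, χ n = 0 → n • a = a := by
    intro n hn
    have hk := Cyc_conj hχ hn (σ ^ N)
    have e1 := hpow N ((σ ^ N)⁻¹ * n * σ ^ N) hk
    rw [show σ ^ N * ((σ ^ N)⁻¹ * n * σ ^ N) * (σ ^ N)⁻¹ = n by group, hyN] at e1
    have e2 : Cyc_i hc a * w (σ ^ N) * w ((σ ^ N)⁻¹ * n * σ ^ N) = Cyc_i hc a * w (n * σ ^ N) := by
      rw [mul_assoc, hwm hN hk]
      congr 2
      group
    have e3 : w n * (Cyc_i hc a * w (σ ^ N)) = Cyc_i hc (n • a) * w (n * σ ^ N) := by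
      rw [← mul_assoc, Cyc_mul_i, hwg, mul_assoc, hwm hn hN]
    rw [e2, e3] at e1
    exact (Cyc_i_inj (mul_right_cancel e1)).symm
  have hfσi : ∀ i : ℕ, σ ^ i • a = a := by
    intro i
    induction i with
    | zero => rw [pow_zero, one_smul]
    | succ i ih => rw [pow_succ, mul_smul, hfσ, ih]
  have hker : ∀ (i : ℕ) (h : S), χ h = i → χ ((σ ^ i)⁻¹ * h) = 0 := by
    intro i h hh
    rw [hχ, Cyc_chi_inv hχ, Cyc_chi_pow hχ hσ, hh]
    ring
  have hfix : ∀ h : S, h • a = a := by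
    intro h
    have e1 : h = σ ^ (χ h).val * ((σ ^ (χ h).val)⁻¹ * h) := by group
    rw [e1, mul_smul, hfK _ (hker _ _ (by rw [ZMod.natCast_zmod_val])), hfσi]
  -- (4)
  have hred : ∀ (q r : ℕ) (m : S), χ m = r →
      y ^ (r + N * q) * w ((σ ^ (r + N * q))⁻¹ * m) =
        Cyc_i hc (a ^ q) * (y ^ r * w ((σ ^ r)⁻¹ * m)) := by
    intro q r m hm
    induction q with
    | zero =>
      rw [mul_zero, add_zero, pow_zero, Cyc_i_mul]
      ext
      · simp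
      · rfl
    | succ q ih =>
      have hk : χ ((σ ^ (r + N * q))⁻¹ * m) = 0 := hker _ _ (by rw [hm]; push_cast; simp)
      have hk2 : χ ((σ ^ N)⁻¹ * ((σ ^ (r + N * q))⁻¹ * m)) = 0 := by
        rw [hχ, Cyc_chi_inv hχ, hN, hk]; simp
      have e1 : (σ ^ (r + N * (q + 1)))⁻¹ * m = (σ ^ N)⁻¹ * ((σ ^ (r + N * q))⁻¹ * m) := by
        rw [show r + N * (q + 1) = (r + N * q) + N by ring, pow_add σ (r + N * q) N, mul_inv_rev,
          mul_assoc]
      rw [e1, show r + N * (q + 1) = (r + N * q) + N by ring, pow_add y (r + N * q) N, hyN,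
        mul_assoc, mul_assoc, hwm hN hk2, mul_inv_cancel_left, ← mul_assoc, Cyc_mul_i, hpg,
        hfσi, mul_assoc, ih, ← mul_assoc, Cyc_i_i, pow_succ']
  set W : S → CycE hc := fun h => y ^ (χ h).val * w ((σ ^ (χ h).val)⁻¹ * h) with hW
  have hWg : ∀ h, (W h).g = h := by
    intro h
    simp only [hW]
    rw [Cyc_mul_g, hpg, hwg, mul_inv_cancel_left]
  have hWW : ∀ g h, W g * W h = Cyc_i hc (a ^ (((χ g).val + (χ h).val) / N)) * W (g * h) := by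
    intro g h
    set i := (χ g).val with hi
    set j := (χ h).val with hj
    have hgi : χ g = i := by rw [hi, ZMod.natCast_zmod_val]
    have hhj : χ h = j := by rw [hj, ZMod.natCast_zmod_val]
    have k1 : χ ((σ ^ i)⁻¹ * g) = 0 := hker _ _ hgi
    have k2 : χ ((σ ^ j)⁻¹ * h) = 0 := hker _ _ hhj
    have k3 : χ ((σ ^ j)⁻¹ * ((σ ^ i)⁻¹ * g) * σ ^ j) = 0 := Cyc_conj hχ k1 _
    have e1 : w ((σ ^ i)⁻¹ * g) * y ^ j = y ^ j * w ((σ ^ j)⁻¹ * ((σ ^ i)⁻¹ * g) * σ ^ j) := by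
      rw [hpow j _ k3]
      congr 2
      group
    have e2 : W g * W h = y ^ (i + j) * w ((σ ^ (i + j))⁻¹ * (g * h)) := by
      simp only [hW]
      rw [← hi, ← hj, mul_assoc, ← mul_assoc (w _) (y ^ j), e1, mul_assoc, hwm k3 k2, ← mul_assoc,
        ← pow_add]
      congr 2
      rw [pow_add, mul_inv_rev]
      group
    have e3 : (χ (g * h)).val = (i + j) % N := by rw [hχ, ZMod.val_add]
    have e4 := hred ((i + j) / N) ((i + j) % N) (g * h) (by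
      rw [← e3, ZMod.natCast_zmod_val])
    rw [Nat.mod_add_div] at e4
    rw [e2, e4]
    simp only [hW]
    rw [e3]
  -- (5)
  refine ⟨a, hfix, fun i => (y ^ i).a, fun g h => ?_⟩
  have hB : ∀ h, Cyc_B c b σ (fun i => (y ^ i).a) (χ h).val h = ((W h).a)⁻¹ := by
    intro h
    simp only [hW, Cyc_B]
    rw [Cyc_mul_a, hpg, hwg]
    simp only [hw, Cyc_w, smul_inv']
  rw [hB, hB, hB]
  have e1 := congrArg CycE.a (hWW g h)
  rw [Cyc_i_mul, Cyc_mul_a, hWg, hWg] at e1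
  simp only at e1
  rw [smul_inv', div_eq_iff_eq_mul, div_inv_eq_mul]
  rw [← mul_inv, mul_assoc, mul_comm _ (a ^ _), ← e1, inv_mul_cancel_left]

end ext

variable {F Ω : Type} [Field F] [Field Ω] [Algebra F Ω] [IsGalois F Ω]

omit [IsGalois F Ω] in
/-- the kernel of `χ` is open -/
theorem Cyc_open {H : Subgroup Gal(Ω/F)} (hH : IsOpen (H : Set Gal(Ω/F))) {N : ℕ}
    (χ : Gal(Ω/F) → ZMod N) (hχ : LC1 χ) (hχ2 : Hm H χ)
    (K : Subgroup Gal(Ω/F)) (hK : ∀ g, g ∈ K ↔ g ∈ H ∧ χ g = 0) :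
    IsOpen (K : Set Gal(Ω/F)) := by
  obtain ⟨U, ⟨hU1, hU2⟩, hU3⟩ := hχ
  have h1 : χ 1 = 0 := by
    have := hχ2 1 H.one_mem 1 H.one_mem
    rw [mul_one] at this
    exact left_eq_add.mp this
  have hle : U ⊓ H ≤ K := by
    intro u hu
    rw [hK]
    refine ⟨hu.2, ?_⟩
    have := hU3 1 u hu.1
    rw [one_mul, h1] at this
    exact this
  refine Subgroup.isOpen_mono hle ?_
  rw [Subgroup.coe_inf]
  exact hU2.inter hH

theorem cyc {H : Subgroup Gal(Ω/F)} (hH : IsOpen (H : Set Gal(Ω/F))) {N : ℕ} [NeZero N]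
    (χ : Gal(Ω/F) → ZMod N) (hχ : LC1 χ) (hχ2 : Hm H χ) (σ : Gal(Ω/F)) (hσ : σ ∈ H) (hσ1 : χ σ = 1)
    (K : Subgroup Gal(Ω/F)) (hK : ∀ g, g ∈ K ↔ g ∈ H ∧ χ g = 0)
    (c : Gal(Ω/F) → Gal(Ω/F) → Ωˣ) (hc : c ∈ Coc H) (hcK : c ∈ Cob K) :
    ∃ a : Ωˣ, (∀ h ∈ H, h • a = a) ∧ c / car N a χ ∈ Cob H := by
  obtain ⟨b, hb, hbK⟩ := hcK
  obtain ⟨hc1, hc2⟩ := hc
  have hKo := Cyc_open hH χ hχ hχ2 K hK
  -- restrict everything to `H`
  set c' : H → H → Ωˣ := fun g h => c g h with hc'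
  set b' : H → Ωˣ := fun g => b g with hb'
  set χ' : H → ZMod N := fun g => χ g with hχ'
  have hco : CycCo c' := fun g h k => hc2 g g.2 h h.2 k k.2
  have hχ'2 : ∀ g h, χ' (g * h) = χ' g + χ' h := fun g h => hχ2 g g.2 h h.2
  have hb'2 : ∀ g h, χ' g = 0 → χ' h = 0 → c' g h = b' g * g • b' h / b' (g * h) :=
    fun g h hg hh => hbK g ((hK g).mpr ⟨g.2, hg⟩) h ((hK h).mpr ⟨h.2, hh⟩)
  set μ : Gal(Ω/F) → Ωˣ := fun n =>
    (σ • b (σ⁻¹ * n * σ))⁻¹ * c σ (σ⁻¹ * n * σ) * b n * (c n σ)⁻¹ with hμ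
  have hμ' : ∀ n : H, Cyc_mu c' b' ⟨σ, hσ⟩ n = μ n := fun n => rfl
  have hμlc : LC1 μ := by
    have h1 : LC1 (fun n => b (σ⁻¹ * n * σ)) := hb.conj σ σ
    have h2 : LC1 (fun n => c σ (σ⁻¹ * n * σ)) := (hc1.right σ).conj σ σ
    have h3 : LC1 (fun n => c n σ) := hc1.left σ
    have h4 := (((h1.comp (fun z => (σ • z)⁻¹)).comp₂ h2 (· * ·)).comp₂ hb (· * ·)).comp₂
      (h3.comp (·⁻¹)) (· * ·)
    exact h4
  have hμc : ∀ g ∈ K, ∀ h ∈ K, μ (g * h) = μ g * g • μ h := by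
    intro g hg h hh
    obtain ⟨hg1, hg2⟩ := (hK g).mp hg
    obtain ⟨hh1, hh2⟩ := (hK h).mp hh
    exact Cyc_mu_mul hco hχ'2 hb'2 (⟨σ, hσ⟩ : H) (g := ⟨g, hg1⟩) (h := ⟨h, hh1⟩) hg2 hh2
  obtain ⟨x, hx⟩ := hilbert90 hKo μ hμlc hμc
  obtain ⟨a, ha, Fa, hFa⟩ := Cyc_abs (χ := χ') hco hχ'2 hb'2 (σ := (⟨σ, hσ⟩ : H)) hσ1 x
    (fun n hn => (hμ' n).trans (hx n ((hK n).mpr ⟨n.2, hn⟩)))
  refine ⟨a, fun h hh => ha ⟨h, hh⟩, ?_⟩
  set B : Gal(Ω/F) → Ωˣ := fun h => Cyc_B c b σ Fa (χ h).val h with hB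
  refine ⟨B, ?_, fun g hg h hh => ?_⟩
  · obtain ⟨U1, hU1, h1⟩ := hχ
    obtain ⟨U2, hU2, h2⟩ := hb
    obtain ⟨U3, hU3, h3⟩ := hc1
    refine ⟨U1 ⊓ (U2 ⊓ U3), hU1.inf (hU2.inf hU3), fun g u hu => ?_⟩
    have e1 := h1 g u hu.1
    simp only [hB, Cyc_B]
    rw [e1, ← mul_assoc, h2 _ u hu.2.1]
    have e3 := h3 (σ ^ (χ g).val) ((σ ^ (χ g).val)⁻¹ * g) 1 U3.one_mem u hu.2.2
    rw [mul_one] at e3
    rw [e3]
  · exact hFa ⟨g, hg⟩ ⟨h, hh⟩

end BrR
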