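import Pool.Agent.H48.BR.Kap
import Pool.Agent.H48.BR.Cyc

set_option autoImplicit false

/-! # Row Yl: lifting the Kummer class of `f = φ^p` to `Z/p^(n+1)(what)` (about 260 lines; two theorems)

`yl_step` : `Y : G → ZMod (p^(n+1))` LC1, `tei n`-crossed on `G` ⇒ there is `Y' : G → ZMod (p^(n+2))` LC1, `tei (n+1)`-crossed,
`cast (Y' g) = Y g`. Hypothesis `HypI`.
PROOF. `M = p^(n+2)`. `Ỹ g := ((Y g).val : ZMod M)`, `t = tei (n+1)`, `D g h = Ỹ g + t g * Ỹ h - Ỹ (g h)`; its cast to `ZMod (p^(n+1))` is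
`Y g + tei n g * Y h - Y (gh) = 0` (`tei_cast`), so `D g h = p^(n+1) * (d g h).val` for a unique `d g h ∈ ZMod p` (elements of the kernel of
`ZMod (p^(n+2)) → ZMod (p^(n+1))` are the `p^(n+1) * k`, `k < p`; e.g. `d g h := ((D g h).val / p^(n+1) : ZMod p)`). Write
`j(k) := p^(n+1) * k.val` for `k : ZMod p`, an injective additive map `ZMod p → ZMod M` with `t g * j k = j (w g * k)`, `w g = cast (t g) : ZMod p`,
`g • ζ = pw p ζ (w g)` (`w g = cast (eps ..)`: `tei` reduces mod `p` to `eps 0` since `x^(p^n) = x` in `ZMod p`).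
`pw p ζ (d g h)` is a cocycle: LC2 clear; from `D`: `t g * D h k + D g (hk) = D (gh) k + D g h` (expand, `tei_mul`), so
`w g * d h k + d g (h k) = d (g h) k + d g h`; action: `g • pw p ζ a = pw p ζ (w g * a)`. So `dζ := fun g h => pw p ζ (d g h) ∈ Coc ⊤`.
On `U = {g | kap (n+1) g = 1}` (open subgroup): `t = eps (n+1)`, `tei n = eps n` there (`kap_tei`, also `kap n = 1` by `kap_cast`). `kummer` on `U` (`N = p^(n+1)`,
`z = z n`, `ε = eps n`, `X = Y`): `y` with `u • y = pw (z n) (Y u) * y`; choose `y'^p = y` (`exists_root`). `y'^(p^(n+2)) = y^(p^(n+1))` is fixed by `U`. `kummer_conv`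
(`N = M`, `z (n+1)`, `ε = eps (n+1)`): `Y'' u = lg M (z (n+1)) (u • y' / y')`, LC1, `eps (n+1)`-crossed on `U`; `cast (Y'' u) = Y u` on `U` (`(u•y'/y')^p = u•y/y`).
So on `U`: `Ỹ - Y'' = j ∘ e`, `e : G → ZMod p` (LC1, put `0` outside `U`), and `D g h = t g (Ỹ-Y'') h + (Ỹ-Y'') g - (Ỹ-Y'') (gh)`, i.e.
`d g h = e g + w g * e h - e (g h)` on `U`: `dζ ∈ Cob U` (coboundary of `pw p ζ (e g)`).
Now `kap_dich`: if all `kap` are trivial then `U = ⊤`. Otherwise `CSys p z s θ`: if `n+1 ≤ s` then `kap (n+1) = 1` (`kap_cast` iterated from `base`), `U = ⊤`.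
Else `n + 1 = s + j`, `U = {g | θ j g = 0}` (`ker`): `cyc` with `H = ⊤`, `N = p^j`, `χ = θ j`, `σ` from `gen`, `K = U`: `dζ / car (p^j) a (θ j) ∈ Cob ⊤`, `a` fixed by `G`, and
`car (p^j) a (θ j) ∈ Cob ⊤` by `HypI`. In all cases `dζ ∈ Cob ⊤`. `mup` (`H = ⊤`, `ω = w`): `d g h = e' g + w g * e' h - e' (g h)` with `e'` LC1.
`Y' g := Ỹ g - j (e' g)`: `Y' g + t g * Y' h - Y' (g h) = D g h - j (e' g + w g e' h - e' (g h)) = 0`. `cast (Y' g) = Y g`.

`yl`: start: `Y 0 g = ((lg p ζ (g•φ/φ)).val : ZMod (p^(0+1)))` (`kummer_conv` with `H = ⊤`, `N = p`, `ε = w`; `tei 0 = eps 0`), then iterate `yl_step`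
(recursion in the subtype of good `Y`'s, dependent choice). -/

namespace BrR

/-- multiplication by `p^m` as a map `ZMod p → ZMod (p^(m+1))` -/
private def yl_j (p m : ℕ) (k : ZMod p) : ZMod (p ^ (m + 1)) :=
  ((p ^ m * k.val : ℕ) : ZMod (p ^ (m + 1)))

private theorem yl_j_nat (p m : ℕ) [NeZero p] (a : ℕ) :
    yl_j p m (a : ZMod p) = ((p ^ m * a : ℕ) : ZMod (p ^ (m + 1))) := by
  unfold yl_j
  rw [ZMod.natCast_eq_natCast_iff, ZMod.val_natCast, pow_succ]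
  exact Nat.ModEq.mul_left' _ (Nat.mod_modEq a p)

private theorem yl_j_add (p m : ℕ) [NeZero p] (a b : ZMod p) :
    yl_j p m (a + b) = yl_j p m a + yl_j p m b := by
  conv_lhs => rw [← ZMod.natCast_zmod_val a, ← ZMod.natCast_zmod_val b, ← Nat.cast_add, yl_j_nat]
  unfold yl_j
  push_cast
  ring

private theorem yl_j_zero (p m : ℕ) [NeZero p] : yl_j p m 0 = 0 := by
  simp [yl_j]

private theorem yl_j_sub (p m : ℕ) [NeZero p] (a b : ZMod p) :
    yl_j p m (a - b) = yl_j p m a - yl_j p m b := by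
  have h := yl_j_add p m (a - b) b
  rw [sub_add_cancel] at h
  rw [h]
  ring

private theorem yl_dvd (p m : ℕ) : p ∣ p ^ (m + 1) := dvd_pow_self p (Nat.succ_ne_zero m)

private theorem yl_dvd' (p m : ℕ) : p ^ m ∣ p ^ (m + 1) := pow_dvd_pow p (Nat.le_succ m)

private theorem yl_j_mul (p m : ℕ) [NeZero p] (t : ZMod (p ^ (m + 1))) (k : ZMod p) :
    t * yl_j p m k = yl_j p m (ZMod.castHom (yl_dvd p m) (ZMod p) t * k) := by
  have h1 : ZMod.castHom (yl_dvd p m) (ZMod p) t = ((t.val : ℕ) : ZMod p) := by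
    rw [ZMod.castHom_apply, ZMod.natCast_val]
  rw [h1]
  conv_rhs => rw [← ZMod.natCast_zmod_val k, ← Nat.cast_mul, yl_j_nat]
  conv_lhs => rw [← ZMod.natCast_zmod_val t]
  unfold yl_j
  push_cast
  ring

private theorem yl_j_inj (p m : ℕ) [NeZero p] {a b : ZMod p} (h : yl_j p m a = yl_j p m b) :
    a = b := by
  unfold yl_j at h
  have hp : 0 < p := Nat.pos_of_ne_zero (NeZero.ne p)
  have hlt : ∀ k : ZMod p, p ^ m * k.val < p ^ (m + 1) := fun k => by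
    rw [pow_succ]
    exact Nat.mul_lt_mul_of_pos_left (ZMod.val_lt k) (pow_pos hp m)
  rw [ZMod.natCast_eq_natCast_iff] at h
  have h2 := Nat.ModEq.eq_of_lt_of_lt h (hlt a) (hlt b)
  exact ZMod.val_injective p (Nat.eq_of_mul_eq_mul_left (pow_pos hp m) h2)

private theorem yl_j_ker (p m : ℕ) [NeZero p] (x : ZMod (p ^ (m + 1)))
    (hx : ZMod.castHom (yl_dvd' p m) (ZMod (p ^ m)) x = 0) : ∃ k, yl_j p m k = x := by
  rw [ZMod.castHom_apply, ← ZMod.natCast_val, ZMod.natCast_eq_zero_iff] at hx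
  obtain ⟨c, hc⟩ := hx
  refine ⟨(c : ZMod p), ?_⟩
  rw [yl_j_nat, ← hc, ZMod.natCast_zmod_val]

private theorem yl_j_cast (p m : ℕ) [NeZero p] (k : ZMod p) :
    ZMod.castHom (yl_dvd' p m) (ZMod (p ^ m)) (yl_j p m k) = 0 := by
  unfold yl_j
  rw [map_natCast]
  rw [ZMod.natCast_eq_zero_iff]
  exact Dvd.intro _ rfl

open Classical in
/-- partial inverse of `yl_j` -/
private noncomputable def yl_i (p m : ℕ) (x : ZMod (p ^ (m + 1))) : ZMod p :=
  if h : ∃ k, yl_j p m k = x then h.choose else 0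

private theorem yl_j_i (p m : ℕ) [NeZero p] (x : ZMod (p ^ (m + 1)))
    (hx : ZMod.castHom (yl_dvd' p m) (ZMod (p ^ m)) x = 0) : yl_j p m (yl_i p m x) = x := by
  have h := yl_j_ker p m x hx
  rw [yl_i, dif_pos h]
  exact h.choose_spec

section

variable {F Ω : Type} [Field F] [Field Ω] [Algebra F Ω]

private theorem yl_kap_one {p : ℕ} [Fact p.Prime] {ζ : Ωˣ} {z : ℕ → Ωˣ} (hz : ZSys p ζ z)
    (n : ℕ) : kap p z n (1 : Gal(Ω/F)) = 1 := by
  rw [kap, eps_one hz, one_pow]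

/-- the kernel of `kap n` -/
private def yl_U {p : ℕ} [Fact p.Prime] {ζ : Ωˣ} {z : ℕ → Ωˣ} (hz : ZSys p ζ z)
    (n : ℕ) : Subgroup Gal(Ω/F) where
  carrier := {g | kap p z n g = 1}
  mul_mem' := by
    intro a b ha hb
    have ha' : kap p z n a = 1 := ha
    have hb' : kap p z n b = 1 := hb
    show kap p z n (a * b) = 1
    rw [kap_mul hz, ha', hb', mul_one]
  one_mem' := yl_kap_one hz n
  inv_mem' := by
    intro a ha
    have ha' : kap p z n a = 1 := ha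
    show kap p z n a⁻¹ = 1
    have h := kap_mul hz n a⁻¹ a
    rw [inv_mul_cancel, yl_kap_one hz, ha', mul_one] at h
    exact h.symm

private theorem yl_mem_U {p : ℕ} [Fact p.Prime] {ζ : Ωˣ} {z : ℕ → Ωˣ} (hz : ZSys p ζ z)
    (n : ℕ) (g : Gal(Ω/F)) : g ∈ yl_U hz n ↔ kap p z n g = 1 := Iff.rfl

private theorem yl_U_open [IsGalois F Ω] {p : ℕ} [Fact p.Prime] {ζ : Ωˣ} {z : ℕ → Ωˣ}
    (hz : ZSys p ζ z) (n : ℕ) : IsOpen ((yl_U hz n : Subgroup Gal(Ω/F)) : Set Gal(Ω/F)) := by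
  obtain ⟨V, hV, h⟩ := kap_lc (F := F) p z n
  refine Subgroup.isOpen_mono (H₁ := V) ?_ hV.2
  intro v hv
  rw [yl_mem_U]
  have := h 1 v hv
  rw [one_mul] at this
  rw [this, yl_kap_one hz]

private theorem yl_kap_down {p : ℕ} [Fact p.Prime] {ζ : Ωˣ} {z : ℕ → Ωˣ} (hz : ZSys p ζ z)
    (g : Gal(Ω/F)) (n : ℕ) (h : kap p z (n + 1) g = 1) : kap p z n g = 1 := by
  rw [← kap_cast hz, h]
  have h1 : (ZMod.castHom (yl_dvd' p (n + 1)) (ZMod (p ^ (n + 1)))) 1 = 1 := map_one _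
  rwa [ZMod.castHom_apply] at h1

private theorem yl_kap_le {p : ℕ} [Fact p.Prime] {ζ : Ωˣ} {z : ℕ → Ωˣ} (hz : ZSys p ζ z)
    (g : Gal(Ω/F)) (n k : ℕ) (h : kap p z (n + k) g = 1) : kap p z n g = 1 := by
  induction k with
  | zero => exact h
  | succ k ih => exact ih (yl_kap_down hz g (n + k) h)

private theorem yl_prim {p : ℕ} {ζ : Ωˣ} {z : ℕ → Ωˣ} (hz : ZSys p ζ z) :
    IsPrimitiveRoot ζ p := by
  have h := hz.prim 0
  rw [hz.zero, zero_add, pow_one] at h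
  exact h

private theorem yl_zpow {p : ℕ} {ζ : Ωˣ} {z : ℕ → Ωˣ} (hz : ZSys p ζ z) (n : ℕ) :
    (z n) ^ (p ^ n) = ζ := by
  induction n with
  | zero => rw [pow_zero, pow_one, hz.zero]
  | succ n ih => rw [pow_succ, mul_comm, pow_mul, hz.pow, ih]

/-- the action on `ζ` in terms of the Teichmueller part -/
private theorem yl_w {p : ℕ} [Fact p.Prime] {ζ : Ωˣ} {z : ℕ → Ωˣ} (hz : ZSys p ζ z) (m : ℕ)
    (g : Gal(Ω/F)) :
    g • ζ = pw p ζ (ZMod.castHom (yl_dvd p m) (ZMod p) (tei p z m g)) := by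
  have : NeZero p := ⟨(Fact.out : p.Prime).ne_zero⟩
  have h1 : ZMod.castHom (yl_dvd p m) (ZMod p) (tei p z m g)
      = (((eps p z m g).val : ℕ) : ZMod p) := by
    rw [tei, map_pow, ZMod.castHom_apply, ← ZMod.natCast_val, ZMod.pow_card_pow]
  rw [h1, pw_natCast (yl_prim hz).pow_eq_one]
  have h2 := eps_spec hz m g
  have h3 : g • ζ = (g • z m) ^ (p ^ m) := by rw [← smul_pow', yl_zpow hz]
  rw [h3, h2, pw, ← pow_mul, mul_comm, pow_mul, yl_zpow hz]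

end

variable {F Ω : Type} [Field F] [Field Ω] [Algebra F Ω] [IsGalois F Ω] [IsSepClosed Ω]

theorem yl_step {p : ℕ} [Fact p.Prime] (hodd : Odd p) (hpΩ : (p : Ω) ≠ 0) {ζ : Ωˣ} {z : ℕ → Ωˣ}
    (hz : ZSys p ζ z) (hI : HypI F p z) (n : ℕ) (Y : Gal(Ω/F) → ZMod (p ^ (n + 1)))
    (hY : LC1 Y) (hY2 : Cr (tei p z n) ⊤ Y) :
    ∃ Y' : Gal(Ω/F) → ZMod (p ^ (n + 1 + 1)), LC1 Y' ∧ Cr (tei p z (n + 1)) ⊤ Y' ∧
      ∀ g, ((Y' g).cast : ZMod (p ^ (n + 1))) = Y g := by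
  have : NeZero p := ⟨(Fact.out : p.Prime).ne_zero⟩
  have hζ := yl_prim hz
  have hζ1 : ζ ^ p = 1 := hζ.pow_eq_one
  -- the reduction maps
  set κ : ZMod (p ^ (n + 1 + 1)) →+* ZMod (p ^ (n + 1)) :=
    ZMod.castHom (yl_dvd' p (n + 1)) (ZMod (p ^ (n + 1))) with hκ
  have hκc : ∀ x : ZMod (p ^ (n + 1 + 1)), κ x = (x.cast : ZMod (p ^ (n + 1))) := fun x => by
    rw [hκ, ZMod.castHom_apply]
  set t : Gal(Ω/F) → ZMod (p ^ (n + 1 + 1)) := tei p z (n + 1) with ht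
  set w : Gal(Ω/F) → ZMod p := fun g => ZMod.castHom (yl_dvd p (n + 1)) (ZMod p) (t g) with hw
  have hwζ : ∀ g : Gal(Ω/F), g • ζ = pw p ζ (w g) := fun g => yl_w hz (n + 1) g
  have hact : ∀ (g : Gal(Ω/F)) (a : ZMod p), g • pw p ζ a = pw p ζ (w g * a) := fun g a => by
    rw [smul_pw, hwζ, pw_mul hζ1, pw]
  have htj : ∀ g (a : ZMod p), t g * yl_j p (n + 1) a = yl_j p (n + 1) (w g * a) := fun g a =>
    yl_j_mul p (n + 1) (t g) a
  have htm : ∀ g h : Gal(Ω/F), t (g * h) = t g * t h := fun g h => tei_mul hz (n + 1) g h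
  have htc : ∀ g : Gal(Ω/F), κ (t g) = tei p z n g := fun g => by
    rw [hκc, ht, tei_cast hz]
  have hwm : ∀ g h : Gal(Ω/F), w (g * h) = w g * w h := fun g h => by
    simp only [hw, htm, map_mul]
  set T : Gal(Ω/F) → ZMod (p ^ (n + 1 + 1)) := fun g => (((Y g).val : ℕ) : ZMod (p ^ (n + 1 + 1)))
    with hT
  have hTc : ∀ g, κ (T g) = Y g := fun g => by
    rw [hT]
    show κ (((Y g).val : ℕ) : ZMod (p ^ (n + 1 + 1))) = Y g
    rw [map_natCast, ZMod.natCast_zmod_val]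
  have hTl : LC1 T := hY.comp (fun y => (((y).val : ℕ) : ZMod (p ^ (n + 1 + 1))))
  have htl : LC1 t := tei_lc p z (n + 1)
  set D : Gal(Ω/F) → Gal(Ω/F) → ZMod (p ^ (n + 1 + 1)) :=
    fun g h => T g + t g * T h - T (g * h) with hD
  have hDk : ∀ g h, κ (D g h) = 0 := fun g h => by
    simp only [hD, map_sub, map_add, map_mul, hTc, htc]
    rw [hY2 g (Subgroup.mem_top g) h (Subgroup.mem_top h), sub_self]
  have hDl : LC2 D :=
    ((hTl.fst.comp₂ (htl.fst.comp₂ hTl.snd (· * ·)) (· + ·)).comp₂ hTl.mul' (· - ·))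
  set d : Gal(Ω/F) → Gal(Ω/F) → ZMod p := fun g h => yl_i p (n + 1) (D g h) with hd
  have hdD : ∀ g h, yl_j p (n + 1) (d g h) = D g h := fun g h =>
    yl_j_i p (n + 1) (D g h) (hDk g h)
  have hdl : LC2 d := hDl.comp (yl_i p (n + 1))
  have hdc : ∀ g h k, w g * d h k + d g (h * k) = d (g * h) k + d g h := fun g h k => by
    apply yl_j_inj p (n + 1)
    rw [yl_j_add, yl_j_add, ← htj, hdD, hdD, hdD, hdD]
    simp only [hD, htm, mul_assoc]
    ring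
  have hζd : (fun g h => pw p ζ (d g h)) ∈ Coc (⊤ : Subgroup Gal(Ω/F)) := by
    refine ⟨hdl.comp (pw p ζ), fun g _ h _ k _ => ?_⟩
    show g • pw p ζ (d h k) * pw p ζ (d g (h * k)) = pw p ζ (d (g * h) k) * pw p ζ (d g h)
    rw [hact, ← pw_add hζ1, ← pw_add hζ1, hdc]
  -- the class is trivial on `U`
  have hU : (fun g h => pw p ζ (d g h)) ∈ Cob (yl_U (F := F) hz (n + 1)) := by
    have hε : ∀ g ∈ yl_U (F := F) hz (n + 1), eps p z (n + 1) g = t g := fun g hg => by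
      rw [← kap_tei hodd hz, (yl_mem_U hz (n + 1) g).1 hg, one_mul, ht]
    have hε' : ∀ g ∈ yl_U (F := F) hz (n + 1), eps p z n g = tei p z n g := fun g hg => by
      rw [← kap_tei hodd hz, yl_kap_down hz g n ((yl_mem_U hz (n + 1) g).1 hg), one_mul]
    obtain ⟨y, hy⟩ := kummer (yl_U_open (F := F) hz (n + 1)) (hz.prim n) (eps p z n)
      (fun g _ => eps_spec hz n g) Y hY (fun g hg h _ => by
        rw [hε' g hg]
        exact hY2 g (Subgroup.mem_top g) h (Subgroup.mem_top h))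
    obtain ⟨y', hy'⟩ := exists_root p hpΩ y
    have hfix : ∀ h ∈ yl_U (F := F) hz (n + 1), h • (y' ^ (p ^ (n + 1 + 1))) = y' ^ (p ^ (n + 1 + 1)) := by
      intro h hh
      have h1 : y' ^ (p ^ (n + 1 + 1)) = y ^ (p ^ (n + 1)) := by
        rw [pow_succ (p) (n + 1), mul_comm, pow_mul, hy']
      rw [h1, smul_pow', hy h hh, mul_pow, pw_pow_self (hz.prim n).pow_eq_one, one_mul]
    obtain ⟨hX1, hX2, hX3⟩ := kummer_conv (hz.prim (n + 1)) (eps p z (n + 1))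
      (fun g _ => eps_spec hz (n + 1) g) y' hfix
    set X : Gal(Ω/F) → ZMod (p ^ (n + 1 + 1)) :=
      fun g => lg (p ^ (n + 1 + 1)) (z (n + 1)) (g • y' / y') with hX
    have hXc : ∀ g ∈ yl_U (F := F) hz (n + 1), κ (X g) = Y g := by
      intro g hg
      apply pw_injective (hz.prim n)
      have h1 : κ (X g) = (((X g).val : ℕ) : ZMod (p ^ (n + 1))) := by
        rw [hκc, ZMod.natCast_val]
      rw [h1, pw_natCast (hz.prim n).pow_eq_one, ← hz.pow n, ← pow_mul, mul_comm, pow_mul]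
      have h2 : (z (n + 1)) ^ (X g).val = g • y' / y' := hX2 g hg
      rw [h2, div_pow, ← smul_pow', hy', hz.pow n, hy g hg, mul_div_assoc, div_self', mul_one]
    classical
    set e : Gal(Ω/F) → ZMod p := fun g => yl_i p (n + 1) (T g - X g) with he
    have hel : LC1 e := (hTl.comp₂ hX1 (· - ·)).comp (yl_i p (n + 1))
    have hej : ∀ g ∈ yl_U (F := F) hz (n + 1), yl_j p (n + 1) (e g) = T g - X g := fun g hg => by
      apply yl_j_i p (n + 1) (T g - X g)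
      show κ (T g - X g) = 0
      rw [map_sub, hTc, hXc g hg, sub_self]
    refine ⟨fun g => pw p ζ (e g), hel.comp (pw p ζ), fun g hg h hh => ?_⟩
    show pw p ζ (d g h) = pw p ζ (e g) * g • pw p ζ (e h) / pw p ζ (e (g * h))
    rw [hact, ← pw_add hζ1, ← pw_sub hζ1]
    congr 1
    apply yl_j_inj p (n + 1)
    rw [yl_j_sub, yl_j_add, ← htj, hdD, hej g hg, hej h hh,
      hej (g * h) (Subgroup.mul_mem _ hg hh)]
    have h3 := hX3 g hg h hh
    rw [hε g hg] at h3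
    have h4 : X (g * h) = X g + t g * X h := h3
    rw [h4]
    simp only [hD]
    ring
  -- the class is trivial
  have hC : (fun g h => pw p ζ (d g h)) ∈ Cob (⊤ : Subgroup Gal(Ω/F)) := by
    rcases kap_dich (F := F) hodd hz with h1 | ⟨s, θ, hθ⟩
    · exact Cob_anti (fun g _ => (yl_mem_U hz (n + 1) g).2 (h1 (n + 1) g)) hU
    · rcases Nat.le_total (n + 1) s with h2 | h2
      · obtain ⟨k, rfl⟩ := Nat.exists_eq_add_of_le h2
        exact Cob_anti (fun g _ => (yl_mem_U hz (n + 1) g).2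
          (yl_kap_le hz g (n + 1) k (hθ.base g))) hU
      · obtain ⟨j, hj⟩ := Nat.exists_eq_add_of_le h2
        obtain ⟨σ, hσ⟩ := hθ.gen
        have hker : ∀ g, θ j g = 0 ↔ kap p z (n + 1) g = 1 := fun g => by
          rw [hθ.ker j g, hj]
        obtain ⟨a, ha, hca⟩ := cyc (H := ⊤) ON.top.2 (θ j) (hθ.lc j) (hθ.hm j) σ
          (Subgroup.mem_top σ) (hσ j) (yl_U (F := F) hz (n + 1))
          (fun g => by
            rw [yl_mem_U, ← hker]
            exact ⟨fun h => ⟨Subgroup.mem_top g, h⟩, fun h => h.2⟩)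
          (fun g h => pw p ζ (d g h)) hζd hU
        have h5 := hI s θ hθ j a (fun g => ha g (Subgroup.mem_top g))
        have h6 := (Cob (⊤ : Subgroup Gal(Ω/F))).mul_mem hca h5
        rwa [div_mul_cancel] at h6
  obtain ⟨e, hel, hee⟩ := mup (H := ⊤) ON.top.2 hpΩ hζ w (fun g _ => hwζ g) d hC
  refine ⟨fun g => T g - yl_j p (n + 1) (e g), hTl.comp₂ (hel.comp (yl_j p (n + 1))) (· - ·),
    fun g _ h _ => ?_, fun g => ?_⟩
  · show T (g * h) - yl_j p (n + 1) (e (g * h)) = (T g - yl_j p (n + 1) (e g))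
      + t g * (T h - yl_j p (n + 1) (e h))
    have h1 := hee g (Subgroup.mem_top g) h (Subgroup.mem_top h)
    have h2 : e (g * h) = e g + w g * e h - d g h := by rw [h1]; ring
    rw [h2, yl_j_sub, yl_j_add, ← htj, hdD]
    simp only [hD]
    ring
  · rw [← hκc, map_sub, hTc]
    rw [hκ, yl_j_cast, sub_zero]

theorem yl {p : ℕ} [Fact p.Prime] (hodd : Odd p) (hpΩ : (p : Ω) ≠ 0) {ζ : Ωˣ} {z : ℕ → Ωˣ}
    (hz : ZSys p ζ z) (hI : HypI F p z) (φ : Ωˣ) (hφ : ∀ g : Gal(Ω/F), g • (φ ^ p) = φ ^ p) :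
    ∃ Y : ∀ n : ℕ, Gal(Ω/F) → ZMod (p ^ (n + 1)), (∀ n, LC1 (Y n)) ∧
      (∀ n, Cr (tei p z n) ⊤ (Y n)) ∧
      (∀ n g, ((Y (n + 1) g).cast : ZMod (p ^ (n + 1))) = Y n g) ∧
      ∀ g, ((Y 0 g).cast : ZMod p) = lg p ζ (g • φ / φ) := by
  have : NeZero p := ⟨(Fact.out : p.Prime).ne_zero⟩
  have hζ := yl_prim hz
  -- the starting cocycle
  obtain ⟨Y0, h01, h02, h03⟩ : ∃ Y0 : Gal(Ω/F) → ZMod (p ^ (0 + 1)), LC1 Y0 ∧
      Cr (tei p z 0) ⊤ Y0 ∧ ∀ g, ((Y0 g).cast : ZMod p) = lg p ζ (g • φ / φ) := by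
    have hζ0 : IsPrimitiveRoot ζ (p ^ (0 + 1)) := by
      have := hz.prim 0
      rwa [hz.zero] at this
    have hε : ∀ g ∈ (⊤ : Subgroup Gal(Ω/F)), g • ζ = pw (p ^ (0 + 1)) ζ (tei p z 0 g) := by
      intro g _
      have h := eps_spec hz 0 g
      rw [hz.zero] at h
      have h1 : tei p z 0 g = eps p z 0 g := by
        show eps p z 0 g ^ (p ^ 0) = eps p z 0 g
        rw [pow_zero p]
        exact pow_one _
      rw [h1]
      exact h
    obtain ⟨h1, h2, h3⟩ := kummer_conv (H := ⊤) hζ0 (tei p z 0) hε φ (fun g _ => by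
      rw [zero_add, pow_one]
      exact hφ g)
    refine ⟨_, h1, h3, fun g => ?_⟩
    apply pw_injective hζ
    have h4 := h2 g (Subgroup.mem_top g)
    have h5 : (g • φ / φ) ^ p = 1 := by
      rw [div_pow, ← smul_pow', hφ g, div_self']
    rw [pw_lg hζ h5]
    conv_rhs => rw [← h4]
    rw [← ZMod.natCast_val, pw_natCast hζ.pow_eq_one, pw]
  choose! nx hnx using fun (n : ℕ) (Y : {Y : Gal(Ω/F) → ZMod (p ^ (n + 1)) //
      LC1 Y ∧ Cr (tei p z n) ⊤ Y}) => yl_step hodd hpΩ hz hI n Y.1 Y.2.1 Y.2.2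
  let W : ∀ n : ℕ, {Y : Gal(Ω/F) → ZMod (p ^ (n + 1)) // LC1 Y ∧ Cr (tei p z n) ⊤ Y} :=
    fun n => Nat.rec (motive := fun n => {Y : Gal(Ω/F) → ZMod (p ^ (n + 1)) //
      LC1 Y ∧ Cr (tei p z n) ⊤ Y}) ⟨Y0, h01, h02⟩
      (fun n Y => ⟨nx n Y, (hnx n Y).1, (hnx n Y).2.1⟩) n
  refine ⟨fun n => (W n).1, fun n => (W n).2.1, fun n => (W n).2.2, fun n g => ?_, h03⟩
  exact (hnx n (W n)).2.2 g

end BrR
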