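import Pool.Agent.H48.BR.Xl
import Pool.Agent.H48.BR.Yl
import Pool.Agent.H48.BR.Cra

set_option autoImplicit false

/-! # Row Cn: divisible sequences (about 150 lines)

* `case2`: `c_n (g,h) = pw (p^(n+1)) (z n) (Y n g * kap n g * X n h)`. Cocycle: exponents (with `g • z n = pw (z n) (eps g)`, `eps = kap * tei`):
  `eps g * (Y h * kap h * X k) + Y g * kap g * X (h k) = Y (g h) * kap (g h) * X k + Y g * kap g * X h` using `X (hk) = X h + kap h * X k`,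
  `Y (gh) = Y g + tei g * Y h`, `kap (gh) = kap g * kap h` (`ring` after substitution). LC2: `LC1.fst/snd`, `comp₂`. `c_{n+1}^p = c_n`:
  `(z (n+1))^(val * p) = (z n)^val` and `(z n)^(val E)` depends only on `E` mod `p^(n+1)`, `cast E_{n+1} = E_n` (`kap_cast`, compatibility of `X, Y`; `cast` is a ring hom
  `ZMod.castHom (dvd)`). `c_0 = cp p ζ φ χ`: `z 0 = ζ`, `kap 0 = 1`, and `ζ^(val)` depends only on the exponent mod `p`.
* `case1`: `y k = car (p^(j+k)) a (θ (j+k))`: `car_coc`, `car_pow` (with `CSys.cast`), `car_self`. -/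

namespace BrR

variable {F Ω : Type} [Field F] [Field Ω] [Algebra F Ω]

/-- a sequence of classes generating a nonzero divisible `p`-primary subgroup of the Brauer group `H²(G, Ωˣ)` -/
def DivSeq (p : ℕ) (y : ℕ → Gal(Ω/F) → Gal(Ω/F) → Ωˣ) : Prop :=
  (∀ n, y n ∈ Coc (⊤ : Subgroup Gal(Ω/F))) ∧ y 0 ∉ Cob (⊤ : Subgroup Gal(Ω/F)) ∧
    (∃ k, (y 0) ^ (p ^ k) ∈ Cob (⊤ : Subgroup Gal(Ω/F))) ∧
    ∀ n, (y (n + 1)) ^ p / y n ∈ Cob (⊤ : Subgroup Gal(Ω/F))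

theorem Cn_pow {p : ℕ} [Fact p.Prime] {ζ : Ωˣ} {z : ℕ → Ωˣ} (hz : ZSys p ζ z) (n : ℕ)
    (E : ZMod (p ^ (n + 1 + 1))) :
    (pw (p ^ (n + 1 + 1)) (z (n + 1)) E) ^ p =
      pw (p ^ (n + 1)) (z n) (E.cast : ZMod (p ^ (n + 1))) := by
  have : NeZero p := ⟨(Fact.out : p.Prime).ne_zero⟩
  rw [← ZMod.natCast_val, pw_natCast (hz.prim n).pow_eq_one, pw, ← pow_mul, mul_comm, pow_mul,
    hz.pow n]

theorem Cn_zero {p : ℕ} [Fact p.Prime] {ζ : Ωˣ} {z : ℕ → Ωˣ} (hz : ZSys p ζ z)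
    (E : ZMod (p ^ (0 + 1))) :
    pw (p ^ (0 + 1)) (z 0) E = pw p ζ (E.cast : ZMod p) := by
  have : NeZero p := ⟨(Fact.out : p.Prime).ne_zero⟩
  have h1 : ζ ^ p = 1 := by
    have h := (hz.prim 0).pow_eq_one
    rwa [hz.zero, zero_add, pow_one] at h
  rw [← ZMod.natCast_val, pw_natCast h1, pw, hz.zero]

variable [IsGalois F Ω] [IsSepClosed Ω]

theorem case2 {p : ℕ} [Fact p.Prime] (hodd : Odd p) (hpΩ : (p : Ω) ≠ 0) {ζ : Ωˣ} {z : ℕ → Ωˣ}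
    (hz : ZSys p ζ z) (hm : Nat.Coprime (Gz (F := F) ζ).index p) (hI : HypI F p z)
    (φ : Ωˣ) (hφ : ∀ g : Gal(Ω/F), g • (φ ^ p) = φ ^ p) (χ : Gal(Ω/F) → ZMod p) (hχ : LC1 χ)
    (hχ2 : Hm ⊤ χ) (hne : cp p ζ φ χ ∉ Cob (⊤ : Subgroup Gal(Ω/F))) :
    ∃ y : ℕ → Gal(Ω/F) → Gal(Ω/F) → Ωˣ, DivSeq p y := by
  have hNZ : NeZero p := ⟨(Fact.out : p.Prime).ne_zero⟩
  obtain ⟨X, hX1, hX2, hX3, hX4⟩ := xl hodd hpΩ hz hm χ hχ hχ2
  obtain ⟨Y, hY1, hY2, hY3, hY4⟩ := yl hodd hpΩ hz hI φ hφ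
  refine ⟨fun n g h => pw (p ^ (n + 1)) (z n) (Y n g * kap p z n g * X n h), ?_, ?_, ?_, ?_⟩
  · intro n
    refine ⟨?_, ?_⟩
    · exact (LC1.fst ((hY1 n).comp₂ (kap_lc p z n) (· * ·))).comp₂ (LC1.snd (hX1 n))
        (fun a b => pw (p ^ (n + 1)) (z n) (a * b))
    · intro g _ h _ k _
      have h1 : g • pw (p ^ (n + 1)) (z n) (Y n h * kap p z n h * X n k) =
          pw (p ^ (n + 1)) (z n) (eps p z n g * (Y n h * kap p z n h * X n k)) := by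
        rw [smul_pw, eps_spec hz n g, pw_mul (hz.prim n).pow_eq_one]
        rfl
      rw [h1, ← pw_add (hz.prim n).pow_eq_one, ← pw_add (hz.prim n).pow_eq_one]
      congr 1
      rw [← kap_tei hodd hz n g, hX2 n h (Subgroup.mem_top _) k (Subgroup.mem_top _),
        hY2 n g (Subgroup.mem_top _) h (Subgroup.mem_top _), kap_mul hz n g h]
      ring
  · have h1 : (fun g h => pw (p ^ (0 + 1)) (z 0) (Y 0 g * kap p z 0 g * X 0 h)) = cp p ζ φ χ := by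
      funext g h
      have hdvd : p ∣ p ^ (0 + 1) := by rw [zero_add, pow_one]
      rw [kap_zero hodd hz, mul_one, Cn_zero hz, ZMod.cast_mul hdvd, hY4, hX4, cp]
    show (fun g h => pw (p ^ (0 + 1)) (z 0) (Y 0 g * kap p z 0 g * X 0 h)) ∉ Cob _
    rw [h1]
    exact hne
  · refine ⟨1, ?_⟩
    have h1 : (fun g h => pw (p ^ (0 + 1)) (z 0) (Y 0 g * kap p z 0 g * X 0 h)) ^ (p ^ 1) =
        (1 : Gal(Ω/F) → Gal(Ω/F) → Ωˣ) := by
      funext g h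
      exact pw_pow_self (hz.prim 0).pow_eq_one _
    show (fun g h => pw (p ^ (0 + 1)) (z 0) (Y 0 g * kap p z 0 g * X 0 h)) ^ (p ^ 1) ∈ Cob _
    rw [h1]
    exact one_mem _
  · intro n
    have h1 : (fun g h => pw (p ^ (n + 1 + 1)) (z (n + 1))
        (Y (n + 1) g * kap p z (n + 1) g * X (n + 1) h)) ^ p =
        (fun g h => pw (p ^ (n + 1)) (z n) (Y n g * kap p z n g * X n h) :
          Gal(Ω/F) → Gal(Ω/F) → Ωˣ) := by
      funext g h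
      have hdvd : p ^ (n + 1) ∣ p ^ (n + 1 + 1) := pow_dvd_pow _ (Nat.le_succ _)
      rw [Pi.pow_apply, Pi.pow_apply, Cn_pow hz, ZMod.cast_mul hdvd, ZMod.cast_mul hdvd, hY3, hX3,
        kap_cast hz]
    show (fun g h => pw (p ^ (n + 1 + 1)) (z (n + 1))
        (Y (n + 1) g * kap p z (n + 1) g * X (n + 1) h)) ^ p / _ ∈ _
    rw [h1, div_self']
    exact one_mem _

theorem case1 {p : ℕ} [Fact p.Prime] {z : ℕ → Ωˣ} {s : ℕ}
    {θ : ∀ j : ℕ, Gal(Ω/F) → ZMod (p ^ j)} (hθ : CSys p z s θ) (j : ℕ) (a : Ωˣ)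
    (ha : ∀ g : Gal(Ω/F), g • a = a)
    (hne : car (p ^ j) a (θ j) ∉ Cob (⊤ : Subgroup Gal(Ω/F))) :
    ∃ y : ℕ → Gal(Ω/F) → Gal(Ω/F) → Ωˣ, DivSeq p y := by
  have hNZ : NeZero p := ⟨(Fact.out : p.Prime).ne_zero⟩
  refine ⟨fun k => car (p ^ (j + k)) a (θ (j + k)), ?_, hne, ⟨j, ?_⟩, ?_⟩
  · intro n
    exact car_coc (fun h _ => ha h) (hθ.lc _) (hθ.hm _)
  · exact car_self (fun h _ => ha h) (hθ.lc _) (hθ.hm _)
  · intro n
    exact car_pow (fun h _ => ha h) (hθ.lc _) (hθ.hm _) (hθ.cast (j + n))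

end BrR
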