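import Mathlib

set_option autoImplicit false

/-! # Twisted Steinberg symbols

`N` a field, `γ : N ≃+* N`, `L` a subfield of `N`.
`B : N → N → V` is (on nonzero elements) a Steinberg symbol with values in a `ZMod p`-module with
`B (γ a) (γ b) = ω • B a b` and `B f b = 0` for `f ∈ L` fixed by `γ`. -/

namespace BrR

/-- the data of a twisted Steinberg symbol -/
structure TwSym (p : ℕ) (N : Type*) [Field N] (V : Type*) [AddCommGroup V] [Module (ZMod p) V]
    (L : Subfield N) (γ : N ≃+* N) (ω : ZMod p) where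
  B : N → N → V
  mul_left : ∀ a b c, a ≠ 0 → b ≠ 0 → c ≠ 0 → B (a * b) c = B a c + B b c
  mul_right : ∀ a b c, a ≠ 0 → b ≠ 0 → c ≠ 0 → B a (b * c) = B a b + B a c
  steinberg : ∀ a b, a ≠ 0 → b ≠ 0 → a + b = 1 → B a b = 0
  equi : ∀ a b, a ≠ 0 → b ≠ 0 → B (γ a) (γ b) = ω • B a b
  fixed : ∀ f b, f ≠ 0 → b ≠ 0 → f ∈ L → γ f = f → B f b = 0

namespace TwSym

variable {p : ℕ} {N : Type*} [Field N] {V : Type*} [AddCommGroup V] [Module (ZMod p) V]
  {L : Subfield N} {γ : N ≃+* N} {ω : ZMod p} (S : TwSym p N V L γ ω)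

include S

theorem one_left (b : N) (hb : b ≠ 0) : S.B 1 b = 0 := by
  have := S.mul_left 1 1 b one_ne_zero one_ne_zero hb
  simpa using this

theorem one_right (b : N) (hb : b ≠ 0) : S.B b 1 = 0 := by
  have := S.mul_right b 1 1 hb one_ne_zero one_ne_zero
  simpa using this

theorem inv_left (a b : N) (ha : a ≠ 0) (hb : b ≠ 0) : S.B a⁻¹ b = - S.B a b := by
  have h := S.mul_left a a⁻¹ b ha (inv_ne_zero ha) hb
  rw [mul_inv_cancel₀ ha, S.one_left b hb] at h
  exact (neg_eq_of_add_eq_zero_right h.symm).symm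

theorem inv_right (a b : N) (ha : a ≠ 0) (hb : b ≠ 0) : S.B a b⁻¹ = - S.B a b := by
  have h := S.mul_right a b b⁻¹ ha hb (inv_ne_zero hb)
  rw [mul_inv_cancel₀ hb, S.one_right a ha] at h
  exact (neg_eq_of_add_eq_zero_right h.symm).symm

theorem div_left (a b c : N) (ha : a ≠ 0) (hb : b ≠ 0) (hc : c ≠ 0) :
    S.B (a / b) c = S.B a c - S.B b c := by
  rw [div_eq_mul_inv, S.mul_left _ _ _ ha (inv_ne_zero hb) hc, S.inv_left b c hb hc, sub_eq_add_neg]

theorem div_right (a b c : N) (ha : a ≠ 0) (hb : b ≠ 0) (hc : c ≠ 0) :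
    S.B a (b / c) = S.B a b - S.B a c := by
  rw [div_eq_mul_inv, S.mul_right _ _ _ ha hb (inv_ne_zero hc), S.inv_right a c ha hc,
    sub_eq_add_neg]

theorem pow_left (a b : N) (ha : a ≠ 0) (hb : b ≠ 0) (n : ℕ) :
    S.B (a ^ n) b = (n : ZMod p) • S.B a b := by
  induction n with
  | zero => simp [S.one_left b hb]
  | succ n ih =>
    rw [pow_succ, S.mul_left _ _ _ (pow_ne_zero _ ha) ha hb, ih]
    push_cast
    rw [add_smul, one_smul]

theorem pow_right (a b : N) (ha : a ≠ 0) (hb : b ≠ 0) (n : ℕ) :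
    S.B a (b ^ n) = (n : ZMod p) • S.B a b := by
  induction n with
  | zero => simp [S.one_right a ha]
  | succ n ih =>
    rw [pow_succ, S.mul_right _ _ _ ha (pow_ne_zero _ hb) hb, ih]
    push_cast
    rw [add_smul, one_smul]

/-- `-1` is trivial (as it is fixed). -/
theorem neg_one_left (b : N) (hb : b ≠ 0) : S.B (-1) b = 0 :=
  S.fixed _ _ (by simp) hb (neg_mem (one_mem L)) (by simp)

theorem neg_left (a b : N) (ha : a ≠ 0) (hb : b ≠ 0) : S.B (-a) b = S.B a b := by
  rw [← neg_one_mul, S.mul_left _ _ _ (by simp) ha hb, S.neg_one_left b hb, zero_add]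

theorem self_neg (a : N) (ha : a ≠ 0) : S.B a (-a) = 0 := by
  by_cases h1 : a = 1
  · subst h1; exact S.one_left _ (by simp)
  have h2 : 1 - a ≠ 0 := sub_ne_zero.mpr (Ne.symm h1)
  have h3 : 1 - a⁻¹ ≠ 0 := by
    intro h
    apply h1
    have := sub_eq_zero.mp h
    exact (inv_eq_one.mp this.symm)
  have h4 : -a = (1 - a) / (1 - a⁻¹) := by
    rw [eq_div_iff h3]
    field_simp
    ring
  rw [h4, S.div_right _ _ _ ha h2 h3, S.steinberg a (1 - a) ha h2 (by ring), zero_sub,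
    ← S.inv_left a (1 - a⁻¹) ha h3, S.steinberg a⁻¹ (1 - a⁻¹) (inv_ne_zero ha) h3 (by ring)]

theorem anti (a b : N) (ha : a ≠ 0) (hb : b ≠ 0) : S.B a b = - S.B b a := by
  have h1 := S.self_neg (a * b) (mul_ne_zero ha hb)
  have h2 := S.self_neg a ha
  have h3 := S.self_neg b hb
  rw [S.mul_left a b _ ha hb (by simp [ha, hb])] at h1
  rw [show -(a * b) = (-a) * b by ring, S.mul_right a (-a) b ha (by simpa using ha) hb, h2,
    zero_add, show (-a) * b = a * (-b) by ring, S.mul_right b a (-b) hb ha (by simpa using hb),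
    h3, add_zero] at h1
  exact eq_neg_of_add_eq_zero_left h1

theorem neg_right (a b : N) (ha : a ≠ 0) (hb : b ≠ 0) : S.B a (-b) = S.B a b := by
  rw [S.anti a (-b) ha (by simpa using hb), S.neg_left b a hb ha, ← S.anti a b ha hb]

theorem self (a : N) (ha : a ≠ 0) : S.B a a = 0 := by
  rw [← S.neg_right a a ha ha]; exact S.self_neg a ha

theorem fixed_right (f b : N) (hf : f ≠ 0) (hb : b ≠ 0) (hL : f ∈ L) (hγ : γ f = f) :
    S.B b f = 0 := by
  rw [S.anti b f hb hf, S.fixed f b hf hb hL hγ, neg_zero]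

/-- The Steinberg relation in homogeneous form. -/
theorem st3 (a b c : N) (ha : a ≠ 0) (hb : b ≠ 0) (hc : c ≠ 0) (h : a + b = c) :
    S.B a b = S.B a c + S.B c b := by
  have h1 : a / c + b / c = 1 := by rw [← add_div, h, div_self hc]
  have h2 := S.steinberg _ _ (div_ne_zero ha hc) (div_ne_zero hb hc) h1
  rw [S.div_left _ _ _ ha hc (div_ne_zero hb hc), S.div_right _ _ _ ha hb hc,
    S.div_right _ _ _ hc hb hc, S.self c hc, sub_zero, sub_eq_zero, sub_eq_iff_eq_add] at h2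
  rw [h2, add_comm]

/-- if `a ^ 2` is trivial then so is `a` -/
theorem of_sq (h2 : (2 : ZMod p) ≠ 0) [Fact p.Prime] (a b : N) (ha : a ≠ 0) (hb : b ≠ 0)
    (h : S.B (a * a) b = 0) : S.B a b = 0 := by
  rw [S.mul_left a a b ha ha hb, ← two_smul (ZMod p)] at h
  exact (smul_eq_zero.mp h).resolve_left h2

/-- if `a ^ 3` is trivial then so is `a` -/
theorem of_cube (h3 : (3 : ZMod p) ≠ 0) [Fact p.Prime] (a b : N) (ha : a ≠ 0) (hb : b ≠ 0)
    (h : S.B (a ^ 3) b = 0) : S.B a b = 0 := by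
  rw [S.pow_left a b ha hb] at h
  exact (smul_eq_zero.mp h).resolve_left (by exact_mod_cast h3)

end TwSym

end BrR
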