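import Pool.Agent.H48.BR.Core6

set_option autoImplicit false

/-! # The case `[L : F] = 4` -/

namespace BrR

namespace TwSym

variable {p : ℕ} [Fact p.Prime] {N : Type*} [Field N] {V : Type*} [AddCommGroup V]
  [Module (ZMod p) V] {L : Subfield N} {γ : N ≃+* N} {ω : ZMod p} (S : TwSym p N V L γ ω)

include S

/-- `κ = γ²` acts by `-1`. -/
theorem four_kappa (hω : ω ^ 2 = -1) (x y : N) (hx : x ≠ 0) (hy : y ≠ 0) :
    S.B (γ (γ x)) (γ (γ y)) = - S.B x y := by
  rw [S.equi _ _ (by simpa using hx) (by simpa using hy), S.equi x y hx hy, smul_smul]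
  have h1 : ω * ω = -1 := by rw [← hω]; ring
  rw [h1, neg_smul, one_smul]

/-- `B (K) (K) = 0` -/
theorem four_K (hω : ω ^ 2 = -1) (h2 : (2 : ZMod p) ≠ 0) (x y : N) (hx : x ≠ 0)
    (hy : y ≠ 0) (hx2 : γ (γ x) = x) (hy2 : γ (γ y) = y) : S.B x y = 0 := by
  have h := S.four_kappa hω x y hx hy
  rw [hx2, hy2] at h
  have h1 : (2 : ZMod p) • S.B x y = 0 := by
    rw [two_smul]
    linear_combination (norm := abel) h
  exact (smul_eq_zero.mp h1).resolve_left h2

/-- `B w (κ w) = 2 B w t`, `t = w + κ w ≠ 0` -/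
theorem four_i (hω : ω ^ 2 = -1) (h4 : ∀ x, γ (γ (γ (γ x))) = x) (w t : N) (hw : w ≠ 0)
    (ht : t ≠ 0) (h : w + γ (γ w) = t) : S.B w (γ (γ w)) = (2 : ZMod p) • S.B w t := by
  have hk : γ (γ w) ≠ 0 := by simpa using hw
  have h1 := S.st3 w (γ (γ w)) t hw hk ht h
  have h3 := S.four_kappa hω t w ht hw
  have h5 : γ (γ t) = t := by
    rw [← h]
    simp only [map_add, h4]
    ring
  rw [h5] at h3
  rw [h1, h3, S.anti t w ht hw, neg_neg, two_smul]

/-- the key computation -/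
theorem four_key (hω : ω ^ 2 = -1) (h2 : (2 : ZMod p) ≠ 0)
    (hL : ∀ x ∈ L, γ x ∈ L) (h4 : ∀ x, γ (γ (γ (γ x))) = x)
    (v r s x : N) (hv : v ∈ L) (hv0 : v ≠ 0) (hv1 : v + γ (γ v) = 1)
    (hr : r ∈ L) (hs : s ∈ L) (hγr : γ r = r) (hγs : γ s = s) (hr0 : r ≠ 0)
    (hv' : r * v + s ≠ 0) (hrs : r + 2 * s = 1)
    (hx : x = s + r * (v + γ v - 2 * v * γ v)) (hx0 : x ≠ 0) : S.B v x = 0 := by
  obtain ⟨v1, hv1'⟩ : ∃ v1, γ v = v1 := ⟨_, rfl⟩
  rw [hv1'] at hv1 hx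
  have hκv : γ v1 = 1 - v := by linear_combination hv1
  have hv10 : v1 ≠ 0 := by rw [← hv1']; simpa using hv0
  have hκv0 : 1 - v ≠ 0 := by rw [← hκv]; simpa using hv10
  have hκv1 : 1 - v1 ≠ 0 := by
    have : γ (1 - v) = 1 - v1 := by rw [map_sub, map_one, hv1']
    rw [← this]
    exact (map_ne_zero γ).mpr hκv0
  have hv1L : v1 ∈ L := hv1' ▸ hL v hv
  have h2L : (2 : N) ∈ L := by
    have : (2 : N) = 1 + 1 := by norm_num
    rw [this]; exact add_mem (one_mem L) (one_mem L)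
  -- `v' = r v + s`
  obtain ⟨z, hz⟩ : ∃ z, r * v + s = z := ⟨_, rfl⟩
  rw [hz] at hv'
  have hzL : z ∈ L := hz ▸ add_mem (mul_mem hr hv) hs
  obtain ⟨u, hu⟩ : ∃ u, γ z = u := ⟨_, rfl⟩
  have hu' : u = r * v1 + s := by rw [← hu, ← hz, map_add, map_mul, hγr, hγs, hv1']
  have hu0 : u ≠ 0 := by rw [← hu]; simpa using hv'
  have hγu : γ u = 1 - z := by
    rw [hu', map_add, map_mul, hγr, hγs, hκv, ← hz]
    linear_combination hrs
  have hz1 : 1 - z ≠ 0 := by rw [← hγu]; simpa using hu0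
  have hu1 : 1 - u ≠ 0 := by
    have : γ (1 - z) = 1 - u := by rw [map_sub, map_one, hu]
    rw [← this]
    exact (map_ne_zero γ).mpr hz1
  -- traces
  have hγ2u : γ (γ u) = 1 - u := by rw [hγu, map_sub, map_one, hu]
  have hγ2v : γ (γ v) = 1 - v := by rw [hv1', hκv]
  have hxu : x = u + v - 2 * u * v := by
    rw [hx, hu']
    linear_combination v * hrs
  have hγ2x : γ (γ x) = x := by
    rw [hxu]
    simp only [map_sub, map_add, map_mul, hγ2u, hγ2v, map_ofNat]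
    ring
  have hxL : x ∈ L := by
    rw [hxu]
    have huL : u ∈ L := hu ▸ hL z hzL
    exact sub_mem (add_mem huL hv) (mul_mem (mul_mem h2L huL) hv)
  have hγx : γ x = 1 - x := by
    rw [hx]
    simp only [map_sub, map_add, map_mul, hγr, hγs, hv1', hκv, map_ofNat]
    linear_combination hrs
  have hx1 : 1 - x ≠ 0 := by rw [← hγx]; simpa using hx0
  -- B(·, γ x) = - B(·, x)
  have hgx : ∀ b, b ≠ 0 → S.B b x + S.B b (1 - x) = 0 := fun b hb => by
    rw [← S.mul_right b x (1 - x) hb hx0 hx1]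
    refine S.fixed_right _ _ (mul_ne_zero hx0 hx1) hb
      (mul_mem hxL (sub_mem (one_mem L) hxL)) ?_
    rw [map_mul, map_sub, map_one, hγx]
    ring
  -- B(z, v) = 0 etc.
  have hs' : ∀ b, b ≠ 0 → s ≠ 0 → S.B b s = 0 := fun b hb hs0 => S.fixed_right s b hs0 hb hs hγs
  have hvz : S.B v z = 0 := by
    by_cases hs0 : s = 0
    · rw [← hz, hs0, add_zero, S.mul_right v r v hv0 hr0 hv0, S.self v hv0,
        S.fixed_right r v hr0 hv0 hr hγr, add_zero]
    · have h1 := S.st3 (r * v) s z (mul_ne_zero hr0 hv0) hs0 hv' hz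
      rw [hs' _ (mul_ne_zero hr0 hv0) hs0, hs' _ hv' hs0, add_zero, S.mul_left r v z hr0 hv0 hv',
        S.fixed r z hr0 hv' hr hγr, zero_add] at h1
      exact h1.symm
  have hκvz : S.B (1 - v) z = 0 := by
    -- z = -r (1 - v) + (r + s)
    by_cases hs0 : r + s = 0
    · have hz' : z = -(r * (1 - v)) := by rw [← hz]; linear_combination hs0
      rw [hz', S.neg_right _ _ hκv0 (mul_ne_zero hr0 hκv0), S.mul_right _ r _ hκv0 hr0 hκv0,
        S.self _ hκv0, S.fixed_right r _ hr0 hκv0 hr hγr, add_zero]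
    · have hrsL : r + s ∈ L := add_mem hr hs
      have hrsγ : γ (r + s) = r + s := by rw [map_add, hγr, hγs]
      have h1 := S.st3 (-(r * (1 - v))) (r + s) z (neg_ne_zero.mpr (mul_ne_zero hr0 hκv0)) hs0 hv'
        (by rw [← hz]; ring)
      rw [S.fixed_right _ _ hs0 (neg_ne_zero.mpr (mul_ne_zero hr0 hκv0)) hrsL hrsγ,
        S.fixed_right _ _ hs0 hv' hrsL hrsγ, add_zero,
        S.neg_left _ _ (mul_ne_zero hr0 hκv0) hv', S.mul_left r _ z hr0 hκv0 hv',
        S.fixed r z hr0 hv' hr hγr, zero_add] at h1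
      exact h1.symm
  -- B(u, v (1 - v)) = 0
  have hNv : S.B u (v * (1 - v)) = 0 := by
    -- `v1 (1 - v1) * v (1 - v)` is fixed
    have hfix : S.B u (v * (1 - v)) + S.B u (v1 * (1 - v1)) = 0 := by
      rw [← S.mul_right _ _ _ hu0 (mul_ne_zero hv0 hκv0) (mul_ne_zero hv10 hκv1)]
      refine S.fixed_right _ _ (mul_ne_zero (mul_ne_zero hv0 hκv0) (mul_ne_zero hv10 hκv1)) hu0
        (mul_mem (mul_mem hv (sub_mem (one_mem L) hv))
          (mul_mem hv1L (sub_mem (one_mem L) hv1L))) ?_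
      simp only [map_mul, map_sub, map_one, hv1', hκv]
      ring
    have h1 : S.B u (v1 * (1 - v1)) = 0 := by
      have h3 : γ (v * (1 - v)) = v1 * (1 - v1) := by simp only [map_mul, map_sub, map_one, hv1']
      rw [← h3, ← hu, S.equi z _ hv' (mul_ne_zero hv0 hκv0), S.mul_right z v _ hv' hv0 hκv0,
        S.anti z v hv' hv0, hvz, S.anti z _ hv' hκv0, hκvz]
      simp
    rw [h1, add_zero] at hfix
    exact hfix
  -- B(u, κ u) = 0 = B(v, κ v)
  have hvκ : S.B v (1 - v) = 0 := S.steinberg v (1 - v) hv0 hκv0 (by ring)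
  have huκ : S.B u (1 - u) = 0 := S.steinberg u (1 - u) hu0 hu1 (by ring)
  have i1 := S.four_i hω h4 (u * (1 - v)) x (mul_ne_zero hu0 hκv0) hx0 (by
    simp only [map_mul, map_sub, map_one, hγ2u, hγ2v]
    rw [hxu]; ring)
  have i2 := S.four_i hω h4 (u * v) (1 - x) (mul_ne_zero hu0 hv0) hx1 (by
    simp only [map_mul, hγ2u, hγ2v]
    rw [hxu]; ring)
  have e1 : γ (γ (u * (1 - v))) = (1 - u) * v := by
    simp only [map_mul, map_sub, map_one, hγ2u, hγ2v]
    ring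
  have e2 : γ (γ (u * v)) = (1 - u) * (1 - v) := by
    simp only [map_mul, hγ2u, hγ2v]
  have k1 : S.B (1 - u) (1 - v) = - S.B u v := by
    have := S.four_kappa hω u v hu0 hv0
    rwa [hγ2u, hγ2v] at this
  have k2 : S.B (1 - u) v = - S.B u (1 - v) := by
    have := S.four_kappa hω u (1 - v) hu0 hκv0
    rwa [hγ2u, show γ (γ (1 - v)) = v by rw [map_sub, map_sub, map_one, map_one, hγ2v]; ring]
      at this
  have k3 : S.B (1 - v) x = - S.B v x := by
    have := S.four_kappa hω v x hv0 hx0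
    rwa [hγ2v, hγ2x] at this
  rw [e1, S.mul_left _ _ _ hu0 hκv0 (mul_ne_zero hu1 hv0), S.mul_right _ _ _ hu0 hu1 hv0,
    S.mul_right _ _ _ hκv0 hu1 hv0, huκ, S.anti (1 - v) v hκv0 hv0, hvκ,
    S.anti (1 - v) (1 - u) hκv0 hu1, k1, S.mul_left _ _ _ hu0 hκv0 hx0, k3, smul_add] at i1
  rw [e2, S.mul_left _ _ _ hu0 hv0 (mul_ne_zero hu1 hκv0), S.mul_right _ _ _ hu0 hu1 hκv0,
    S.mul_right _ _ _ hv0 hu1 hκv0, huκ, hvκ, S.anti v (1 - u) hv0 hu1, k2,
    S.mul_left _ _ _ hu0 hv0 hx1, smul_add] at i2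
  rw [S.mul_right _ _ _ hu0 hv0 hκv0] at hNv
  have gu := hgx u hu0
  have gv := hgx v hv0
  have t : (2 : ZMod p) • ((2 : ZMod p) • S.B v x) = 0 := by
    have gu' : (2 : ZMod p) • S.B u x + (2 : ZMod p) • S.B u (1 - x) = 0 := by
      rw [← smul_add, gu, smul_zero]
    have gv' : (2 : ZMod p) • S.B v x + (2 : ZMod p) • S.B v (1 - x) = 0 := by
      rw [← smul_add, gv, smul_zero]
    rw [smul_neg] at i1
    rw [two_smul (ZMod p) ((2 : ZMod p) • S.B v x)]
    linear_combination (norm := abel) i1 + i2 + gu' + gv' - hNv - hNv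
  exact (smul_eq_zero.mp ((smul_eq_zero.mp t).resolve_left h2)).resolve_left h2

/-- `B (L) (K) = 0` for elements of trace one -/
theorem four_LK1 (hω : ω ^ 2 = -1) (h2 : (2 : ZMod p) ≠ 0)
    (hL : ∀ x ∈ L, γ x ∈ L) (h4 : ∀ x, γ (γ (γ (γ x))) = x)
    (v x : N) (hv : v ∈ L) (hv0 : v ≠ 0) (hv1 : v + γ (γ v) = 1) (hx : x ∈ L) (hx0 : x ≠ 0)
    (hx1 : x + γ x = 1) : S.B v x = 0 := by
  have h2L : (2 : N) ∈ L := by
    have : (2 : N) = 1 + 1 := by norm_num
    rw [this]; exact add_mem (one_mem L) (one_mem L)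
  have hvγL : γ v ∈ L := hL v hv
  have hγ2v : γ (γ v) = 1 - v := by linear_combination hv1
  have hγx : γ x = 1 - x := by linear_combination hx1
  by_cases hD : 2 * (v + γ v - 2 * v * γ v) - 1 = 0
  · have h1 : (1 - 2 * v) * γ (1 - 2 * v) = 0 := by
      rw [map_sub, map_one, map_mul, map_ofNat]
      linear_combination -hD
    have h3 : 1 - 2 * v = 0 := by
      rcases mul_eq_zero.mp h1 with h | h
      · exact h
      · exact (map_eq_zero γ).mp h
    have h5 : 1 - 2 * γ v = 0 := by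
      have := congrArg γ h3
      rw [map_sub, map_one, map_mul, map_ofNat, map_zero] at this
      exact this
    have h6 : (2 : N) ≠ 0 := by
      intro h
      rw [h] at h3
      norm_num at h3
    refine S.fixed v x hv0 hx0 hv ?_
    have : 2 * (γ v - v) = 0 := by linear_combination h3 - h5
    exact sub_eq_zero.mp ((mul_eq_zero.mp this).resolve_left h6)
  obtain ⟨c, hc⟩ : ∃ c, c = (x - (v + γ v - 2 * v * γ v)) / (2 * (v + γ v - 2 * v * γ v) - 1) :=
    ⟨_, rfl⟩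
  have hcL : c ∈ L := by
    rw [hc]
    have h1 : v + γ v - 2 * v * γ v ∈ L :=
      sub_mem (add_mem hv hvγL) (mul_mem (mul_mem h2L hv) hvγL)
    exact div_mem (sub_mem hx h1) (sub_mem (mul_mem h2L h1) (one_mem L))
  have hcγ : γ c = c := by
    rw [hc]
    simp only [map_div₀, map_sub, map_add, map_mul, map_ofNat, map_one, hγ2v, hγx]
    rw [div_eq_div_iff ?_ hD]
    · ring
    · intro h
      apply hD
      linear_combination -h
  have hxc : x = -c + (1 + 2 * c) * (v + γ v - 2 * v * γ v) := by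
    have : c * (2 * (v + γ v - 2 * v * γ v) - 1) = x - (v + γ v - 2 * v * γ v) := by
      rw [hc, div_mul_cancel₀ _ hD]
    linear_combination -this
  by_cases hr0 : 1 + 2 * c = 0
  · refine S.fixed_right x v hx0 hv0 hx ?_
    rw [hr0, zero_mul, add_zero] at hxc
    rw [hxc, map_neg, hcγ]
  have hrL : 1 + 2 * c ∈ L := add_mem (one_mem L) (mul_mem h2L hcL)
  have hrγ : γ (1 + 2 * c) = 1 + 2 * c := by rw [map_add, map_one, map_mul, map_ofNat, hcγ]
  have hsγ : γ (-c) = -c := by rw [map_neg, hcγ]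
  by_cases hz : (1 + 2 * c) * v + -c = 0
  · refine S.fixed v x hv0 hx0 hv ?_
    have h1 : v = c / (1 + 2 * c) := by
      rw [eq_div_iff hr0]
      linear_combination hz
    rw [h1, map_div₀, hrγ, hcγ]
  exact S.four_key hω h2 hL h4 v (1 + 2 * c) (-c) x hv hv0 hv1 hrL (neg_mem hcL) hrγ hsγ hr0 hz
    (by ring) hxc hx0

/-- `B (L) (K) = 0` -/
theorem four_LK (hω : ω ^ 2 = -1) (h2 : (2 : ZMod p) ≠ 0)
    (hL : ∀ x ∈ L, γ x ∈ L) (h4 : ∀ x, γ (γ (γ (γ x))) = x)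
    (v x : N) (hv : v ∈ L) (hv0 : v ≠ 0) (hx : x ∈ L) (hx0 : x ≠ 0) (hγx : γ (γ x) = x) :
    S.B v x = 0 := by
  have h2ne : ((2 : ℕ) : ZMod p) ≠ 0 := by exact_mod_cast h2
  by_cases ht : v + γ (γ v) = 0
  · refine S.of_sq h2 v x hv0 hx0 (S.four_K hω h2 _ _ (mul_ne_zero hv0 hv0) hx0 ?_ hγx)
    have : γ (γ v) = -v := by linear_combination ht
    simp only [map_mul, this]
    ring
  by_cases hf : x + γ x = 0
  · refine S.fixed_of_pow_right 2 h2ne x v hx0 hv0 (pow_mem hx 2) ?_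
    have : γ x = -x := by linear_combination hf
    rw [map_pow, this]
    ring
  have htL : v + γ (γ v) ∈ L := add_mem hv (hL _ (hL _ hv))
  have hfL : x + γ x ∈ L := add_mem hx (hL _ hx)
  have htγ : γ (γ (v + γ (γ v))) = v + γ (γ v) := by
    simp only [map_add, h4]
    ring
  have hfγ : γ (x + γ x) = x + γ x := by
    rw [map_add, hγx]
    ring
  have key : S.B (v / (v + γ (γ v))) (x / (x + γ x)) = 0 := by
    refine S.four_LK1 hω h2 hL h4 _ _ (div_mem hv htL) (div_ne_zero hv0 ht) ?_ (div_mem hx hfL)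
      (div_ne_zero hx0 hf) ?_
    · rw [map_div₀, map_div₀, htγ, ← add_div, div_self ht]
    · rw [map_div₀, hfγ, ← add_div, div_self hf]
  rw [S.div_left _ _ _ hv0 ht (div_ne_zero hx0 hf), S.div_right _ _ _ hv0 hx0 hf,
    S.div_right _ _ _ ht hx0 hf, S.fixed_right _ v hf hv0 hfL hfγ,
    S.fixed_right _ _ hf ht hfL hfγ, S.four_K hω h2 _ _ ht hx0 htγ hγx] at key
  simpa using key

/-- **The case `[L : F] = 4`**. -/
theorem four (hω : ω ^ 2 = -1) (h2 : (2 : ZMod p) ≠ 0)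
    (hL : ∀ x ∈ L, γ x ∈ L) (h4 : ∀ x, γ (γ (γ (γ x))) = x)
    (a b : N) (ha : a ∈ L) (ha0 : a ≠ 0) (hb : b ∈ L) (hb0 : b ≠ 0) :
    S.B a b = 0 := by
  have ka0 : γ (γ a) ≠ 0 := by simpa using ha0
  have kb0 : γ (γ b) ≠ 0 := by simpa using hb0
  have kbL : γ (γ b) ∈ L := hL _ (hL _ hb)
  have kaL : γ (γ a) ∈ L := hL _ (hL _ ha)
  have h1 := S.four_kappa hω a b ha0 hb0
  have h5 : S.B a b + S.B a (γ (γ b)) = 0 := by
    rw [← S.mul_right _ _ _ ha0 hb0 kb0]
    refine S.four_LK hω h2 hL h4 a _ ha ha0 (mul_mem hb kbL) (mul_ne_zero hb0 kb0) ?_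
    simp only [map_mul, h4, mul_comm]
  have h6 : S.B a (γ (γ b)) + S.B (γ (γ a)) (γ (γ b)) = 0 := by
    rw [← S.mul_left _ _ _ ha0 ka0 kb0, S.anti _ _ (mul_ne_zero ha0 ka0) kb0, neg_eq_zero]
    refine S.four_LK hω h2 hL h4 _ _ kbL kb0 (mul_mem ha kaL) (mul_ne_zero ha0 ka0) ?_
    simp only [map_mul, h4, mul_comm]
  have h7 : (2 : ZMod p) • S.B a b = 0 := by
    rw [two_smul]
    linear_combination (norm := abel) h5 - h6 + h1
  exact (smul_eq_zero.mp h7).resolve_left h2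

end TwSym

end BrR
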