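import Pool.Agent.H48.BR.Core

set_option autoImplicit false

/-! # The case `[L : F] = 6` -/

namespace BrR

namespace TwSym

variable {p : ℕ} [Fact p.Prime] {N : Type*} [Field N] {V : Type*} [AddCommGroup V]
  [Module (ZMod p) V] {L : Subfield N} {γ : N ≃+* N} {ω : ZMod p} (S : TwSym p N V L γ ω)

include S

/-- if a power of `a` is fixed then `a` is trivial. -/
theorem fixed_of_pow (n : ℕ) (hn : ((n : ℕ) : ZMod p) ≠ 0) (a b : N) (ha : a ≠ 0) (hb : b ≠ 0)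
    (haL : a ^ n ∈ L) (hγ : γ (a ^ n) = a ^ n) : S.B a b = 0 := by
  have h := S.fixed (a ^ n) b (pow_ne_zero _ ha) hb haL hγ
  rw [S.pow_left a b ha hb] at h
  exact (smul_eq_zero.mp h).resolve_left hn

theorem fixed_of_pow_right (n : ℕ) (hn : ((n : ℕ) : ZMod p) ≠ 0) (a b : N) (ha : a ≠ 0)
    (hb : b ≠ 0) (haL : a ^ n ∈ L) (hγ : γ (a ^ n) = a ^ n) : S.B b a = 0 := by
  rw [S.anti b a hb ha, S.fixed_of_pow n hn a b ha hb haL hγ, neg_zero]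

/-- a vector equal to a multiple `c ≠ 1` of itself vanishes -/
theorem zero_of_smul {c : ZMod p} (hc : c ≠ 1) {x : V} (h : x = c • x) : x = 0 := by
  have h1 : (c - 1) • x = 0 := by rw [sub_smul, one_smul, ← h, sub_self]
  exact (smul_eq_zero.mp h1).resolve_left (sub_ne_zero.mpr hc)

section Six

variable (hω : ω ^ 2 - ω + 1 = 0) (h2 : (2 : ZMod p) ≠ 0) (h3 : (3 : ZMod p) ≠ 0)
  (hL : ∀ x ∈ L, γ x ∈ L) (h6 : ∀ x, γ (γ (γ (γ (γ (γ x))))) = x)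

include hω in
omit S in
theorem six_cube : ω ^ 3 = -1 := by linear_combination (ω + 1) * hω

include hω h3 in
omit S in
theorem six_ne_neg_one : ω ≠ -1 := by
  intro h
  apply h3
  rw [h] at hω
  linear_combination hω

include hω in
omit S in
theorem six_ne_one : ω ≠ 1 := by
  intro h
  rw [h] at hω
  norm_num at hω

include hω h3 in
omit S in
theorem six_sq_ne_one : ω ^ 2 ≠ 1 := by
  intro h
  have h1 : (ω - 1) * (ω + 1) = 0 := by linear_combination h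
  rcases mul_eq_zero.mp h1 with h4 | h4
  · exact six_ne_one hω (sub_eq_zero.mp h4)
  · exact six_ne_neg_one hω h3 (eq_neg_of_add_eq_zero_left h4)

include hω h3 in
omit S in
theorem six_four_ne_one : ω ^ 4 ≠ 1 := by
  intro h
  have h1 : ω ^ 4 = -ω := by
    have := six_cube hω
    linear_combination ω * this
  exact six_ne_neg_one hω h3 (by linear_combination -h + h1)

/-- `B` vanishes on the fixed field of `γ²` -/
theorem six_K2 (hω : ω ^ 2 - ω + 1 = 0) (h3 : (3 : ZMod p) ≠ 0) (x y : N) (hx : x ≠ 0)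
    (hy : y ≠ 0) (hx2 : γ (γ x) = x) (hy2 : γ (γ y) = y) : S.B x y = 0 := by
  have h := S.equi (γ x) (γ y) (by simpa using hx) (by simpa using hy)
  rw [hx2, hy2, S.equi x y hx hy, smul_smul] at h
  exact zero_of_smul S (by have := six_sq_ne_one hω h3; rwa [pow_two] at this) h

/-- `B` vanishes on the fixed field of `γ³` -/
theorem six_K3 (hω : ω ^ 2 - ω + 1 = 0) (h2 : (2 : ZMod p) ≠ 0) (x y : N) (hx : x ≠ 0)
    (hy : y ≠ 0) (hx2 : γ (γ (γ x)) = x) (hy2 : γ (γ (γ y)) = y) : S.B x y = 0 := by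
  have h := S.equi (γ (γ x)) (γ (γ y)) (by simpa using hx) (by simpa using hy)
  rw [hx2, hy2, S.equi _ _ (by simpa using hx) (by simpa using hy), S.equi x y hx hy, smul_smul,
    smul_smul] at h
  refine zero_of_smul S ?_ h
  have h1 := six_cube hω
  intro h4
  apply h2
  linear_combination -h4 + h1

/-- `κ = γ³` acts by `-1`. -/
theorem six_kappa (hω : ω ^ 2 - ω + 1 = 0) (x y : N) (hx : x ≠ 0) (hy : y ≠ 0) :
    S.B (γ (γ (γ x))) (γ (γ (γ y))) = - S.B x y := by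
  rw [S.equi _ _ (by simpa using hx) (by simpa using hy),
    S.equi _ _ (by simpa using hx) (by simpa using hy), S.equi x y hx hy, smul_smul, smul_smul]
  have h1 : ω * ω * ω = -1 := by rw [← six_cube hω]; ring
  rw [h1, neg_smul, one_smul]

/-- `ρ = γ⁴` acts by `ω⁴`. -/
theorem six_rho (x y : N) (hx : x ≠ 0) (hy : y ≠ 0) :
    S.B (γ (γ (γ (γ x)))) (γ (γ (γ (γ y)))) = ω ^ 4 • S.B x y := by
  rw [S.equi _ _ (by simpa using hx) (by simpa using hy),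
    S.equi _ _ (by simpa using hx) (by simpa using hy),
    S.equi _ _ (by simpa using hx) (by simpa using hy), S.equi x y hx hy, smul_smul, smul_smul,
    smul_smul]
  congr 1
  ring

/-- eigenvectors of `ρ` -/
theorem six_eig (hω : ω ^ 2 - ω + 1 = 0) (h3 : (3 : ZMod p) ≠ 0) (x c t : N) (hx : x ≠ 0)
    (hc : c ≠ 0) (ht : t ≠ 0) (hx2 : γ (γ x) = x) (ht2 : γ (γ t) = t)
    (hc4 : γ (γ (γ (γ c))) = t * c) : S.B x c = 0 := by
  have h := S.six_rho x c hx hc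
  rw [hc4, hx2, hx2, S.mul_right x t c hx ht hc, S.six_K2 hω h3 x t hx ht hx2 ht2, zero_add] at h
  exact zero_of_smul S (six_four_ne_one hω h3) h

/-- Claim A -/
theorem six_A (hω : ω ^ 2 - ω + 1 = 0) (h2 : (2 : ZMod p) ≠ 0) (h3 : (3 : ZMod p) ≠ 0)
    (hL : ∀ x ∈ L, γ x ∈ L) (θ : N) (hθ : θ ^ 2 + θ + 1 = 0) (hγθ : γ (γ θ) = θ)
    (v q : N) (hv : v ∈ L) (hv0 : v ≠ 0) (hv3 : γ (γ (γ v)) = v)
    (htr : v + γ v + γ (γ v) = 0) (hq : q ∈ L) (hq0 : q ≠ 0) (hq2 : γ (γ q) = q) :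
    S.B v q = 0 := by
  have hθ3 : θ ^ 3 = 1 := by linear_combination (θ - 1) * hθ
  have hθ0 : θ ≠ 0 := by
    rintro rfl
    norm_num at hθ
  have h6ne : ((6 : ℕ) : ZMod p) ≠ 0 := by
    have : ((6 : ℕ) : ZMod p) = 2 * 3 := by norm_num
    rw [this]
    exact mul_ne_zero h2 h3
  have h3ne : ((3 : ℕ) : ZMod p) ≠ 0 := by exact_mod_cast h3
  have h2ne : ((2 : ℕ) : ZMod p) ≠ 0 := by exact_mod_cast h2
  obtain ⟨v1, hv1⟩ : ∃ v1, γ v = v1 := ⟨_, rfl⟩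
  obtain ⟨v2, hv2⟩ : ∃ v2, γ v1 = v2 := ⟨_, rfl⟩
  obtain ⟨q1, hq1⟩ : ∃ q1, γ q = q1 := ⟨_, rfl⟩
  rw [hv1, hv2] at hv3 htr
  rw [hq1] at hq2
  have hv1L : v1 ∈ L := hv1 ▸ hL v hv
  have hv2L : v2 ∈ L := hv2 ▸ hL v1 hv1L
  have hq1L : q1 ∈ L := hq1 ▸ hL q hq
  have hv10 : v1 ≠ 0 := by rw [← hv1]; simpa using hv0
  have hv20 : v2 ≠ 0 := by rw [← hv2]; simpa using hv10
  have hq10 : q1 ≠ 0 := by rw [← hq1]; simpa using hq0
  have hv2e : v2 = -v - v1 := by linear_combination htr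
  -- degenerate cases
  by_cases hF1 : q ^ 2 - q * q1 + q1 ^ 2 = 0
  · have h1 : q ^ 3 = - q1 ^ 3 := by linear_combination (q + q1) * hF1
    refine S.fixed_of_pow_right 6 h6ne q v hq0 hv0 (pow_mem hq 6) ?_
    rw [map_pow, hq1]
    linear_combination -(q ^ 3 - q1 ^ 3) * h1
  by_cases hF2 : v ^ 2 + v * v1 + v1 ^ 2 = 0
  · refine S.fixed_of_pow 3 h3ne v q hv0 hq0 (pow_mem hv 3) ?_
    rw [map_pow, hv1]
    linear_combination -(v - v1) * hF2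
  by_cases hw : q * v + q1 * v1 = 0
  · have h1 : S.B (q * v) q = 0 := by
      refine S.fixed_of_pow 2 h2ne (q * v) q (mul_ne_zero hq0 hv0) hq0
        (pow_mem (mul_mem hq hv) 2) ?_
      rw [map_pow, map_mul, hq1, hv1]
      linear_combination -(q * v - q1 * v1) * hw
    rwa [S.mul_left q v q hq0 hv0 hq0, S.self q hq0, zero_add] at h1
  by_cases hε : q - q1 = 0
  · exact S.fixed_right q v hq0 hv0 hq (by rw [hq1]; exact (sub_eq_zero.mp hε).symm)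
  -- general case
  obtain ⟨w, hw'⟩ : ∃ w, q * v + q1 * v1 = w := ⟨_, rfl⟩
  rw [hw'] at hw
  have hε0 : q - q1 ≠ 0 := hε
  have hX : (q + θ ^ 2 * q1) * (q + θ * q1) = q ^ 2 - q * q1 + q1 ^ 2 := by
    linear_combination (q * q1) * hθ + q1 ^ 2 * hθ3
  have hC : (v1 - θ ^ 2 * v) * (v1 - θ * v) = v ^ 2 + v * v1 + v1 ^ 2 := by
    linear_combination -(v * v1) * hθ + v ^ 2 * hθ3
  have hX0 : q + θ ^ 2 * q1 ≠ 0 := fun h => hF1 (by rw [← hX, h, zero_mul])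
  have hX0' : q + θ * q1 ≠ 0 := fun h => hF1 (by rw [← hX, h, mul_zero])
  have hC0 : v1 - θ ^ 2 * v ≠ 0 := fun h => hF2 (by rw [← hC, h, zero_mul])
  have hC0' : v1 - θ * v ≠ 0 := fun h => hF2 (by rw [← hC, h, mul_zero])
  have hF1L : q ^ 2 - q * q1 + q1 ^ 2 ∈ L :=
    add_mem (sub_mem (pow_mem hq 2) (mul_mem hq hq1L)) (pow_mem hq1L 2)
  have hF2L : v ^ 2 + v * v1 + v1 ^ 2 ∈ L :=
    add_mem (add_mem (pow_mem hv 2) (mul_mem hv hv1L)) (pow_mem hv1L 2)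
  have hF1γ : γ (q ^ 2 - q * q1 + q1 ^ 2) = q ^ 2 - q * q1 + q1 ^ 2 := by
    simp only [map_add, map_sub, map_mul, map_pow, hq1, hq2]
    ring
  have hF2γ : γ (v ^ 2 + v * v1 + v1 ^ 2) = v ^ 2 + v * v1 + v1 ^ 2 := by
    simp only [map_add, map_mul, map_pow, hv1, hv2]
    rw [hv2e]
    ring
  have hε2 : ∀ b, b ≠ 0 → S.B (q - q1) b = 0 := fun b hb => by
    refine S.fixed_of_pow 2 h2ne _ b hε0 hb (pow_mem (sub_mem hq hq1L) 2) ?_
    simp only [map_pow, map_sub, hq1, hq2]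
    ring
  have hXγ : γ (γ (q + θ ^ 2 * q1)) = q + θ ^ 2 * q1 := by
    simp only [map_add, map_mul, map_pow, hq1, hq2, hγθ]
  have hXγ' : γ (γ (q + θ * q1)) = q + θ * q1 := by
    simp only [map_add, map_mul, hq1, hq2, hγθ]
  have hCγ : γ (γ (γ (γ (v1 - θ ^ 2 * v)))) = θ * (v1 - θ ^ 2 * v) := by
    simp only [map_sub, map_mul, map_pow, hv1, hv2, hv3, hγθ]
    linear_combination htr + v * hθ3 - v1 * hθ
  have hCγ' : γ (γ (γ (γ (v1 - θ * v)))) = θ ^ 2 * (v1 - θ * v) := by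
    simp only [map_sub, map_mul, map_pow, hv1, hv2, hv3, hγθ]
    linear_combination htr + v * hθ3 - v1 * hθ
  have hXC : S.B (q + θ ^ 2 * q1) (v1 - θ ^ 2 * v) = 0 :=
    S.six_eig hω h3 _ _ θ hX0 hC0 hθ0 hXγ hγθ hCγ
  have hXC' : S.B (q + θ * q1) (v1 - θ * v) = 0 :=
    S.six_eig hω h3 _ _ (θ ^ 2) hX0' hC0' (pow_ne_zero _ hθ0) hXγ' (by simp [hγθ]) hCγ'
  -- Rel1
  have r1 := S.st3 ((q + θ ^ 2 * q1) * v) (q1 * (v1 - θ ^ 2 * v)) w (mul_ne_zero hX0 hv0)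
    (mul_ne_zero hq10 hC0) hw (by rw [← hw']; ring)
  rw [S.mul_left _ _ _ hX0 hv0 (mul_ne_zero hq10 hC0), S.mul_right _ _ _ hX0 hq10 hC0,
    S.mul_right _ _ _ hv0 hq10 hC0, hXC, S.mul_left _ _ _ hX0 hv0 hw,
    S.mul_right _ _ _ hw hq10 hC0] at r1
  have r2 := S.st3 ((q + θ * q1) * v) (q1 * (v1 - θ * v)) w (mul_ne_zero hX0' hv0)
    (mul_ne_zero hq10 hC0') hw (by rw [← hw']; ring)
  rw [S.mul_left _ _ _ hX0' hv0 (mul_ne_zero hq10 hC0'), S.mul_right _ _ _ hX0' hq10 hC0',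
    S.mul_right _ _ _ hv0 hq10 hC0', hXC', S.mul_left _ _ _ hX0' hv0 hw,
    S.mul_right _ _ _ hw hq10 hC0'] at r2
  have f1 : S.B (q + θ ^ 2 * q1) q1 + S.B (q + θ * q1) q1 = 0 := by
    rw [← S.mul_left _ _ _ hX0 hX0' hq10, hX]
    exact S.fixed _ _ hF1 hq10 hF1L hF1γ
  have f2 : S.B (q + θ ^ 2 * q1) w + S.B (q + θ * q1) w = 0 := by
    rw [← S.mul_left _ _ _ hX0 hX0' hw, hX]
    exact S.fixed _ _ hF1 hw hF1L hF1γ
  have f3 : S.B v (v1 - θ ^ 2 * v) + S.B v (v1 - θ * v) = 0 := by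
    rw [← S.mul_right _ _ _ hv0 hC0 hC0', hC]
    exact S.fixed_right _ _ hF2 hv0 hF2L hF2γ
  have f4 : S.B w (v1 - θ ^ 2 * v) + S.B w (v1 - θ * v) = 0 := by
    rw [← S.mul_right _ _ _ hw hC0 hC0', hC]
    exact S.fixed_right _ _ hF2 hw hF2L hF2γ
  have eig0 : (2 : ZMod p) • (S.B v q1 - S.B v w - S.B w q1) = 0 := by
    rw [two_smul]
    linear_combination (norm := abel) r1 + r2 - f1 - f3 + f2 + f4
  have eig : S.B v q1 - S.B v w - S.B w q1 = 0 := (smul_eq_zero.mp eig0).resolve_left h2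
  -- Rel4
  have k1 : S.B v v2 = 0 := S.six_K3 hω h2 v v2 hv0 hv20 (by rw [hv1, hv2, hv3])
    (by rw [hv3, hv1, hv2])
  have k2 : S.B v1 v2 = 0 := S.six_K3 hω h2 v1 v2 hv10 hv20 (by rw [hv2, hv3, hv1])
    (by rw [hv3, hv1, hv2])
  have r4 := S.st3 ((q - q1) * v) (-(q1 * v2)) w (mul_ne_zero hε0 hv0)
    (neg_ne_zero.mpr (mul_ne_zero hq10 hv20)) hw (by rw [← hw', hv2e]; ring)
  rw [S.neg_right _ _ (mul_ne_zero hε0 hv0) (mul_ne_zero hq10 hv20),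
    S.neg_right _ _ hw (mul_ne_zero hq10 hv20),
    S.mul_left _ _ _ hε0 hv0 (mul_ne_zero hq10 hv20), hε2 _ (mul_ne_zero hq10 hv20),
    S.mul_left _ _ _ hε0 hv0 hw, hε2 _ hw, S.mul_right _ _ _ hv0 hq10 hv20,
    S.mul_right _ _ _ hw hq10 hv20, k1] at r4
  have wv2 : S.B w v2 = 0 := by linear_combination (norm := abel) eig - r4
  have r5 := S.st3 (-((q - q1) * v1)) (-(q * v2)) w (neg_ne_zero.mpr (mul_ne_zero hε0 hv10))
    (neg_ne_zero.mpr (mul_ne_zero hq0 hv20)) hw (by rw [← hw', hv2e]; ring)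
  rw [S.neg_right _ _ (neg_ne_zero.mpr (mul_ne_zero hε0 hv10)) (mul_ne_zero hq0 hv20),
    S.neg_right _ _ hw (mul_ne_zero hq0 hv20),
    S.neg_left _ _ (mul_ne_zero hε0 hv10) (mul_ne_zero hq0 hv20),
    S.neg_left _ _ (mul_ne_zero hε0 hv10) hw,
    S.mul_left _ _ _ hε0 hv10 (mul_ne_zero hq0 hv20), hε2 _ (mul_ne_zero hq0 hv20),
    S.mul_left _ _ _ hε0 hv10 hw, hε2 _ hw, S.mul_right _ _ _ hv10 hq0 hv20,
    S.mul_right _ _ _ hw hq0 hv20, k2, wv2] at r5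
  -- conclusion
  have n1 : S.B w v + S.B w v1 = 0 := by
    have h1 : S.B w (v * v1 * v2) = 0 := by
      refine S.fixed_right _ _ (mul_ne_zero (mul_ne_zero hv0 hv10) hv20) hw
        (mul_mem (mul_mem hv hv1L) hv2L) ?_
      simp only [map_mul, hv1, hv2, hv3]
      ring
    rw [S.mul_right _ _ _ hw (mul_ne_zero hv0 hv10) hv20, S.mul_right _ _ _ hw hv0 hv10, wv2,
      add_zero] at h1
    exact h1
  have n2 : S.B w q + S.B w q1 = 0 := by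
    rw [← S.mul_right _ _ _ hw hq0 hq10]
    refine S.fixed_right _ _ (mul_ne_zero hq0 hq10) hw (mul_mem hq hq1L) ?_
    rw [map_mul, hq1, hq2]
    ring
  have a1 : S.B v w = - S.B w v := S.anti v w hv0 hw
  have a2 : S.B v1 w = - S.B w v1 := S.anti v1 w hv10 hw
  have tot : S.B v q1 + S.B v1 q = 0 := by
    linear_combination (norm := abel) eig + r5 - n1 + n2 + a1 + a2
  -- equivariance
  have e3 : S.B v q1 = ω ^ 3 • S.B v q := by
    have h1 := S.equi v q hv0 hq0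
    have h2 := S.equi (γ v) (γ q) (by simpa using hv0) (by simpa using hq0)
    have h3 := S.equi (γ (γ v)) (γ (γ q)) (by simpa using hv0) (by simpa using hq0)
    rw [h2, h1, smul_smul, smul_smul, hv1, hv2, hv3, hq1, hq2, hq1] at h3
    rw [h3]
    congr 1
    ring
  have e4 : S.B v1 q = ω ^ 4 • S.B v q := by
    have h1 := S.equi v q1 hv0 hq10
    rw [hv1, hq2, e3, smul_smul] at h1
    rw [h1]
    congr 1
    ring
  rw [e3, e4, ← add_smul] at tot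
  refine (smul_eq_zero.mp tot).resolve_left ?_
  have h1 := six_cube hω
  have h4 : ω ^ 3 + ω ^ 4 = -(ω + 1) := by linear_combination (1 + ω) * h1
  rw [h4]
  intro h5
  exact six_ne_neg_one hω h3 (by linear_combination -h5)

/-- Claim B: `B (K₃) (K₂) = 0` -/
theorem six_B (hω : ω ^ 2 - ω + 1 = 0) (h2 : (2 : ZMod p) ≠ 0) (h3 : (3 : ZMod p) ≠ 0)
    (hL : ∀ x ∈ L, γ x ∈ L) (θ : N) (hθ : θ ^ 2 + θ + 1 = 0) (hγθ : γ (γ θ) = θ)
    (u q : N) (hu : u ∈ L) (hu0 : u ≠ 0) (hu3 : γ (γ (γ u)) = u)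
    (hq : q ∈ L) (hq0 : q ≠ 0) (hq2 : γ (γ q) = q) :
    S.B u q = 0 := by
  by_cases hfix : γ u = u
  · exact S.fixed u q hu0 hq0 hu hfix
  have hv0 : γ u - γ (γ u) ≠ 0 := by
    intro h
    apply hfix
    have h1 : γ (γ u) = γ u := (sub_eq_zero.mp h).symm
    exact γ.injective h1
  have hvL : γ u - γ (γ u) ∈ L := sub_mem (hL u hu) (hL _ (hL u hu))
  have h1 : S.B (γ u - γ (γ u)) q = 0 :=
    S.six_A hω h2 h3 hL θ hθ hγθ _ q hvL hv0 (by simp only [map_sub, hu3])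
      (by simp only [map_sub, hu3]; ring) hq hq0 hq2
  have h4 : S.B (u * (γ u - γ (γ u))) q = 0 :=
    S.six_A hω h2 h3 hL θ hθ hγθ _ q (mul_mem hu hvL) (mul_ne_zero hu0 hv0)
      (by simp only [map_mul, map_sub, hu3])
      (by simp only [map_mul, map_sub, hu3]; ring) hq hq0 hq2
  rwa [S.mul_left u _ q hu0 hv0 hq0, h1, add_zero] at h4

/-- Claim C: `B (K₂) (L) = 0` -/
theorem six_C (hω : ω ^ 2 - ω + 1 = 0) (h2 : (2 : ZMod p) ≠ 0) (h3 : (3 : ZMod p) ≠ 0)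
    (hL : ∀ x ∈ L, γ x ∈ L) (h6 : ∀ x, γ (γ (γ (γ (γ (γ x))))) = x)
    (θ : N) (hθ : θ ^ 2 + θ + 1 = 0) (hγθ : γ (γ θ) = θ)
    (x w : N) (hx : x ∈ L) (hx0 : x ≠ 0) (hx2 : γ (γ x) = x) (hw : w ∈ L) (hw0 : w ≠ 0) :
    S.B x w = 0 := by
  have hxγ0 : γ x ≠ 0 := by simpa using hx0
  have hkw0 : γ (γ (γ w)) ≠ 0 := by simpa using hw0
  have h1 : S.B (γ x) (γ (γ (γ w))) = - S.B x w := by
    have := S.six_kappa hω x w hx0 hw0
    rwa [hx2] at this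
  have h4 : S.B x (γ (γ (γ w))) + S.B (γ x) (γ (γ (γ w))) = 0 := by
    rw [← S.mul_left _ _ _ hx0 hxγ0 hkw0]
    refine S.fixed _ _ (mul_ne_zero hx0 hxγ0) hkw0 (mul_mem hx (hL x hx)) ?_
    rw [map_mul, hx2, mul_comm]
  have h5 : S.B (w * γ (γ (γ w))) x = 0 := by
    refine S.six_B hω h2 h3 hL θ hθ hγθ _ x (mul_mem hw (hL _ (hL _ (hL w hw))))
      (mul_ne_zero hw0 hkw0) ?_ hx hx0 hx2
    simp only [map_mul, h6, mul_comm]
  rw [S.anti _ _ (mul_ne_zero hw0 hkw0) hx0, neg_eq_zero, S.mul_right _ _ _ hx0 hw0 hkw0] at h5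
  have h6' : (2 : ZMod p) • S.B x w = 0 := by
    rw [two_smul]
    linear_combination (norm := abel) h5 - h4 + h1
  exact (smul_eq_zero.mp h6').resolve_left h2

/-- Claim D for trace zero elements -/
theorem six_D0 (hω : ω ^ 2 - ω + 1 = 0) (h2 : (2 : ZMod p) ≠ 0) (h3 : (3 : ZMod p) ≠ 0)
    (hL : ∀ x ∈ L, γ x ∈ L) (h6 : ∀ x, γ (γ (γ (γ (γ (γ x))))) = x)
    (θ : N) (hθ : θ ^ 2 + θ + 1 = 0) (hγθ : γ (γ θ) = θ)
    (v w : N) (hv : v ∈ L) (hv0 : v ≠ 0) (hv3 : γ (γ (γ v)) = v)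
    (htr : v + γ v + γ (γ v) = 0) (hw : w ∈ L) (hw0 : w ≠ 0) :
    S.B v w = 0 := by
  have h3ne : ((3 : ℕ) : ZMod p) ≠ 0 := by exact_mod_cast h3
  have h2ne : ((2 : ℕ) : ZMod p) ≠ 0 := by exact_mod_cast h2
  -- conjugates of `w`
  obtain ⟨w1, hw1⟩ : ∃ w1, γ w = w1 := ⟨_, rfl⟩
  obtain ⟨w2, hw2⟩ : ∃ w2, γ w1 = w2 := ⟨_, rfl⟩
  obtain ⟨w3, hw3⟩ : ∃ w3, γ w2 = w3 := ⟨_, rfl⟩
  obtain ⟨w4, hw4⟩ : ∃ w4, γ w3 = w4 := ⟨_, rfl⟩
  obtain ⟨w5, hw5⟩ : ∃ w5, γ w4 = w5 := ⟨_, rfl⟩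
  have hw6 : γ w5 = w := by
    have := h6 w
    rwa [hw1, hw2, hw3, hw4, hw5] at this
  have L1 : w1 ∈ L := hw1 ▸ hL _ hw
  have L2 : w2 ∈ L := hw2 ▸ hL _ L1
  have L3 : w3 ∈ L := hw3 ▸ hL _ L2
  have L4 : w4 ∈ L := hw4 ▸ hL _ L3
  have L5 : w5 ∈ L := hw5 ▸ hL _ L4
  have w30 : w3 ≠ 0 := by rw [← hw3, ← hw2, ← hw1]; simpa using hw0
  obtain ⟨v1, hv1⟩ : ∃ v1, γ v = v1 := ⟨_, rfl⟩
  obtain ⟨v2, hv2⟩ : ∃ v2, γ v1 = v2 := ⟨_, rfl⟩
  rw [hv1, hv2] at hv3 htr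
  have hv1L : v1 ∈ L := hv1 ▸ hL v hv
  have hv2L : v2 ∈ L := hv2 ▸ hL v1 hv1L
  have hv10 : v1 ≠ 0 := by rw [← hv1]; simpa using hv0
  have hv20 : v2 ≠ 0 := by rw [← hv2]; simpa using hv10
  have hv2e : v2 = -v - v1 := by linear_combination htr
  -- `ρ = γ⁴`: w → w4 → w2;  `κ = γ³` : w → w3.   v → v1 → v2
  obtain ⟨s, hs⟩ : ∃ s, s = w4 * w5 - w2 * w1 := ⟨_, rfl⟩
  have hsL : s ∈ L := hs ▸ sub_mem (mul_mem L4 L5) (mul_mem L2 L1)
  by_cases hs0 : s = 0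
  · -- `w / w3` is fixed by `γ²`
    have h1 : S.B (w / w3) v = 0 := by
      refine S.six_C hω h2 h3 hL h6 θ hθ hγθ _ v (div_mem hw L3) (div_ne_zero hw0 w30) ?_ hv hv0
      simp only [map_div₀, hw1, hw2, hw4, hw3, hw5]
      have w50 : w5 ≠ 0 := by rw [← hw5, ← hw4]; simpa using w30
      rw [div_eq_div_iff w50 w30]
      have e : γ s = 0 := by rw [hs0, map_zero]
      rw [hs] at e
      simp only [map_sub, map_mul, hw1, hw2, hw4, hw3, hw5, hw6] at e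
      linear_combination -e
    rw [S.div_left _ _ _ hw0 w30 hv0] at h1
    have h4 : S.B w3 v = - S.B w v := by
      have := S.six_kappa hω w v hw0 hv0
      rwa [hw1, hw2, hw3, hv1, hv2, hv3] at this
    rw [h4, sub_neg_eq_add, ← two_smul (ZMod p)] at h1
    rw [S.anti v w hv0 hw0, (smul_eq_zero.mp h1).resolve_left h2, neg_zero]
  -- the general case
  have hsκ : γ (γ (γ s)) = - s := by
    rw [hs]
    simp only [map_sub, map_mul, hw1, hw2, hw4, hw3, hw5, hw6]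
    ring
  have hsB : S.B v s = 0 := by
    have h1 : S.B (s * s) v = 0 := by
      refine S.six_K3 hω h2 _ _ (mul_ne_zero hs0 hs0) hv0 ?_ (by rw [hv1, hv2, hv3])
      simp only [map_mul, hsκ]
      ring
    rw [S.anti v s hv0 hs0, S.of_sq h2 s v hs0 hv0 h1, neg_zero]
  by_cases hd : v * v2 - v1 * v1 = 0
  · -- `v ^ 3` is fixed
    have h1 : v1 ^ 3 = v ^ 3 := by
      rw [hv2e] at hd
      linear_combination (v - v1) * hd
    exact S.fixed_of_pow 3 h3ne v w hv0 hw0 (pow_mem hv 3) (by rw [map_pow, hv1, h1])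
  obtain ⟨d, hd'⟩ : ∃ d, d = v * v2 - v1 * v1 := ⟨_, rfl⟩
  rw [← hd'] at hd
  obtain ⟨y, hy⟩ : ∃ y, y = s * w := ⟨_, rfl⟩
  have hy0 : y ≠ 0 := hy ▸ mul_ne_zero hs0 hw0
  have hyL : y ∈ L := hy ▸ mul_mem hsL hw
  obtain ⟨y4, hy4⟩ : ∃ y4, y4 = γ (γ (γ (γ y))) := ⟨_, rfl⟩
  have hy4L : y4 ∈ L := hy4 ▸ hL _ (hL _ (hL _ (hL _ hyL)))
  have hy4e : y4 = (w2 * w3 - w * w5) * w4 := by
    rw [hy4, hy, hs]
    simp only [map_sub, map_mul, hw1, hw2, hw4, hw3, hw5, hw6]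
  have hy2e : γ (γ y) = (w * w1 - w4 * w3) * w2 := by
    rw [hy, hs]
    simp only [map_sub, map_mul, hw1, hw2, hw4, hw3, hw5, hw6]
  have hytr : y + y4 + γ (γ y) = 0 := by
    rw [hy4e, hy2e, hy, hs]
    ring
  have hγ2y4 : γ (γ y4) = y := by rw [hy4, h6]
  have hdγ : γ (γ d) = d := by
    rw [hd']
    simp only [map_sub, map_mul, hv1, hv2, hv3]
    rw [hv2e]
    ring
  have hdL : d ∈ L := hd' ▸ sub_mem (mul_mem hv hv2L) (mul_mem hv1L hv1L)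
  obtain ⟨P, hP⟩ : ∃ P, P = (y * v2 - y4 * v1) / d := ⟨_, rfl⟩
  obtain ⟨Q, hQ⟩ : ∃ Q, Q = (v * y4 - v1 * y) / d := ⟨_, rfl⟩
  have hPL : P ∈ L := hP ▸ div_mem (sub_mem (mul_mem hyL hv2L) (mul_mem hy4L hv1L)) hdL
  have hQL : Q ∈ L := hQ ▸ div_mem (sub_mem (mul_mem hv hy4L) (mul_mem hv1L hyL)) hdL
  have hy2e' : γ (γ y) = - y - y4 := by linear_combination hytr
  have hPγ : γ (γ P) = P := by
    rw [hP]
    simp only [map_sub, map_mul, map_div₀, hv1, hv2, hv3, hγ2y4, hdγ, hy2e']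
    congr 1
    rw [hv2e]
    ring
  have hQγ : γ (γ Q) = Q := by
    rw [hQ]
    simp only [map_sub, map_mul, map_div₀, hv1, hv2, hv3, hγ2y4, hdγ, hy2e']
    congr 1
    rw [hv2e]
    ring
  have hPQ : y = P * v + Q * v1 := by
    rw [hP, hQ]
    field_simp
    rw [hd']
    ring
  have hPQ2 : y = (P - Q) * v + -(Q * v2) := by
    rw [hv2e, hPQ]
    ring
  have CK : ∀ x b, x ∈ L → x ≠ 0 → γ (γ x) = x → b ∈ L → b ≠ 0 → S.B x b = 0 :=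
    fun x b hx hx0 hx2 hb hb0 => S.six_C hω h2 h3 hL h6 θ hθ hγθ x b hx hx0 hx2 hb hb0
  have CK' : ∀ x b, x ∈ L → x ≠ 0 → γ (γ x) = x → b ∈ L → b ≠ 0 → S.B b x = 0 :=
    fun x b hx hx0 hx2 hb hb0 => by
      rw [S.anti b x hb0 hx0, CK x b hx hx0 hx2 hb hb0, neg_zero]
  have k1 : S.B v v1 = 0 := S.six_K3 hω h2 v v1 hv0 hv10 (by rw [hv1, hv2, hv3])
    (by rw [hv2, hv3, hv1])
  have k2 : S.B v v2 = 0 := S.six_K3 hω h2 v v2 hv0 hv20 (by rw [hv1, hv2, hv3])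
    (by rw [hv3, hv1, hv2])
  have key : S.B v y = 0 := by
    by_cases hQ0 : Q = 0
    · have hP0 : P ≠ 0 := by
        rintro rfl
        apply hy0
        rw [hPQ, hQ0]
        ring
      rw [hPQ, hQ0, zero_mul, add_zero, S.mul_right _ _ _ hv0 hP0 hv0, S.self v hv0, add_zero]
      exact CK' P v hPL hP0 hPγ hv hv0
    by_cases hP0 : P = 0
    · rw [hPQ, hP0, zero_mul, zero_add, S.mul_right _ _ _ hv0 hQ0 hv10, k1, add_zero]
      exact CK' Q v hQL hQ0 hQγ hv hv0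
    by_cases hR0 : P - Q = 0
    · rw [hPQ2, hR0, zero_mul, zero_add, S.neg_right _ _ hv0 (mul_ne_zero hQ0 hv20),
        S.mul_right _ _ _ hv0 hQ0 hv20, k2, add_zero]
      exact CK' Q v hQL hQ0 hQγ hv hv0
    have r1 := S.st3 (P * v) (Q * v1) y (mul_ne_zero hP0 hv0) (mul_ne_zero hQ0 hv10) hy0 hPQ.symm
    rw [S.mul_left _ _ _ hP0 hv0 (mul_ne_zero hQ0 hv10),
      CK P _ hPL hP0 hPγ (mul_mem hQL hv1L) (mul_ne_zero hQ0 hv10),
      S.mul_right _ _ _ hv0 hQ0 hv10, CK' Q v hQL hQ0 hQγ hv hv0, k1,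
      S.mul_left _ _ _ hP0 hv0 hy0, CK P _ hPL hP0 hPγ hyL hy0, S.mul_right _ _ _ hy0 hQ0 hv10,
      CK' Q y hQL hQ0 hQγ hyL hy0] at r1
    have r2 := S.st3 ((P - Q) * v) (-(Q * v2)) y (mul_ne_zero hR0 hv0)
      (neg_ne_zero.mpr (mul_ne_zero hQ0 hv20)) hy0 hPQ2.symm
    have hRL : P - Q ∈ L := sub_mem hPL hQL
    have hRγ : γ (γ (P - Q)) = P - Q := by rw [map_sub, map_sub, hPγ, hQγ]
    rw [S.neg_right _ _ (mul_ne_zero hR0 hv0) (mul_ne_zero hQ0 hv20),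
      S.neg_right _ _ hy0 (mul_ne_zero hQ0 hv20),
      S.mul_left _ _ _ hR0 hv0 (mul_ne_zero hQ0 hv20),
      CK (P - Q) _ hRL hR0 hRγ (mul_mem hQL hv2L) (mul_ne_zero hQ0 hv20),
      S.mul_right _ _ _ hv0 hQ0 hv20, CK' Q v hQL hQ0 hQγ hv hv0, k2,
      S.mul_left _ _ _ hR0 hv0 hy0, CK (P - Q) _ hRL hR0 hRγ hyL hy0,
      S.mul_right _ _ _ hy0 hQ0 hv20, CK' Q y hQL hQ0 hQγ hyL hy0] at r2
    have n : S.B y v + S.B y v1 + S.B y v2 = 0 := by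
      rw [← S.mul_right _ _ _ hy0 hv0 hv10,
        ← S.mul_right _ _ _ hy0 (mul_ne_zero hv0 hv10) hv20]
      refine S.fixed_right _ _ (mul_ne_zero (mul_ne_zero hv0 hv10) hv20) hy0
        (mul_mem (mul_mem hv hv1L) hv2L) ?_
      simp only [map_mul, hv1, hv2, hv3]
      ring
    have a := S.anti v y hv0 hy0
    have t : (3 : ZMod p) • S.B v y = 0 := by
      have e3 : (3 : ZMod p) • S.B v y = S.B v y + S.B v y + S.B v y := by
        rw [show (3 : ZMod p) = 1 + 1 + 1 by norm_num, add_smul, add_smul, one_smul]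
      rw [e3]
      linear_combination (norm := abel) a - n - r1 - r2
    exact (smul_eq_zero.mp t).resolve_left h3
  rw [hy, S.mul_right _ _ _ hv0 hs0 hw0, hsB, zero_add] at key
  exact key

/-- Claim D -/
theorem six_D (hω : ω ^ 2 - ω + 1 = 0) (h2 : (2 : ZMod p) ≠ 0) (h3 : (3 : ZMod p) ≠ 0)
    (hL : ∀ x ∈ L, γ x ∈ L) (h6 : ∀ x, γ (γ (γ (γ (γ (γ x))))) = x)
    (θ : N) (hθ : θ ^ 2 + θ + 1 = 0) (hγθ : γ (γ θ) = θ)
    (u w : N) (hu : u ∈ L) (hu0 : u ≠ 0) (hu3 : γ (γ (γ u)) = u) (hw : w ∈ L) (hw0 : w ≠ 0) :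
    S.B u w = 0 := by
  by_cases hfix : γ u = u
  · exact S.fixed u w hu0 hw0 hu hfix
  have hv0 : γ u - γ (γ u) ≠ 0 := by
    intro h
    apply hfix
    have h1 : γ (γ u) = γ u := (sub_eq_zero.mp h).symm
    exact γ.injective h1
  have hvL : γ u - γ (γ u) ∈ L := sub_mem (hL u hu) (hL _ (hL u hu))
  have h1 : S.B (γ u - γ (γ u)) w = 0 :=
    S.six_D0 hω h2 h3 hL h6 θ hθ hγθ _ w hvL hv0 (by simp only [map_sub, hu3])
      (by simp only [map_sub, hu3]; ring) hw hw0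
  have h4 : S.B (u * (γ u - γ (γ u))) w = 0 :=
    S.six_D0 hω h2 h3 hL h6 θ hθ hγθ _ w (mul_mem hu hvL) (mul_ne_zero hu0 hv0)
      (by simp only [map_mul, map_sub, hu3])
      (by simp only [map_mul, map_sub, hu3]; ring) hw hw0
  rwa [S.mul_left u _ w hu0 hv0 hw0, h1, add_zero] at h4

/-- **The case `[L : F] = 6`** (`θ ∈ N` a root of `X² + X + 1`). -/
theorem six (hω : ω ^ 2 - ω + 1 = 0) (h2 : (2 : ZMod p) ≠ 0) (h3 : (3 : ZMod p) ≠ 0)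
    (hL : ∀ x ∈ L, γ x ∈ L) (h6 : ∀ x, γ (γ (γ (γ (γ (γ x))))) = x)
    (θ : N) (hθ : θ ^ 2 + θ + 1 = 0) (hγθ : γ (γ θ) = θ)
    (a b : N) (ha : a ∈ L) (ha0 : a ≠ 0) (hb : b ∈ L) (hb0 : b ≠ 0) :
    S.B a b = 0 := by
  have ka0 : γ (γ (γ a)) ≠ 0 := by simpa using ha0
  have kb0 : γ (γ (γ b)) ≠ 0 := by simpa using hb0
  have kbL : γ (γ (γ b)) ∈ L := hL _ (hL _ (hL _ hb))
  have kaL : γ (γ (γ a)) ∈ L := hL _ (hL _ (hL _ ha))
  have h1 := S.six_kappa hω a b ha0 hb0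
  have h4 : S.B a b + S.B (γ (γ (γ a))) b = 0 := by
    rw [← S.mul_left _ _ _ ha0 ka0 hb0]
    refine S.six_D hω h2 h3 hL h6 θ hθ hγθ _ b (mul_mem ha kaL) (mul_ne_zero ha0 ka0) ?_ hb hb0
    simp only [map_mul, h6, mul_comm]
  have h5 : S.B (γ (γ (γ a))) b + S.B (γ (γ (γ a))) (γ (γ (γ b))) = 0 := by
    rw [← S.mul_right _ _ _ ka0 hb0 kb0, S.anti _ _ ka0 (mul_ne_zero hb0 kb0), neg_eq_zero]
    refine S.six_D hω h2 h3 hL h6 θ hθ hγθ _ _ (mul_mem hb kbL) (mul_ne_zero hb0 kb0) ?_ kaL ka0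
    simp only [map_mul, h6, mul_comm]
  have h7 : (2 : ZMod p) • S.B a b = 0 := by
    rw [two_smul]
    linear_combination (norm := abel) h4 - h5 + h1
  exact (smul_eq_zero.mp h7).resolve_left h2

end Six

end TwSym

end BrR
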