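import Pool.Agent.H48.BR.Kum

set_option autoImplicit false

/-! # Row Cyt: cyclotomic characters and their decomposition (about 200 lines)

`z n` primitive `p^(n+1)`-th roots of unity, `z 0 = ζ`, `z (n+1)^p = z n`.
`eps n : G → ZMod (p^(n+1))`, `g • z n = (z n)^(eps n g)`; `tei n = eps n ^ (p^n)` (Teichmueller part),
`kap n = eps n ^ (1 + p^n (p-2))` (pro-p part).

* `eps_spec`: `pw_lg` (`(g • z n)^(p^(n+1)) = 1`). `eps_mul`: `gh • z = g • pw z (eps h) = pw (g • z) (eps h) = pw z (eps g * eps h)`, `pw_injective`.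
  `eps_one`. `eps_unit`: `eps g * eps g⁻¹ = 1`. `eps_lc`: `LC1.smul_elt`, `.comp`.
* `eps_cast`: `g • z n = (g • z (n+1))^p = (z (n+1))^((eps (n+1) g).val * p) = (z n)^(eps (n+1) g).val`; so `eps n g = ((eps (n+1) g).val : ZMod _)`
  (`pw_natCast`), which is the cast.
* Euler: for `x` a unit of `ZMod (p^(n+1))`: `x^(p^n * (p-1)) = 1` (`ZMod.pow_totient`, `Nat.totient_prime_pow_succ`).
* `tei_mul, kap_mul, tei_one..`: powers of a multiplicative function. `kap_tei`: exponents `1 + p^n(p-2) + p^n = 1 + p^n (p-1)`.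
* `kap_zero`: `eps 0 ^ (1 + (p-2)) = eps 0 ^ (p-1) = 1` (`n = 0`, modulus `p^1`).
* `tei_cast`: `cast (eps (n+1) ^ p^(n+1)) = eps n ^ (p^n * p) = eps n ^ (p^n (p-1)) * eps n ^ p^n = eps n ^ (p^n)`.
* `kap_cast`: `cast = eps n * (eps n ^ p^(n+1))^(p-2) = eps n * (eps n ^ p^n)^(p-2)`.
* `tei_gz`: on `Gz ζ`: `eps 0 g = 1`, so `eps n g` reduces to `1` mod `p`, i.e. `(eps n g).val ≡ 1 mod p`, so its `p^n`-th power is `1` mod `p^(n+1)`
  (e.g. `Int.ModEq`/`Nat.ModEq` lemma: `a ≡ 1 [MOD p^k] → a^p ≡ 1 [MOD p^(k+1)]`, iterate; Mathlib: `ZMod...` or `dvd_sub_pow_of_dvd_sub`).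
  Then `kap = eps` on `Gz ζ`. -/

namespace BrR

variable {F Ω : Type} [Field F] [Field Ω] [Algebra F Ω]

/-- compatible system of roots of unity of `p`-power order -/
structure ZSys (p : ℕ) (ζ : Ωˣ) (z : ℕ → Ωˣ) : Prop where
  zero : z 0 = ζ
  prim : ∀ n, IsPrimitiveRoot (z n) (p ^ (n + 1))
  pow : ∀ n, (z (n + 1)) ^ p = z n

/-- cyclotomic character modulo `p^(n+1)` -/
noncomputable def eps (p : ℕ) (z : ℕ → Ωˣ) (n : ℕ) (g : Gal(Ω/F)) : ZMod (p ^ (n + 1)) :=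
  lg (p ^ (n + 1)) (z n) (g • z n)

/-- Teichmueller part -/
noncomputable def tei (p : ℕ) (z : ℕ → Ωˣ) (n : ℕ) (g : Gal(Ω/F)) : ZMod (p ^ (n + 1)) :=
  (eps p z n g) ^ (p ^ n)

/-- pro-`p` part -/
noncomputable def kap (p : ℕ) (z : ℕ → Ωˣ) (n : ℕ) (g : Gal(Ω/F)) : ZMod (p ^ (n + 1)) :=
  (eps p z n g) ^ (1 + p ^ n * (p - 2))

theorem Cyt_euler (p : ℕ) [Fact p.Prime] (n : ℕ) {x : ZMod (p ^ (n + 1))} (hx : IsUnit x) :
    x ^ (p ^ n * (p - 1)) = 1 := by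
  obtain ⟨u, rfl⟩ := hx
  have h := ZMod.pow_totient u
  rw [Nat.totient_prime_pow_succ (Fact.out : p.Prime)] at h
  rw [← Units.val_pow_eq_pow_val, h, Units.val_one]

section

variable {p : ℕ} [Fact p.Prime] (hodd : Odd p) {ζ : Ωˣ} {z : ℕ → Ωˣ} (hz : ZSys p ζ z)

include hz

theorem eps_spec (n : ℕ) (g : Gal(Ω/F)) : g • z n = pw (p ^ (n + 1)) (z n) (eps p z n g) := by
  haveI : NeZero (p ^ (n + 1)) := ⟨pow_ne_zero _ (Fact.out : p.Prime).ne_zero⟩
  have h := hz.prim n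
  rw [eps, pw_lg h]
  rw [← smul_pow', h.pow_eq_one, smul_one]

theorem eps_mul (n : ℕ) (g h : Gal(Ω/F)) : eps p z n (g * h) = eps p z n g * eps p z n h := by
  haveI : NeZero (p ^ (n + 1)) := ⟨pow_ne_zero _ (Fact.out : p.Prime).ne_zero⟩
  have h1 := hz.prim n
  apply pw_injective h1
  rw [← eps_spec hz, mul_smul, eps_spec hz n h, smul_pw, eps_spec hz n g, pw_mul h1.pow_eq_one]
  rfl

theorem eps_one (n : ℕ) : eps p z n (1 : Gal(Ω/F)) = 1 := by
  haveI : NeZero (p ^ (n + 1)) := ⟨pow_ne_zero _ (Fact.out : p.Prime).ne_zero⟩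
  have h1 := hz.prim n
  apply pw_injective h1
  have h2 := pw_natCast h1.pow_eq_one 1
  rw [Nat.cast_one, pow_one] at h2
  rw [← eps_spec hz, one_smul, h2]

theorem eps_unit (n : ℕ) (g : Gal(Ω/F)) : IsUnit (eps p z n g) := by
  refine IsUnit.of_mul_eq_one (eps p z n g⁻¹) ?_
  rw [← eps_mul hz, mul_inv_cancel, eps_one hz]

theorem eps_cast (n : ℕ) (g : Gal(Ω/F)) :
    ((eps p z (n + 1) g).cast : ZMod (p ^ (n + 1))) = eps p z n g := by
  haveI : NeZero (p ^ (n + 1)) := ⟨pow_ne_zero _ (Fact.out : p.Prime).ne_zero⟩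
  haveI : NeZero (p ^ (n + 1 + 1)) := ⟨pow_ne_zero _ (Fact.out : p.Prime).ne_zero⟩
  have h1 := hz.prim n
  apply pw_injective h1
  rw [ZMod.cast_eq_val, pw_natCast h1.pow_eq_one, ← eps_spec hz]
  have h2 : g • z n = (g • z (n + 1)) ^ p := by rw [← smul_pow', hz.pow n]
  rw [h2, eps_spec hz (n + 1) g, pw, ← pow_mul, mul_comm, pow_mul, hz.pow n]

theorem tei_mul (n : ℕ) (g h : Gal(Ω/F)) : tei p z n (g * h) = tei p z n g * tei p z n h := by
  rw [tei, tei, tei, eps_mul hz, mul_pow]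

theorem kap_mul (n : ℕ) (g h : Gal(Ω/F)) : kap p z n (g * h) = kap p z n g * kap p z n h := by
  rw [kap, kap, kap, eps_mul hz, mul_pow]

theorem tei_cast (n : ℕ) (g : Gal(Ω/F)) :
    ((tei p z (n + 1) g).cast : ZMod (p ^ (n + 1))) = tei p z n g := by
  have hp : p.Prime := Fact.out
  have hd : p ^ (n + 1) ∣ p ^ (n + 1 + 1) := pow_dvd_pow _ (by omega)
  have he : p ^ (n + 1) = p ^ n * (p - 1) + p ^ n := by
    obtain ⟨q, rfl⟩ : ∃ q, p = q + 1 := ⟨p - 1, by have := hp.one_lt; omega⟩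
    rw [Nat.add_sub_cancel]
    ring
  rw [tei, tei, ZMod.cast_pow hd, eps_cast hz]
  refine (congrArg (fun e : ℕ => (eps p z n g) ^ e) he).trans ?_
  show (eps p z n g) ^ (p ^ n * (p - 1) + p ^ n) = _
  rw [pow_add (eps p z n g), Cyt_euler p n (eps_unit hz n g), one_mul]

theorem kap_cast (n : ℕ) (g : Gal(Ω/F)) :
    ((kap p z (n + 1) g).cast : ZMod (p ^ (n + 1))) = kap p z n g := by
  have hp : p.Prime := Fact.out
  have hd : p ^ (n + 1) ∣ p ^ (n + 1 + 1) := pow_dvd_pow _ (by omega)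
  have he : p ^ (n + 1) * (p - 2) = p ^ n * (p - 1) * (p - 2) + p ^ n * (p - 2) := by
    obtain ⟨q, rfl⟩ : ∃ q, p = q + 2 := ⟨p - 2, by have := hp.two_le; omega⟩
    rw [Nat.add_sub_cancel, show q + 2 - 1 = q + 1 by omega]
    ring
  rw [kap, kap, ZMod.cast_pow hd, eps_cast hz, he, pow_add (eps p z n g),
    pow_add (eps p z n g), pow_mul (eps p z n g) (p ^ n * (p - 1)),
    Cyt_euler p n (eps_unit hz n g), one_pow, one_mul, ← pow_add (eps p z n g)]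

theorem tei_gz (n : ℕ) {g : Gal(Ω/F)} (hg : g ∈ Gz ζ) : tei p z n g = 1 := by
  haveI : NeZero (p ^ (n + 1)) := ⟨pow_ne_zero _ (Fact.out : p.Prime).ne_zero⟩
  have hzn : ∀ m : ℕ, (z m) ^ (p ^ m) = z 0 := by
    intro m
    induction m with
    | zero => rw [pow_zero, pow_one]
    | succ m ih => rw [pow_succ', pow_mul, hz.pow m, ih]
  have h1 : (z 0) ^ (eps p z n g).val = z 0 := by
    have h2 : g • z 0 = z 0 := by rw [hz.zero]; exact hg
    conv_rhs => rw [← h2, ← hzn n, smul_pow', eps_spec hz n g, pw]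
    rw [← hzn n, ← pow_mul, ← pow_mul, mul_comm]
  have h0 := hz.prim 0
  have h3 : (eps p z n g).val ≡ 1 [MOD p] := by
    have h4 : (z 0) ^ (eps p z n g).val = (z 0) ^ 1 := by rw [h1, pow_one]
    rw [pow_eq_pow_iff_modEq, ← h0.eq_orderOf, zero_add, pow_one] at h4
    exact h4
  have h5 : (p : ℤ) ∣ ((eps p z n g).val : ℤ) - 1 := by
    have := (Nat.modEq_iff_dvd.mp h3.symm)
    simpa using this
  have h6 := dvd_sub_pow_of_dvd_sub h5 n
  rw [one_pow] at h6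
  have h7 : (((eps p z n g).val : ℤ) ^ p ^ n - 1 : ℤ) = (((eps p z n g).val : ℤ) ^ p ^ n - 1) := rfl
  have h8 : ((((eps p z n g).val : ℤ) ^ p ^ n - 1 : ℤ) : ZMod (p ^ (n + 1))) = 0 := by
    rw [ZMod.intCast_zmod_eq_zero_iff_dvd]
    push_cast
    exact h6
  push_cast at h8
  rw [ZMod.natCast_zmod_val] at h8
  rw [tei]
  exact sub_eq_zero.mp h8

theorem kap_gz (n : ℕ) {g : Gal(Ω/F)} (hg : g ∈ Gz ζ) : kap p z n g = eps p z n g := by
  have h := tei_gz hz n hg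
  rw [tei] at h
  rw [kap, pow_add (eps p z n g), pow_mul (eps p z n g), h, one_pow, mul_one, pow_one]

theorem kap_unit (n : ℕ) (g : Gal(Ω/F)) : IsUnit (kap p z n g) := by
  rw [kap]
  exact (eps_unit hz n g).pow _

include hodd

theorem kap_tei (n : ℕ) (g : Gal(Ω/F)) : kap p z n g * tei p z n g = eps p z n g := by
  have hp : p.Prime := Fact.out
  have he : 1 + p ^ n * (p - 2) + p ^ n = 1 + p ^ n * (p - 1) := by
    obtain ⟨q, rfl⟩ : ∃ q, p = q + 2 := ⟨p - 2, by have := hp.two_le; omega⟩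
    rw [Nat.add_sub_cancel, show q + 2 - 1 = q + 1 by omega]
    ring
  rw [kap, tei, ← pow_add (eps p z n g), he, pow_add (eps p z n g),
    Cyt_euler p n (eps_unit hz n g), pow_one, mul_one]

theorem kap_zero (g : Gal(Ω/F)) : kap p z 0 g = 1 := by
  have hp : p.Prime := Fact.out
  have he : 1 + p ^ 0 * (p - 2) = p ^ 0 * (p - 1) := by
    obtain ⟨q, rfl⟩ : ∃ q, p = q + 2 := ⟨p - 2, by have := hp.two_le; omega⟩
    rw [Nat.add_sub_cancel, show q + 2 - 1 = q + 1 by omega]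
    ring
  rw [kap, he, Cyt_euler p 0 (eps_unit hz 0 g)]

end

theorem eps_lc [IsGalois F Ω] (p : ℕ) (z : ℕ → Ωˣ) (n : ℕ) :
    LC1 (eps (F := F) p z n) :=
  (LC1.smul_elt smo_units (z n)).comp (fun u => lg (p ^ (n + 1)) (z n) u)

theorem tei_lc [IsGalois F Ω] (p : ℕ) (z : ℕ → Ωˣ) (n : ℕ) :
    LC1 (tei (F := F) p z n) :=
  (eps_lc p z n).comp (fun x => x ^ (p ^ n))

theorem kap_lc [IsGalois F Ω] (p : ℕ) (z : ℕ → Ωˣ) (n : ℕ) :
    LC1 (kap (F := F) p z n) :=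
  (eps_lc p z n).comp (fun x => x ^ (1 + p ^ n * (p - 2)))

end BrR
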