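import Mathlib

set_option autoImplicit false

/-! # Cochains of the absolute Galois group with values in the units of a separable closure

`F` a field, `Ω` a separably closed Galois extension of `F`, `G = Gal(Ω/F)`.
Cochains are total functions `G → G → Ωˣ`, all conditions are imposed on a subgroup `H` only. -/

namespace BrR

variable {F Ω : Type} [Field F] [Field Ω] [Algebra F Ω]

/-- open normal subgroups of the Galois group -/
def ON (U : Subgroup Gal(Ω/F)) : Prop := U.Normal ∧ IsOpen (U : Set Gal(Ω/F))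

/-- locally constant functions of one variable -/
def LC1 {A : Type*} (f : Gal(Ω/F) → A) : Prop :=
  ∃ U : Subgroup Gal(Ω/F), ON U ∧ ∀ g, ∀ u ∈ U, f (g * u) = f g

/-- locally constant functions of two variables -/
def LC2 {A : Type*} (c : Gal(Ω/F) → Gal(Ω/F) → A) : Prop :=
  ∃ U : Subgroup Gal(Ω/F), ON U ∧ ∀ g h, ∀ u ∈ U, ∀ v ∈ U, c (g * u) (h * v) = c g h

theorem ON.inf {U V : Subgroup Gal(Ω/F)} (hU : ON U) (hV : ON V) : ON (U ⊓ V) := by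
  obtain ⟨h1, h2⟩ := hU
  obtain ⟨h3, h4⟩ := hV
  refine ⟨inferInstance, ?_⟩
  rw [Subgroup.coe_inf]
  exact h2.inter h4

theorem ON.top : ON (⊤ : Subgroup Gal(Ω/F)) := ⟨inferInstance, by simp⟩

theorem LC1.comp₂ {A B C : Type*} {f : Gal(Ω/F) → A} {f' : Gal(Ω/F) → B} (hf : LC1 f)
    (hf' : LC1 f') (m : A → B → C) : LC1 (fun g => m (f g) (f' g)) := by
  obtain ⟨U, hU, h1⟩ := hf
  obtain ⟨V, hV, h2⟩ := hf'
  refine ⟨U ⊓ V, hU.inf hV, fun g u hu => ?_⟩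
  simp only [h1 g u hu.1, h2 g u hu.2]

theorem LC1.comp {A B : Type*} {f : Gal(Ω/F) → A} (hf : LC1 f) (m : A → B) :
    LC1 (fun g => m (f g)) := by
  obtain ⟨U, hU, h1⟩ := hf
  exact ⟨U, hU, fun g u hu => by simp only [h1 g u hu]⟩

theorem LC2.comp₂ {A B C : Type*} {f : Gal(Ω/F) → Gal(Ω/F) → A} {f' : Gal(Ω/F) → Gal(Ω/F) → B}
    (hf : LC2 f) (hf' : LC2 f') (m : A → B → C) : LC2 (fun g h => m (f g h) (f' g h)) := by
  obtain ⟨U, hU, h1⟩ := hf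
  obtain ⟨V, hV, h2⟩ := hf'
  refine ⟨U ⊓ V, hU.inf hV, fun g h u hu v hv => ?_⟩
  simp only [h1 g h u hu.1 v hv.1, h2 g h u hu.2 v hv.2]

theorem LC2.comp {A B : Type*} {f : Gal(Ω/F) → Gal(Ω/F) → A} (hf : LC2 f) (m : A → B) :
    LC2 (fun g h => m (f g h)) := by
  obtain ⟨U, hU, h1⟩ := hf
  exact ⟨U, hU, fun g h u hu v hv => by simp only [h1 g h u hu v hv]⟩

theorem LC1.const {A : Type*} (a : A) : LC1 (fun _ : Gal(Ω/F) => a) :=
  ⟨⊤, ON.top, fun _ _ _ => rfl⟩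

theorem LC2.const {A : Type*} (a : A) : LC2 (fun _ _ : Gal(Ω/F) => a) :=
  ⟨⊤, ON.top, fun _ _ _ _ _ _ => rfl⟩

/-- the coboundary of a 1-cochain -/
def dd (b : Gal(Ω/F) → Ωˣ) : Gal(Ω/F) → Gal(Ω/F) → Ωˣ := fun g h => b g * g • b h / b (g * h)

theorem dd_mul (b b' : Gal(Ω/F) → Ωˣ) (g h : Gal(Ω/F)) :
    dd (b * b') g h = dd b g h * dd b' g h := by
  simp only [dd, Pi.mul_apply, smul_mul']
  rw [div_mul_div_comm]
  congr 1
  exact mul_mul_mul_comm _ _ _ _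

theorem dd_inv (b : Gal(Ω/F) → Ωˣ) (g h : Gal(Ω/F)) : dd b⁻¹ g h = (dd b g h)⁻¹ := by
  simp only [dd, Pi.inv_apply, smul_inv', div_inv_eq_mul]
  rw [div_eq_mul_inv]
  simp only [mul_inv, inv_inv]

theorem dd_one (g h : Gal(Ω/F)) : dd (1 : Gal(Ω/F) → Ωˣ) g h = 1 := by
  simp [dd]

/-- (locally constant) 2-cocycles on the subgroup `H` -/
def Coc (H : Subgroup Gal(Ω/F)) : Subgroup (Gal(Ω/F) → Gal(Ω/F) → Ωˣ) where
  carrier := {c | LC2 c ∧ ∀ g ∈ H, ∀ h ∈ H, ∀ k ∈ H,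
    g • c h k * c g (h * k) = c (g * h) k * c g h}
  mul_mem' := by
    rintro a b ⟨ha1, ha2⟩ ⟨hb1, hb2⟩
    refine ⟨ha1.comp₂ hb1 (· * ·), fun g hg h hh k hk => ?_⟩
    simp only [Pi.mul_apply, smul_mul']
    rw [mul_mul_mul_comm, ha2 g hg h hh k hk, hb2 g hg h hh k hk, mul_mul_mul_comm]
  one_mem' := ⟨LC2.const 1, fun g hg h hh k hk => by simp⟩
  inv_mem' := by
    rintro a ⟨ha1, ha2⟩
    refine ⟨ha1.comp (·⁻¹), fun g hg h hh k hk => ?_⟩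
    simp only [Pi.inv_apply, smul_inv', ← mul_inv]
    rw [ha2 g hg h hh k hk]

/-- functions that are (locally constant) 2-coboundaries on the subgroup `H`
(no condition outside `H × H`) -/
def Cob (H : Subgroup Gal(Ω/F)) : Subgroup (Gal(Ω/F) → Gal(Ω/F) → Ωˣ) where
  carrier := {c | ∃ b : Gal(Ω/F) → Ωˣ, LC1 b ∧ ∀ g ∈ H, ∀ h ∈ H, c g h = dd b g h}
  mul_mem' := by
    rintro a a' ⟨b, hb, h1⟩ ⟨b', hb', h1'⟩
    refine ⟨b * b', hb.comp₂ hb' (· * ·), fun g hg h hh => ?_⟩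
    rw [dd_mul, Pi.mul_apply, Pi.mul_apply, h1 g hg h hh, h1' g hg h hh]
  one_mem' := ⟨1, LC1.const 1, fun g _ h _ => by rw [dd_one]; rfl⟩
  inv_mem' := by
    rintro a ⟨b, hb, h1⟩
    refine ⟨b⁻¹, hb.comp (·⁻¹), fun g hg h hh => ?_⟩
    rw [dd_inv, ← h1 g hg h hh]
    rfl

theorem mem_Cob {H : Subgroup Gal(Ω/F)} {c : Gal(Ω/F) → Gal(Ω/F) → Ωˣ} :
    c ∈ Cob H ↔ ∃ b : Gal(Ω/F) → Ωˣ, LC1 b ∧ ∀ g ∈ H, ∀ h ∈ H, c g h = dd b g h := Iff.rfl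

theorem mem_Coc {H : Subgroup Gal(Ω/F)} {c : Gal(Ω/F) → Gal(Ω/F) → Ωˣ} :
    c ∈ Coc H ↔ LC2 c ∧ ∀ g ∈ H, ∀ h ∈ H, ∀ k ∈ H,
      g • c h k * c g (h * k) = c (g * h) k * c g h := Iff.rfl

/-- restriction of coboundaries -/
theorem Cob_anti {H K : Subgroup Gal(Ω/F)} (h : K ≤ H) : Cob H ≤ Cob K := by
  rintro c ⟨b, hb, h1⟩
  exact ⟨b, hb, fun g hg k hk => h1 g (h hg) k (h hk)⟩

/-- restriction of cocycles -/
theorem Coc_anti {H K : Subgroup Gal(Ω/F)} (h : K ≤ H) : Coc H ≤ Coc K := by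
  rintro c ⟨hb, h1⟩
  exact ⟨hb, fun g hg k hk l hl => h1 g (h hg) k (h hk) l (h hl)⟩

/-- two functions that agree on `H × H` are equivalent -/
theorem div_mem_Cob_of_eq {H : Subgroup Gal(Ω/F)} {c c' : Gal(Ω/F) → Gal(Ω/F) → Ωˣ}
    (h : ∀ g ∈ H, ∀ k ∈ H, c g k = c' g k) : c / c' ∈ Cob H := by
  refine ⟨1, LC1.const 1, fun g hg k hk => ?_⟩
  rw [dd_one, Pi.div_apply, Pi.div_apply, h g hg k hk, div_self']

/-! ### roots of unity -/

/-- `z ^ a` for an exponent modulo `N` -/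
def pw {M : Type*} [Monoid M] (N : ℕ) (z : M) (a : ZMod N) : M := z ^ a.val

open Classical in
/-- discrete logarithm to the base `z` (an `N`-th root of unity) -/
noncomputable def lg (N : ℕ) (z u : Ωˣ) : ZMod N :=
  if h : ∃ a : ZMod N, pw N z a = u then h.choose else 0

theorem pw_zero {M : Type*} [Monoid M] (N : ℕ) [NeZero N] (z : M) : pw N z 0 = 1 := by
  simp [pw]

theorem pw_add {M : Type*} [Monoid M] {N : ℕ} [NeZero N] {z : M} (hz : z ^ N = 1) (a b : ZMod N) :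
    pw N z (a + b) = pw N z a * pw N z b := by
  rw [pw, pw, pw, ZMod.val_add, ← pow_add]
  exact (pow_eq_pow_mod _ hz).symm

theorem pw_natCast {M : Type*} [Monoid M] {N : ℕ} [NeZero N] {z : M} (hz : z ^ N = 1) (a : ℕ) :
    pw N z (a : ZMod N) = z ^ a := by
  rw [pw, ZMod.val_natCast]
  exact (pow_eq_pow_mod _ hz).symm

theorem pw_mul {M : Type*} [Monoid M] {N : ℕ} [NeZero N] {z : M} (hz : z ^ N = 1) (a b : ZMod N) :
    pw N z (a * b) = (pw N z a) ^ b.val := by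
  rw [pw, pw, ZMod.val_mul, ← pow_mul]
  exact (pow_eq_pow_mod _ hz).symm

theorem pw_neg {M : Type*} [Group M] {N : ℕ} [NeZero N] {z : M} (hz : z ^ N = 1) (a : ZMod N) :
    pw N z (-a) = (pw N z a)⁻¹ := by
  have h := pw_add hz (-a) a
  rw [neg_add_cancel, pw_zero] at h
  exact (inv_eq_of_mul_eq_one_left h.symm).symm

theorem pw_sub {M : Type*} [Group M] {N : ℕ} [NeZero N] {z : M} (hz : z ^ N = 1) (a b : ZMod N) :
    pw N z (a - b) = pw N z a / pw N z b := by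
  rw [sub_eq_add_neg, pw_add hz, pw_neg hz, div_eq_mul_inv]

theorem pw_pow {M : Type*} [Monoid M] {N : ℕ} [NeZero N] {z : M} (hz : z ^ N = 1) (a : ZMod N)
    (n : ℕ) : pw N z ((n : ZMod N) * a) = (pw N z a) ^ n := by
  have : ((n : ZMod N) * a) = ((n * a.val : ℕ) : ZMod N) := by
    rw [Nat.cast_mul, ZMod.natCast_zmod_val]
  rw [this, pw_natCast hz, pw, mul_comm, pow_mul]

theorem pw_pow_self {M : Type*} [Monoid M] {N : ℕ} [NeZero N] {z : M} (hz : z ^ N = 1)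
    (a : ZMod N) : (pw N z a) ^ N = 1 := by
  rw [pw, ← pow_mul, mul_comm, pow_mul, hz, one_pow]

theorem pw_injective {N : ℕ} [NeZero N] {z : Ωˣ} (hz : IsPrimitiveRoot z N) :
    Function.Injective (pw N z) := by
  intro a b h
  have := hz.pow_inj (ZMod.val_lt a) (ZMod.val_lt b) h
  exact ZMod.val_injective N this

theorem lg_pw {N : ℕ} [NeZero N] {z : Ωˣ} (hz : IsPrimitiveRoot z N) (a : ZMod N) :
    lg N z (pw N z a) = a := by
  have h : ∃ b : ZMod N, pw N z b = pw N z a := ⟨a, rfl⟩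
  rw [lg, dif_pos h]
  exact pw_injective hz h.choose_spec

theorem pw_lg {N : ℕ} [NeZero N] {z : Ωˣ} (hz : IsPrimitiveRoot z N) {u : Ωˣ} (hu : u ^ N = 1) :
    pw N z (lg N z u) = u := by
  have h : ∃ b : ZMod N, pw N z b = u := by
    have hz' : IsPrimitiveRoot (z : Ω) N := IsPrimitiveRoot.coe_units_iff.mpr hz
    have hu' : (u : Ω) ^ N = 1 := by rw [← Units.val_pow_eq_pow_val, hu, Units.val_one]
    obtain ⟨i, hi, h1⟩ := hz'.eq_pow_of_pow_eq_one hu'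
    refine ⟨(i : ZMod N), ?_⟩
    rw [pw_natCast hz.pow_eq_one]
    exact Units.ext (by rw [Units.val_pow_eq_pow_val, h1])
  rw [lg, dif_pos h]
  exact h.choose_spec

theorem lg_mul {N : ℕ} [NeZero N] {z : Ωˣ} (hz : IsPrimitiveRoot z N) {u v : Ωˣ} (hu : u ^ N = 1)
    (hv : v ^ N = 1) : lg N z (u * v) = lg N z u + lg N z v := by
  have h1 := pw_lg hz hu
  have h2 := pw_lg hz hv
  have h3 : u * v = pw N z (lg N z u + lg N z v) := by rw [pw_add hz.pow_eq_one, h1, h2]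
  conv_lhs => rw [h3]
  exact lg_pw hz _

theorem lg_one {N : ℕ} [NeZero N] {z : Ωˣ} (hz : IsPrimitiveRoot z N) : lg N z 1 = 0 := by
  have := lg_pw hz 0
  rwa [pw_zero] at this

theorem lg_inv {N : ℕ} [NeZero N] {z : Ωˣ} (hz : IsPrimitiveRoot z N) {u : Ωˣ} (hu : u ^ N = 1) :
    lg N z u⁻¹ = - lg N z u := by
  have h := lg_mul hz (u := u⁻¹) (v := u) (by rw [inv_pow, hu, inv_one]) hu
  rw [inv_mul_cancel, lg_one hz] at h
  exact eq_neg_of_add_eq_zero_left h.symm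

theorem lg_div {N : ℕ} [NeZero N] {z : Ωˣ} (hz : IsPrimitiveRoot z N) {u v : Ωˣ} (hu : u ^ N = 1)
    (hv : v ^ N = 1) : lg N z (u / v) = lg N z u - lg N z v := by
  rw [div_eq_mul_inv, lg_mul hz hu (by rw [inv_pow, hv, inv_one]), lg_inv hz hv, sub_eq_add_neg]

theorem smul_pw {N : ℕ} (g : Gal(Ω/F)) (z : Ωˣ) (a : ZMod N) : g • pw N z a = pw N (g • z) a := by
  rw [pw, pw, smul_pow']

/-- elements fixing `ζ` fix all `pw N ζ a` -/
theorem smul_pw_of_fix {N : ℕ} {g : Gal(Ω/F)} {z : Ωˣ} (h : g • z = z) (a : ZMod N) :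
    g • pw N z a = pw N z a := by
  rw [smul_pw, h]

/-! ### exponent functions, symbols, trace symbols -/

/-- the exponent of `h α(x) / α(h x)` with respect to `ζ` -/
noncomputable def ex (p : ℕ) (ζ : Ωˣ) {T : Type} [SMul Gal(Ω/F) T] (α : T → Ωˣ) (h : Gal(Ω/F))
    (x : T) : ZMod p := lg p ζ (h • α x / α (h • x))

/-- the trace symbol of the functions `α, β : T → Ωˣ` over the finite set `X` -/
noncomputable def ts (p : ℕ) (ζ : Ωˣ) {T : Type} [SMul Gal(Ω/F) T] (X : Finset T)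
    (α β : T → Ωˣ) : Gal(Ω/F) → Gal(Ω/F) → Ωˣ :=
  fun h k => pw p ζ (∑ x ∈ X, ex p ζ α h (k • x) * ex p ζ β k x)

/-- `X` is stable under `H` -/
def Stb {T : Type} [SMul Gal(Ω/F) T] (H : Subgroup Gal(Ω/F)) (X : Finset T) : Prop :=
  ∀ h ∈ H, ∀ x ∈ X, h • x ∈ X

/-- `α ^ p` is `H`-equivariant on `X` -/
def Good (p : ℕ) {T : Type} [SMul Gal(Ω/F) T] (H : Subgroup Gal(Ω/F)) (X : Finset T)
    (α : T → Ωˣ) : Prop := ∀ h ∈ H, ∀ x ∈ X, (h • α x) ^ p = α (h • x) ^ p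

/-- all points of `T` have open stabilisers -/
def Smo (F Ω : Type) [Field F] [Field Ω] [Algebra F Ω] (T : Type) [SMul Gal(Ω/F) T] : Prop :=
  ∀ x : T, ∃ U : Subgroup Gal(Ω/F), ON U ∧ ∀ u ∈ U, u • x = x

/-- the symbol of `α ^ p, β ^ p` -/
noncomputable def sy (p : ℕ) (ζ : Ωˣ) (α β : Ωˣ) : Gal(Ω/F) → Gal(Ω/F) → Ωˣ :=
  fun h k => pw p ζ (lg p ζ (h • α / α) * lg p ζ (k • β / β))

/-- the group of sums of symbols over the fixed field of `H` (plus coboundaries on `H`) -/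
noncomputable def Sym (p : ℕ) (ζ : Ωˣ) (H : Subgroup Gal(Ω/F)) :
    Subgroup (Gal(Ω/F) → Gal(Ω/F) → Ωˣ) :=
  Subgroup.closure {c | ∃ α β : Ωˣ, (∀ h ∈ H, h • (α ^ p) = α ^ p) ∧
    (∀ h ∈ H, h • (β ^ p) = β ^ p) ∧ c = sy p ζ α β} ⊔ Cob H

/-- the cyclic algebra cochain `ζ ^ (e_f(g) χ(h))`, `f = φ ^ p` -/
noncomputable def cp (p : ℕ) (ζ φ : Ωˣ) (χ : Gal(Ω/F) → ZMod p) : Gal(Ω/F) → Gal(Ω/F) → Ωˣ :=
  fun g h => pw p ζ (lg p ζ (g • φ / φ) * χ h)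

/-- the carry cochain `a ^ carry(χ g, χ h)` -/
def car (N : ℕ) (a : Ωˣ) (χ : Gal(Ω/F) → ZMod N) : Gal(Ω/F) → Gal(Ω/F) → Ωˣ :=
  fun g h => a ^ (((χ g).val + (χ h).val) / N)

/-- additive on `H` -/
def Hm {N : ℕ} (H : Subgroup Gal(Ω/F)) (χ : Gal(Ω/F) → ZMod N) : Prop :=
  ∀ g ∈ H, ∀ h ∈ H, χ (g * h) = χ g + χ h

/-- `κ`-crossed homomorphism on `H` -/
def Cr {N : ℕ} (κ : Gal(Ω/F) → ZMod N) (H : Subgroup Gal(Ω/F)) (X : Gal(Ω/F) → ZMod N) : Prop :=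
  ∀ g ∈ H, ∀ h ∈ H, X (g * h) = X g + κ g * X h

/-- the stabiliser of `ζ` -/
def Gz (ζ : Ωˣ) : Subgroup Gal(Ω/F) := MulAction.stabilizer Gal(Ω/F) ζ

theorem mem_Gz {ζ : Ωˣ} {g : Gal(Ω/F)} : g ∈ Gz ζ ↔ g • ζ = ζ := Iff.rfl

end BrR
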