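import Pool.Agent.H48.BR.H90

set_option autoImplicit false

/-! # Row Des: Galois descent for vector spaces (about 130 lines)

`W` an `Ω`-vector space with a semilinear action `act` of `G`, every vector having an open stabiliser.

* `descent_span`: the fixed vectors span `W` over `Ω`.
  PROOF. Let `S` = span of the fixed vectors, suppose `w ∉ S`. There is a linear form `φ : W →ₗ[Ω] Ω` vanishing on `S` with `φ w ≠ 0`
  (`Submodule.exists_le_ker_of_notMem` / `exists_dual_map_eq_bot_of_notMem`). `U` ON with `act u w = w` for `u ∈ U`. For `e ∈ Ω` fixed by `U` put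
  `s e = ∑ t : G ⧸ U, (t.out • e) • act t.out w`. It is a fixed vector: for `g`, `g * t.out = (g • t).out * u`, `u ∈ U`:
  `act g ((t.out • e) • act t.out w) = ((g * t.out) • e) • act (g * t.out) w = ((g•t).out • e) • act (g•t).out w`, reindex. So
  `0 = φ (s e) = ∑ t, φ (act t.out w) * (t.out • e)` for all such `e`; `dedekind` gives `φ (act t.out w) = 0` for all `t`. For the coset `t` of `1`:
  `t.out ∈ U`, `act t.out w = w`, contradiction.
* `descent_indep`: a family of fixed vectors independent over `F` is independent over `Ω` (here `W` is also an `F`-space, `IsScalarTower F Ω W`).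
  PROOF. A minimal relation: suppose not; take a nontrivial finite relation `∑ a i • v i = 0` with the least number of nonzero coefficients, scale so
  that `a i₀ = 1`. Apply `act g` and subtract: `∑ (g • a i - a i) • v i = 0` has fewer nonzero coefficients, so all `g • a i = a i`: `a i` is in the image of
  `F` (`InfiniteGalois.mem_bot_iff_fixed`), contradiction with independence over `F`. (Or use `Finset` induction:
  prove by induction on `n`: any relation with at most `n` nonzero coefficients is trivial.) -/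

namespace BrR

variable {F Ω : Type} [Field F] [Field Ω] [Algebra F Ω] [IsGalois F Ω]

theorem Des_out {U : Subgroup Gal(Ω/F)} (g : Gal(Ω/F)) (t : Gal(Ω/F) ⧸ U) :
    ∃ u ∈ U, g * t.out = (g • t).out * u := by
  refine ⟨(g • t).out⁻¹ * (g * t.out), ?_, by group⟩
  rw [← QuotientGroup.eq]
  rw [QuotientGroup.out_eq']
  conv_lhs => rw [← QuotientGroup.out_eq' t]
  rfl

theorem descent_span {W : Type*} [AddCommGroup W] [Module Ω W] (act : Gal(Ω/F) → W → W)
    (hadd : ∀ g v w, act g (v + w) = act g v + act g w)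
    (hsmul : ∀ (g : Gal(Ω/F)) (a : Ω) w, act g (a • w) = (g • a) • act g w)
    (hmul : ∀ g h w, act (g * h) w = act g (act h w)) (hone : ∀ w, act 1 w = w)
    (hsm : ∀ w, ∃ U : Subgroup Gal(Ω/F), ON U ∧ ∀ u ∈ U, act u w = w) :
    Submodule.span Ω {w : W | ∀ g, act g w = w} = ⊤ := by
  classical
  by_contra hne
  obtain ⟨w, hw⟩ : ∃ w, w ∉ Submodule.span Ω {w : W | ∀ g, act g w = w} := by
    by_contra h
    push Not at h
    exact hne (eq_top_iff.mpr fun x _ => h x)
  obtain ⟨φ, hφ, hφS⟩ := Submodule.exists_le_ker_of_notMem hw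
  obtain ⟨U, hU, hUw⟩ := hsm w
  haveI : Finite (Gal(Ω/F) ⧸ U) := finite_quot hU.2
  haveI : Fintype (Gal(Ω/F) ⧸ U) := Fintype.ofFinite _
  have hfix : ∀ e : Ω, (∀ u ∈ U, u • e = e) → ∀ g : Gal(Ω/F),
      act g (∑ t : Gal(Ω/F) ⧸ U, (t.out • e) • act t.out w) =
        ∑ t : Gal(Ω/F) ⧸ U, (t.out • e) • act t.out w := by
    intro e he g
    have h1 : act g (∑ t : Gal(Ω/F) ⧸ U, (t.out • e) • act t.out w) =
        ∑ t : Gal(Ω/F) ⧸ U, act g ((t.out • e) • act t.out w) :=
      map_sum (AddMonoidHom.mk' (act g) (hadd g)) _ _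
    rw [h1]
    refine Fintype.sum_equiv (MulAction.toPerm g) _ _ fun t => ?_
    obtain ⟨u, hu, h2⟩ := Des_out g t
    rw [MulAction.toPerm_apply, hsmul, smul_smul, ← hmul, h2, hmul, hUw u hu, mul_smul, he u hu]
  have hzero := dedekind hU (fun t => φ (act t.out w)) (by
    intro e he
    have h3 := hφS (Submodule.subset_span (hfix e he))
    rw [LinearMap.mem_ker, map_sum] at h3
    rw [← h3]
    refine Finset.sum_congr rfl fun t _ => ?_
    rw [map_smul, smul_eq_mul, mul_comm])
  have h4 := congrFun hzero (((1 : Gal(Ω/F)) : Gal(Ω/F) ⧸ U))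
  have h5 : ((((1 : Gal(Ω/F)) : Gal(Ω/F) ⧸ U)).out)⁻¹ * 1 ∈ U := by
    rw [← QuotientGroup.eq, QuotientGroup.out_eq']
  rw [mul_one] at h5
  have h6 := U.inv_mem h5
  rw [inv_inv] at h6
  simp only [Pi.zero_apply] at h4
  rw [hUw _ h6] at h4
  exact hφ h4

theorem descent_indep {W : Type*} [AddCommGroup W] [Module Ω W] [Module F W] [IsScalarTower F Ω W]
    (act : Gal(Ω/F) → W → W) (hadd : ∀ g v w, act g (v + w) = act g v + act g w)
    (hsmul : ∀ (g : Gal(Ω/F)) (a : Ω) w, act g (a • w) = (g • a) • act g w)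
    {ι : Type*} (v : ι → W) (hv : ∀ i g, act g (v i) = v i) (hli : LinearIndependent F v) :
    LinearIndependent Ω v := by
  classical
  have hact0 : ∀ g, act g 0 = 0 := fun g => map_zero (AddMonoidHom.mk' (act g) (hadd g))
  rw [linearIndependent_iff']
  intro s
  induction s using Finset.induction_on with
  | empty => intro a _ i hi; simp at hi
  | insert i₀ s hi₀ ih =>
    intro a ha
    by_cases h0 : a i₀ = 0
    · have h1 : ∑ i ∈ s, a i • v i = 0 := by
        rw [Finset.sum_insert hi₀, h0, zero_smul, zero_add] at ha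
        exact ha
      intro i hi
      rcases Finset.mem_insert.mp hi with rfl | hi
      · exact h0
      · exact ih a h1 i hi
    · exfalso
      have hb : ∑ i ∈ insert i₀ s, ((a i₀)⁻¹ * a i) • v i = 0 := by
        have : ∀ i ∈ insert i₀ s, ((a i₀)⁻¹ * a i) • v i = (a i₀)⁻¹ • (a i • v i) :=
          fun i _ => mul_smul _ _ _
        rw [Finset.sum_congr rfl this, ← Finset.smul_sum, ha, smul_zero]
      have hfix : ∀ i ∈ insert i₀ s, ∀ g : Gal(Ω/F), g • ((a i₀)⁻¹ * a i) = (a i₀)⁻¹ * a i := by
        intro i hi g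
        have hc : ∑ j ∈ insert i₀ s, (g • ((a i₀)⁻¹ * a j) - (a i₀)⁻¹ * a j) • v j = 0 := by
          have h1 : act g (∑ j ∈ insert i₀ s, ((a i₀)⁻¹ * a j) • v j) =
              ∑ j ∈ insert i₀ s, act g (((a i₀)⁻¹ * a j) • v j) :=
            map_sum (AddMonoidHom.mk' (act g) (hadd g)) _ _
          rw [hb, hact0] at h1
          have h2 : ∀ j ∈ insert i₀ s, (g • ((a i₀)⁻¹ * a j) - (a i₀)⁻¹ * a j) • v j =
              act g (((a i₀)⁻¹ * a j) • v j) - ((a i₀)⁻¹ * a j) • v j := by
            intro j _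
            rw [sub_smul, hsmul, hv]
          rw [Finset.sum_congr rfl h2, Finset.sum_sub_distrib, ← h1, hb, sub_zero]
        have hc0 : g • ((a i₀)⁻¹ * a i₀) - (a i₀)⁻¹ * a i₀ = 0 := by
          rw [inv_mul_cancel₀ h0, smul_one, sub_self]
        rcases Finset.mem_insert.mp hi with rfl | hi
        · exact sub_eq_zero.mp hc0
        · rw [Finset.sum_insert hi₀, hc0, zero_smul, zero_add] at hc
          exact sub_eq_zero.mp (ih (fun j => g • ((a i₀)⁻¹ * a j) - (a i₀)⁻¹ * a j) hc i hi)
      have hbot : ∀ i ∈ insert i₀ s, ∃ f : F, algebraMap F Ω f = (a i₀)⁻¹ * a i := by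
        intro i hi
        have h1 : (a i₀)⁻¹ * a i ∈ (⊥ : IntermediateField F Ω) := by
          rw [InfiniteGalois.mem_bot_iff_fixed]
          intro g
          exact hfix i hi g
        exact IntermediateField.mem_bot.mp h1
      choose! f hf using hbot
      have hF : ∑ i ∈ insert i₀ s, f i • v i = 0 := by
        rw [← hb]
        refine Finset.sum_congr rfl fun i hi => ?_
        rw [← hf i hi, algebraMap_smul]
      have h7 := (linearIndependent_iff'.mp hli) _ f hF i₀ (Finset.mem_insert_self _ _)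
      have h8 := hf i₀ (Finset.mem_insert_self _ _)
      rw [h7, map_zero, inv_mul_cancel₀ h0] at h8
      exact zero_ne_one h8

end BrR
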