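import Pool.Agent.H48.BR.Rep
import Pool.Agent.H48.BR.Sko

set_option autoImplicit false

/-! # Row Dvb: the class of an algebra given by a spanning representation (about 150 lines)

THEOREM `isRep_of_rho`. `ρ : B →ₐ[F] M_ι(Ω)` spanning, `B` finite, `dim_F B ≤ |ι|²`, `ι` nonempty, `H'` open such that `h(ρ b) = ρ b` for `h ∈ H'`. Then there is `c` with
`IsRep F Ω B ι c` and `c ∈ Cob H'`.
PROOF. For `g ∈ G` let `ρ_g b = g(ρ b)` (`AlgHom`, spanning: `g` is semilinear and bijective on matrices). `skolem` for `ρ, ρ_g`: `P` with `P * ρ_g b = ρ b * P`. Choose `P` as a function of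
`ρ_g` (`Classical.choose` of a statement depending only on `ρ_g`), `T g := P`. `U` ON fixing the entries of the finitely many `ρ (b_i)`, `b_i` a basis: for `u ∈ U` `ρ_{g u} = ρ_g`, so
`T (g u) = T g`: LC1. `T g * g(T h) * (T (g h))⁻¹` commutes with all `ρ b` (`g(T h) * gh(ρ b) = g(ρ b) * g(T h)`), so it is a scalar `c g h`, nonzero (invertible, `ι` nonempty).
For `h ∈ H'`: `ρ_h = ρ` so `T h` commutes with all `ρ b`: `T h = b h • 1`. For `g, h ∈ H'`: `c g h • T (g h) = T g * g(T h)` gives `c g h * b (g h) = b g * g • b h`. `b` extended by `1` outside `H'` is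
LC1 (`LC1.ite'`, `T` is LC1). -/

namespace BrR

variable {F Ω : Type} [Field F] [Field Ω] [Algebra F Ω] [IsGalois F Ω]

/-- the Galois twist of a representation -/
noncomputable def DvbTw {B : Type} [Ring B] [Algebra F B] {ι : Type} [Fintype ι] [DecidableEq ι]
    (ρ : B →ₐ[F] Matrix ι ι Ω) (g : Gal(Ω/F)) : B →ₐ[F] Matrix ι ι Ω :=
  ((g : Ω →ₐ[F] Ω).mapMatrix).comp ρ

theorem DvbTw_apply {B : Type} [Ring B] [Algebra F B] {ι : Type} [Fintype ι] [DecidableEq ι]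
    (ρ : B →ₐ[F] Matrix ι ι Ω) (g : Gal(Ω/F)) (b : B) : DvbTw ρ g b = (ρ b).map g := rfl

theorem Dvb_map_mul {ι : Type} [Fintype ι] [DecidableEq ι] (g : Gal(Ω/F)) (M N : Matrix ι ι Ω) :
    (M * N).map g = M.map g * N.map g := Matrix.map_mul

theorem Dvb_map_smul {ι : Type} [Fintype ι] [DecidableEq ι] (g : Gal(Ω/F)) (a : Ω)
    (M : Matrix ι ι Ω) : (a • M).map g = g a • M.map g := by
  ext i j
  simp

theorem Dvb_map_map {ι : Type} [Fintype ι] [DecidableEq ι] (g h : Gal(Ω/F))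
    (M : Matrix ι ι Ω) : (M.map h).map g = M.map (g * h : Gal(Ω/F)) := by
  ext i j
  rfl

theorem DvbTw_span {B : Type} [Ring B] [Algebra F B] {ι : Type} [Fintype ι] [DecidableEq ι]
    (ρ : B →ₐ[F] Matrix ι ι Ω) (hspan : Submodule.span Ω (Set.range ρ) = ⊤) (g : Gal(Ω/F)) :
    Submodule.span Ω (Set.range (DvbTw ρ g)) = ⊤ := by
  rw [eq_top_iff]
  intro M _
  have key : ∀ N ∈ Submodule.span Ω (Set.range ρ),
      N.map g ∈ Submodule.span Ω (Set.range (DvbTw ρ g)) := by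
    intro N hN
    induction hN using Submodule.span_induction with
    | mem x hx =>
      obtain ⟨b, rfl⟩ := hx
      exact Submodule.subset_span ⟨b, rfl⟩
    | zero =>
      have : (0 : Matrix ι ι Ω).map g = 0 := by ext i j; simp
      rw [this]
      exact Submodule.zero_mem _
    | add x y _ _ hx hy =>
      have : (x + y).map g = x.map g + y.map g := by ext i j; simp
      rw [this]
      exact Submodule.add_mem _ hx hy
    | smul a x _ hx =>
      rw [Dvb_map_smul]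
      exact Submodule.smul_mem _ _ hx
  have h1 := key (M.map (g⁻¹ : Gal(Ω/F))) (by rw [hspan]; exact Submodule.mem_top)
  rw [Dvb_map_map, mul_inv_cancel] at h1
  have h2 : M.map (1 : Gal(Ω/F)) = M := by ext i j; rfl
  rwa [h2] at h1

theorem DvbTw_lc {B : Type} [Ring B] [Algebra F B] {ι : Type} [Fintype ι] [DecidableEq ι]
    (ρ : B →ₐ[F] Matrix ι ι Ω) (hfin : Module.Finite F B) : LC1 (DvbTw ρ) := by
  obtain ⟨U, hU, h⟩ := (smo_field (F := F) (Ω := Ω)).fix_finite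
    (Set.range (fun q : Fin (Module.finrank F B) × ι × ι => ρ (Module.finBasis F B q.1) q.2.1 q.2.2))
    (Set.finite_range _)
  refine ⟨U, hU, fun g u hu => ?_⟩
  have h1 : (DvbTw ρ (g * u)).toLinearMap = (DvbTw ρ g).toLinearMap := by
    refine (Module.finBasis F B).ext fun i => ?_
    simp only [AlgHom.toLinearMap_apply, DvbTw_apply]
    ext x y
    simp only [Matrix.map_apply]
    have h2 := h u hu _ ⟨(i, x, y), rfl⟩
    exact congrArg g h2
  exact AlgHom.toLinearMap_injective h1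

open Classical in
/-- the intertwiner chosen for a representation -/
noncomputable def DvbQ {B : Type} [Ring B] [Algebra F B] {ι : Type} [Fintype ι] [DecidableEq ι]
    (ρ σ : B →ₐ[F] Matrix ι ι Ω) : (Matrix ι ι Ω)ˣ :=
  if h : ∃ P : (Matrix ι ι Ω)ˣ, ∀ b, (P : Matrix ι ι Ω) * σ b = ρ b * (P : Matrix ι ι Ω)
  then h.choose else 1

theorem DvbQ_spec {B : Type} [Ring B] [Algebra F B] {ι : Type} [Fintype ι] [DecidableEq ι]
    {ρ σ : B →ₐ[F] Matrix ι ι Ω}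
    (h : ∃ P : (Matrix ι ι Ω)ˣ, ∀ b, (P : Matrix ι ι Ω) * σ b = ρ b * (P : Matrix ι ι Ω)) (b : B) :
    (DvbQ ρ σ : Matrix ι ι Ω) * σ b = ρ b * (DvbQ ρ σ : Matrix ι ι Ω) := by
  rw [DvbQ, dif_pos h]
  exact h.choose_spec b

theorem isRep_of_rho {B : Type} [Ring B] [Algebra F B] {ι : Type} [Fintype ι] [DecidableEq ι]
    [Nonempty ι] (ρ : B →ₐ[F] Matrix ι ι Ω) (hspan : Submodule.span Ω (Set.range ρ) = ⊤)
    (hfin : Module.Finite F B) (hdim : Module.finrank F B ≤ Fintype.card ι ^ 2)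
    {H' : Subgroup Gal(Ω/F)} (hH' : IsOpen (H' : Set Gal(Ω/F)))
    (hfix : ∀ h ∈ H', ∀ b, (ρ b).map h = ρ b) :
    ∃ c : Gal(Ω/F) → Gal(Ω/F) → Ωˣ, IsRep F Ω B ι c ∧ c ∈ Cob H' := by
  obtain ⟨T, hTdef⟩ : ∃ T : Gal(Ω/F) → (Matrix ι ι Ω)ˣ, T = fun g => DvbQ ρ (DvbTw ρ g) :=
    ⟨_, rfl⟩
  have hT : ∀ (g : Gal(Ω/F)) (b : B),
      (T g : Matrix ι ι Ω) * (ρ b).map g = ρ b * (T g : Matrix ι ι Ω) := by
    intro g b
    rw [hTdef]
    exact DvbQ_spec (skolem ρ (DvbTw ρ g) hspan (DvbTw_span ρ hspan g) hfin hdim) b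
  have hTlc : LC1 T := by
    rw [hTdef]
    exact (DvbTw_lc ρ hfin).comp _
  have hne : (1 : Matrix ι ι Ω) ≠ 0 := one_ne_zero
  -- the units of a commuting matrix
  have hunit : ∀ M : (Matrix ι ι Ω)ˣ, (∀ b, (M : Matrix ι ι Ω) * ρ b = ρ b * (M : Matrix ι ι Ω)) →
      ∃ a : Ωˣ, (M : Matrix ι ι Ω) = (a : Ω) • (1 : Matrix ι ι Ω) := by
    intro M hM
    obtain ⟨a, ha⟩ := scalar_of_comm ρ hspan (M : Matrix ι ι Ω) hM
    have ha0 : a ≠ 0 := by
      rintro rfl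
      rw [zero_smul] at ha
      exact M.ne_zero ha
    exact ⟨Units.mk0 a ha0, ha⟩
  have hmapu : ∀ (g : Gal(Ω/F)) (M : (Matrix ι ι Ω)ˣ),
      ∃ N : (Matrix ι ι Ω)ˣ, (N : Matrix ι ι Ω) = (M : Matrix ι ι Ω).map g := by
    intro g M
    have h1 : (1 : Matrix ι ι Ω).map g = 1 := by
      rw [Matrix.map_one _ (map_zero g) (map_one g)]
    refine ⟨⟨(M : Matrix ι ι Ω).map g, ((M⁻¹ : (Matrix ι ι Ω)ˣ) : Matrix ι ι Ω).map g, ?_, ?_⟩,
      rfl⟩
    · rw [← Dvb_map_mul, Units.mul_inv, h1]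
    · rw [← Dvb_map_mul, Units.inv_mul, h1]
  have hc : ∀ g h : Gal(Ω/F), ∃ a : Ωˣ, (T g : Matrix ι ι Ω) * ((T h : Matrix ι ι Ω)).map g =
      (a : Ω) • (T (g * h) : Matrix ι ι Ω) := by
    intro g h
    obtain ⟨N, hN⟩ := hmapu g (T h)
    have h1 : ∀ b, ((T g * N * (T (g * h))⁻¹ : (Matrix ι ι Ω)ˣ) : Matrix ι ι Ω) * ρ b =
        ρ b * ((T g * N * (T (g * h))⁻¹ : (Matrix ι ι Ω)ˣ) : Matrix ι ι Ω) := by
      intro b
      have e1 := hT (g * h) b
      have e2 : (((T (g * h))⁻¹ : (Matrix ι ι Ω)ˣ) : Matrix ι ι Ω) * ρ b =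
          (ρ b).map (g * h : Gal(Ω/F)) * (((T (g * h))⁻¹ : (Matrix ι ι Ω)ˣ) : Matrix ι ι Ω) := by
        rw [Units.inv_mul_eq_iff_eq_mul, ← mul_assoc, e1, mul_assoc, Units.mul_inv, mul_one]
      have e3 : (N : Matrix ι ι Ω) * (ρ b).map (g * h : Gal(Ω/F)) =
          (ρ b).map g * (N : Matrix ι ι Ω) := by
        rw [hN, ← Dvb_map_map, ← Dvb_map_mul, hT h b, Dvb_map_mul]
      rw [Units.val_mul, Units.val_mul, mul_assoc, e2, mul_assoc, ← mul_assoc (N : Matrix ι ι Ω), e3,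
        mul_assoc, ← mul_assoc, hT g b]
      simp only [mul_assoc]
    obtain ⟨a, ha⟩ := hunit _ h1
    refine ⟨a, ?_⟩
    rw [← hN, ← Units.val_mul]
    rw [Units.val_mul, Units.mul_inv_eq_iff_eq_mul, smul_mul_assoc, one_mul] at ha
    exact ha
  choose c hc using hc
  refine ⟨c, ⟨ρ, T, hspan, hfin, hdim, hTlc, hT, hc⟩, ?_⟩
  have hb : ∀ h : Gal(Ω/F), ∃ a : Ωˣ, h ∈ H' →
      (T h : Matrix ι ι Ω) = (a : Ω) • (1 : Matrix ι ι Ω) := by
    intro h
    by_cases hh : h ∈ H'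
    · obtain ⟨a, ha⟩ := hunit (T h) (fun b => by
        have h1 := hT h b
        rwa [hfix h hh b] at h1)
      exact ⟨a, fun _ => ha⟩
    · exact ⟨1, fun h1 => absurd h1 hh⟩
  choose β hβ using hb
  have hinj : ∀ a a' : Ωˣ, (a : Ω) • (1 : Matrix ι ι Ω) = (a' : Ω) • (1 : Matrix ι ι Ω) →
      a = a' := fun a a' h => Units.ext (smul_left_injective Ω hne h)
  classical
  obtain ⟨U, hU, hTU⟩ := hTlc
  have hblc := LC1.ite' hH' (f := β) U hU (fun g hg u hu huH => by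
    apply hinj
    rw [← hβ _ (H'.mul_mem hg huH), ← hβ _ hg, hTU g u hu]) 1
  refine ⟨_, hblc, fun g hg h hh => ?_⟩
  simp only [BrR.dd, if_pos hg, if_pos hh, if_pos (H'.mul_mem hg hh)]
  rw [eq_div_iff_mul_eq']
  apply hinj
  have h1 := hc g h
  rw [hβ g hg, hβ h hh, hβ _ (H'.mul_mem hg hh), Dvb_map_smul,
    Matrix.map_one _ (map_zero g) (map_one g), smul_mul_smul_comm, mul_one, smul_smul] at h1
  rw [Units.val_mul, Units.val_mul, ← h1]
  rfl

end BrR
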