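import Mathlib

set_option autoImplicit false

/-! # Row Dvm: a subfield of degree `p` of a central division algebra of degree `p` (about 150 lines)

PROOF. `dim_F D = p² > 1` so there is `d ∈ D` not in the image of `F`. `A = Algebra.adjoin F {d}` is commutative, a finite dimensional domain, hence a field; `D` is an
`A`-vector space (left multiplication), so `[A:F] = natDegree (minpoly F d) =: n` divides `p²` (`finrank_mul_finrank`). `n ≠ 1` since `d ∉ F`. `n ≠ p²`: otherwise `A = D`, `D` is
commutative, so `D` is its own center, which is `F` (`Algebra.IsCentral`), `dim_F D = 1`. So `n = p` (`Nat.dvd_prime_pow`). `m = minpoly F d` is irreducible (`D` has no zero divisors) and separable: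
otherwise `m' = 0` (`Polynomial.separable_iff_derivative_ne_zero`/`Irreducible.separable'`), but the leading coefficient of `m'` is `p ≠ 0`. So `m` has a root `δ ∈ Ω` (`IsSepClosed.exists_root_map` ..),
`minpoly F δ = m`, `finrank F F⟮δ⟯ = p` (`IntermediateField.adjoin.finrank`). The algebra homomorphism `F⟮δ⟯ ≃ AdjoinRoot m → A → D`: `AdjoinRoot.liftAlgHom` to the commutative
ring `A` (`Algebra.adjoinCommRingOfComm`), or `IntermediateField.adjoinRootEquivAdjoin` and `AdjoinRoot`. -/

namespace BrR

open IntermediateField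

/-- the algebra homomorphism from an adjoined root to a noncommutative algebra -/
theorem Dvm_hom {F D : Type} [Field F] [DivisionRing D] [Algebra F D] (d : D) (m : Polynomial F)
    (hm : Polynomial.aeval d m = 0) : Nonempty (AdjoinRoot m →ₐ[F] D) := by
  refine ⟨Ideal.Quotient.liftₐ (Ideal.span {m}) (Polynomial.aeval d) ?_⟩
  intro a ha
  obtain ⟨c, rfl⟩ := Ideal.mem_span_singleton.mp ha
  rw [map_mul, hm, zero_mul]

/-- the tower formula for a subfield acting by left multiplication -/
theorem Dvm_tower {F K D : Type} [Field F] [Field K] [Algebra F K] [DivisionRing D] [Algebra F D]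
    (φ : K →ₐ[F] D) : ∃ k : ℕ, Module.finrank F K * k = Module.finrank F D := by
  let _ : Module K D := Module.compHom D φ.toRingHom
  have hsc : IsScalarTower F K D := by
    constructor
    intro x y z
    show φ (x • y) * z = x • (φ y * z)
    rw [map_smul, smul_mul_assoc]
  exact ⟨Module.finrank K D, Module.finrank_mul_finrank F K D⟩

theorem dvm {F Ω : Type} [Field F] [Field Ω] [Algebra F Ω] [IsSepClosed Ω] {p : ℕ} (hp : p.Prime)
    (hpF : (p : F) ≠ 0) (D : Type) [DivisionRing D] [Algebra F D] (hcen : Algebra.IsCentral F D)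
    (hdim : Module.finrank F D = p ^ 2) :
    ∃ δ : Ω, IsIntegral F δ ∧ Module.finrank F ↥(F⟮δ⟯) = p ∧ Nonempty (↥(F⟮δ⟯) →ₐ[F] D) := by
  have hp2 : 1 < p ^ 2 := Nat.one_lt_pow (by norm_num) hp.one_lt
  have hfin : Module.Finite F D := Module.finite_of_finrank_pos (by omega)
  have hbt : (⊥ : Subalgebra F D) ≠ ⊤ := by
    intro h
    have := Subalgebra.bot_eq_top_iff_finrank_eq_one.mp h
    omega
  obtain ⟨d, hd⟩ : ∃ d : D, d ∉ (⊥ : Subalgebra F D) := by
    by_contra hcon
    push Not at hcon
    apply hbt
    rw [eq_top_iff]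
    intro x _
    exact hcon x
  have hint : IsIntegral F d := IsIntegral.of_finite F d
  have hirr : Irreducible (minpoly F d) := minpoly.irreducible hint
  have hmon : (minpoly F d).Monic := minpoly.monic hint
  have : Fact (Irreducible (minpoly F d)) := ⟨hirr⟩
  obtain ⟨φ⟩ := Dvm_hom (F := F) d (minpoly F d) (minpoly.aeval F d)
  have hK : Module.finrank F (AdjoinRoot (minpoly F d)) = (minpoly F d).natDegree := by
    rw [(AdjoinRoot.powerBasis hmon.ne_zero).finrank, AdjoinRoot.powerBasis_dim]
  obtain ⟨k, hk⟩ := Dvm_tower φ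
  rw [hK, hdim] at hk
  have hn1 : (minpoly F d).natDegree ≠ 1 := by
    intro h
    rw [minpoly.natDegree_eq_one_iff] at h
    exact hd (Algebra.mem_bot.mpr h)
  have hn2 : (minpoly F d).natDegree ≠ p ^ 2 := by
    intro h
    have hinj : Function.Injective φ := φ.toRingHom.injective
    have hKfin : Module.Finite F (AdjoinRoot (minpoly F d)) :=
      Module.finite_of_finrank_pos (by rw [hK]; omega)
    have hsurj : Function.Surjective φ.toLinearMap := by
      apply (LinearMap.injective_iff_surjective_of_finrank_eq_finrank ?_).mp hinj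
      rw [hK, hdim, h]
    apply hbt
    rw [eq_top_iff]
    intro x _
    apply hcen.out
    rw [Subalgebra.mem_center_iff]
    intro y
    obtain ⟨a, ha⟩ := hsurj x
    obtain ⟨b, hb⟩ := hsurj y
    rw [← ha, ← hb]
    show φ b * φ a = φ a * φ b
    rw [← map_mul, ← map_mul, mul_comm]
  have hn : (minpoly F d).natDegree = p := by
    obtain ⟨j, hj, hjn⟩ := (Nat.dvd_prime_pow hp).mp (Dvd.intro k hk)
    interval_cases j
    · exact absurd (by simpa using hjn) hn1
    · simpa using hjn
    · exact absurd hjn hn2
  have hsep : (minpoly F d).Separable := by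
    rw [Polynomial.separable_iff_derivative_ne_zero hirr]
    intro h0
    have h1 : (Polynomial.derivative (minpoly F d)).coeff (p - 1) = 0 := by
      rw [h0, Polynomial.coeff_zero]
    rw [Polynomial.coeff_derivative] at h1
    have h2 : p - 1 + 1 = p := Nat.sub_add_cancel hp.one_le
    have h3 : ((p - 1 : ℕ) : F) + 1 = (p : F) := by
      rw [← Nat.cast_succ, Nat.succ_eq_add_one, h2]
    have h4 : (minpoly F d).coeff p = 1 := by
      have := hmon.coeff_natDegree
      rwa [hn] at this
    rw [h2, h3, h4, one_mul] at h1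
    exact hpF h1
  obtain ⟨δ, hδ⟩ := IsSepClosed.exists_aeval_eq_zero Ω (minpoly F d) (by
    intro h
    have := Polynomial.natDegree_eq_of_degree_eq_some h
    rw [hn] at this
    exact hp.ne_zero this) hsep
  have hmin : minpoly F d = minpoly F δ := minpoly.eq_of_irreducible_of_monic hirr hδ hmon
  have hδi : IsIntegral F δ := ⟨minpoly F d, hmon, hδ⟩
  refine ⟨δ, hδi, ?_, ?_⟩
  · rw [IntermediateField.adjoin.finrank hδi, ← hmin, hn]
  · obtain ⟨ψ⟩ := Dvm_hom (F := F) d (minpoly F δ) (by rw [← hmin]; exact minpoly.aeval F d)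
    exact ⟨ψ.comp (IntermediateField.adjoinRootEquivAdjoin F hδi).symm.toAlgHom⟩

end BrR
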