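import Mathlib

set_option autoImplicit false

/-! # Row Dvr: the representation of `D` on `D` over a subfield (about 120 lines)

`K` an intermediate field of `Ω/F` of degree `p`, `j : K →ₐ[F] D`, `dim_F D = p²`. `D` is a `K`-vector space by `k • x = x * j k` (a module because `K` is commutative; define it as a local
instance, e.g. on a type synonym of `D`, or use `Module.compHom`/`MulOpposite`), compatible with `F` (`IsScalarTower F K D`), so `finrank K D = p`. With a `K`-basis `e : Fin p → D`:
`a * e l = ∑ i, (e i) * j (μ i l)`. Left multiplication by `a` is `K`-linear: `Algebra.lmul`-type `F`-algebra homomorphism `D → Module.End K D`, then `LinearMap.toMatrixAlgEquiv e`, then the entrywise map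
`K → Ω` (`(K.val).mapMatrix`). The entries are in `K`. -/

namespace BrR

theorem dvr {F Ω : Type} [Field F] [Field Ω] [Algebra F Ω] {p : ℕ} (hp : p.Prime)
    (K : IntermediateField F Ω) (hK : Module.finrank F K = p) (D : Type) [DivisionRing D]
    [Algebra F D] (hdim : Module.finrank F D = p ^ 2) (j : ↥K →ₐ[F] D) :
    ∃ ρ : D →ₐ[F] Matrix (Fin p) (Fin p) Ω, ∀ d i l, ρ d i l ∈ K := by
  letI : Module K D := Module.compHom D (RingHom.toOpposite (j : K →+* D)
    (fun x y => by
      change j x * j y = j y * j x
      rw [← map_mul, ← map_mul, mul_comm]))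
  have hsm : ∀ (k : K) (x : D), k • x = x * j k := fun k x => rfl
  haveI : IsScalarTower F K D := ⟨fun r k x => by
    rw [hsm, hsm, map_smul, mul_smul_comm]⟩
  have hfr : Module.finrank K D = p := by
    have h := Module.finrank_mul_finrank F K D
    rw [hK, hdim, sq] at h
    exact Nat.eq_of_mul_eq_mul_left hp.pos h
  haveI : Module.Finite K D := Module.finite_of_finrank_pos (by rw [hfr]; exact hp.pos)
  let e : Module.Basis (Fin p) K D := Module.finBasisOfFinrankEq K D hfr
  let φ : D → (D →ₗ[K] D) := fun d =>
    { toFun := fun x => d * x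
      map_add' := fun x y => mul_add d x y
      map_smul' := fun k x => by
        rw [hsm, RingHom.id_apply, hsm, mul_assoc] }
  have φ1 : φ 1 = 1 := by ext x; simp [φ]
  have φ0 : φ 0 = 0 := by ext x; simp [φ]
  have φm : ∀ a b, φ (a * b) = φ a * φ b := by intro a b; ext x; simp [φ, mul_assoc]
  have φa : ∀ a b, φ (a + b) = φ a + φ b := by intro a b; ext x; simp [φ, add_mul]
  have φr : ∀ r : F, φ (algebraMap F D r) = algebraMap K (Module.End K D) (algebraMap F K r) := by
    intro r
    ext x
    rw [Module.algebraMap_end_apply, hsm]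
    change algebraMap F D r * x = _
    rw [AlgHom.commutes, Algebra.commutes]
  let f : Matrix (Fin p) (Fin p) K →+* Matrix (Fin p) (Fin p) Ω := (algebraMap K Ω).mapMatrix
  have hf : ∀ (M : Matrix (Fin p) (Fin p) K) i l, f M i l = algebraMap K Ω (M i l) :=
    fun M i l => rfl
  refine ⟨{ toFun := fun d => f (LinearMap.toMatrixAlgEquiv e (φ d))
            map_one' := by rw [φ1, map_one, map_one]
            map_mul' := fun a b => by rw [φm, map_mul, map_mul]
            map_zero' := by rw [φ0, map_zero, map_zero]
            map_add' := fun a b => by rw [φa, map_add, map_add]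
            commutes' := fun r => ?_ }, fun d i l => ?_⟩
  · rw [φr]
    have h1 := (LinearMap.toMatrixAlgEquiv e).commutes (algebraMap F K r)
    change f (LinearMap.toMatrixAlgEquiv e (algebraMap K (D →ₗ[K] D) (algebraMap F K r))) = _
    rw [h1]
    ext i l
    rw [hf, Matrix.algebraMap_matrix_apply, Matrix.algebraMap_matrix_apply]
    split_ifs
    · exact (IsScalarTower.algebraMap_apply F K Ω r).symm
    · exact map_zero _
  · change f (LinearMap.toMatrixAlgEquiv e (φ d)) i l ∈ K
    rw [hf]
    exact (LinearMap.toMatrixAlgEquiv e (φ d) i l).2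

end BrR
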