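import Mathlib

set_option autoImplicit false

/-! # Row Dvs: linear disjointness for a central division algebra (about 150 lines)

THEOREM `dvs`. `D` a division algebra, central over `F`; `R` an `Ω`-algebra (not zero; `Ω` a field containing `F`, central in `R`), `ρ : D →ₐ[F] R`. If `x i` (`i ∈ ι`) is linearly independent over `F` in
`D` then `ρ (x i)` is linearly independent over `Ω`.
PROOF. By strong induction on `n`, for all families `x : Fin n → D` independent over `F` and all `λ : Fin n → Ω` nonzero everywhere: `∑ λ i • ρ (x i) ≠ 0` if `n ≥ 1`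
(this implies the claim by restricting a relation to the support of the coefficients). Suppose `∑ λ i • ρ (x i) = 0`, `n` minimal.
(a) Multiply by `ρ (x 0)⁻¹` on the left: we may assume `x 0 = 1`.
(b) The `λ i` are independent over `F`: if `∑ c i • λ i = 0` with some `c k ≠ 0`, then `λ k = - ∑_{i ≠ k} (c i / c k) λ i`, and `∑_{i ≠ k} λ i • ρ (x i - (c i/c k) x k) = 0` is a relation of length
 `n - 1` with `F`-independent elements `x i - (c i / c k) • x k` (`i ≠ k`) and nonzero coefficients, so `n - 1 = 0`; then `n = 1` and `λ 0 • ρ 1 = 0`, impossible.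
(c) For `d ∈ D`: `ρ d * (∑ ..) - (∑ ..) * ρ d = ∑ λ i • ρ (d x i - x i d) = 0`, the term `i = 0` vanishes. Put `y i = d x i - x i d`, `i ≥ 1`. If not all `y i` are `0`, choose a subset `S` of
 `{1..n-1}` such that `(y l)_{l∈S}` is a basis of the span of the `y i`; `y i = ∑_{l∈S} c i l • y l`; `∑_{l∈S} (∑_i c i l • λ i) • ρ (y l) = 0` and `∑_i c i l • λ i ≠ 0` by (b)
 (`c l l = 1`), a relation of length `|S| < n`, `|S| ≥ 1`: contradiction with minimality. So all `y i = 0` for all `d`: the `x i` are central, hence in `F` (`Algebra.IsCentral`), and independent,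
 so `n = 1`: contradiction as before.
(Any other proof is fine, e.g. via `TensorProduct`: `Ω ⊗[F] D` is simple.) -/

namespace BrR

theorem dvs_aux {F Ω : Type} [Field F] [Field Ω] [Algebra F Ω] (D : Type) [DivisionRing D]
    [Algebra F D] (hcen : Algebra.IsCentral F D) {R : Type} [Ring R] [Nontrivial R] [Algebra Ω R]
    [Algebra F R] [IsScalarTower F Ω R] (ρ : D →ₐ[F] R) {κ : Type} (μ : κ → Ω)
    (hμ : LinearIndependent F μ) (s : Finset κ) : ∀ y : κ → D,
    ∑ i ∈ s, μ i • ρ (y i) = 0 → ∀ i ∈ s, y i = 0 := by
  classical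
  induction s using Finset.induction_on with
  | empty => simp
  | insert a t hat ih =>
    intro y hy
    by_cases hya : y a = 0
    · rw [Finset.sum_insert hat, hya, map_zero, smul_zero, zero_add] at hy
      intro i hi
      rcases Finset.mem_insert.1 hi with rfl | hi
      · exact hya
      · exact ih y hy i hi
    · exfalso
      obtain ⟨z, hz⟩ : ∃ z : κ → D, ∀ i, z i = (y a)⁻¹ * y i := ⟨_, fun _ => rfl⟩
      have hza : z a = 1 := by rw [hz, inv_mul_cancel₀ hya]
      have hzsum : ∑ i ∈ insert a t, μ i • ρ (z i) = 0 := by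
        have h1 : ∑ i ∈ insert a t, μ i • ρ (z i) =
            ρ (y a)⁻¹ * ∑ i ∈ insert a t, μ i • ρ (y i) := by
          rw [Finset.mul_sum]
          refine Finset.sum_congr rfl fun i _ => ?_
          rw [hz, map_mul, mul_smul_comm]
        rw [h1, hy, mul_zero]
      have hcomm : ∀ d : D, ∀ i ∈ t, d * z i - z i * d = 0 := by
        intro d
        apply ih (fun i => d * z i - z i * d)
        have h1 : ∑ i ∈ insert a t, μ i • ρ (d * z i - z i * d) = 0 := by
          have h2 : ∑ i ∈ insert a t, μ i • ρ (d * z i - z i * d) =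
              ρ d * (∑ i ∈ insert a t, μ i • ρ (z i)) - (∑ i ∈ insert a t, μ i • ρ (z i)) * ρ d := by
            rw [Finset.mul_sum, Finset.sum_mul, ← Finset.sum_sub_distrib]
            refine Finset.sum_congr rfl fun i _ => ?_
            rw [map_sub, map_mul, map_mul, smul_sub, mul_smul_comm, smul_mul_assoc]
          rw [h2, hzsum, mul_zero, zero_mul, sub_zero]
        rw [Finset.sum_insert hat, hza] at h1
        simpa using h1
      have hcent : ∀ i ∈ insert a t, ∃ c : F, z i = algebraMap F D c := by
        intro i hi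
        rcases Finset.mem_insert.1 hi with rfl | hi
        · exact ⟨1, by rw [hza, map_one]⟩
        · have h1 : z i ∈ Subalgebra.center F D := by
            rw [Subalgebra.mem_center_iff]
            intro d
            exact sub_eq_zero.1 (hcomm d i hi)
          have h2 := hcen.out h1
          obtain ⟨c, hc⟩ := Algebra.mem_bot.1 h2
          exact ⟨c, hc.symm⟩
      choose! c hc using hcent
      have h1 : (∑ i ∈ insert a t, c i • μ i) • (1 : R) = 0 := by
        rw [← hzsum, Finset.sum_smul]
        refine Finset.sum_congr rfl fun i hi => ?_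
        rw [hc i hi, AlgHom.commutes, Algebra.algebraMap_eq_smul_one, smul_assoc,
          ← algebraMap_smul Ω (c i) (μ i • (1 : R)), ← algebraMap_smul Ω (c i) (1 : R), smul_smul,
          smul_smul, mul_comm]
      have h2 : ∑ i ∈ insert a t, c i • μ i = 0 := by
        rcases smul_eq_zero.1 h1 with h | h
        · exact h
        · exact absurd h one_ne_zero
      have h3 := linearIndependent_iff'.1 hμ (insert a t) c h2 a (Finset.mem_insert_self a t)
      have h4 := hc a (Finset.mem_insert_self a t)
      rw [h3, map_zero, hza] at h4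
      exact one_ne_zero h4

theorem dvs {F Ω : Type} [Field F] [Field Ω] [Algebra F Ω] (D : Type) [DivisionRing D]
    [Algebra F D] (hcen : Algebra.IsCentral F D) {R : Type} [Ring R] [Nontrivial R] [Algebra Ω R]
    [Algebra F R] [IsScalarTower F Ω R] (ρ : D →ₐ[F] R) {ι : Type} (x : ι → D)
    (hx : LinearIndependent F x) : LinearIndependent Ω (fun i => ρ (x i)) := by
  classical
  rw [linearIndependent_iff']
  intro s g hg
  let b := Module.Basis.ofVectorSpace F Ω
  obtain ⟨T, hT⟩ : ∃ T : Finset _, T = s.biUnion fun i => (b.repr (g i)).support := ⟨_, rfl⟩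
  have hexp : ∀ i ∈ s, g i = ∑ k ∈ T, b.repr (g i) k • b k := by
    intro i hi
    have h1 := b.linearCombination_repr (g i)
    rw [Finsupp.linearCombination_apply, Finsupp.sum] at h1
    conv_lhs => rw [← h1]
    apply Finset.sum_subset
    · rw [hT]
      exact Finset.subset_biUnion_of_mem (fun i => (b.repr (g i)).support) hi
    · intro k _ hk
      rw [Finsupp.notMem_support_iff.1 hk, zero_smul]
  have hsum : ∑ k ∈ T, b k • ρ (∑ i ∈ s, b.repr (g i) k • x i) = 0 := by
    rw [← hg]
    have h1 : ∀ i ∈ s, g i • ρ (x i) = ∑ k ∈ T, b k • (b.repr (g i) k • ρ (x i)) := by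
      intro i hi
      conv_lhs => rw [hexp i hi, Finset.sum_smul]
      refine Finset.sum_congr rfl fun k _ => ?_
      rw [smul_assoc, ← algebraMap_smul Ω (b.repr (g i) k) (b k • ρ (x i)),
        ← algebraMap_smul Ω (b.repr (g i) k) (ρ (x i)), smul_smul, smul_smul, mul_comm]
    rw [Finset.sum_congr rfl h1, Finset.sum_comm]
    refine Finset.sum_congr rfl fun k _ => ?_
    rw [map_sum, Finset.smul_sum]
    refine Finset.sum_congr rfl fun i _ => ?_
    rw [map_smul]
  have hzero := dvs_aux D hcen ρ (fun k => b k) b.linearIndependent T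
    (fun k => ∑ i ∈ s, b.repr (g i) k • x i) hsum
  intro i hi
  rw [hexp i hi]
  apply Finset.sum_eq_zero
  intro k hk
  have h1 := linearIndependent_iff'.1 hx s (fun i => b.repr (g i) k) (hzero k hk) i hi
  rw [h1, zero_smul]

end BrR
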