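import Pool.Agent.H48.BR.Uni

set_option autoImplicit false

/-! # Row Exi: every cocycle is the class of an algebra; such algebras are central simple (about 200 lines)

* `isRep_exists`: `c ∈ Coc ⊤`. `U` from `LC2.strong`. `ι₀ = G ⧸ U` (finite, nonempty), monomial matrices
  `T₀ g = ∑ x, c g x.out • single (g • x) x 1` i.e. `(T₀ g) i x = if i = g • x then c g x.out else 0`; invertible (inverse: entry at `(x, g•x)` is `(c g x.out)⁻¹`).
  `(T₀ g * g(T₀ h)) i x = if i = g • h • x then c g ((h•x).out) * g • c h x.out else 0`, `(h • x).out = h * x.out * u`, so `c g (h•x).out = c g (h * x.out)`, and by the cocycle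
  identity at `(g, h, x.out)` it equals `c g h * c (g h) x.out = (c g h • T₀ (g h)) i x`. LC1: `T₀ (g u) = T₀ g` for `u ∈ U`: `(g u) • x = g • x` (`u • x = x`, `U` normal) and
  `c (g u) x.out = c g x.out`. Reindex `ι₀ ≃ Fin n` (or `Fintype.equivFin`). `B = formT T`, `ρ = (formT T).val`; `formT_span`; the relation
  `T g * g(ρ b) = ρ b * T g` is the definition of `formT`.
* `isRep_csa`: `IsRep F Ω B ι c`, `ι` nonempty ⇒ `B` central simple finite dimensional. `B` is nontrivial (`ρ` injective, `M_ι(Ω) ≠ 0`).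
  CENTRAL: `x` central in `B` ⇒ `ρ x` commutes with all `ρ b` ⇒ `ρ x = a • 1` (`scalar_of_comm`), and `T g * g(ρ x) = ρ x * T g` gives `g • a = a` for all `g`, so
  `a = algebraMap F Ω r` (`InfiniteGalois.mem_bot_iff_fixed`), `ρ x = ρ (algebraMap r)`, `x = algebraMap F B r`. (`Algebra.IsCentral` : `out : center ≤ ⊥`.)
  SIMPLE: let `I` be a nonzero two-sided ideal of `B`; the `Ω`-span `J` of `ρ I` is a nonzero two-sided ideal of `M_ι(Ω)` (span of `ρ B` is everything), so
  `J = M_ι(Ω)` (`IsSimpleRing (Matrix ι ι Ω)`); `dim_F I ≥ dim_Ω J = |ι|² = dim_F B`, (`J` is spanned by the `ρ` of an `F`-basis of `I`), so `I = B`.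
  (`TwoSidedIdeal`; `isSimpleRing_iff`-type lemma: `IsSimpleRing` means `IsSimpleOrder (TwoSidedIdeal B)`.) -/

namespace BrR

variable {F Ω : Type} [Field F] [Field Ω] [Algebra F Ω] [IsGalois F Ω]

/-- the monomial matrix of `g` -/
noncomputable def Exi_mon (U : Subgroup Gal(Ω/F)) [DecidableEq (Gal(Ω/F) ⧸ U)]
    (c : Gal(Ω/F) → Gal(Ω/F) → Ωˣ) (g : Gal(Ω/F)) :
    Matrix (Gal(Ω/F) ⧸ U) (Gal(Ω/F) ⧸ U) Ω :=
  fun i x => if i = g • x then ((c g x.out : Ωˣ) : Ω) else 0

/-- its inverse -/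
noncomputable def Exi_inv (U : Subgroup Gal(Ω/F)) [DecidableEq (Gal(Ω/F) ⧸ U)]
    (c : Gal(Ω/F) → Gal(Ω/F) → Ωˣ) (g : Gal(Ω/F)) :
    Matrix (Gal(Ω/F) ⧸ U) (Gal(Ω/F) ⧸ U) Ω :=
  fun x i => if i = g • x then (((c g x.out)⁻¹ : Ωˣ) : Ω) else 0

omit [IsGalois F Ω] in
theorem Exi_mul_inv (U : Subgroup Gal(Ω/F)) [DecidableEq (Gal(Ω/F) ⧸ U)]
    [Fintype (Gal(Ω/F) ⧸ U)] (c : Gal(Ω/F) → Gal(Ω/F) → Ωˣ) (g : Gal(Ω/F)) :
    Exi_mon U c g * Exi_inv U c g = 1 := by
  ext i j
  rw [Matrix.mul_apply, Finset.sum_eq_single (g⁻¹ • i)]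
  · unfold Exi_mon Exi_inv
    rw [smul_inv_smul, if_pos rfl]
    by_cases h : j = i
    · subst h
      rw [if_pos rfl, Units.mul_inv, Matrix.one_apply_eq]
    · rw [if_neg h, mul_zero, Matrix.one_apply_ne (Ne.symm h)]
  · intro x _ hx
    have : i ≠ g • x := by
      rintro rfl
      exact hx (by rw [inv_smul_smul])
    simp only [Exi_mon, if_neg this, zero_mul]
  · intro h
    exact absurd (Finset.mem_univ _) h

/-- the monomial unit -/
noncomputable def Exi_T (U : Subgroup Gal(Ω/F)) [DecidableEq (Gal(Ω/F) ⧸ U)]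
    [Fintype (Gal(Ω/F) ⧸ U)] (c : Gal(Ω/F) → Gal(Ω/F) → Ωˣ) (g : Gal(Ω/F)) :
    (Matrix (Gal(Ω/F) ⧸ U) (Gal(Ω/F) ⧸ U) Ω)ˣ where
  val := Exi_mon U c g
  inv := Exi_inv U c g
  val_inv := Exi_mul_inv U c g
  inv_val := mul_eq_one_comm.mp (Exi_mul_inv U c g)

omit [IsGalois F Ω] in
theorem Exi_out (U : Subgroup Gal(Ω/F)) (h : Gal(Ω/F)) (x : Gal(Ω/F) ⧸ U) :
    ∃ u ∈ U, (h • x).out = h * x.out * u := by
  refine ⟨(h * x.out)⁻¹ * (h • x).out, ?_, by rw [mul_inv_cancel_left]⟩
  rw [← QuotientGroup.eq, QuotientGroup.out_eq', ← smul_eq_mul, ← MulAction.Quotient.smul_coe,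
    QuotientGroup.out_eq']

omit [IsGalois F Ω] in
theorem Exi_rel (U : Subgroup Gal(Ω/F)) [DecidableEq (Gal(Ω/F) ⧸ U)]
    [Fintype (Gal(Ω/F) ⧸ U)] {c : Gal(Ω/F) → Gal(Ω/F) → Ωˣ}
    (h1 : ∀ g h, ∀ u ∈ U, ∀ v ∈ U, c (g * u) (h * v) = c g h)
    (h2 : ∀ g h k : Gal(Ω/F), g • c h k * c g (h * k) = c (g * h) k * c g h)
    (g h : Gal(Ω/F)) :
    (Exi_T U c g : Matrix (Gal(Ω/F) ⧸ U) (Gal(Ω/F) ⧸ U) Ω) *
      ((Exi_T U c h : Matrix (Gal(Ω/F) ⧸ U) (Gal(Ω/F) ⧸ U) Ω)).map g =
      (c g h : Ω) • (Exi_T U c (g * h) : Matrix (Gal(Ω/F) ⧸ U) (Gal(Ω/F) ⧸ U) Ω) := by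
  ext i x
  rw [Matrix.mul_apply, Finset.sum_eq_single (h • x)]
  · rw [Matrix.smul_apply, Matrix.map_apply]
    change Exi_mon U c g i (h • x) * g (Exi_mon U c h (h • x) x) =
      (c g h : Ω) * Exi_mon U c (g * h) i x
    simp only [Exi_mon, if_true]
    rw [mul_smul]
    by_cases hi : i = g • h • x
    · rw [if_pos hi, if_pos hi]
      obtain ⟨u, hu, hx⟩ := Exi_out U h x
      rw [hx]
      have e1 : c g (h * x.out * u) = c g (h * x.out) := by
        have := h1 g (h * x.out) 1 U.one_mem u hu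
        rwa [mul_one] at this
      rw [e1]
      have e2 := congrArg (fun z : Ωˣ => (z : Ω)) (h2 g h x.out)
      simp only [Units.val_mul] at e2
      rw [mul_comm, mul_comm ((c g h : Ωˣ) : Ω), ← e2]
      rfl
    · rw [if_neg hi, if_neg hi, zero_mul, mul_zero]
  · intro y _ hy
    rw [Matrix.map_apply]
    change _ * g (Exi_mon U c h y x) = 0
    simp only [Exi_mon, if_neg hy, map_zero, mul_zero]
  · intro h
    exact absurd (Finset.mem_univ _) h

omit [IsGalois F Ω] in
theorem Exi_lc (U : Subgroup Gal(Ω/F)) (hU : ON U) [DecidableEq (Gal(Ω/F) ⧸ U)]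
    [Fintype (Gal(Ω/F) ⧸ U)] {c : Gal(Ω/F) → Gal(Ω/F) → Ωˣ}
    (h1 : ∀ g h, ∀ u ∈ U, ∀ v ∈ U, c (g * u) (h * v) = c g h) : LC1 (Exi_T U c) := by
  refine ⟨U, hU, fun g u hu => Units.ext ?_⟩
  change Exi_mon U c (g * u) = Exi_mon U c g
  ext i x
  have e1 : u • x = x := by
    obtain ⟨k, rfl⟩ := QuotientGroup.mk_surjective x
    rw [MulAction.Quotient.smul_coe, smul_eq_mul]
    rw [QuotientGroup.eq]
    have := hU.1.conj_mem _ (U.inv_mem hu) k⁻¹
    simpa [mul_assoc] using this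
  have e2 : c (g * u) x.out = c g x.out := by
    have := h1 g x.out u hu 1 U.one_mem
    rwa [mul_one] at this
  simp only [Exi_mon]
  rw [mul_smul, e1, e2]

theorem isRep_exists {c : Gal(Ω/F) → Gal(Ω/F) → Ωˣ} (hc : c ∈ Coc (⊤ : Subgroup Gal(Ω/F))) :
    ∃ (n : ℕ) (B : Type) (_ : Ring B) (_ : Algebra F B), 0 < n ∧ IsRep F Ω B (Fin n) c := by
  classical
  obtain ⟨hc1, hc2⟩ := hc
  obtain ⟨U, hU, h1, -⟩ := hc1.strong
  have h2 : ∀ g h k : Gal(Ω/F), g • c h k * c g (h * k) = c (g * h) k * c g h :=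
    fun g h k => hc2 g trivial h trivial k trivial
  have : Finite (Gal(Ω/F) ⧸ U) := finite_quot hU.2
  have : Fintype (Gal(Ω/F) ⧸ U) := Fintype.ofFinite _
  have hT := Exi_lc U hU h1
  have hr := Exi_rel U h1 h2
  have hs := formT_span hT hr
  have hrep : IsRep F Ω (formT (Exi_T U c)) (Gal(Ω/F) ⧸ U) c := by
    refine ⟨(formT (Exi_T U c)).val, Exi_T U c, ?_, hs.2.1, hs.2.2, hT, ?_, hr⟩
    · have : Set.range (formT (Exi_T U c)).val =
          ((formT (Exi_T U c) : Subalgebra F (Matrix (Gal(Ω/F) ⧸ U) (Gal(Ω/F) ⧸ U) Ω)) :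
            Set (Matrix (Gal(Ω/F) ⧸ U) (Gal(Ω/F) ⧸ U) Ω)) := by
        ext X
        constructor
        · rintro ⟨y, rfl⟩
          exact y.2
        · intro h
          exact ⟨⟨X, h⟩, rfl⟩
      rw [this]
      exact hs.1
    · intro g b
      exact b.2 g
  refine ⟨Fintype.card (Gal(Ω/F) ⧸ U), formT (Exi_T U c), inferInstance, inferInstance,
    Fintype.card_pos, hrep.reindex (Fintype.equivFin _)⟩

/-- a two-sided ideal as an `F`-subspace -/
def Exi_sub {B : Type} [Ring B] [Algebra F B] (I : TwoSidedIdeal B) : Submodule F B where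
  carrier := {x | x ∈ I}
  add_mem' := fun ha hb => I.add_mem ha hb
  zero_mem' := I.zero_mem
  smul_mem' := fun r x hx => by
    change r • x ∈ I
    rw [Algebra.smul_def]
    exact I.mul_mem_left _ _ hx

omit [IsGalois F Ω] in
theorem Exi_simple {B : Type} [Ring B] [Algebra F B] {ι : Type} [Fintype ι] [DecidableEq ι]
    [Nonempty ι] (ρ : B →ₐ[F] Matrix ι ι Ω) (hspan : Submodule.span Ω (Set.range ρ) = ⊤)
    (hfin : Module.Finite F B) (hdim : Module.finrank F B ≤ Fintype.card ι ^ 2)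
    (I : TwoSidedIdeal B) (hI : I ≠ ⊥) : I = ⊤ := by
  obtain ⟨hinj, -⟩ := rho_inj ρ hspan hfin hdim
  set J : Submodule Ω (Matrix ι ι Ω) := Submodule.span Ω (ρ '' {x | x ∈ I}) with hJ
  have hl : ∀ M X : Matrix ι ι Ω, X ∈ J → M * X ∈ J := by
    intro M X hX
    have hM : M ∈ Submodule.span Ω (Set.range ρ) := by rw [hspan]; trivial
    induction hM using Submodule.span_induction with
    | mem M hM =>
      obtain ⟨b, rfl⟩ := hM
      induction hX using Submodule.span_induction with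
      | mem X hX =>
        obtain ⟨x, hx, rfl⟩ := hX
        rw [← map_mul]
        exact Submodule.subset_span ⟨b * x, I.mul_mem_left _ _ hx, rfl⟩
      | zero => rw [mul_zero]; exact J.zero_mem
      | add X Y _ _ h1 h2 => rw [mul_add]; exact J.add_mem h1 h2
      | smul a X _ h1 => rw [Matrix.mul_smul]; exact J.smul_mem a h1
    | zero => rw [zero_mul]; exact J.zero_mem
    | add M N _ _ h1 h2 => rw [add_mul]; exact J.add_mem h1 h2
    | smul a M _ h1 => rw [Matrix.smul_mul]; exact J.smul_mem a h1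
  have hr : ∀ M X : Matrix ι ι Ω, X ∈ J → X * M ∈ J := by
    intro M X hX
    have hM : M ∈ Submodule.span Ω (Set.range ρ) := by rw [hspan]; trivial
    induction hM using Submodule.span_induction with
    | mem M hM =>
      obtain ⟨b, rfl⟩ := hM
      induction hX using Submodule.span_induction with
      | mem X hX =>
        obtain ⟨x, hx, rfl⟩ := hX
        rw [← map_mul]
        exact Submodule.subset_span ⟨x * b, I.mul_mem_right _ _ hx, rfl⟩
      | zero => rw [zero_mul]; exact J.zero_mem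
      | add X Y _ _ h1 h2 => rw [add_mul]; exact J.add_mem h1 h2
      | smul a X _ h1 => rw [Matrix.smul_mul]; exact J.smul_mem a h1
    | zero => rw [mul_zero]; exact J.zero_mem
    | add M N _ _ h1 h2 => rw [mul_add]; exact J.add_mem h1 h2
    | smul a M _ h1 => rw [Matrix.mul_smul]; exact J.smul_mem a h1
  let J' : TwoSidedIdeal (Matrix ι ι Ω) := TwoSidedIdeal.mk' (J : Set (Matrix ι ι Ω))
    J.zero_mem (fun h1 h2 => J.add_mem h1 h2) (fun h => J.neg_mem h)
    (fun {M X} h => hl M X h) (fun {X M} h => hr M X h)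
  have hmem : ∀ X, X ∈ J' ↔ X ∈ J := fun X => TwoSidedIdeal.mem_mk' _ _ _ _ _ _ _
  have hJtop : J = ⊤ := by
    have hne : J' ≠ ⊥ := by
      intro hb
      apply hI
      rw [eq_bot_iff]
      intro x hx
      have h1 : ρ x ∈ J' := (hmem _).mpr (Submodule.subset_span ⟨x, hx, rfl⟩)
      rw [hb, TwoSidedIdeal.mem_bot] at h1
      rw [TwoSidedIdeal.mem_bot]
      exact hinj (by rw [h1, map_zero])
    have ht : J' = ⊤ := (eq_bot_or_eq_top J').resolve_left hne
    rw [eq_top_iff]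
    intro X _
    rw [← hmem, ht]
    trivial
  -- the dimension count
  have := hfin
  have h1 : Fintype.card ι ^ 2 ≤ Module.finrank F (Exi_sub (F := F) I) := by
    set b := Module.finBasis F (Exi_sub (F := F) I) with hb
    have h2 : J ≤ Submodule.span Ω (Set.range fun i => ρ (b i : B)) := by
      rw [hJ, Submodule.span_le]
      rintro _ ⟨x, hx, rfl⟩
      have h3 := b.sum_repr ⟨x, hx⟩
      have h4 : x = ∑ i, b.repr ⟨x, hx⟩ i • (b i : B) := by
        have h5 := congrArg (Submodule.subtype (Exi_sub (F := F) I)) h3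
        rw [map_sum] at h5
        simpa using h5.symm
      rw [h4, map_sum]
      refine Submodule.sum_mem _ fun i _ => ?_
      rw [map_smul]
      have h6 : (b.repr ⟨x, hx⟩ i) • ρ (b i : B) =
          (algebraMap F Ω (b.repr ⟨x, hx⟩ i)) • ρ (b i : B) := by
        rw [algebraMap_smul]
      rw [h6]
      exact Submodule.smul_mem _ _ (Submodule.subset_span ⟨i, rfl⟩)
    rw [hJtop, top_le_iff] at h2
    have h3 := finrank_range_le_card (R := Ω) (fun i => ρ (b i : B))
    rw [Set.finrank, h2, finrank_top, Module.finrank_matrix, Fintype.card_fin,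
      Module.finrank_self, mul_one] at h3
    rw [pow_two]
    exact h3
  have h2 : Exi_sub (F := F) I = ⊤ := by
    apply Submodule.eq_top_of_finrank_eq
    exact le_antisymm (Submodule.finrank_le _) (hdim.trans h1)
  rw [eq_top_iff]
  intro x _
  have : x ∈ Exi_sub (F := F) I := by rw [h2]; trivial
  exact this

theorem isRep_csa {B : Type} [Ring B] [Algebra F B] {ι : Type} [Fintype ι] [DecidableEq ι]
    [Nonempty ι] {c : Gal(Ω/F) → Gal(Ω/F) → Ωˣ} (h : IsRep F Ω B ι c) :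
    Algebra.IsCentral F B ∧ IsSimpleRing B ∧ FiniteDimensional F B := by
  obtain ⟨ρ, T, hspan, hfin, hdim, -, hT, -⟩ := h
  obtain ⟨hinj, hcard⟩ := rho_inj ρ hspan hfin hdim
  refine ⟨⟨?_⟩, ⟨?_⟩, hfin⟩
  · intro x hx
    rw [Subalgebra.mem_center_iff] at hx
    obtain ⟨a, ha⟩ := scalar_of_comm ρ hspan (ρ x) (fun b => by
      rw [← map_mul, ← map_mul, hx b])
    have hfix : ∀ g : Gal(Ω/F), g a = a := by
      intro g
      have h1 := hT g x
      rw [ha] at h1
      have h2 : (a • (1 : Matrix ι ι Ω)).map g = (g a) • (1 : Matrix ι ι Ω) := by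
        ext i j
        simp only [Matrix.map_apply, Matrix.smul_apply, smul_eq_mul, Matrix.one_apply, map_mul]
        by_cases hij : i = j
        · simp [hij]
        · simp [hij]
      rw [h2, Matrix.mul_smul, mul_one, Matrix.smul_mul, one_mul] at h1
      have h3 := congrArg (fun M => M * ((T g)⁻¹ : (Matrix ι ι Ω)ˣ).val) h1
      simp only [Matrix.smul_mul, Units.mul_inv] at h3
      obtain ⟨i⟩ := (inferInstance : Nonempty ι)
      have h4 := congrFun (congrFun h3 i) i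
      simpa using h4
    have hbot : a ∈ (⊥ : IntermediateField F Ω) := by
      rw [InfiniteGalois.mem_bot_iff_fixed]
      exact hfix
    rw [IntermediateField.mem_bot] at hbot
    obtain ⟨r, hr⟩ := hbot
    rw [Algebra.mem_bot]
    refine ⟨r, hinj ?_⟩
    rw [ha, AlgHom.commutes, ← hr]
    ext i j
    rw [Matrix.algebraMap_matrix_apply, Matrix.smul_apply, Matrix.one_apply]
    by_cases hij : i = j
    · simp [hij]
    · simp [hij]
  · have : Nontrivial B := by
      have : Nontrivial (Matrix ι ι Ω) := inferInstance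
      refine ⟨⟨0, 1, fun h0 => ?_⟩⟩
      have h1 := congrArg ρ h0
      rw [map_zero, map_one] at h1
      exact zero_ne_one h1
    refine { eq_bot_or_eq_top := fun I => ?_ }
    by_cases hI : I = ⊥
    · exact Or.inl hI
    · exact Or.inr (Exi_simple ρ hspan hfin hdim I hI)

end BrR
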