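import Pool.Agent.H48.BR.Smo

set_option autoImplicit false

/-! # Row Idx: indices of fixing subgroups (about 120 lines)

* `fix_index`: `K` an intermediate field of finite degree: `K.fixingSubgroup.index = finrank F K`. PROOF. The map `G ⧸ K.fixingSubgroup → (K →ₐ[F] Ω)`, `g ↦ g|_K` is a
  bijection (injective: `g|_K = h|_K` iff `h⁻¹ g` fixes `K`; surjective: every embedding `K → Ω` extends to an automorphism of the normal extension `Ω`:
  `AlgHom.liftNormal` / `AlgHom.restrictNormal`, e.g. `(f.liftNormal Ω)`, or `IntermediateField.exists_algHom_of_splits..`), and the number of embeddings is `finrank F K` as `K/F` is separable and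
  `Ω` is separably closed (`AlgHom.card_of_splits` / `Field.finSepDegree_eq_finrank_of_isSeparable`; minimal polynomials split in `Ω` because `Ω/F` is normal).
* `fix_open`: `IntermediateField.fixingSubgroup_isOpen`.
* `gz_index`: `ζ` a primitive `p`-th root of unity in `Ω`: `Gz ζ = (F⟮(ζ:Ω)⟯).fixingSubgroup` and `F⟮ζ⟯` is a cyclotomic extension of `F` (`IsPrimitiveRoot.intermediateField_adjoin_isCyclotomicExtension`
  or similar), isomorphic to `CyclotomicField p F` (`IsCyclotomicExtension.algEquiv`), so the degrees agree. -/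

namespace BrR

open IntermediateField

variable {F Ω : Type} [Field F] [Field Ω] [Algebra F Ω] [IsGalois F Ω] [IsSepClosed Ω]

omit [IsSepClosed Ω] in
theorem fix_index (K : IntermediateField F Ω) [FiniteDimensional F K] :
    K.fixingSubgroup.index = Module.finrank F K :=
  (IntermediateField.finrank_eq_fixingSubgroup_index Ω K).symm

theorem gz_index {p : ℕ} (hp : p.Prime) (hpF : (p : F) ≠ 0) {ζ : Ωˣ} (hζ : IsPrimitiveRoot ζ p) :
    (Gz (F := F) ζ).index = Module.finrank F (CyclotomicField p F) := by
  have : NeZero p := ⟨hp.ne_zero⟩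
  have : NeZero ((p : ℕ) : F) := ⟨hpF⟩
  have hζ' : IsPrimitiveRoot (ζ : Ω) p := IsPrimitiveRoot.coe_units_iff.mpr hζ
  have h1 : Gz (F := F) ζ = (IntermediateField.adjoin F {(ζ : Ω)}).fixingSubgroup := by
    ext g
    rw [mem_Gz, IntermediateField.mem_fixingSubgroup_iff]
    constructor
    · intro h x hx
      have hg : g (ζ : Ω) = (ζ : Ω) := congrArg (fun z : Ωˣ => (z : Ω)) h
      have hle : IntermediateField.adjoin F {(ζ : Ω)} ≤
          IntermediateField.fixedField (Subgroup.zpowers g) := by
        rw [IntermediateField.adjoin_simple_le_iff, IntermediateField.mem_fixedField_iff]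
        intro f hf
        rw [Subgroup.mem_zpowers_iff] at hf
        obtain ⟨k, rfl⟩ := hf
        have h2 : g ∈ MulAction.stabilizer Gal(Ω/F) (ζ : Ω) := hg
        exact (MulAction.stabilizer Gal(Ω/F) (ζ : Ω)).zpow_mem h2 k
      have h3 := hle hx
      rw [IntermediateField.mem_fixedField_iff] at h3
      exact h3 g (Subgroup.mem_zpowers g)
    · intro h
      exact Units.ext (h (ζ : Ω) (IntermediateField.mem_adjoin_simple_self F (ζ : Ω)))
  have h2 : IsCyclotomicExtension {p} F (IntermediateField.adjoin F {(ζ : Ω)}) :=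
    hζ'.intermediateField_adjoin_isCyclotomicExtension F
  rw [h1, ← IntermediateField.finrank_eq_fixingSubgroup_index]
  exact (IsCyclotomicExtension.algEquiv {p} F (IntermediateField.adjoin F {(ζ : Ω)})
    (CyclotomicField p F)).toLinearEquiv.finrank_eq

/-- existence of `ζ` -/
theorem exists_zeta {p : ℕ} (hp : p.Prime) (hpF : (p : F) ≠ 0) :
    ∃ ζ : Ωˣ, IsPrimitiveRoot ζ p := by
  have hpΩ : ((p : ℕ) : Ω) ≠ 0 := by
    rw [← map_natCast (algebraMap F Ω) p]
    exact (map_ne_zero _).mpr hpF
  have : NeZero ((p : ℕ) : Ω) := ⟨hpΩ⟩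
  obtain ⟨x, hx⟩ := IsSepClosed.exists_root (Polynomial.cyclotomic p Ω)
    (Polynomial.degree_cyclotomic_pos p Ω hp.pos).ne' (Polynomial.separable_cyclotomic p Ω)
  rw [Polynomial.isRoot_cyclotomic_iff] at hx
  refine ⟨(hx.isUnit hp.ne_zero).unit, ?_⟩
  rw [← IsPrimitiveRoot.coe_units_iff]
  exact hx

end BrR
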