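import Pool.Agent.H48.BR.Rep

set_option autoImplicit false

/-! # Row Mat: matrix algebras over forms (about 120 lines)

* `isRep_mat`: `M_a(B)` has class `c` with index type `Fin a × ι`. `ρ' M = fun (i,x) (j,y) => ρ (M i j) x y` (compose `ρ.mapMatrix` with `Matrix.compAlgEquiv` or direct),
  `T' g = 1 ⊗ T g` i.e. `(T' g) (i,x) (j,y) = if i = j then T g x y else 0` (`Matrix.kroneckerMap`/`blockDiagonal`); unit with inverse from `(T g)⁻¹`. Span: `single (i,x) (j,y) 1` is in the
  `Ω`-span of the image, because `single x y 1 ∈ span (range ρ)` and `ρ' (single i j b) = single i j ⊗ ρ b`. Dimension `a² * finrank B`. -/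

namespace BrR

variable {F Ω : Type} [Field F] [Field Ω] [Algebra F Ω] [IsGalois F Ω]

/-- block diagonal matrix with equal blocks -/
private noncomputable def mat_T {ι : Type} [Fintype ι] [DecidableEq ι] (a : ℕ) :
    Matrix ι ι Ω →* Matrix (Fin a × ι) (Fin a × ι) Ω :=
  ((Matrix.compRingEquiv (Fin a) ι Ω).toRingHom.comp
    (Matrix.scalar (Fin a) : Matrix ι ι Ω →+* Matrix (Fin a) (Fin a) (Matrix ι ι Ω))).toMonoidHom

private theorem mat_T_apply {ι : Type} [Fintype ι] [DecidableEq ι] (a : ℕ) (A : Matrix ι ι Ω)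
    (i j : Fin a) (x y : ι) : mat_T a A (i, x) (j, y) = if i = j then A x y else 0 := by
  have h : mat_T a A (i, x) (j, y)
      = (Matrix.scalar (Fin a) A : Matrix (Fin a) (Fin a) (Matrix ι ι Ω)) i j x y := rfl
  rw [h, Matrix.scalar_apply]
  by_cases hij : i = j
  · subst hij
    simp
  · rw [if_neg hij, Matrix.diagonal_apply_ne _ hij]
    rfl

private theorem mat_T_mul {ι : Type} [Fintype ι] [DecidableEq ι] (a : ℕ) (A : Matrix ι ι Ω)
    (P : Matrix (Fin a × ι) (Fin a × ι) Ω) (i : Fin a) (x : ι) (q : Fin a × ι) :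
    (mat_T a A * P) (i, x) q = ∑ z, A x z * P (i, z) q := by
  rw [Matrix.mul_apply, Fintype.sum_prod_type]
  simp only [mat_T_apply, ite_mul, zero_mul]
  rw [Finset.sum_eq_single i]
  · simp
  · intro k _ hk
    simp [Ne.symm hk]
  · intro h
    exact absurd (Finset.mem_univ i) h

private theorem mat_mul_T {ι : Type} [Fintype ι] [DecidableEq ι] (a : ℕ) (A : Matrix ι ι Ω)
    (P : Matrix (Fin a × ι) (Fin a × ι) Ω) (j : Fin a) (y : ι) (q : Fin a × ι) :
    (P * mat_T a A) q (j, y) = ∑ z, P q (j, z) * A z y := by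
  rw [Matrix.mul_apply, Fintype.sum_prod_type]
  simp only [mat_T_apply, mul_ite, mul_zero]
  rw [Finset.sum_eq_single j]
  · simp
  · intro k _ hk
    simp [hk]
  · intro h
    exact absurd (Finset.mem_univ j) h

/-- block inclusion -/
private def mat_L {ι : Type} (a : ℕ) (i j : Fin a) :
    Matrix ι ι Ω →ₗ[Ω] Matrix (Fin a × ι) (Fin a × ι) Ω where
  toFun A := fun p q => if p.1 = i ∧ q.1 = j then A p.2 q.2 else 0
  map_add' A B := by
    ext p q
    by_cases h : p.1 = i ∧ q.1 = j <;> simp [h]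
  map_smul' r A := by
    ext p q
    by_cases h : p.1 = i ∧ q.1 = j <;> simp [h]

theorem isRep_mat {B : Type} [Ring B] [Algebra F B] {ι : Type} [Fintype ι] [DecidableEq ι]
    {c : Gal(Ω/F) → Gal(Ω/F) → Ωˣ} (h : IsRep F Ω B ι c) (a : ℕ) :
    IsRep F Ω (Matrix (Fin a) (Fin a) B) (Fin a × ι) c := by
  obtain ⟨ρ, T, hspan, hfin, hrank, hlc, h1, h2⟩ := h
  let ρ' : Matrix (Fin a) (Fin a) B →ₐ[F] Matrix (Fin a × ι) (Fin a × ι) Ω :=
    (Matrix.compAlgEquiv (Fin a) ι Ω F).toAlgHom.comp ρ.mapMatrix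
  have hρ' : ∀ (M : Matrix (Fin a) (Fin a) B) (i j : Fin a) (x y : ι),
      ρ' M (i, x) (j, y) = ρ (M i j) x y := fun M i j x y => rfl
  refine ⟨ρ', fun g => Units.map (mat_T a) (T g), ?_, inferInstance, ?_,
    hlc.comp (fun t => Units.map (mat_T a) t), ?_, ?_⟩
  · rw [eq_top_iff]
    have hL : ∀ (i j : Fin a) (A : Matrix ι ι Ω),
        mat_L a i j A ∈ Submodule.span Ω (Set.range ρ') := by
      intro i j A
      have hA : A ∈ Submodule.span Ω (Set.range ρ) := by
        rw [hspan]
        exact Submodule.mem_top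
      have h3 : mat_L a i j A ∈ (Submodule.span Ω (Set.range ρ)).map (mat_L a i j) :=
        Submodule.mem_map_of_mem hA
      rw [Submodule.map_span] at h3
      refine Submodule.span_mono ?_ h3
      rintro _ ⟨_, ⟨b, rfl⟩, rfl⟩
      refine ⟨Matrix.single i j b, ?_⟩
      ext ⟨k, x⟩ ⟨l, y⟩
      rw [hρ']
      show ρ (Matrix.single i j b k l) x y = if k = i ∧ l = j then ρ b x y else 0
      by_cases hk : k = i ∧ l = j
      · obtain ⟨rfl, rfl⟩ := hk
        rw [if_pos ⟨rfl, rfl⟩, Matrix.single_apply_same]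
      · rw [if_neg hk, Matrix.single_apply_of_ne, map_zero]
        · rfl
        · rintro ⟨rfl, rfl⟩
          exact hk ⟨rfl, rfl⟩
    intro N _
    have hN : N = ∑ i : Fin a, ∑ j : Fin a, mat_L a i j (fun x y => N (i, x) (j, y)) := by
      ext ⟨k, x⟩ ⟨l, y⟩
      rw [Matrix.sum_apply, Finset.sum_eq_single k]
      · rw [Matrix.sum_apply, Finset.sum_eq_single l]
        · show _ = if k = k ∧ l = l then N (k, x) (l, y) else 0
          rw [if_pos ⟨rfl, rfl⟩]
        · intro j _ hj
          show (if k = k ∧ l = j then N (k, x) (j, y) else 0) = 0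
          rw [if_neg]
          rintro ⟨_, rfl⟩
          exact hj rfl
        · intro h
          exact absurd (Finset.mem_univ l) h
      · intro i _ hi
        rw [Matrix.sum_apply]
        refine Finset.sum_eq_zero fun j _ => ?_
        show (if k = i ∧ l = j then N (i, x) (j, y) else 0) = 0
        rw [if_neg]
        rintro ⟨rfl, _⟩
        exact hi rfl
      · intro h
        exact absurd (Finset.mem_univ k) h
    rw [hN]
    exact Submodule.sum_mem _ fun i _ => Submodule.sum_mem _ fun j _ => hL i j _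
  · rw [Module.finrank_matrix, Fintype.card_prod, Fintype.card_fin, mul_pow, sq]
    exact Nat.mul_le_mul_left _ hrank
  · intro g M
    ext ⟨i, x⟩ ⟨j, y⟩
    show (mat_T a (T g : Matrix ι ι Ω) * (ρ' M).map g) (i, x) (j, y)
      = (ρ' M * mat_T a (T g : Matrix ι ι Ω)) (i, x) (j, y)
    rw [mat_T_mul, mat_mul_T]
    have h3 := congrFun (congrFun (h1 g (M i j)) x) y
    rw [Matrix.mul_apply, Matrix.mul_apply] at h3
    exact h3
  · intro g k
    ext ⟨i, x⟩ ⟨j, y⟩
    show (mat_T a (T g : Matrix ι ι Ω) * (mat_T a (T k : Matrix ι ι Ω)).map g) (i, x) (j, y)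
      = (c g k : Ω) * mat_T a (T (g * k) : Matrix ι ι Ω) (i, x) (j, y)
    rw [mat_T_mul]
    simp only [Matrix.map_apply, mat_T_apply]
    have h3 := congrFun (congrFun (h2 g k) x) y
    rw [Matrix.mul_apply, Matrix.smul_apply, smul_eq_mul] at h3
    simp only [Matrix.map_apply] at h3
    by_cases hij : i = j
    · simp only [if_pos hij]
      exact h3
    · simp [if_neg hij]

end BrR
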