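import Pool.Agent.H48.BR.Rep

set_option autoImplicit false

/-! # Row Pit: tensor powers of forms (about 220 lines)

`isRep_pi`: the tensor power `⨂^k B` has class `c^k` with index type `Fin k → ι`. `ρ'` = `PiTensorProduct.liftAlgHom` of the multilinear map
`b ↦ fun x y => ∏ i, ρ (b i) (x i) (y i)` (multiplicative: `∏_i ∑_z = ∑_z ∏_i`, `Finset.prod_univ_sum` / `Fintype.piFinset`; unital:
`∏ i, (1 : Matrix) (x i) (y i) = if x = y then 1 else 0`). `T' g x y = ∏ i, T g (x i) (y i)`, inverse from `(T g)⁻¹`; relations entrywise from those of `T` (same product-of-sums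
computation). Span: `single x y 1 (x, y : Fin k → ι)` is `∏` of `single (x i) (y i) 1`; the map `(M_i)_i ↦ fun x y => ∏ i, M_i (x i) (y i)` is multilinear over `Ω`, so if each `M_i` is in
the span of `range ρ` then its value is in the span of the range of `ρ'` (induction with `Submodule.span_induction` in one variable at a time, or expand `M_i` in the basis
`ρ (b_j)`, `MultilinearMap.map_sum`). Dimension: `Basis.piTensorProduct` (`Module.finBasis F B`): `finrank = (finrank B)^k ≤ (|ι|²)^k = |Fin k → ι|²`;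
`Module.Finite` from the basis. LC1: `T'` is a function of `T`. -/

namespace BrR

variable {F Ω : Type} [Field F] [Field Ω] [Algebra F Ω] [IsGalois F Ω]

/-- Kronecker product of a family of matrices, multilinear -/
noncomputable def Pit_K (Ω : Type) [Field Ω] (k : ℕ) (ι : Type) [Fintype ι] [DecidableEq ι] :
    MultilinearMap Ω (fun _ : Fin k => Matrix ι ι Ω) (Matrix (Fin k → ι) (Fin k → ι) Ω) where
  toFun M := Matrix.of fun x y => ((MultilinearMap.mkPiAlgebra Ω (Fin k) Ω).compLinearMap
    (fun i => Matrix.entryLinearMap Ω Ω (x i) (y i))) M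
  map_update_add' m i a b := by
    ext x y
    exact ((MultilinearMap.mkPiAlgebra Ω (Fin k) Ω).compLinearMap
      (fun i => Matrix.entryLinearMap Ω Ω (x i) (y i))).map_update_add m i a b
  map_update_smul' m i c a := by
    ext x y
    exact ((MultilinearMap.mkPiAlgebra Ω (Fin k) Ω).compLinearMap
      (fun i => Matrix.entryLinearMap Ω Ω (x i) (y i))).map_update_smul m i c a

section Pit

variable {Ω' : Type} [Field Ω'] {k : ℕ} {ι : Type} [Fintype ι] [DecidableEq ι]

theorem Pit_K_apply (M : Fin k → Matrix ι ι Ω') (x y : Fin k → ι) :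
    Pit_K Ω' k ι M x y = ∏ i, M i (x i) (y i) := rfl

theorem Pit_K_mul (M N : Fin k → Matrix ι ι Ω') :
    Pit_K Ω' k ι (fun i => M i * N i) = Pit_K Ω' k ι M * Pit_K Ω' k ι N := by
  ext x y
  rw [Matrix.mul_apply, Pit_K_apply]
  simp only [Matrix.mul_apply, Pit_K_apply]
  rw [Finset.prod_univ_sum, Fintype.piFinset_univ]
  apply Finset.sum_congr rfl
  intro z _
  rw [Finset.prod_mul_distrib]

theorem Pit_K_one : Pit_K Ω' k ι (fun _ => 1) = 1 := by
  ext x y
  rw [Pit_K_apply, Matrix.one_apply]
  simp only [Matrix.one_apply]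
  rw [Fintype.prod_ite_zero]
  simp [funext_iff]

theorem Pit_K_map (g : Ω' →+* Ω') (M : Fin k → Matrix ι ι Ω') :
    (Pit_K Ω' k ι M).map g = Pit_K Ω' k ι (fun i => (M i).map g) := by
  ext x y
  rw [Matrix.map_apply, Pit_K_apply, Pit_K_apply, map_prod]
  rfl

theorem Pit_K_smul (c : Ω') (M : Fin k → Matrix ι ι Ω') :
    Pit_K Ω' k ι (fun i => c • M i) = c ^ k • Pit_K Ω' k ι M := by
  ext x y
  rw [Matrix.smul_apply, Pit_K_apply, Pit_K_apply]
  simp only [Matrix.smul_apply, smul_eq_mul]
  rw [Finset.prod_mul_distrib, Finset.prod_const, Finset.card_univ, Fintype.card_fin]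

theorem Pit_K_single (x y : Fin k → ι) :
    Pit_K Ω' k ι (fun i => Matrix.single (x i) (y i) 1) = Matrix.single x y 1 := by
  ext a b
  rw [Pit_K_apply, Matrix.single_apply]
  simp only [Matrix.single_apply]
  rw [Fintype.prod_ite_zero]
  simp only [Finset.prod_const_one]
  congr 1
  rw [funext_iff, funext_iff]
  exact propext ⟨fun h => ⟨fun i => (h i).1, fun i => (h i).2⟩, fun h i => ⟨h.1 i, h.2 i⟩⟩

theorem Pit_span {S : Set (Matrix ι ι Ω')} (hS : Submodule.span Ω' S = ⊤)
    {W : Submodule Ω' (Matrix (Fin k → ι) (Fin k → ι) Ω')}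
    (hW : ∀ M : Fin k → Matrix ι ι Ω', (∀ i, M i ∈ S) → Pit_K Ω' k ι M ∈ W) : W = ⊤ := by
  have key : ∀ s : Finset (Fin k), ∀ M : Fin k → Matrix ι ι Ω', (∀ i, i ∉ s → M i ∈ S) →
      Pit_K Ω' k ι M ∈ W := by
    intro s
    induction s using Finset.induction_on with
    | empty =>
      intro M hM
      exact hW M (fun i => hM i (Finset.notMem_empty i))
    | insert i s hi ih =>
      intro M hM
      have h1 : ∀ X ∈ Submodule.span Ω' S, Pit_K Ω' k ι (Function.update M i X) ∈ W := by
        intro X hX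
        induction hX using Submodule.span_induction with
        | mem X hX =>
          apply ih
          intro j hj
          by_cases hji : j = i
          · subst hji
            rw [Function.update_self]
            exact hX
          · rw [Function.update_of_ne hji]
            apply hM
            rw [Finset.mem_insert]
            tauto
        | zero =>
          rw [MultilinearMap.map_update_zero]
          exact W.zero_mem
        | add X Y _ _ hX hY =>
          rw [MultilinearMap.map_update_add]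
          exact W.add_mem hX hY
        | smul c X _ hX =>
          rw [MultilinearMap.map_update_smul]
          exact W.smul_mem c hX
      have h2 := h1 (M i) (by rw [hS]; trivial)
      rwa [Function.update_eq_self] at h2
  rw [eq_top_iff]
  intro A _
  rw [Matrix.matrix_eq_sum_single A]
  apply Submodule.sum_mem
  intro x _
  apply Submodule.sum_mem
  intro y _
  have h3 : Matrix.single x y (A x y) = A x y • Matrix.single x y (1 : Ω') := by
    rw [Matrix.smul_single, smul_eq_mul, mul_one]
  rw [h3, ← Pit_K_single]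
  exact W.smul_mem _ (key Finset.univ _ (fun i hi => absurd (Finset.mem_univ i) hi))

/-- the unit version -/
noncomputable def Pit_U (k : ℕ) (T : (Matrix ι ι Ω')ˣ) : (Matrix (Fin k → ι) (Fin k → ι) Ω')ˣ where
  val := Pit_K Ω' k ι (fun _ => (T : Matrix ι ι Ω'))
  inv := Pit_K Ω' k ι (fun _ => ((T⁻¹ : (Matrix ι ι Ω')ˣ) : Matrix ι ι Ω'))
  val_inv := by
    rw [← Pit_K_mul]
    simp only [Units.mul_inv]
    exact Pit_K_one
  inv_val := by
    rw [← Pit_K_mul]
    simp only [Units.inv_mul]
    exact Pit_K_one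

end Pit

/-- the multilinear map defining the representation of the tensor power -/
noncomputable def Pit_f {B : Type} [Ring B] [Algebra F B] {ι : Type} [Fintype ι] [DecidableEq ι]
    (ρ : B →ₐ[F] Matrix ι ι Ω) (k : ℕ) :
    MultilinearMap F (fun _ : Fin k => B) (Matrix (Fin k → ι) (Fin k → ι) Ω) :=
  ((Pit_K Ω k ι).restrictScalars F).compLinearMap (fun _ => ρ.toLinearMap)

/-- the representation of the tensor power -/
noncomputable def Pit_rho {B : Type} [Ring B] [Algebra F B] {ι : Type} [Fintype ι] [DecidableEq ι]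
    (ρ : B →ₐ[F] Matrix ι ι Ω) (k : ℕ) :
    PiTensorProduct F (fun _ : Fin k => B) →ₐ[F] Matrix (Fin k → ι) (Fin k → ι) Ω :=
  PiTensorProduct.liftAlgHom (Pit_f ρ k)
    (by
      show Pit_K Ω k ι (fun _ => ρ 1) = 1
      rw [map_one]
      exact Pit_K_one)
    (by
      intro x y
      show Pit_K Ω k ι (fun i => ρ (x i * y i)) = Pit_K Ω k ι (fun i => ρ (x i)) * Pit_K Ω k ι (fun i => ρ (y i))
      rw [← Pit_K_mul]
      simp only [map_mul])

theorem Pit_rho_tprod {B : Type} [Ring B] [Algebra F B] {ι : Type} [Fintype ι] [DecidableEq ι]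
    (ρ : B →ₐ[F] Matrix ι ι Ω) (k : ℕ) (b : Fin k → B) :
    Pit_rho ρ k (PiTensorProduct.tprod F b) = Pit_K Ω k ι (fun i => ρ (b i)) := by
  show PiTensorProduct.lift (Pit_f ρ k) (PiTensorProduct.tprod F b) = _
  rw [PiTensorProduct.lift.tprod]
  rfl

theorem isRep_pi {B : Type} [Ring B] [Algebra F B] {ι : Type} [Fintype ι] [DecidableEq ι]
    {c : Gal(Ω/F) → Gal(Ω/F) → Ωˣ} (h : IsRep F Ω B ι c) (k : ℕ) :
    IsRep F Ω (PiTensorProduct F (fun _ : Fin k => B)) (Fin k → ι) (c ^ k) := by
  obtain ⟨ρ, T, hspan, hfin, hdim, hLC, hT1, hT2⟩ := h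
  have bas : Module.Basis (Fin k → Fin (Module.finrank F B)) F (PiTensorProduct F (fun _ : Fin k => B)) :=
    Basis.piTensorProduct (fun _ => Module.finBasis F B)
  refine ⟨Pit_rho ρ k, fun g => Pit_U k (T g), ?_, Module.Finite.of_basis bas, ?_, hLC.comp (Pit_U k), ?_, ?_⟩
  · apply Pit_span hspan
    intro M hM
    choose b hb using hM
    apply Submodule.subset_span
    refine ⟨PiTensorProduct.tprod F b, ?_⟩
    rw [Pit_rho_tprod]
    congr 1
    ext1 i
    exact hb i
  · rw [Module.finrank_eq_card_basis bas, Fintype.card_fun, Fintype.card_fun, Fintype.card_fin, Fintype.card_fin]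
    calc Module.finrank F B ^ k ≤ (Fintype.card ι ^ 2) ^ k := Nat.pow_le_pow_left hdim k
      _ = (Fintype.card ι ^ k) ^ 2 := by rw [← pow_mul, ← pow_mul, mul_comm]
  · intro g b
    show Pit_K Ω k ι (fun _ => (T g : Matrix ι ι Ω)) * (Pit_rho ρ k b).map g
      = Pit_rho ρ k b * Pit_K Ω k ι (fun _ => (T g : Matrix ι ι Ω))
    induction b using PiTensorProduct.induction_on with
    | smul_tprod r f =>
      rw [map_smul, Pit_rho_tprod]
      have e1 : (r • Pit_K Ω k ι (fun i => ρ (f i))).map g
          = r • Pit_K Ω k ι (fun i => (ρ (f i)).map g) := by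
        ext x y
        rw [Matrix.map_apply, Matrix.smul_apply, Matrix.smul_apply, map_smul, Pit_K_apply, Pit_K_apply,
          map_prod]
        rfl
      rw [e1, Matrix.mul_smul, Matrix.smul_mul, ← Pit_K_mul, ← Pit_K_mul]
      congr 2
      ext1 i
      exact hT1 g (f i)
    | add x y hx hy =>
      rw [map_add]
      have e2 : (Pit_rho ρ k x + Pit_rho ρ k y).map g = (Pit_rho ρ k x).map g + (Pit_rho ρ k y).map g := by
        ext a b
        simp
      rw [e2, mul_add, add_mul, hx, hy]
  · intro g h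
    show Pit_K Ω k ι (fun _ => (T g : Matrix ι ι Ω)) * (Pit_K Ω k ι (fun _ => (T h : Matrix ι ι Ω))).map g
      = (((c ^ k) g h : Ωˣ) : Ω) • Pit_K Ω k ι (fun _ => (T (g * h) : Matrix ι ι Ω))
    have e3 : (Pit_K Ω k ι (fun _ => (T h : Matrix ι ι Ω))).map g
        = Pit_K Ω k ι (fun _ => (T h : Matrix ι ι Ω).map g) := Pit_K_map (g : Ω →+* Ω) _
    rw [e3, ← Pit_K_mul]
    simp only [hT2 g h]
    rw [Pit_K_smul]
    congr 1

end BrR
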