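import Pool.Agent.H48.BR.Main
import Pool.Agent.H48.BR.Cls
import Pool.Agent.H48.BR.Exi
import Pool.Agent.H48.BR.Mat
import Pool.Agent.H48.BR.Pit
import Pool.Agent.H48.BR.Dvm
import Pool.Agent.H48.BR.Dvr
import Pool.Agent.H48.BR.Dvs
import Pool.Agent.H48.BR.Dvb
import Pool.Agent.H48.BR.Idx

set_option autoImplicit false

/-! # Final assembly -/

namespace BrR

variable {F Ω : Type} [Field F] [Field Ω] [Algebra F Ω] [IsGalois F Ω] [IsSepClosed Ω]

theorem isRep_iso_split [Infinite F] {B : Type} [Ring B] [Algebra F B] {ι : Type} [Fintype ι]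
    [DecidableEq ι] {c : Gal(Ω/F) → Gal(Ω/F) → Ωˣ} (h : IsRep F Ω B ι c)
    (hc : c ∈ Cob (⊤ : Subgroup Gal(Ω/F))) :
    ∃ m : ℕ, Nonempty (B ≃ₐ[F] Matrix (Fin m) (Fin m) F) := by
  have h1 : IsRep F Ω B ι (1 : Gal(Ω/F) → Gal(Ω/F) → Ωˣ) := by
    refine h.cob ?_
    rw [one_div]
    exact inv_mem hc
  obtain ⟨e⟩ := isRep_unique (h1.reindex (Fintype.equivFin ι))
    (isRep_matrix (F := F) (Ω := Ω) (Fin (Fintype.card ι)))
  exact ⟨_, ⟨e⟩⟩

/-- a central division algebra of degree `p` has a class split by an open subgroup of index `p` -/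
theorem div_class {p : ℕ} (hp : p.Prime) (hpF : (p : F) ≠ 0) (D : Type) [DivisionRing D]
    [Algebra F D] (hcen : Algebra.IsCentral F D) (hdim : Module.finrank F D = p ^ 2) :
    ∃ c : Gal(Ω/F) → Gal(Ω/F) → Ωˣ, IsRep F Ω D (Fin p) c ∧
      ∃ H' : Subgroup Gal(Ω/F), IsOpen (H' : Set Gal(Ω/F)) ∧ H'.index = p ∧ c ∈ Cob H' := by
  haveI : Nonempty (Fin p) := ⟨⟨0, hp.pos⟩⟩
  obtain ⟨δ, hδ, hK, ⟨j⟩⟩ := dvm (Ω := Ω) hp hpF D hcen hdim
  have hfinD : Module.Finite F D := by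
    apply Module.finite_of_finrank_pos
    rw [hdim]
    exact pow_pos hp.pos 2
  obtain ⟨ρ, hρ⟩ := dvr hp (IntermediateField.adjoin F {δ}) hK D hdim j
  haveI : FiniteDimensional F (IntermediateField.adjoin F {δ}) :=
    IntermediateField.adjoin.finiteDimensional hδ
  have hopen := IntermediateField.fixingSubgroup_isOpen (IntermediateField.adjoin F {δ})
  have hcard : Module.finrank F D ≤ Fintype.card (Fin p) ^ 2 := by
    rw [hdim, Fintype.card_fin]
  have hspan : Submodule.span Ω (Set.range ρ) = ⊤ := by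
    have b := Module.finBasis F D
    have hli := dvs (Ω := Ω) D hcen ρ b b.linearIndependent
    have h1 : Submodule.span Ω (Set.range (fun i => ρ (b i))) = ⊤ := by
      apply hli.span_eq_top_of_card_eq_finrank'
      rw [Fintype.card_fin, hdim, Module.finrank_matrix, Fintype.card_fin]
      simp [pow_two]
    rw [eq_top_iff, ← h1]
    apply Submodule.span_mono
    rintro _ ⟨i, rfl⟩
    exact ⟨b i, rfl⟩
  have hfix : ∀ h ∈ (IntermediateField.adjoin F {δ}).fixingSubgroup, ∀ b : D,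
      (ρ b).map h = ρ b := by
    intro h hh b
    ext i l
    rw [Matrix.map_apply]
    exact hh ⟨_, hρ b i l⟩
  obtain ⟨c, hc, hcH⟩ := isRep_of_rho ρ hspan hfinD hcard hopen hfix
  refine ⟨c, hc, (IntermediateField.adjoin F {δ}).fixingSubgroup, hopen, ?_, hcH⟩
  rw [← IntermediateField.finrank_eq_fixingSubgroup_index, hK]

/-- from a sequence of classes to a sequence of algebras -/
theorem algebras_of_divSeq [Infinite F] {p : ℕ} (hp : p.Prime)
    {y : ℕ → Gal(Ω/F) → Gal(Ω/F) → Ωˣ} (hy : DivSeq p y) :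
    ∃ (A : ℕ → Type) (_ : ∀ n, Ring (A n)) (_ : ∀ n, Algebra F (A n)),
      (∀ n, Algebra.IsCentral F (A n) ∧ IsSimpleRing (A n) ∧ FiniteDimensional F (A n)) ∧
      (∃ k m : ℕ, Nonempty (PiTensorProduct F (fun _ : Fin (p ^ k) => A 0) ≃ₐ[F]
          Matrix (Fin m) (Fin m) F)) ∧
      (¬ ∃ m : ℕ, Nonempty (A 0 ≃ₐ[F] Matrix (Fin m) (Fin m) F)) ∧
      ∀ n : ℕ, ∃ a b : ℕ, 0 < a ∧ 0 < b ∧
        Nonempty (Matrix (Fin a) (Fin a) (PiTensorProduct F (fun _ : Fin p => A (n + 1))) ≃ₐ[F]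
          Matrix (Fin b) (Fin b) (A n)) := by
  obtain ⟨hy1, hy2, ⟨k, hy3⟩, hy4⟩ := hy
  choose ν A hR hA hν hrep using fun n => isRep_exists (hy1 n)
  have hne : ∀ n, Nonempty (Fin (ν n)) := fun n => ⟨⟨0, hν n⟩⟩
  refine ⟨A, hR, hA, fun n => ?_, ?_, ?_, fun n => ?_⟩
  · haveI := hne n
    exact isRep_csa (hrep n)
  · obtain ⟨m, hm⟩ := isRep_iso_split (isRep_pi (hrep 0) (p ^ k)) hy3
    exact ⟨k, m, hm⟩
  · rintro ⟨m, hm⟩
    haveI := hne 0
    exact hy2 (isRep_split (hrep 0) hm)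
  · have h1 : IsRep F Ω (PiTensorProduct F (fun _ : Fin p => A (n + 1))) (Fin p → Fin (ν (n + 1)))
        (y n) := (isRep_pi (hrep (n + 1)) p).cob (by
      rw [← inv_div]
      exact inv_mem (hy4 n))
    have h2 := isRep_mat h1 (ν n)
    have h3 := isRep_mat (hrep n) (ν (n + 1) ^ p)
    have e : Fin (ν n) × (Fin p → Fin (ν (n + 1))) ≃ Fin (ν (n + 1) ^ p) × Fin (ν n) := by
      apply Fintype.equivOfCardEq
      simp [mul_comm]
    obtain ⟨f⟩ := isRep_unique (h2.reindex e) h3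
    exact ⟨ν n, ν (n + 1) ^ p, hν n, pow_pos (hν (n + 1)) _, ⟨f⟩⟩

end BrR
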