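import Pool.Agent.H48.BR.Twn

set_option autoImplicit false

/-! # Row Gam: the character `w : G → (ZMod p)ˣ`, a generator (about 120 lines)

* `exists_w`: `g • ζ` is a `p`-th root of unity, `= pw p ζ (a g)`, `a g = lg p ζ (g • ζ)`. `gh • ζ = g • pw p ζ (a h) = pw p (g•ζ) (a h) =
  pw p ζ (a g * a h)` (`pw_mul`), injectivity gives `a (g h) = a g * a h`, `a 1 = 1`; so `a g` is a unit (`a g * a g⁻¹ = 1`);
  build the `MonoidHom` (`MonoidHom.toHomUnits` is convenient). (Mathlib also has `IsPrimitiveRoot.autToPow`.)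
* `w_eq_one`: `w g = 1 ↔ g ∈ Gz ζ` (`pw p ζ 1 = ζ` as `p > 1`).
* `gz_open`: `Gz ζ` is open (`smo_units`), `gz_normal`: kernel of `w`.
* `exists_gen`: `w.range` is a subgroup of the cyclic group `(ZMod p)ˣ` (instance `IsCyclic (ZMod p)ˣ` for `p` prime), so cyclic:
  `w g₀` generates it; for `g`: `w g = (w g₀)^i`, `g₀^(-i) * g ∈ ker w = Gz ζ`. `orderOf (w g₀) = Nat.card w.range = index of ker w`
  (`Subgroup.index_ker`).
* `gz_index_dvd`: `(Gz ζ).index ∣ p - 1` (`Nat.card w.range ∣ Nat.card (ZMod p)ˣ = p - 1`), so it is coprime to `p` and nonzero. -/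

namespace BrR

variable {F Ω : Type} [Field F] [Field Ω] [Algebra F Ω]

/-- the statement `T_m = 0` for the fixed field of `Gz ζ` -/
def TmP (p : ℕ) (ζ : Ωˣ) (w : Gal(Ω/F) →* (ZMod p)ˣ) : Prop :=
  ∃ (H : Subgroup Gal(Ω/F)) (_ : Fintype (Gal(Ω/F) ⧸ H)), ON H ∧ H ≤ Gz ζ ∧
    Nat.Coprime H.index p ∧ ∀ a b : Ω, a ≠ 0 → b ≠ 0 → (∀ h ∈ Gz (F := F) ζ, h • a = a) →
      (∀ h ∈ Gz (F := F) ζ, h • b = b) → BB p ζ H w a b = 0

theorem Gam_pw_one {p : ℕ} (hp : p.Prime) {ζ : Ωˣ} (hζ : IsPrimitiveRoot ζ p) :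
    pw p ζ (1 : ZMod p) = ζ := by
  have : NeZero p := ⟨hp.ne_zero⟩
  have h := pw_natCast (N := p) hζ.pow_eq_one 1
  rw [Nat.cast_one, pow_one] at h
  exact h

theorem exists_w {p : ℕ} (hp : p.Prime) {ζ : Ωˣ} (hζ : IsPrimitiveRoot ζ p) :
    ∃ w : Gal(Ω/F) →* (ZMod p)ˣ, ∀ g : Gal(Ω/F), g • ζ = pw p ζ (w g : ZMod p) := by
  have : NeZero p := ⟨hp.ne_zero⟩
  have h1 : ∀ g : Gal(Ω/F), pw p ζ (lg p ζ (g • ζ)) = g • ζ := by
    intro g
    apply pw_lg hζ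
    rw [← smul_pow', hζ.pow_eq_one, smul_one]
  have hmul : ∀ g h : Gal(Ω/F), lg p ζ ((g * h) • ζ) = lg p ζ (g • ζ) * lg p ζ (h • ζ) := by
    intro g h
    apply pw_injective hζ
    rw [h1, pw_mul hζ.pow_eq_one, h1, mul_smul]
    conv_lhs => rw [← h1 h, smul_pw]
    rfl
  have hone : lg p ζ ((1 : Gal(Ω/F)) • ζ) = 1 := by
    apply pw_injective hζ
    rw [h1, Gam_pw_one hp hζ, one_smul]
  let f : Gal(Ω/F) →* ZMod p :=
    { toFun := fun g => lg p ζ (g • ζ)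
      map_one' := hone
      map_mul' := hmul }
  refine ⟨f.toHomUnits, fun g => ?_⟩
  rw [MonoidHom.coe_toHomUnits]
  exact (h1 g).symm

section

variable {p : ℕ} (hp : p.Prime) {ζ : Ωˣ} (hζ : IsPrimitiveRoot ζ p)
  (w : Gal(Ω/F) →* (ZMod p)ˣ) (hw : ∀ g : Gal(Ω/F), g • ζ = pw p ζ (w g : ZMod p))

include hp hζ hw in
theorem w_eq_one (g : Gal(Ω/F)) : w g = 1 ↔ g ∈ Gz ζ := by
  have : NeZero p := ⟨hp.ne_zero⟩
  rw [mem_Gz, hw]
  constructor
  · intro h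
    rw [h, Units.val_one, Gam_pw_one hp hζ]
  · intro h
    apply Units.ext
    apply pw_injective hζ
    rw [h, Units.val_one, Gam_pw_one hp hζ]

include hp hζ hw in
theorem Gam_ker : w.ker = Gz ζ := by
  ext g
  rw [MonoidHom.mem_ker]
  exact w_eq_one hp hζ w hw g

include hp hζ in
theorem gz_normal : (Gz (F := F) ζ).Normal := by
  obtain ⟨w, hw⟩ := exists_w (F := F) hp hζ
  rw [← Gam_ker hp hζ w hw]
  infer_instance

include hp hζ hw in
theorem exists_gen : ∃ g₀ : Gal(Ω/F), (∀ g : Gal(Ω/F), ∃ i : ℤ, g₀ ^ i * g ∈ Gz ζ) ∧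
    orderOf (w g₀) = (Gz (F := F) ζ).index := by
  have : Fact p.Prime := ⟨hp⟩
  obtain ⟨⟨x, hx⟩, hgen⟩ := IsCyclic.exists_generator (α := w.range)
  obtain ⟨g₀, rfl⟩ := hx
  refine ⟨g₀, fun g => ?_, ?_⟩
  · obtain ⟨i, hi⟩ := hgen ⟨w g, g, rfl⟩
    have hi' : (w g₀) ^ i = w g := congrArg Subtype.val hi
    refine ⟨-i, ?_⟩
    rw [← w_eq_one hp hζ w hw, map_mul, map_zpow, ← hi', zpow_neg, inv_mul_cancel]
  · rw [← Gam_ker hp hζ w hw, Subgroup.index_ker,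
      ← orderOf_eq_card_of_forall_mem_zpowers hgen]
    exact (Subgroup.orderOf_coe (⟨w g₀, g₀, rfl⟩ : w.range)).symm ▸ rfl

include hp hζ in
theorem gz_index_dvd : (Gz (F := F) ζ).index ∣ p - 1 := by
  have : Fact p.Prime := ⟨hp⟩
  obtain ⟨w, hw⟩ := exists_w (F := F) hp hζ
  rw [← Gam_ker hp hζ w hw, Subgroup.index_ker]
  have h := Subgroup.card_subgroup_dvd_card w.range
  rwa [Nat.card_eq_fintype_card (α := (ZMod p)ˣ), ZMod.card_units] at h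

include hp hζ in
theorem gz_coprime : Nat.Coprime (Gz (F := F) ζ).index p := by
  apply Nat.Coprime.symm
  rw [Nat.Prime.coprime_iff_not_dvd hp]
  intro h
  have h1 := h.trans (gz_index_dvd (F := F) hp hζ)
  have h2 := hp.two_le
  have h3 := Nat.le_of_dvd (by omega) h1
  omega

theorem gz_open [IsGalois F Ω] (ζ : Ωˣ) : IsOpen ((Gz (F := F) ζ : Subgroup _) : Set Gal(Ω/F)) := by
  obtain ⟨U, hU, h⟩ := smo_units (F := F) ζ
  exact Subgroup.isOpen_mono (H₁ := U) (fun u hu => h u hu) hU.2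

end

end BrR
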