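import Pool.Agent.H48.BR.Smo

set_option autoImplicit false

namespace BrR

variable {F Ω : Type} [Field F] [Field Ω] [Algebra F Ω] [IsGalois F Ω]

theorem dedekind {U : Subgroup Gal(Ω/F)} (hU : ON U) [Fintype (Gal(Ω/F) ⧸ U)]
    (a : Gal(Ω/F) ⧸ U → Ω)
    (h : ∀ e : Ω, (∀ u ∈ U, u • e = e) → ∑ t, a t * (t.out • e) = 0) : a = 0 := by
  classical
  let K : IntermediateField F Ω := IntermediateField.fixedField U
  have hfix : K.fixingSubgroup = U :=
    InfiniteGalois.fixingSubgroup_fixedField ⟨U, U.isClosed_of_isOpen hU.2⟩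
  let φ : Gal(Ω/F) ⧸ U → (K →* Ω) := fun t =>
    { toFun := fun e => t.out • (e : Ω)
      map_one' := by simp
      map_mul' := by intro x y; simp }
  have hinj : Function.Injective φ := by
    intro t t' htt
    have h1 : t'.out⁻¹ * t.out ∈ K.fixingSubgroup := by
      rw [IntermediateField.mem_fixingSubgroup_iff]
      intro x hx
      have h2 : t.out • x = t'.out • x := DFunLike.congr_fun htt ⟨x, hx⟩
      change (t'.out⁻¹ * t.out) • x = x
      rw [mul_smul, h2, inv_smul_smul]
    rw [hfix] at h1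
    have h3 : (QuotientGroup.mk t'.out : Gal(Ω/F) ⧸ U) = QuotientGroup.mk t.out :=
      QuotientGroup.eq.mpr h1
    rw [QuotientGroup.out_eq', QuotientGroup.out_eq'] at h3
    exact h3.symm
  have hli := (linearIndependent_monoidHom K Ω).comp φ hinj
  rw [Fintype.linearIndependent_iff] at hli
  funext t
  refine hli a ?_ t
  funext e
  have h4 := h (e : Ω) (fun u hu => e.2 ⟨u, hu⟩)
  simp only [Finset.sum_apply, Pi.smul_apply, Function.comp_apply, smul_eq_mul, Pi.zero_apply]
  exact h4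

theorem hilbert90 {H : Subgroup Gal(Ω/F)} (hH : IsOpen (H : Set Gal(Ω/F))) (f : Gal(Ω/F) → Ωˣ)
    (hf : LC1 f) (hc : ∀ g ∈ H, ∀ h ∈ H, f (g * h) = f g * g • f h) :
    ∃ x : Ωˣ, ∀ g ∈ H, f g = g • x / x := by
  classical
  obtain ⟨U1, hU1, hf1⟩ := hf
  obtain ⟨U2, hU2, hle2⟩ := exists_ON_le hH
  let U : Subgroup Gal(Ω/F) := U1 ⊓ U2
  have hU : ON U := hU1.inf hU2
  have hUH : U ≤ H := fun u hu => hle2 hu.2
  have hfU : ∀ g, ∀ u ∈ U, f (g * u) = f g := fun g u hu => hf1 g u hu.1
  have : Finite (Gal(Ω/F) ⧸ U) := finite_quot hU.2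
  let _ : Fintype (Gal(Ω/F) ⧸ U) := Fintype.ofFinite _
  have hN : U.Normal := hU.1
  have f1 : f 1 = 1 := by
    have := hc 1 H.one_mem 1 H.one_mem
    rw [mul_one, one_smul] at this
    exact (mul_eq_left.mp this.symm)
  have fu : ∀ u ∈ U, f u = 1 := fun u hu => by
    have := hfU 1 u hu
    rw [one_mul, f1] at this
    exact this
  have hfix : ∀ g ∈ H, ∀ u ∈ U, u • f g = f g := by
    intro g hg u hu
    have h1 : u * g = g * (g⁻¹ * u * g) := by group
    have h2 : g⁻¹ * u * g ∈ U := by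
      have := hN.conj_mem u hu g⁻¹
      rwa [inv_inv] at this
    have h3 : f (u * g) = f g := by rw [h1]; exact hfU g _ h2
    rw [hc u (hUH hu) g hg, fu u hu, one_mul] at h3
    exact h3
  let a : Gal(Ω/F) ⧸ U → Ω := fun t => if t.out ∈ H then ((f t.out : Ωˣ) : Ω) else 0
  have ha : a ≠ 0 := by
    intro h0
    have h1 : a (QuotientGroup.mk 1) = 0 := by rw [h0]; rfl
    have h2 : (QuotientGroup.mk 1 : Gal(Ω/F) ⧸ U).out ∈ H := by
      have h3 : (QuotientGroup.mk (1 : Gal(Ω/F)) : Gal(Ω/F) ⧸ U) =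
          QuotientGroup.mk (QuotientGroup.mk 1 : Gal(Ω/F) ⧸ U).out :=
        (QuotientGroup.out_eq' _).symm
      have h4 := QuotientGroup.eq.mp h3
      rw [inv_one, one_mul] at h4
      exact hUH h4
    simp only [a, if_pos h2] at h1
    exact Units.ne_zero _ h1
  have hex : ∃ e : Ω, (∀ u ∈ U, u • e = e) ∧ ∑ t, a t * (t.out • e) ≠ 0 := by
    by_contra hcon
    push Not at hcon
    exact ha (dedekind hU a hcon)
  obtain ⟨e, he, hy⟩ := hex
  set y : Ω := ∑ t, a t * (t.out • e) with hydef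
  have key : ∀ g ∈ H, ((f g : Ωˣ) : Ω) * (g • y) = y := by
    intro g hg
    rw [hydef, Finset.smul_sum, Finset.mul_sum]
    refine Fintype.sum_bijective (fun t : Gal(Ω/F) ⧸ U => g • t) (MulAction.bijective g) _ _ ?_
    intro t
    -- t' = g • t
    have h1 : (QuotientGroup.mk (g * t.out) : Gal(Ω/F) ⧸ U) = g • t := by
      conv_rhs => rw [← QuotientGroup.out_eq' t]
      rfl
    have h2 : (g • t).out⁻¹ * (g * t.out) ∈ U := by
      apply QuotientGroup.eq.mp
      rw [QuotientGroup.out_eq', h1]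
    set u : Gal(Ω/F) := (g • t).out⁻¹ * (g * t.out) with hudef
    have h3 : g * t.out = (g • t).out * u := by rw [hudef]; group
    have h4 : (g * t.out) • e = (g • t).out • e := by
      rw [h3, mul_smul, he u h2]
    have h5 : t.out ∈ H ↔ (g • t).out ∈ H := by
      constructor
      · intro h
        have h6 : (g • t).out = (g * t.out) * u⁻¹ := by rw [h3]; group
        rw [h6]
        exact H.mul_mem (H.mul_mem hg h) (H.inv_mem (hUH h2))
      · intro h
        have h6 : t.out = g⁻¹ * ((g • t).out * u) := by rw [← h3]; group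
        rw [h6]
        exact H.mul_mem (H.inv_mem hg) (H.mul_mem h (hUH h2))
    rw [smul_mul', smul_smul, h4, ← mul_assoc]
    congr 1
    by_cases h : t.out ∈ H
    · have h' := h5.mp h
      simp only [a, if_pos h, if_pos h']
      have h7 : f (g * t.out) = f (g • t).out := by rw [h3]; exact hfU _ u h2
      rw [← h7, hc g hg _ h]
      rw [Units.val_mul]
      rfl
    · have h' : ¬ (g • t).out ∈ H := fun hh => h (h5.mpr hh)
      simp only [a, if_neg h, if_neg h', smul_zero, mul_zero]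
  refine ⟨(Units.mk0 y hy)⁻¹, fun g hg => ?_⟩
  have h1 := key g hg
  have h2 : f g * g • (Units.mk0 y hy) = Units.mk0 y hy := by
    apply Units.ext
    rw [Units.val_mul]
    exact h1
  rw [smul_inv', div_inv_eq_mul, eq_comm, inv_mul_eq_iff_eq_mul, mul_comm]
  exact h2.symm

end BrR
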