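import Pool.Agent.H48.BR.Cyt

set_option autoImplicit false

/-! # Row Kap: the characters of the cyclotomic `Z_p`-extension (about 220 lines)

THEOREM `kap_dich`. Either all `kap n` are trivial, or there are `s` and characters `θ j : G → ZMod (p^j)` with: `kap s` trivial, `θ j` LC1
and additive, compatible, `θ j σ = 1` for a fixed `σ`, and `θ j g = 0 ↔ kap (s+j) g = 1`.

PROOF. `kap 0` is trivial (`kap_zero`). If not all are trivial let `s+1` be the least level with `kap (s+1)` nontrivial, `σ` with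
`kap (s+1) σ ≠ 1`, `kap s` trivial. Let `M = p^(s+j+1)`, the modulus of `kap (s+j)`. By compatibility (`kap_cast` iterated)
`kap (s+j) g` reduces to `kap s g = 1` mod `p^(s+1)`: it lies in the group `A_j = {x ∈ ZMod M unit, x ≡ 1 mod p^(s+1)}` of order `p^j`. For
`j ≥ 1` `u_j = kap (s+j) σ ≢ 1 mod p^(s+2)`.
CLAIM: `u_j` has order exactly `p^j`. (Elementary: if `a ≡ 1 mod p^k`, `a ≢ 1 mod p^(k+1)`, `k ≥ 1`, `p` odd, then `a^p ≡ 1 mod p^(k+1)`,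
`a^p ≢ 1 mod p^(k+2)`: write `a = 1 + p^k t`, `a^p = 1 + p^(k+1) t + binom(p,2) p^(2k) t^2 + ...`; or use the LTE lemma
`Int.emultiplicity_pow_sub_pow`/`Nat.emultiplicity_pow_sub_pow`/`padicValNat.pow_sub_pow` : `v_p(a^n - 1) = v_p(a - 1) + v_p(n)`,
so `a^n ≡ 1 mod p^(s+j+1)` iff `p^j ∣ n`, where `v_p (a-1) = s+1`.) Since `A_j` has `p^j` elements (`x = 1 + p^(s+1) y`, `0 ≤ y < p^j`), `A_j` is the
cyclic group generated by `u_j`: for every `g` there is a unique `θ j g ∈ ZMod (p^j)` with `kap (s+j) g = u_j ^ (θ j g).val`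
(define it with `pw (p^j) u_j` and choice; for uniqueness the order). Additive: `u^(a.val) * u^(b.val) = u^((a+b).val)` (`pw_add` in the monoid
`ZMod M`, `u^(p^j) = 1`). `θ j σ = 1`. `θ j g = 0 ↔ kap = 1`. Compatible: reduce `kap (s+j+1) g = u_{j+1}^(θ (j+1) g).val` mod `p^(s+j+1)`:
`kap (s+j) g = u_j^((θ (j+1) g).val)`, so `θ j g = ((θ (j+1) g).val : ZMod (p^j))`. LC1: `θ j` is a function of `kap (s+j)`. `j = 0`: `ZMod 1`
trivial. -/

namespace BrR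

variable {F Ω : Type} [Field F] [Field Ω] [Algebra F Ω]

/-- the characters of the cyclotomic `Z_p`-extension -/
structure CSys (p : ℕ) (z : ℕ → Ωˣ) (s : ℕ) (θ : ∀ j : ℕ, Gal(Ω/F) → ZMod (p ^ j)) : Prop where
  lc : ∀ j, LC1 (θ j)
  hm : ∀ j, Hm ⊤ (θ j)
  gen : ∃ σ, ∀ j, θ j σ = 1
  cast : ∀ j g, θ j g = ((θ (j + 1) g).cast : ZMod (p ^ j))
  ker : ∀ j g, θ j g = 0 ↔ kap p z (s + j) g = 1
  base : ∀ g : Gal(Ω/F), kap p z s g = 1

theorem Kap_lte {p : ℕ} (hp : p.Prime) (hodd : Odd p) {a : ℤ} {s : ℕ}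
    (h1 : (p : ℤ) ^ (s + 1) ∣ a - 1) (h2 : ¬ (p : ℤ) ^ (s + 2) ∣ a - 1) (n j : ℕ) :
    (p : ℤ) ^ (s + 1 + j) ∣ a ^ n - 1 ↔ p ^ j ∣ n := by
  have hpa : (p : ℤ) ∣ a - 1 := (dvd_pow_self (p : ℤ) (Nat.succ_ne_zero s)).trans h1
  have hna : ¬ (p : ℤ) ∣ a := by
    intro h
    have h3 : (p : ℤ) ∣ 1 := by
      have := dvd_sub h hpa
      rwa [sub_sub_cancel] at this
    have h4 : p ∣ 1 := by exact_mod_cast h3
    exact hp.one_lt.ne' (Nat.dvd_one.1 h4)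
  have h3 := Int.emultiplicity_pow_sub_pow hp hodd hpa hna n
  rw [one_pow] at h3
  have h4 : emultiplicity (p : ℤ) (a - 1) = ((s + 1 : ℕ) : ℕ∞) := emultiplicity_eq_coe.2 ⟨h1, h2⟩
  rw [pow_dvd_iff_le_emultiplicity, h3, h4, pow_dvd_iff_le_emultiplicity, Nat.cast_add (s + 1) j]
  exact ENat.add_le_add_iff_left (ENat.natCast_ne_top _)

theorem Kap_lte' {p : ℕ} (hp : p.Prime) (hodd : Odd p) {a : ℤ} {s : ℕ}
    (h1 : (p : ℤ) ^ (s + 1) ∣ a - 1) (h2 : ¬ (p : ℤ) ^ (s + 2) ∣ a - 1) (n m j : ℕ) :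
    (p : ℤ) ^ (s + 1 + j) ∣ a ^ n - a ^ m ↔ ((n : ZMod (p ^ j)) = (m : ZMod (p ^ j))) := by
  wlog hnm : m ≤ n with H
  · have h3 := H hp hodd h1 h2 m n j (le_of_not_ge hnm)
    rw [← dvd_neg, neg_sub, h3]
    exact eq_comm
  obtain ⟨k, rfl⟩ := Nat.exists_eq_add_of_le hnm
  have hcop : IsCoprime ((p : ℤ) ^ (s + 1 + j)) (a ^ m) := by
    apply IsCoprime.pow
    obtain ⟨c, hc⟩ := (dvd_pow_self (p : ℤ) (Nat.succ_ne_zero s)).trans h1
    refine ⟨-c, 1, ?_⟩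
    linear_combination hc
  have h3 : a ^ (m + k) - a ^ m = a ^ m * (a ^ k - 1) := by ring
  have h4 : (p : ℤ) ^ (s + 1 + j) ∣ a ^ m * (a ^ k - 1) ↔ (p : ℤ) ^ (s + 1 + j) ∣ a ^ k - 1 :=
    ⟨fun h => hcop.dvd_of_dvd_mul_left h, fun h => h.mul_left _⟩
  rw [h3, h4, Kap_lte hp hodd h1 h2, Nat.cast_add, add_eq_left, ZMod.natCast_eq_zero_iff]

theorem Kap_surj {p : ℕ} (hp : p.Prime) (hodd : Odd p) {a : ℤ} {s : ℕ}
    (h1 : (p : ℤ) ^ (s + 1) ∣ a - 1) (h2 : ¬ (p : ℤ) ^ (s + 2) ∣ a - 1) (j : ℕ) {b : ℤ}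
    (hb : (p : ℤ) ^ (s + 1) ∣ b - 1) :
    ∃ x : ZMod (p ^ j), (p : ℤ) ^ (s + 1 + j) ∣ a ^ x.val - b := by
  have : NeZero (p ^ j) := ⟨pow_ne_zero _ hp.ne_zero⟩
  have hp0 : (p : ℤ) ^ (s + 1) ≠ 0 := pow_ne_zero _ (by exact_mod_cast hp.ne_zero)
  have hd : ∀ n : ℕ, ∃ c : ℤ, a ^ n - 1 = (p : ℤ) ^ (s + 1) * c := fun n =>
    h1.trans (by simpa using sub_dvd_pow_sub_pow a 1 n)
  choose c hc using hd
  let f : ZMod (p ^ j) → ZMod (p ^ j) := fun x => ((c x.val : ℤ) : ZMod (p ^ j))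
  have hf : Function.Injective f := by
    intro x y hxy
    have h3 : ((p ^ j : ℕ) : ℤ) ∣ c x.val - c y.val :=
      (ZMod.intCast_eq_intCast_iff_dvd_sub _ _ _).1 (Eq.symm hxy)
    have h4 : (p : ℤ) ^ (s + 1 + j) ∣ a ^ x.val - a ^ y.val := by
      have h5 : a ^ x.val - a ^ y.val = (p : ℤ) ^ (s + 1) * (c x.val - c y.val) := by
        rw [mul_sub, ← hc, ← hc]
        ring
      rw [h5, pow_add]
      exact mul_dvd_mul_left _ (by exact_mod_cast h3)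
    rw [Kap_lte' hp hodd h1 h2, ZMod.natCast_zmod_val, ZMod.natCast_zmod_val] at h4
    exact h4
  obtain ⟨d, hd⟩ := hb
  obtain ⟨x, hx⟩ := Finite.surjective_of_injective hf ((d : ℤ) : ZMod (p ^ j))
  refine ⟨x, ?_⟩
  have h3 : ((p ^ j : ℕ) : ℤ) ∣ c x.val - d :=
    (ZMod.intCast_eq_intCast_iff_dvd_sub _ _ _).1 (Eq.symm hx)
  have h5 : a ^ x.val - b = (p : ℤ) ^ (s + 1) * (c x.val - d) := by
    rw [mul_sub, ← hc, ← hd]
    ring
  rw [h5, pow_add]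
  exact mul_dvd_mul_left _ (by exact_mod_cast h3)

theorem Kap_lift {p : ℕ} [Fact p.Prime] {ζ : Ωˣ} {z : ℕ → Ωˣ} (hz : ZSys p ζ z) (n k : ℕ)
    (g : Gal(Ω/F)) :
    (p : ℤ) ^ (n + 1) ∣ ((kap p z (n + k) g).val : ℤ) - ((kap p z n g).val : ℤ) := by
  have hp : p.Prime := Fact.out
  induction k with
  | zero => simp
  | succ k ih =>
    have : NeZero (p ^ (n + k + 1)) := ⟨pow_ne_zero _ hp.ne_zero⟩
    have h1 := kap_cast hz (n + k) g
    have : NeZero (p ^ (n + k + 1 + 1)) := ⟨pow_ne_zero _ hp.ne_zero⟩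
    rw [ZMod.cast_eq_val, ← ZMod.natCast_zmod_val (kap p z (n + k) g)] at h1
    have h2 : ((p ^ (n + k + 1) : ℕ) : ℤ) ∣
        ((kap p z (n + k + 1) g).val : ℤ) - ((kap p z (n + k) g).val : ℤ) := by
      rw [← ZMod.intCast_eq_intCast_iff_dvd_sub]
      rw [Int.cast_natCast, Int.cast_natCast, h1]
    have h3 : (p : ℤ) ^ (n + 1) ∣
        ((kap p z (n + k + 1) g).val : ℤ) - ((kap p z (n + k) g).val : ℤ) := by
      refine Dvd.dvd.trans ?_ h2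
      rw [Nat.cast_pow]
      exact pow_dvd_pow _ (by omega)
    have h4 := dvd_add h3 ih
    rw [sub_add_sub_cancel] at h4
    exact h4

open Classical in
/-- discrete logarithm in `ZMod M` -/
noncomputable def KapLog {M : ℕ} (N : ℕ) (u w : ZMod M) : ZMod N :=
  if h : ∃ x : ZMod N, u ^ x.val = w then h.choose else 0

theorem KapLog_spec {M : ℕ} {N : ℕ} {u w : ZMod M} (h : ∃ x : ZMod N, u ^ x.val = w) :
    u ^ (KapLog N u w).val = w := by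
  rw [KapLog, dif_pos h]
  exact h.choose_spec

theorem kap_dich [IsGalois F Ω] {p : ℕ} [Fact p.Prime] (hodd : Odd p) {ζ : Ωˣ} {z : ℕ → Ωˣ}
    (hz : ZSys p ζ z) : (∀ n, ∀ g : Gal(Ω/F), kap p z n g = 1) ∨
      ∃ (s : ℕ) (θ : ∀ j : ℕ, Gal(Ω/F) → ZMod (p ^ j)), CSys p z s θ := by
  have hp : p.Prime := Fact.out
  by_cases hall : ∀ n, ∀ g : Gal(Ω/F), kap p z n g = 1
  · exact Or.inl hall
  right
  have hex : ∃ n, ¬ ∀ g : Gal(Ω/F), kap p z n g = 1 := not_forall.1 hall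
  classical
  obtain ⟨s, hs, σ, hσ⟩ : ∃ s, (∀ g : Gal(Ω/F), kap p z s g = 1) ∧
      ∃ σ : Gal(Ω/F), kap p z (s + 1) σ ≠ 1 := by
    have h1 := Nat.find_spec hex
    have h2 : ∀ m, m < Nat.find hex → ∀ g : Gal(Ω/F), kap p z m g = 1 := fun m hm =>
      not_not.1 (Nat.find_min hex hm)
    rcases Nat.eq_zero_or_pos (Nat.find hex) with h0 | h0
    · rw [h0] at h1
      exact absurd (fun g => kap_zero hodd hz g) h1
    · refine ⟨Nat.find hex - 1, h2 _ (by omega), ?_⟩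
      rw [Nat.sub_add_cancel h0]
      exact not_forall.1 h1
  have hN : ∀ m, NeZero (p ^ m) := fun m => ⟨pow_ne_zero _ hp.ne_zero⟩
  have hM1 : ∀ n : ℕ, ((1 : ZMod (p ^ (n + 1))).val) = 1 := fun n => by
    have : Fact (1 < p ^ (n + 1)) := ⟨Nat.one_lt_pow (Nat.succ_ne_zero n) hp.one_lt⟩
    exact ZMod.val_one _
  -- reduction modulo `p ^ (s + 1)`
  have hred : ∀ j : ℕ, ∀ g : Gal(Ω/F), (p : ℤ) ^ (s + 1) ∣ ((kap p z (s + j) g).val : ℤ) - 1 := by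
    intro j g
    have h1 := Kap_lift hz s j g
    rw [hs g, hM1] at h1
    exact_mod_cast h1
  have hnot : ∀ j : ℕ, ¬ (p : ℤ) ^ (s + 2) ∣ ((kap p z (s + 1 + j) σ).val : ℤ) - 1 := by
    intro j h
    apply hσ
    have h1 := Kap_lift hz (s + 1) j σ
    have h2 : (p : ℤ) ^ (s + 1 + 1) ∣ ((kap p z (s + 1) σ).val : ℤ) - 1 := by
      have := dvd_sub h h1
      rwa [sub_sub_sub_cancel_left] at this
    have h3 : ((p ^ (s + 1 + 1) : ℕ) : ℤ) ∣ ((kap p z (s + 1) σ).val : ℤ) - 1 := by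
      exact_mod_cast h2
    have h4 := ((ZMod.intCast_eq_intCast_iff_dvd_sub 1 _ _).2 h3).symm
    have := hN (s + 1 + 1)
    rw [Int.cast_natCast, ZMod.natCast_zmod_val, Int.cast_one] at h4
    exact h4
  obtain ⟨A, hAdef⟩ : ∃ A : ℕ → ℤ, ∀ j, A j = ((kap p z (s + j + 1) σ).val : ℤ) :=
    ⟨_, fun j => rfl⟩
  have hA1 : ∀ j, (p : ℤ) ^ (s + 1) ∣ A j - 1 := fun j => by
    rw [hAdef]
    exact hred (j + 1) σ
  have hA2 : ∀ j, ¬ (p : ℤ) ^ (s + 2) ∣ A j - 1 := fun j => by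
    rw [hAdef, ← Nat.add_right_comm s 1 j]
    exact hnot j
  have hA3 : ∀ j, ((A j : ℤ) : ZMod (p ^ (s + j + 1))) = kap p z (s + j) σ := fun j => by
    have := hN (s + j + 1 + 1)
    rw [hAdef, Int.cast_natCast, ← ZMod.cast_eq_val]
    exact kap_cast hz (s + j) σ
  have hmod : ∀ j, ((p ^ (s + j + 1) : ℕ) : ℤ) = (p : ℤ) ^ (s + 1 + j) := fun j => by
    rw [Nat.cast_pow, Nat.add_right_comm s 1 j]
  have U1 : ∀ j n m : ℕ, (kap p z (s + j) σ) ^ n = (kap p z (s + j) σ) ^ m ↔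
      ((n : ZMod (p ^ j)) = (m : ZMod (p ^ j))) := by
    intro j n m
    rw [← hA3 j, ← Int.cast_pow, ← Int.cast_pow, eq_comm,
      ZMod.intCast_eq_intCast_iff_dvd_sub, hmod, Kap_lte' hp hodd (hA1 j) (hA2 j)]
  have U2 : ∀ j : ℕ, ∀ g : Gal(Ω/F), ∃ x : ZMod (p ^ j),
      (kap p z (s + j) σ) ^ x.val = kap p z (s + j) g := by
    intro j g
    obtain ⟨x, hx⟩ := Kap_surj hp hodd (hA1 j) (hA2 j) j (hred j g)
    refine ⟨x, ?_⟩
    have := hN (s + j + 1)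
    rw [← hmod, ← ZMod.intCast_eq_intCast_iff_dvd_sub] at hx
    rw [Int.cast_natCast, ZMod.natCast_zmod_val, Int.cast_pow, hA3] at hx
    exact hx.symm
  obtain ⟨θ, hθdef⟩ : ∃ θ : ∀ j : ℕ, Gal(Ω/F) → ZMod (p ^ j), ∀ j,
      θ j = fun g => KapLog (p ^ j) (kap p z (s + j) σ) (kap p z (s + j) g) := ⟨_, fun j => rfl⟩
  have hθ : ∀ j g, (kap p z (s + j) σ) ^ (θ j g).val = kap p z (s + j) g := by
    intro j g
    rw [hθdef]
    exact KapLog_spec (U2 j g)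
  refine ⟨s, θ, ?_, ?_, ⟨σ, fun j => ?_⟩, fun j g => ?_, fun j g => ?_, hs⟩
  · intro j
    rw [hθdef]
    exact (kap_lc p z (s + j)).comp _
  · intro j g _ h _
    have := hN j
    have h1 := hθ j (g * h)
    rw [kap_mul hz, ← hθ j g, ← hθ j h, ← pow_add, U1, Nat.cast_add, ZMod.natCast_zmod_val,
      ZMod.natCast_zmod_val, ZMod.natCast_zmod_val] at h1
    exact h1
  · have := hN j
    have h1 := hθ j σ
    rw [← pow_one (kap p z (s + j) σ), ← pow_mul, one_mul, U1, ZMod.natCast_zmod_val,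
      Nat.cast_one] at h1
    exact h1
  · have := hN j
    have := hN (j + 1)
    have := hN (s + j + 1 + 1)
    have h1 := hθ (j + 1) g
    have h2 := congrArg (ZMod.castHom (pow_dvd_pow p (Nat.le_succ (s + j + 1)))
      (ZMod (p ^ (s + j + 1)))) h1
    have h3 := kap_cast hz (s + j) g
    have h4 := kap_cast hz (s + j) σ
    rw [map_pow, ZMod.castHom_apply, ZMod.castHom_apply] at h2
    erw [h3, h4] at h2
    rw [← hθ j g, U1, ZMod.natCast_zmod_val] at h2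
    rw [ZMod.cast_eq_val]
    exact h2.symm
  · have := hN j
    rw [← hθ j g]
    have h1 := U1 j (θ j g).val 0
    rw [pow_zero, ZMod.natCast_zmod_val, Nat.cast_zero] at h1
    exact h1.symm

/-- all cyclotomic cyclic classes over `F` vanish -/
def HypI (F : Type) {Ω : Type} [Field F] [Field Ω] [Algebra F Ω] (p : ℕ) (z : ℕ → Ωˣ) : Prop :=
  ∀ (s : ℕ) (θ : ∀ j : ℕ, Gal(Ω/F) → ZMod (p ^ j)), CSys p z s θ → ∀ (j : ℕ) (a : Ωˣ),
    (∀ g : Gal(Ω/F), g • a = a) → car (p ^ j) a (θ j) ∈ Cob (⊤ : Subgroup Gal(Ω/F))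

end BrR
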