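import Pool.Agent.H48.BR.H90

set_option autoImplicit false

/-! # Row Kum: roots, Kummer theory, cochains of roots of unity (about 200 lines)

* `exists_root`: `IsSepClosed.exists_pow_nat_eq` for `(a : Ω)` (needs `NeZero (n : Ω)`), the root is nonzero.
* `exists_zsys`: choose successively `p`-th roots (recursion on `n` in the subtype of primitive
  `p^(n+1)`-th roots): a `p`-th root `w` of a primitive `p^(n+1)`-th root `z`, `n ≥ 0`, is a primitive
  `p^(n+2)`-th root: `w ^ (p^(n+2)) = 1` and `w ^ (p^(n+1)) = z ^ (p^n) ≠ 1`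
  (`orderOf_eq_prime_pow` or `IsPrimitiveRoot.iff_orderOf`).
* `kummer`: `g • z = pw N z (ε g)` on `H` and `X (g h) = X g + ε g X h`: then `f g := pw N z (X g)` satisfies
  `f (g h) = pw z (X g) * pw z (ε g * X h)` and `g • f h = pw N (g • z) (X h) = pw N (pw N z (ε g)) (X h)
  = pw N z (ε g * X h)` (`pw_mul`, `smul_pw`, note `pw N (pw N z a) b = (pw N z a) ^ b.val`). Apply
  `hilbert90`: `f g = g • x / x`, so `α = x` works.
* `kummer_conv`: conversely if `β ^ N` is fixed by `H` and `g • z = pw N z (ε g)` on `H` then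
  `X g := lg N z (g • β / β)` satisfies `pw N z (X g) = g • β / β` and `X (g h) = X g + ε g * X h` on `H`, and
  is locally constant. (`(g • β / β) ^ N = 1`; `gh β / β = (g β / β) * g • (h β / β)`.)
* `mup`: `d` a 2-cochain with exponents, `pw p ζ d = dd b` on `H`. `b ^ p` is a cocycle on `H`
  (`dd (b^p) = (dd b)^p = 1` on `H`), LC; by `hilbert90` `(b g)^p = g • x / x` on `H`; choose `y ^ p = x`
  (`exists_root`). `b' g := b g * (y / g • y)`; `(b' g)^p = 1` on `H`; `dd b' = dd b` on `H`.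
  `e g := if g ∈ H then lg p ζ (b' g) else 0` (locally constant: `LC1.ite`, `LC1.comp`, `LC1.smul_elt`
  with `smo_units`). `pw p ζ (e g + ω g * e k - e (g k)) = b' g * g • b' k / b' (g k)` and `pw_injective`. -/

namespace BrR

variable {F Ω : Type} [Field F] [Field Ω] [Algebra F Ω] [IsGalois F Ω]

theorem exists_root [IsSepClosed Ω] (n : ℕ) (hn : (n : Ω) ≠ 0) (a : Ωˣ) : ∃ b : Ωˣ, b ^ n = a := by
  have : NeZero (n : Ω) := ⟨hn⟩
  obtain ⟨z, hz⟩ := IsSepClosed.exists_pow_nat_eq (a : Ω) n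
  have hn0 : n ≠ 0 := by
    rintro rfl
    simp at hn
  have hz0 : z ≠ 0 := by
    rintro rfl
    rw [zero_pow hn0] at hz
    exact a.ne_zero hz.symm
  refine ⟨Units.mk0 z hz0, Units.ext ?_⟩
  rw [Units.val_pow_eq_pow_val, Units.val_mk0, hz]

private theorem mul_div_mul_right_eq_div {M : Type*} [CommGroup M] (a b c : M) :
    a * c / (b * c) = a / b := by
  rw [mul_div_mul_comm, div_self', mul_one]

private theorem div_mul_div_cancel {M : Type*} [CommGroup M] (a b c : M) :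
    a / b * (b / c) = a / c := by
  rw [div_mul_div_comm, mul_comm b c, mul_div_mul_right_eq_div]

private theorem Kum_next {p : ℕ} (hp : p.Prime) {n : ℕ} {z w : Ωˣ}
    (hz : IsPrimitiveRoot z (p ^ (n + 1))) (hw : w ^ p = z) :
    IsPrimitiveRoot w (p ^ (n + 1 + 1)) := by
  have : Fact p.Prime := ⟨hp⟩
  have h1 : ¬ w ^ p ^ (n + 1) = 1 := by
    rw [pow_succ', pow_mul, hw]
    intro h
    have h2 := hz.dvd_of_pow_eq_one _ h
    have h3 := (Nat.pow_dvd_pow_iff_le_right hp.one_lt).1 h2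
    omega
  have h2 : w ^ p ^ (n + 1 + 1) = 1 := by
    rw [pow_succ' p (n + 1), pow_mul, hw]
    exact hz.pow_eq_one
  have h3 := orderOf_eq_prime_pow h1 h2
  rw [← h3]
  exact IsPrimitiveRoot.orderOf w

theorem exists_zsys [IsSepClosed Ω] (p : ℕ) (hp : p.Prime) (hpΩ : (p : Ω) ≠ 0) (ζ : Ωˣ)
    (hζ : IsPrimitiveRoot ζ p) : ∃ z : ℕ → Ωˣ, z 0 = ζ ∧
      (∀ n, IsPrimitiveRoot (z n) (p ^ (n + 1))) ∧ ∀ n, (z (n + 1)) ^ p = z n := by
  have hnext : ∀ (n : ℕ) (z : {z : Ωˣ // IsPrimitiveRoot z (p ^ (n + 1))}),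
      ∃ w : {w : Ωˣ // IsPrimitiveRoot w (p ^ (n + 1 + 1))}, w.1 ^ p = z.1 := by
    rintro n ⟨z, hz⟩
    obtain ⟨w, hw⟩ := exists_root p hpΩ z
    exact ⟨⟨w, Kum_next hp hz hw⟩, hw⟩
  choose nx hnx using hnext
  let Z : (n : ℕ) → {z : Ωˣ // IsPrimitiveRoot z (p ^ (n + 1))} := fun n =>
    Nat.rec (motive := fun n => {z : Ωˣ // IsPrimitiveRoot z (p ^ (n + 1))})
      ⟨ζ, by simpa using hζ⟩ (fun n z => nx n z) n
  exact ⟨fun n => (Z n).1, rfl, fun n => (Z n).2, fun n => hnx n (Z n)⟩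

theorem kummer {H : Subgroup Gal(Ω/F)} (hH : IsOpen (H : Set Gal(Ω/F))) {N : ℕ} [NeZero N] {z : Ωˣ}
    (hz : IsPrimitiveRoot z N) (ε : Gal(Ω/F) → ZMod N) (hε : ∀ g ∈ H, g • z = pw N z (ε g))
    (X : Gal(Ω/F) → ZMod N) (hX : LC1 X) (hX2 : Cr ε H X) :
    ∃ α : Ωˣ, ∀ h ∈ H, h • α = pw N z (X h) * α := by
  obtain ⟨x, hx⟩ := hilbert90 hH (fun g => pw N z (X g)) (hX.comp (pw N z)) (by
    intro g hg h hh
    rw [hX2 g hg h hh, pw_add hz.pow_eq_one, pw_mul hz.pow_eq_one, smul_pw, hε g hg]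
    rfl)
  refine ⟨x, fun h hh => ?_⟩
  have := hx h hh
  rw [this, div_mul_cancel]

theorem kummer_conv {H : Subgroup Gal(Ω/F)} {N : ℕ} [NeZero N] {z : Ωˣ}
    (hz : IsPrimitiveRoot z N) (ε : Gal(Ω/F) → ZMod N) (hε : ∀ g ∈ H, g • z = pw N z (ε g))
    (β : Ωˣ) (hβ : ∀ h ∈ H, h • (β ^ N) = β ^ N) :
    LC1 (fun g : Gal(Ω/F) => lg N z (g • β / β)) ∧
    (∀ g ∈ H, pw N z (lg N z (g • β / β)) = g • β / β) ∧
    Cr ε H (fun g => lg N z (g • β / β)) := by
  have h1 : ∀ g ∈ H, (g • β / β) ^ N = 1 := by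
    intro g hg
    rw [div_pow, ← smul_pow', hβ g hg, div_self']
  have h2 : ∀ g ∈ H, pw N z (lg N z (g • β / β)) = g • β / β := fun g hg => pw_lg hz (h1 g hg)
  refine ⟨(LC1.smul_elt smo_units β).comp (fun y => lg N z (y / β)), h2, ?_⟩
  intro g hg h hh
  apply pw_injective hz
  show pw N z (lg N z ((g * h) • β / β)) = pw N z (lg N z (g • β / β) +
    ε g * lg N z (h • β / β))
  rw [h2 _ (H.mul_mem hg hh), pw_add hz.pow_eq_one, h2 g hg, pw_mul hz.pow_eq_one, ← hε g hg]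
  have h3 : (g • z) ^ (lg N z (h • β / β)).val = g • (h • β / β) := by
    rw [← smul_pow']
    have := h2 h hh
    rw [pw] at this
    rw [this]
  rw [h3, smul_div', mul_smul]
  rw [div_mul_div_comm, mul_comm (g • β), mul_div_mul_right_eq_div]

theorem mup [IsSepClosed Ω] {H : Subgroup Gal(Ω/F)} (hH : IsOpen (H : Set Gal(Ω/F))) {p : ℕ}
    [NeZero p] (hpΩ : (p : Ω) ≠ 0) {ζ : Ωˣ} (hζ : IsPrimitiveRoot ζ p) (ω : Gal(Ω/F) → ZMod p)
    (hω : ∀ g ∈ H, g • ζ = pw p ζ (ω g)) (d : Gal(Ω/F) → Gal(Ω/F) → ZMod p)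
    (h : (fun g k => pw p ζ (d g k)) ∈ Cob H) :
    ∃ e : Gal(Ω/F) → ZMod p, LC1 e ∧
      ∀ g ∈ H, ∀ k ∈ H, d g k = e g + ω g * e k - e (g * k) := by
  classical
  obtain ⟨b, hb, hdb⟩ := h
  have hb1 : ∀ g ∈ H, ∀ k ∈ H, (b (g * k)) ^ p = (b g) ^ p * g • (b k) ^ p := by
    intro g hg k hk
    have h1 : (dd b g k) ^ p = 1 := by
      rw [← hdb g hg k hk]
      exact pw_pow_self hζ.pow_eq_one _
    rw [dd, div_pow, mul_pow, ← smul_pow'] at h1
    exact (div_eq_one.1 h1).symm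
  obtain ⟨x, hx⟩ := hilbert90 hH (fun g => (b g) ^ p) (hb.comp (· ^ p)) hb1
  obtain ⟨y, hy⟩ := exists_root p hpΩ x
  have hb2 : ∀ g ∈ H, (b g * (y / g • y)) ^ p = 1 := by
    intro g hg
    have h1 := hx g hg
    rw [mul_pow, h1, div_pow, ← smul_pow', hy]
    simp
  have hdd : ∀ g k : Gal(Ω/F), dd (fun g => b g * (y / g • y)) g k = dd b g k := by
    intro g k
    simp only [dd, smul_mul', smul_div', mul_smul]
    have e1 : b g * (y / g • y) * (g • b k * (g • y / g • k • y)) =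
        (b g * g • b k) * (y / g • k • y) := by
      rw [mul_mul_mul_comm]
      congr 1
      exact div_mul_div_cancel _ _ _
    rw [e1, mul_div_mul_right_eq_div]
  refine ⟨fun g => if g ∈ H then lg p ζ (b g * (y / g • y)) else 0,
    LC1.ite hH (hb.comp₂ (LC1.smul_elt smo_units y) (fun u v => lg p ζ (u * (y / v)))) 0, ?_⟩
  intro g hg k hk
  simp only [if_pos hg, if_pos hk, if_pos (H.mul_mem hg hk)]
  apply pw_injective hζ
  have h3 : ∀ g ∈ H, pw p ζ (lg p ζ (b g * (y / g • y))) = b g * (y / g • y) :=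
    fun g hg => pw_lg hζ (hb2 g hg)
  have h4 : pw p ζ (ω g * lg p ζ (b k * (y / k • y))) = g • (b k * (y / k • y)) := by
    rw [pw_mul hζ.pow_eq_one, ← hω g hg, ← smul_pow']
    have := h3 k hk
    rw [pw] at this
    rw [this]
  rw [pw_sub hζ.pow_eq_one, pw_add hζ.pow_eq_one, h3 g hg, h3 _ (H.mul_mem hg hk), h4]
  have h5 := hdb g hg k hk
  simp only at h5
  rw [h5, ← hdd g k]
  rfl

end BrR
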