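import Pool.Agent.H48.BR.Smo

set_option autoImplicit false

/-! # Row Rtc: interpolation polynomial and its roots (about 200 lines)

`RIdx Ω = Ω × ℕ` with the action of `G` on the first coordinate (roots with multiplicity).

THEOREM `interp`. `X ⊆ T` finite nonempty `H`-stable, `a, b : T → Ωˣ` with `h • a x = a (h•x)`, `h • b x = b (h•x)`
on `X`, `a` injective on `X`, `p` prime, `p ≠ 0` in `Ω`. Then there are `q` coprime to `p`, `c ∈ Ωˣ` fixed by `H`, `e : ℕ`,
and a finite `H`-stable `Y ⊆ RIdx Ω` with fewer elements than `X`, all `y.1 ≠ 0`, and for `x ∈ X`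
  `(b x)^q = c * (a x)^(q*e) * ∏ y∈Y, ((a x)^q - y.1)`.

PROOF. `g := Lagrange.interpolate X (fun x => (a x : Ω)) (fun x => (b x : Ω))`, `g(a x) = b x`, `deg g < card X`, `g ≠ 0`.
For `h ∈ H` the polynomial `g.map (h : Ω →+* Ω)` has the same property (`h • g(a x) = (g.map h)(h • a x)`,
and `x ↦ h • x` permutes `X`), so `g.map h = g` (`Lagrange` uniqueness: `Polynomial.eq_of_degrees_lt_of_eval_index_eq`).
Let `ℓ` be the exponential characteristic of `Ω` (`ExpChar.exists`): `ℓ = 1` or a prime `≠ p`. There is `r` such that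
`g.map (iterateFrobenius Ω ℓ r)` splits in `Ω`: in an algebraic closure `Ω'` of `Ω` the roots of `g` are purely
inseparable over the separably closed field `Ω` (`IsSepClosed`, `IsPurelyInseparable Ω (AlgebraicClosure Ω)`:
instance `IsSepClosed.isPurelyInseparable_of_isAlgebraic` or similar), so `z^(ℓ^r) ∈ Ω` for all (finitely many) roots `z` and
`r` large; `(g.map frob^r)` maps in `Ω'[T]` to `lc^(ℓ^r) * ∏ (T - z^(ℓ^r))` and all these roots are in `Ω`.
(Alternative: `Irreducible.natSepDegree...`; any proof of: `∃ r, (g.map (iterateFrobenius Ω ℓ r)).Splits`.)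
`q := ℓ^r`, `φ := iterateFrobenius Ω ℓ r` (`x ↦ x^q`), `g' := g.map φ`; `g'((a x)^q) = (b x)^q`; `g'.map h = g'`;
`g' = C c * ∏_{r ∈ roots} (X - C r)`, `c` = leading coefficient `≠ 0`, fixed by `H`. Let `e` = multiplicity of the root `0`
and `Y` = enumeration of the nonzero roots: `Y = (g'.roots.filter (· ≠ 0)).toEnumFinset : Finset (Ω × ℕ)`
(`Multiset.toEnumFinset`, `Multiset.map_toEnumFinset_fst`, `Multiset.card_toEnumFinset`). `card Y ≤ deg g' = deg g < card X`.
Stable: `count (h • r) g'.roots = count r g'.roots` (`rootMultiplicity` under the automorphism `h`, `g'.map h = g'`). -/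

namespace BrR

variable {F Ω : Type} [Field F] [Field Ω] [Algebra F Ω]

/-- roots with multiplicity -/
def RIdx (Ω : Type) : Type := Ω × ℕ

instance : MulAction Gal(Ω/F) (RIdx Ω) where
  smul g y := (g • y.1, y.2)
  one_smul y := Prod.ext (one_smul _ y.1) rfl
  mul_smul g h y := Prod.ext (mul_smul g h y.1) rfl

theorem RIdx.smul_fst (g : Gal(Ω/F)) (y : RIdx Ω) : (g • y).1 = g • y.1 := rfl

theorem RIdx.smul_snd (g : Gal(Ω/F)) (y : RIdx Ω) : (g • y).2 = y.2 := rfl

open Polynomial in
/-- over a separably closed field every polynomial splits after a power of Frobenius -/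
theorem Rtc_split {K : Type} [Field K] [IsSepClosed K] (l : ℕ) [ExpChar K l] (g : K[X]) :
    ∃ r : ℕ, (g.map (iterateFrobenius K l r)).Splits := by
  classical
  have hE : ExpChar (AlgebraicClosure K) l :=
    expChar_of_injective_algebraMap (algebraMap K (AlgebraicClosure K)).injective l
  have hz : ∀ z : AlgebraicClosure K, ∃ m : ℕ, z ^ l ^ m ∈ (algebraMap K (AlgebraicClosure K)).range :=
    fun z => IsPurelyInseparable.pow_mem K l z
  choose m hm using hz
  refine ⟨(g.map (algebraMap K (AlgebraicClosure K))).roots.toFinset.sup m, ?_⟩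
  set r := (g.map (algebraMap K (AlgebraicClosure K))).roots.toFinset.sup m with hr
  have e1 : (g.map (iterateFrobenius K l r)).map (algebraMap K (AlgebraicClosure K))
      = (g.map (algebraMap K (AlgebraicClosure K))).map (iterateFrobenius (AlgebraicClosure K) l r) := by
    rw [Polynomial.map_map, Polynomial.map_map, RingHom.iterateFrobenius_comm]
  have hs : (g.map (algebraMap K (AlgebraicClosure K))).Splits := IsAlgClosed.splits _
  apply Polynomial.Splits.of_splits_map (algebraMap K (AlgebraicClosure K))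
  · rw [e1]
    exact hs.map _
  · intro a ha
    rw [e1, hs.roots_map, Multiset.mem_map] at ha
    obtain ⟨z, hz1, hz2⟩ := ha
    rw [iterateFrobenius_def] at hz2
    have h2 : m z ≤ r := Finset.le_sup (f := m) (Multiset.mem_toFinset.mpr hz1)
    obtain ⟨w, hw⟩ := hm z
    rw [← hz2]
    refine ⟨w ^ l ^ (r - m z), ?_⟩
    rw [map_pow, hw, ← pow_mul, ← pow_add, Nat.add_sub_cancel' h2]

theorem Rtc_coprime {K : Type} [Field K] {p : ℕ} (hp : p.Prime) (hpK : (p : K) ≠ 0) (l : ℕ)
    (hl : ExpChar K l) (r : ℕ) : Nat.Coprime (l ^ r) p := by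
  apply Nat.Coprime.pow_left
  cases hl with
  | zero => exact Nat.coprime_one_left p
  | prime hprime =>
    rw [Nat.coprime_primes hprime hp]
    rintro rfl
    exact hpK (CharP.cast_eq_zero K _)

theorem smo_RIdx [IsGalois F Ω] : Smo F Ω (RIdx Ω) := by
  intro y
  obtain ⟨U, hU, h1⟩ := (smo_field : Smo F Ω Ω) y.1
  exact ⟨U, hU, fun u hu => Prod.ext (h1 u hu) rfl⟩

theorem interp [IsGalois F Ω] [IsSepClosed Ω] {p : ℕ} (hp : p.Prime) (hpΩ : (p : Ω) ≠ 0)
    {H : Subgroup Gal(Ω/F)} {T : Type} [MulAction Gal(Ω/F) T] {X : Finset T} (hX : Stb H X)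
    (hne : X.Nonempty) (a b : T → Ωˣ) (ha : ∀ h ∈ H, ∀ x ∈ X, h • a x = a (h • x))
    (hb : ∀ h ∈ H, ∀ x ∈ X, h • b x = b (h • x)) (hinj : Set.InjOn a X) :
    ∃ q : ℕ, Nat.Coprime q p ∧ ∃ (c : Ωˣ) (e : ℕ) (Y : Finset (RIdx Ω)),
      (∀ h ∈ H, h • c = c) ∧ Stb H Y ∧ Y.card < X.card ∧ (∀ y ∈ Y, y.1 ≠ 0) ∧
      ∀ x ∈ X, ((b x : Ω)) ^ q =
        (c : Ω) * (a x : Ω) ^ (q * e) * ∏ y ∈ Y, ((a x : Ω) ^ q - y.1) := by
  classical
  obtain ⟨l, hl⟩ := ExpChar.exists Ω
  have hvs : Set.InjOn (fun x => (a x : Ω)) (X : Set T) := by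
    intro x hx y hy hxy
    exact hinj hx hy (Units.ext hxy)
  have hact : ∀ (h : Gal(Ω/F)) (u : Ωˣ), ((h • u : Ωˣ) : Ω) = h (u : Ω) := fun h u => rfl
  set g : Polynomial Ω := Lagrange.interpolate X (fun x => (a x : Ω)) (fun x => (b x : Ω)) with hg
  have hgev : ∀ x ∈ X, g.eval (a x : Ω) = (b x : Ω) := fun x hx =>
    Lagrange.eval_interpolate_at_node (fun x => (b x : Ω)) hvs hx
  have hgdeg : g.degree < X.card := Lagrange.degree_interpolate_lt _ hvs
  have hg0 : g ≠ 0 := by
    intro h0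
    obtain ⟨x, hx⟩ := hne
    have h1 := hgev x hx
    rw [h0, Polynomial.eval_zero] at h1
    exact (b x).ne_zero h1.symm
  have hgmap : ∀ h ∈ H, g.map ((h : Ω ≃ₐ[F] Ω) : Ω →+* Ω) = g := by
    intro h hh
    apply Lagrange.eq_interpolate_of_eval_eq _ hvs
    · rw [Polynomial.degree_map]
      exact hgdeg
    · intro x hx
      have hy : h⁻¹ • x ∈ X := hX h⁻¹ (H.inv_mem hh) x hx
      have e1 := ha h hh _ hy
      have e2 := hb h hh _ hy
      rw [smul_inv_smul] at e1 e2
      rw [← e1, ← e2, hact, hact, ← hgev _ hy]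
      exact Polynomial.eval_map_apply (((h : Ω ≃ₐ[F] Ω) : Ω →+* Ω)) _
  obtain ⟨r, hr⟩ := Rtc_split l g
  set g' : Polynomial Ω := g.map (iterateFrobenius Ω l r) with hg'
  have hg'0 : g' ≠ 0 := (Polynomial.map_ne_zero_iff (iterateFrobenius Ω l r).injective).mpr hg0
  have hg'map : ∀ h ∈ H, g'.map ((h : Ω ≃ₐ[F] Ω) : Ω →+* Ω) = g' := by
    intro h hh
    rw [hg', Polynomial.map_map, RingHom.iterateFrobenius_comm, ← Polynomial.map_map, hgmap h hh]
  have hroots : ∀ h ∈ H, g'.roots = g'.roots.map ((h : Ω ≃ₐ[F] Ω) : Ω →+* Ω) := by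
    intro h hh
    have e := hr.roots_map ((h : Ω ≃ₐ[F] Ω) : Ω →+* Ω)
    rw [hg'map h hh] at e
    exact e
  have hcount : ∀ h ∈ H, ∀ z : Ω, g'.roots.count (h z) = g'.roots.count z := by
    intro h hh z
    have e := Multiset.count_map_eq_count' (((h : Ω ≃ₐ[F] Ω) : Ω →+* Ω)) g'.roots
      (RingHom.injective _) z
    rw [← hroots h hh] at e
    exact e
  have hev : ∀ x ∈ X, g'.eval ((a x : Ω) ^ l ^ r) = (b x : Ω) ^ l ^ r := by
    intro x hx
    have e : g'.eval (iterateFrobenius Ω l r (a x : Ω)) = iterateFrobenius Ω l r (g.eval (a x : Ω)) :=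
      Polynomial.eval_map_apply _ _
    rw [hgev x hx, iterateFrobenius_def, iterateFrobenius_def] at e
    exact e
  have hlc : g'.leadingCoeff ≠ 0 := Polynomial.leadingCoeff_ne_zero.mpr hg'0
  refine ⟨l ^ r, Rtc_coprime hp hpΩ l hl r, Units.mk0 g'.leadingCoeff hlc, g'.roots.count 0,
    (g'.roots.filter (fun z => z ≠ 0)).toEnumFinset, ?_, ?_, ?_, ?_, ?_⟩
  · intro h hh
    apply Units.ext
    rw [hact, Units.val_mk0]
    have e := Polynomial.leadingCoeff_map (((h : Ω ≃ₐ[F] Ω) : Ω →+* Ω)) (p := g')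
    rw [hg'map h hh] at e
    exact e.symm
  · intro h hh y hy
    have hy' : y.2 < (g'.roots.filter (fun z => z ≠ 0)).count y.1 :=
      (Multiset.mem_toEnumFinset _ (y : Ω × ℕ)).mp hy
    have hgoal : (h • y).2 < (g'.roots.filter (fun z => z ≠ 0)).count (h • y).1 := by
      have e1 : (h • y).1 = h y.1 := rfl
      have e2 : (h • y).2 = y.2 := rfl
      rw [e1, e2, Multiset.count_filter, hcount h hh]
      rw [Multiset.count_filter] at hy'
      by_cases h0 : y.1 = 0
      · rw [if_neg (not_not.mpr h0)] at hy'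
        omega
      · rw [if_pos h0] at hy'
        rw [if_pos]
        · exact hy'
        · intro h1
          exact h0 ((map_eq_zero_iff h h.injective).mp h1)
    exact (Multiset.mem_toEnumFinset _ ((h • y : RIdx Ω) : Ω × ℕ)).mpr hgoal
  · have e1 : Finset.card (g'.roots.filter (fun z => z ≠ 0)).toEnumFinset
        = Multiset.card (g'.roots.filter (fun z => z ≠ 0)) := Multiset.card_toEnumFinset _
    have e2 : Multiset.card (g'.roots.filter (fun z => z ≠ 0)) ≤ Multiset.card g'.roots :=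
      Multiset.card_le_card (Multiset.filter_le _ _)
    have e3 : Multiset.card g'.roots ≤ g'.natDegree := Polynomial.card_roots' g'
    have e4 : g'.natDegree = g.natDegree := Polynomial.natDegree_map _
    have e5 : g.natDegree < X.card := (Polynomial.natDegree_lt_iff_degree_lt hg0).mpr hgdeg
    refine lt_of_eq_of_lt e1 ?_
    omega
  · intro y hy
    have h1 := Multiset.mem_of_mem_toEnumFinset (p := (y : Ω × ℕ)) hy
    exact (Multiset.mem_filter.mp h1).2
  · intro x hx
    have e1 := hr.eval_eq_prod_roots ((a x : Ω) ^ l ^ r)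
    rw [hev x hx] at e1
    have e2 : (g'.roots.map (fun z => (a x : Ω) ^ l ^ r - z)).prod
        = (a x : Ω) ^ (l ^ r * g'.roots.count 0)
          * ((g'.roots.filter (fun z => z ≠ 0)).map (fun z => (a x : Ω) ^ l ^ r - z)).prod := by
      have e0 : Multiset.filter (fun z : Ω => z = 0) g'.roots
          = Multiset.replicate (Multiset.count 0 g'.roots) 0 := by
        convert! Multiset.filter_eq' g'.roots 0
      conv_lhs => rw [← Multiset.filter_add_not (fun z : Ω => z = 0) g'.roots]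
      rw [Multiset.map_add, Multiset.prod_add, e0, Multiset.map_replicate,
        Multiset.prod_replicate, sub_zero, ← pow_mul]
    have e3 : ((g'.roots.filter (fun z => z ≠ 0)).map (fun z => (a x : Ω) ^ l ^ r - z)).prod
        = ∏ y ∈ ((g'.roots.filter (fun z => z ≠ 0)).toEnumFinset : Finset (Ω × ℕ)),
          ((a x : Ω) ^ l ^ r - y.1) := by
      conv_lhs => rw [← Multiset.map_toEnumFinset_fst (g'.roots.filter (fun z => z ≠ 0))]
      rw [Multiset.map_map]
      rfl
    rw [Units.val_mk0]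
    rw [e1]
    change _ * (g'.roots.map (fun z => (a x : Ω) ^ l ^ r - z)).prod = _
    rw [e2, e3, mul_assoc]
    rfl

end BrR
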