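import Pool.Agent.H48.BR.Rta
import Pool.Agent.H48.BR.Rtc

set_option autoImplicit false

/-! # Row Rtd: the theorem of Rosset and Tate: every trace symbol is a sum of symbols (about 220 lines)

THEOREM `rt`. `H` fixes `ζ`; `X ⊆ T` finite `H`-stable, `α, β` `Good` on `X`: `ts X α β ∈ Sym p ζ H`.
Strong induction on `X.card`, for all `T : Type` simultaneously.

* `X` empty: `ts = 1` (`pw_zero`).
* `a := fun x => (α x)^p` not injective on `X`: let `T' = Ωˣ`, `Y = X.image a` (`Finset Ωˣ`, classical decidable equality),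
  `π = a`?? `π` must be equivariant on all of `T` for `ts_proj_left`; so use instead `T'' = T`-independent trick: replace `T` by the
  graph: let `T₁ = T × Ωˣ`, `X₁ = X.image (fun x => (x, (α x)^p))` (stable since `α` is `Good`), `π = Prod.snd` (equivariant on `T₁`).
  `ts X α β = ts X₁ (fun w => α w.1) (fun w => β w.1)` on `H × H` (`Finset.sum_image`, injective). Choose `ρ : Ωˣ → Ωˣ` with
  `(ρ y)^p = y` (`exists_root`). Then `ts X₁ (α∘fst) (β∘fst) ~ ts X₁ (ρ∘snd) (β∘fst)` (`ts_root_left`) `= ts Y ρ (nm snd X₁ (β∘fst))`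
  (`ts_proj_left`) and `Y.card < X.card` because `a` is not injective on `X`: induction hypothesis
  (`Smo F Ω Ωˣ` = `smo_units`; `Good ρ`: `(h • ρ y)^p = h • y = (ρ (h • y))^p`).
* `a` injective on `X`, `X` nonempty: `interp` (Rtc) for `a = α^p`, `b = β^p` gives `q, c, e, Y`. For `x ∈ X, y ∈ Y` we have
  `(a x)^q - y.1 ≠ 0` (otherwise `b x = 0`). Choose (`exists_root`) `γ^p = c`, `ν y` with `(ν y)^p = y.1` (for `y ∈ Y`, else `1`),
  `δ x y` with `(δ x y)^p = (a x)^q - y.1` (for `x ∈ X, y ∈ Y`, else `1`). With `α' = α^q`: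
  `ts X α' (fun x => ∏ y∈Y, δ x y) ∈ Sym` by `recip` and the induction hypothesis for `Y` (`smo_RIdx`).
  `(β x ^ q)^p = (γ * α' x ^ e * ∏ y∈Y, δ x y)^p` on `X`, so `ts X α' (β^q) ~ ts X α' (γ * α'^e * Δ)` (`ts_root_right`)
  `= [α', γ] + e [α', α'] + [α', Δ]`, `[α', γ] = sy (∏ α') γ` (`ts_const_right`), `[α', α'] ∈ Cob` (`ts_self`).
  Hence `ts X (α^q) (β^q) ∈ Sym`, it equals `(ts X α β)^(q*q)` on `H × H` (`ts_pow_left/right`), and `(ts X α β)^p = 1`
  (`ts_pow_p`), `q*q` coprime to `p`: `pow_coprime_mem`. -/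

namespace BrR

variable {F Ω : Type} [Field F] [Field Ω] [Algebra F Ω] [IsGalois F Ω] [IsSepClosed Ω]

omit [IsGalois F Ω] [IsSepClosed Ω] in
/-- reindexing a product over a stable set -/
theorem Rtd_prod {H : Subgroup Gal(Ω/F)} {T : Type} [MulAction Gal(Ω/F) T] {X : Finset T} (hX : Stb H X)
    {M : Type*} [CommMonoid M] (f : T → M) {h : Gal(Ω/F)} (hh : h ∈ H) :
    ∏ x ∈ X, f (h • x) = ∏ x ∈ X, f x := by
  refine Finset.prod_nbij' (fun x => h • x) (fun x => h⁻¹ • x) (fun x hx => hX h hh x hx)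
    (fun x hx => hX h⁻¹ (inv_mem hh) x hx) (fun x _ => inv_smul_smul h x)
    (fun x _ => smul_inv_smul h x) (fun x _ => rfl)

omit [IsGalois F Ω] [IsSepClosed Ω] in
theorem Rtd_good_pow {p : ℕ} {H : Subgroup Gal(Ω/F)} {T : Type} [MulAction Gal(Ω/F) T] {X : Finset T}
    {α : T → Ωˣ} (hα : Good p H X α) (n : ℕ) : Good p H X (α ^ n) := by
  intro h hh x hx
  simp only [Pi.pow_apply, smul_pow']
  rw [← pow_mul, mul_comm, pow_mul, hα h hh x hx, ← pow_mul, ← pow_mul, mul_comm]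

omit [IsGalois F Ω] [IsSepClosed Ω] in
theorem Rtd_good_mul {p : ℕ} {H : Subgroup Gal(Ω/F)} {T : Type} [MulAction Gal(Ω/F) T] {X : Finset T}
    {α β : T → Ωˣ} (hα : Good p H X α) (hβ : Good p H X β) : Good p H X (α * β) := by
  intro h hh x hx
  simp only [Pi.mul_apply, smul_mul', mul_pow]
  rw [hα h hh x hx, hβ h hh x hx]

/-- the step for an injective `p`-th power -/
theorem Rtd_inj {p : ℕ} (hp : p.Prime) (hodd : Odd p) (hpΩ : (p : Ω) ≠ 0) {ζ : Ωˣ}
    (hζ : IsPrimitiveRoot ζ p) {H : Subgroup Gal(Ω/F)} (hζH : ∀ h ∈ H, h • ζ = ζ)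
    {T : Type} [MulAction Gal(Ω/F) T] (hT : Smo F Ω T) {X : Finset T} (hX : Stb H X)
    {α β : T → Ωˣ} (hα : Good p H X α) (hβ : Good p H X β) (hne : X.Nonempty)
    (hinj : Set.InjOn (fun x => α x ^ p) X)
    (ih : ∀ Y : Finset (RIdx Ω), Y.card < X.card → Stb H Y → ∀ α' β' : RIdx Ω → Ωˣ,
      Good p H Y α' → Good p H Y β' → ts p ζ Y α' β' ∈ Sym p ζ H) : ts p ζ X α β ∈ Sym p ζ H := by
  have : NeZero p := ⟨hp.ne_zero⟩
  have haeq : ∀ h ∈ H, ∀ x ∈ X, h • (fun x => α x ^ p) x = (fun x => α x ^ p) (h • x) := by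
    intro h hh x hx
    simp only [smul_pow']
    exact hα h hh x hx
  have hbeq : ∀ h ∈ H, ∀ x ∈ X, h • (fun x => β x ^ p) x = (fun x => β x ^ p) (h • x) := by
    intro h hh x hx
    simp only [smul_pow']
    exact hβ h hh x hx
  obtain ⟨q, hqp, c, e, Y, hc, hY, hcard, hY0, hint⟩ :=
    interp hp hpΩ hX hne (fun x => α x ^ p) (fun x => β x ^ p) haeq hbeq hinj
  obtain ⟨γ, hγ⟩ := exists_root p hpΩ c
  -- the roots of `y`
  have hν' : ∀ y : RIdx Ω, ∃ d : Ωˣ, y ∈ Y → ((d : Ω)) ^ p = y.1 := by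
    intro y
    by_cases hy : y ∈ Y
    · obtain ⟨d, hd⟩ := exists_root p hpΩ (Units.mk0 y.1 (hY0 y hy))
      refine ⟨d, fun _ => ?_⟩
      rw [← Units.val_pow_eq_pow_val, hd, Units.val_mk0]
    · exact ⟨1, fun h => absurd h hy⟩
  choose ν hν using hν'
  have hfac : ∀ x ∈ X, ∀ y ∈ Y, ((α x ^ p : Ωˣ) : Ω) ^ q - y.1 ≠ 0 := by
    intro x hx y hy h0
    have h1 := hint x hx
    rw [Finset.prod_eq_zero hy h0, mul_zero] at h1
    exact pow_ne_zero q (Units.ne_zero (β x ^ p)) h1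
  have hδ' : ∀ (x : T) (y : RIdx Ω), ∃ d : Ωˣ, x ∈ X → y ∈ Y →
      ((d : Ω)) ^ p = ((α x ^ p : Ωˣ) : Ω) ^ q - y.1 := by
    intro x y
    by_cases hx : x ∈ X
    · by_cases hy : y ∈ Y
      · obtain ⟨d, hd⟩ := exists_root p hpΩ (Units.mk0 _ (hfac x hx y hy))
        refine ⟨d, fun _ _ => ?_⟩
        rw [← Units.val_pow_eq_pow_val, hd, Units.val_mk0]
      · exact ⟨1, fun _ h => absurd h hy⟩
    · exact ⟨1, fun h => absurd h hx⟩
  choose δ hδ using hδ'
  set α' : T → Ωˣ := α ^ q with hα'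
  have hGα' : Good p H X α' := Rtd_good_pow hα q
  have hα'p : ∀ x, (α' x) ^ p = (α x ^ p) ^ q := by
    intro x
    simp only [hα', Pi.pow_apply]
    rw [← pow_mul, ← pow_mul, mul_comm]
  have hδeq : ∀ h ∈ H, ∀ x ∈ X, ∀ y ∈ Y, (h • δ x y) ^ p = (δ (h • x) (h • y)) ^ p := by
    intro h hh x hx y hy
    apply Units.ext
    have h1 := hδ x y hx hy
    have h2 := hδ (h • x) (h • y) (hX h hh x hx) (hY h hh y hy)
    rw [Units.val_pow_eq_pow_val, Units.val_pow_eq_pow_val, h2, RIdx.smul_fst]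
    have h3 : ((h • δ x y : Ωˣ) : Ω) = h • ((δ x y : Ωˣ) : Ω) := rfl
    rw [h3, ← smul_pow', h1, smul_sub, smul_pow']
    congr 2
    have h4 := haeq h hh x hx
    simp only at h4
    rw [← h4]
    rfl
  have hGν : Good p H Y ν := by
    intro h hh y hy
    apply Units.ext
    rw [Units.val_pow_eq_pow_val, Units.val_pow_eq_pow_val, hν (h • y) (hY h hh y hy), RIdx.smul_fst]
    have h3 : ((h • ν y : Ωˣ) : Ω) = h • ((ν y : Ωˣ) : Ω) := rfl
    rw [h3, ← smul_pow', hν y hy]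
  have hGD2 : Good p H Y (fun y => ∏ x ∈ X, δ x y) := by
    intro h hh y hy
    rw [Finset.smul_prod', ← Finset.prod_pow, ← Finset.prod_pow,
      ← Rtd_prod hX (fun x => δ x (h • y) ^ p) hh]
    exact Finset.prod_congr rfl fun x hx => hδeq h hh x hx y hy
  have hGD1 : Good p H X (fun x => ∏ y ∈ Y, δ x y) := by
    intro h hh x hx
    rw [Finset.smul_prod', ← Finset.prod_pow, ← Finset.prod_pow,
      ← Rtd_prod hY (fun y => δ (h • x) y ^ p) hh]
    exact Finset.prod_congr rfl fun y hy => hδeq h hh x hx y hy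
  have hS := ih Y hcard hY ν _ hGν hGD2
  have hR1 : ts p ζ X α' (fun x => ∏ y ∈ Y, δ x y) ∈ Sym p ζ H := by
    refine recip hζ hζH hX hodd hpΩ hT smo_RIdx hY hGα' hGν δ ?_ hS
    intro x hx y hy
    rw [hδ x y hx hy, hν y hy, ← Units.val_pow_eq_pow_val, ← Units.val_pow_eq_pow_val, hα'p x]
  -- the comparison function
  have hGγ : Good p H X (fun _ : T => γ) := by
    intro h hh x _
    rw [← smul_pow', hγ, hc h hh]
  set β' : T → Ωˣ := (fun _ : T => γ) * α' ^ e * (fun x => ∏ y ∈ Y, δ x y) with hβ'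
  have hGβ' : Good p H X β' := Rtd_good_mul (Rtd_good_mul hGγ (Rtd_good_pow hGα' e)) hGD1
  have hroot : ∀ x ∈ X, ((β ^ q) x) ^ p = (β' x) ^ p := by
    intro x hx
    apply Units.ext
    have h1 := hint x hx
    simp only [hβ', Pi.mul_apply, Pi.pow_apply, mul_pow, Units.val_mul, Units.val_pow_eq_pow_val,
      ← Finset.prod_pow, Units.coe_prod] at h1 ⊢
    rw [← Units.val_pow_eq_pow_val γ, hγ]
    have h2 : ∏ y ∈ Y, ((δ x y : Ω)) ^ p = ∏ y ∈ Y, (((α x : Ω) ^ p) ^ q - y.1) := by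
      refine Finset.prod_congr rfl fun y hy => ?_
      rw [hδ x y hx hy, Units.val_pow_eq_pow_val]
    rw [h2, ← pow_mul, mul_comm q p, pow_mul, h1]
    congr 2
    have h5 : (α x ^ p) ^ (q * e) = (α' x ^ e) ^ p := by
      rw [pow_mul, ← hα'p, ← pow_mul, ← pow_mul, mul_comm]
    have h6 := congrArg (Units.val) h5
    simpa only [Units.val_pow_eq_pow_val] using h6
  have hR2 : ts p ζ X α' (β ^ q) / ts p ζ X α' β' ∈ Cob H :=
    ts_root_right hζ hζH hX hT hGα' hGβ' hroot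
  have hR3 : ts p ζ X α' β' ∈ Sym p ζ H := by
    have hP : sy p ζ (∏ x ∈ X, α' x) γ * (ts p ζ X α' α') ^ e * ts p ζ X α' (fun x => ∏ y ∈ Y, δ x y) ∈
        Sym p ζ H := by
      refine mul_mem (mul_mem (sy_mem_Sym ?_ ?_) (pow_mem (Cob_le_Sym (ts_self hζ hζH hX hT hodd hGα')) e)) hR1
      · intro h hh
        rw [← Finset.prod_pow, Finset.smul_prod', ← Rtd_prod hX (fun x => α' x ^ p) hh]
        refine Finset.prod_congr rfl fun x hx => ?_
        rw [smul_pow']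
        exact hGα' h hh x hx
      · intro h hh
        rw [hγ, hc h hh]
    refine Sym_of_div (div_mem_Cob_of_eq ?_) hP
    intro h hh k hk
    simp only [Pi.mul_apply, Pi.pow_apply]
    rw [hβ', ts_mul_right hζ hX (Rtd_good_mul hGγ (Rtd_good_pow hGα' e)) hGD1 hh hk,
      ts_mul_right hζ hX hGγ (Rtd_good_pow hGα' e) hh hk, ts_pow_right hζ hX hGα' e hh hk,
      ts_const_right hζ hζH hX ?_ hGα' hh hk]
    intro h hh
    rw [hγ, hc h hh]
  have hR4 : ts p ζ X α' (β ^ q) ∈ Sym p ζ H := Sym_of_div hR2 hR3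
  have hR5 : (ts p ζ X α β) ^ (q * q) ∈ Sym p ζ H := by
    refine Sym_of_div (div_mem_Cob_of_eq ?_) hR4
    intro h hh k hk
    simp only [Pi.pow_apply]
    rw [hα', ts_pow_left hζ hX hα q hh hk, ts_pow_right hζ hX hβ q hh hk, ← pow_mul]
  have hR6 : (ts p ζ X α β) ^ p ∈ Sym p ζ H := by
    have : (ts p ζ X α β : Gal(Ω/F) → Gal(Ω/F) → Ωˣ) ^ p = 1 := by
      funext h k
      simp only [Pi.pow_apply, Pi.one_apply]
      exact ts_pow_p hζ X α β h k
    rw [this]
    exact one_mem _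
  exact pow_coprime_mem _ _ hR5 hR6 (Nat.Coprime.mul_left hqp hqp)

theorem Rtd_aux {p : ℕ} (hp : p.Prime) (hodd : Odd p) (hpΩ : (p : Ω) ≠ 0) {ζ : Ωˣ}
    (hζ : IsPrimitiveRoot ζ p) {H : Subgroup Gal(Ω/F)} (hζH : ∀ h ∈ H, h • ζ = ζ) (n : ℕ) :
    ∀ (T : Type) [MulAction Gal(Ω/F) T], Smo F Ω T → ∀ X : Finset T, Stb H X → X.card = n →
      ∀ α β : T → Ωˣ, Good p H X α → Good p H X β → ts p ζ X α β ∈ Sym p ζ H := by
  have : NeZero p := ⟨hp.ne_zero⟩
  induction n using Nat.strong_induction_on with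
  | _ n ih =>
    intro T _ hT X hX hn α β hα hβ
    rcases X.eq_empty_or_nonempty with hE | hne
    · have : (ts p ζ X α β : Gal(Ω/F) → Gal(Ω/F) → Ωˣ) = 1 := by
        funext h k
        simp only [ts, hE, Finset.sum_empty, pw_zero, Pi.one_apply]
      rw [this]
      exact one_mem _
    by_cases hinj : Set.InjOn (fun x => α x ^ p) X
    · refine Rtd_inj hp hodd hpΩ hζ hζH hT hX hα hβ hne hinj ?_
      intro Y hY1 hY2 α' β' h1 h2
      exact ih Y.card (hn ▸ hY1) (RIdx Ω) smo_RIdx Y hY2 rfl α' β' h1 h2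
    · classical
      have haeq : ∀ h ∈ H, ∀ x ∈ X, h • (α x ^ p) = α (h • x) ^ p := by
        intro h hh x hx
        rw [smul_pow']
        exact hα h hh x hx
      set X₁ : Finset (T × Ωˣ) := X.image (fun x => (x, α x ^ p)) with hX₁
      set Y : Finset Ωˣ := X.image (fun x => α x ^ p) with hY
      have hcard : Y.card < X.card := by
        refine lt_of_le_of_ne Finset.card_image_le fun h => hinj ?_
        exact Finset.card_image_iff.1 h
      have hSX₁ : Stb H X₁ := by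
        intro h hh w hw
        rw [hX₁, Finset.mem_image] at hw ⊢
        obtain ⟨x, hx, rfl⟩ := hw
        exact ⟨h • x, hX h hh x hx, Prod.ext rfl (haeq h hh x hx).symm⟩
      have hSY : Stb H Y := by
        intro h hh w hw
        rw [hY, Finset.mem_image] at hw ⊢
        obtain ⟨x, hx, rfl⟩ := hw
        exact ⟨h • x, hX h hh x hx, (haeq h hh x hx).symm⟩
      have hρ' : ∀ y : Ωˣ, ∃ d : Ωˣ, d ^ p = y := fun y => exists_root p hpΩ y
      choose ρ hρ using hρ'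
      have hπX : ∀ w ∈ X₁, w.2 ∈ Y := by
        intro w hw
        rw [hX₁, Finset.mem_image] at hw
        obtain ⟨x, hx, rfl⟩ := hw
        exact Finset.mem_image.2 ⟨x, hx, rfl⟩
      have hGρ : ∀ S : Finset Ωˣ, Good p H S ρ := by
        intro S h hh y _
        rw [← smul_pow', hρ, hρ]
      have hGρ₁ : Good p H X₁ (fun w : T × Ωˣ => ρ w.2) := by
        intro h hh w _
        exact hGρ {w.2} h hh w.2 (Finset.mem_singleton_self _)
      have hGα₁ : Good p H X₁ (fun w : T × Ωˣ => α w.1) := by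
        intro h hh w hw
        rw [hX₁, Finset.mem_image] at hw
        obtain ⟨x, hx, rfl⟩ := hw
        exact hα h hh x hx
      have hGβ₁ : Good p H X₁ (fun w : T × Ωˣ => β w.1) := by
        intro h hh w hw
        rw [hX₁, Finset.mem_image] at hw
        obtain ⟨x, hx, rfl⟩ := hw
        exact hβ h hh x hx
      have hT₁ : Smo F Ω (T × Ωˣ) := hT.prod smo_units
      have e1 : (ts p ζ X α β : Gal(Ω/F) → Gal(Ω/F) → Ωˣ) =
          ts p ζ X₁ (fun w : T × Ωˣ => α w.1) (fun w => β w.1) := by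
        funext h k
        unfold ts
        congr 1
        rw [hX₁, Finset.sum_image]
        · rfl
        · intro x _ y _ hxy
          exact congrArg Prod.fst hxy
      have e2 : ts p ζ X₁ (fun w : T × Ωˣ => α w.1) (fun w => β w.1) /
          ts p ζ X₁ (fun w : T × Ωˣ => ρ w.2) (fun w => β w.1) ∈ Cob H := by
        refine ts_root_left hζ hζH hSX₁ hT₁ hGρ₁ hGβ₁ ?_
        intro w hw
        rw [hX₁, Finset.mem_image] at hw
        obtain ⟨x, _, rfl⟩ := hw
        exact (hρ _).symm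
      have e3 : ts p ζ X₁ (fun w : T × Ωˣ => ρ w.2) (fun w => β w.1) /
          ts p ζ Y ρ (nm Prod.snd X₁ (fun w => β w.1)) ∈ Cob H := by
        refine div_mem_Cob_of_eq fun h hh k hk => ?_
        exact ts_proj_left (π := (Prod.snd : T × Ωˣ → Ωˣ)) hζ hζH hSX₁ hSY (fun g x => rfl) hπX (hGρ Y)
          hGβ₁ hh hk
      have e4 : ts p ζ Y ρ (nm Prod.snd X₁ (fun w => β w.1)) ∈ Sym p ζ H := by
        refine ih Y.card (hn ▸ hcard) Ωˣ smo_units Y hSY rfl ρ _ (hGρ Y) ?_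
        exact nm_good (π := (Prod.snd : T × Ωˣ → Ωˣ)) hSX₁ (fun g x => rfl) hGβ₁ Y
      rw [e1]
      exact Sym_of_div e2 (Sym_of_div e3 e4)

theorem rt {p : ℕ} (hp : p.Prime) (hodd : Odd p) (hpΩ : (p : Ω) ≠ 0) {ζ : Ωˣ}
    (hζ : IsPrimitiveRoot ζ p) {H : Subgroup Gal(Ω/F)} (hζH : ∀ h ∈ H, h • ζ = ζ)
    {T : Type} [MulAction Gal(Ω/F) T] (hT : Smo F Ω T) {X : Finset T} (hX : Stb H X)
    {α β : T → Ωˣ} (hα : Good p H X α) (hβ : Good p H X β) : ts p ζ X α β ∈ Sym p ζ H := by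
  exact Rtd_aux hp hodd hpΩ hζ hζH X.card T hT X hX rfl α β hα hβ

end BrR
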