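import Pool.Agent.H48.BR.Sha
import Pool.Agent.H48.BR.Rtd

set_option autoImplicit false

/-! # Row Shc: the transfer of a symbol is a trace symbol; corestriction preserves sums of symbols (about 120 lines)

* `tr_sy`: `P ≤ H`, `H` fixes `ζ`, `α^p, β^p` fixed by `P`, `X` = cosets of `P` in `H`. On `H × H`:
  `tr X (sy α β) = ts X (fun x => x.out • α) (fun x => x.out • β)`.
  For `h ∈ H`, `y ∈ X`: `ex (x ↦ x.out • α) h y = lg (h • y.out • α / (h•y).out • α)`, and `h * y.out = (h•y).out * uu h y`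
  (`out_mul_uu`), so the argument is `(h•y).out • (uu h y • α / α)`, `uu h y ∈ P` so `uu h y • α / α` is a `p`-th root of unity
  `pw p ζ _` (α^p is fixed by P), fixed by `(h•y).out ∈ H` (`cst_smul`). So `ex _ h y = lg (uu h y • α / α)`.
  In `tr` the outer action of `(h•k•x).out ∈ H` on `pw p ζ _` is trivial; the product of `pw`s is `pw` of the sum
  (`pw_add`, `Finset.prod`).
* `good_out`: `Good p H X (fun x => x.out • α)`, `stb_cst : Stb H X` (from `cst_smul`).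
* `sym_cores`: `c ∈ Coc H`, `c ∈ Sym p ζ P` ⇒ `c ^ (P.relIndex H) ∈ Sym p ζ H`. `Sym p ζ P` is a `sup`: the homomorphism
  `tr X` (`tr_mul`) maps `Cob P` into `Cob H` (`sha2`) and the generators `sy α β` into `Sym p ζ H` (`tr_sy`, `rt` with
  `T = G ⧸ P`, `smo_quot`, and `div_mem_Cob_of_eq`); so `tr X c ∈ Sym p ζ H` (`Subgroup.closure_induction`,
  `Subgroup.mem_sup`); `sha1`, `card_cst`. -/

namespace BrR

variable {F Ω : Type} [Field F] [Field Ω] [Algebra F Ω] [IsGalois F Ω] [IsSepClosed Ω]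

omit [IsGalois F Ω] [IsSepClosed Ω] in
theorem Shc_move {P : Subgroup Gal(Ω/F)} (α : Ωˣ) (h : Gal(Ω/F)) (x : Gal(Ω/F) ⧸ P) :
    h • x.out • α = (h • x).out • (uu h x • α) := by
  rw [← mul_smul, ← mul_smul, out_mul_uu]

omit [IsGalois F Ω] [IsSepClosed Ω] in
theorem Shc_root {p : ℕ} {P : Subgroup Gal(Ω/F)} {α : Ωˣ} (hα : ∀ h ∈ P, h • (α ^ p) = α ^ p)
    {u : Gal(Ω/F)} (hu : u ∈ P) : (u • α / α) ^ p = 1 := by
  rw [div_pow, ← smul_pow', hα u hu, div_self']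

omit [IsGalois F Ω] [IsSepClosed Ω] in
theorem Shc_good {p : ℕ} {H P : Subgroup Gal(Ω/F)} (X : Finset (Gal(Ω/F) ⧸ P))
    {α : Ωˣ} (hα : ∀ h ∈ P, h • (α ^ p) = α ^ p) : Good p H X (fun x => x.out • α) := by
  intro h _ x _
  show (h • x.out • α) ^ p = ((h • x).out • α) ^ p
  rw [Shc_move, ← smul_pow', ← smul_pow', ← smul_pow', hα _ (uu_mem h x)]

omit [IsGalois F Ω] [IsSepClosed Ω] in
theorem Shc_ex {p : ℕ} [NeZero p] {ζ : Ωˣ} (hζ : IsPrimitiveRoot ζ p) {H P : Subgroup Gal(Ω/F)}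
    (hζH : ∀ h ∈ H, h • ζ = ζ) (hPH : P ≤ H) {X : Finset (Gal(Ω/F) ⧸ P)} (hX : IsCst H X)
    {α : Ωˣ} (hα : ∀ h ∈ P, h • (α ^ p) = α ^ p) {h : Gal(Ω/F)} (hh : h ∈ H)
    {x : Gal(Ω/F) ⧸ P} (hx : x ∈ X) :
    ex p ζ (fun x : Gal(Ω/F) ⧸ P => x.out • α) h x = lg p ζ (uu h x • α / α) := by
  have h1 : (h • x).out ∈ H := (hX _).mp ((cst_smul hPH hX hh x).mpr hx)
  have h2 := pw_lg hζ (Shc_root hα (uu_mem h x))
  show lg p ζ (h • x.out • α / (h • x).out • α) = _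
  rw [Shc_move, ← smul_div', ← h2, smul_pw_of_fix (hζH _ h1)]

theorem tr_sy {p : ℕ} [NeZero p] {ζ : Ωˣ} (hζ : IsPrimitiveRoot ζ p) {H P : Subgroup Gal(Ω/F)}
    (hζH : ∀ h ∈ H, h • ζ = ζ) (hPH : P ≤ H) {X : Finset (Gal(Ω/F) ⧸ P)} (hX : IsCst H X)
    {α β : Ωˣ} (hα : ∀ h ∈ P, h • (α ^ p) = α ^ p) (hβ : ∀ h ∈ P, h • (β ^ p) = β ^ p)
    {h k : Gal(Ω/F)} (hh : h ∈ H) (hk : k ∈ H) :
    tr X (sy p ζ α β) h k = ts p ζ X (fun x => x.out • α) (fun x => x.out • β) h k := by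
  unfold tr ts
  rw [Tsb_pw_sum hζ.pow_eq_one]
  refine Finset.prod_congr rfl fun x hx => ?_
  have hkx : k • x ∈ X := (cst_smul hPH hX hk x).mpr hx
  have hhkx : (h • k • x).out ∈ H := (hX _).mp ((cst_smul hPH hX hh _).mpr hkx)
  rw [Shc_ex hζ hζH hPH hX hα hh hkx, Shc_ex hζ hζH hPH hX hβ hk hx]
  unfold sy
  rw [smul_pw_of_fix (hζH _ hhkx)]

theorem sym_cores {p : ℕ} (hp : p.Prime) (hodd : Odd p) (hpΩ : (p : Ω) ≠ 0) {ζ : Ωˣ}
    (hζ : IsPrimitiveRoot ζ p) {H P : Subgroup Gal(Ω/F)} (hP : IsOpen (P : Set Gal(Ω/F)))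
    (hζH : ∀ h ∈ H, h • ζ = ζ) (hPH : P ≤ H) {c : Gal(Ω/F) → Gal(Ω/F) → Ωˣ} (hc : c ∈ Coc H)
    (hcP : c ∈ Sym p ζ P) : c ^ (P.relIndex H) ∈ Sym p ζ H := by
  have : NeZero p := ⟨hp.ne_zero⟩
  obtain ⟨X, hX⟩ := exists_cst (H := H) hP
  have hCob : Cob H ≤ Sym p ζ H := le_sup_right
  have hle : Sym p ζ P ≤ (Sym p ζ H).comap (MonoidHom.mk' (tr X) (tr_mul X)) := by
    unfold Sym
    refine sup_le ?_ ?_
    · rw [Subgroup.closure_le]
      rintro _ ⟨α, β, hα, hβ, rfl⟩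
      show tr X (sy p ζ α β) ∈ Sym p ζ H
      have h1 : ts p ζ X (fun x => x.out • α) (fun x => x.out • β) ∈ Sym p ζ H :=
        rt hp hodd hpΩ hζ hζH (smo_quot hP) (fun h hh x hx => (cst_smul hPH hX hh x).mpr hx)
          (Shc_good X hα) (Shc_good X hβ)
      have h2 : tr X (sy p ζ α β) / ts p ζ X (fun x => x.out • α) (fun x => x.out • β) ∈
          Sym p ζ H :=
        hCob (div_mem_Cob_of_eq fun g hg k hk => tr_sy hζ hζH hPH hX hα hβ hg hk)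
      have h3 := (Sym p ζ H).mul_mem h2 h1
      rwa [div_mul_cancel] at h3
    · intro c' hc'
      exact hCob (sha2 hP hPH hX hc')
  have h1 : tr X c ∈ Sym p ζ H := hle hcP
  have h2 : c ^ X.card / tr X c ∈ Sym p ζ H := hCob (sha1 hP hPH hX hc)
  have h3 := (Sym p ζ H).mul_mem h2 h1
  rwa [div_mul_cancel, card_cst hPH hX] at h3

end BrR
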