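import Pool.Agent.H48.BR.Gam
import Pool.Agent.H48.BR.Shc

set_option autoImplicit false

/-! # Row Psi: Case III (about 150 lines)

THEOREM `case3`. `TmP p ζ w`, `c ∈ Coc ⊤`, `c ∈ Sym p ζ (Gz ζ)`, `c^p ∈ Cob ⊤` ⇒ `c ∈ Cob ⊤`.
PROOF. `H, Fintype` from `TmP`. `Ψ c' := ∏ t : G ⧸ H, inn t.out c'`, multiplicative (`inn_mul`) (as a `MonoidHom` or direct lemmas).
(i) `c' ∈ Cob (Gz ζ)` ⇒ `c' ∈ Cob H` (`Cob_anti`) ⇒ `Ψ c' ∈ Cob H` (`inn_cob`, `prod_mem`).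
(ii) `c' = sy α β`, `α^p, β^p` fixed by `Gz ζ`: on `H × H`: `Ψ c' = ∏ t, (sy (t.out•α) (t.out•β)) ^ ((w t.out)⁻¹).val` (`inn_sy'`; `H ≤ Gz ζ` fixes `ζ`).
  `sy (t.out•α) (t.out•β) ∈ Vg p H` (`sy_mem_Vg`; `(t.out•α)^p = t.out • α^p` is fixed by `H`: `H` normal, `α^p` fixed by `H`).
  Its class: `∑ t, (w t.out)⁻¹ • vc (sy ..) = ∑ t, (w t.out)⁻¹ • SF (t.out • α^p) (t.out • β^p) = BB (α^p) (β^p) = 0` (`vc_sum`, `vc_smul`,
  `SF_eq`), so the product is in `Cob H` (`vc_eq_zero`), and `Ψ c' ∈ Cob H` (`div_mem_Cob_of_eq`).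
(iii) So `Ψ c ∈ Cob H` (`Sym` is the sup of the closure of the `sy` and `Cob`: `Subgroup.mem_sup`, `closure_induction`).
(iv) `inn t.out c / c ∈ Cob ⊤ ≤ Cob H` (`inn_coc`), so `Ψ c / c^n ∈ Cob H`, `n = card (G⧸H) = H.index`. Hence `c^n ∈ Cob H`,
  `(c^n)^n ∈ Cob ⊤` (`res_cores` with `H := ⊤`, `P := H`, `relIndex_top_right`), `c^p ∈ Cob ⊤`, `n*n` coprime to `p`:
  `pow_coprime_mem`. -/

namespace BrR

variable {F Ω : Type} [Field F] [Field Ω] [Algebra F Ω] [IsGalois F Ω] [IsSepClosed Ω]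

omit [IsGalois F Ω] [IsSepClosed Ω] in
theorem Psi_inn_one (g : Gal(Ω/F)) : inn g (1 : Gal(Ω/F) → Gal(Ω/F) → Ωˣ) = 1 := by
  funext h k
  simp [inn]

/-- the twisted norm: product of the conjugates of a cochain, as a homomorphism -/
noncomputable def Psi_N (H : Subgroup Gal(Ω/F)) [Fintype (Gal(Ω/F) ⧸ H)] :
    (Gal(Ω/F) → Gal(Ω/F) → Ωˣ) →* (Gal(Ω/F) → Gal(Ω/F) → Ωˣ) where
  toFun c := ∏ t : Gal(Ω/F) ⧸ H, inn t.out c
  map_one' := by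
    refine Finset.prod_eq_one fun t _ => ?_
    exact Psi_inn_one _
  map_mul' c c' := by
    rw [← Finset.prod_mul_distrib]
    exact Finset.prod_congr rfl fun t _ => inn_mul _ _ _

omit [IsGalois F Ω] [IsSepClosed Ω] in
theorem Psi_N_apply (H : Subgroup Gal(Ω/F)) [Fintype (Gal(Ω/F) ⧸ H)]
    (c : Gal(Ω/F) → Gal(Ω/F) → Ωˣ) : Psi_N H c = ∏ t : Gal(Ω/F) ⧸ H, inn t.out c := rfl

theorem Psi_sy {p : ℕ} [Fact p.Prime] (hpΩ : (p : Ω) ≠ 0) {ζ : Ωˣ}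
    (hζ : IsPrimitiveRoot ζ p) (w : Gal(Ω/F) →* (ZMod p)ˣ)
    (hw : ∀ g : Gal(Ω/F), g • ζ = pw p ζ (w g : ZMod p)) {H : Subgroup Gal(Ω/F)}
    [Fintype (Gal(Ω/F) ⧸ H)] (hH : H.Normal) (hHz : H ≤ Gz ζ)
    (hBB : ∀ a b : Ω, a ≠ 0 → b ≠ 0 → (∀ h ∈ Gz (F := F) ζ, h • a = a) →
      (∀ h ∈ Gz (F := F) ζ, h • b = b) → BB p ζ H w a b = 0) {α β : Ωˣ}
    (hα : ∀ h ∈ Gz (F := F) ζ, h • (α ^ p) = α ^ p)
    (hβ : ∀ h ∈ Gz (F := F) ζ, h • (β ^ p) = β ^ p) : Psi_N H (sy p ζ α β) ∈ Cob H := by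
  have hp : p.Prime := Fact.out
  have hζH : ∀ h ∈ H, h • ζ = ζ := fun h hh => hHz hh
  have hαH : ∀ h ∈ H, h • (α ^ p) = α ^ p := fun h hh => hα h (hHz hh)
  have hβH : ∀ h ∈ H, h • (β ^ p) = β ^ p := fun h hh => hβ h (hHz hh)
  -- the elements of `Ω`
  have hαv : (α : Ω) ^ p = ((α ^ p : Ωˣ) : Ω) := (Units.val_pow_eq_pow_val α p).symm
  have hβv : (β : Ω) ^ p = ((β ^ p : Ωˣ) : Ω) := (Units.val_pow_eq_pow_val β p).symm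
  set a : Ω := ((α ^ p : Ωˣ) : Ω) with ha
  set b : Ω := ((β ^ p : Ωˣ) : Ω) with hb
  have haz : ∀ h ∈ Gz (F := F) ζ, h • a = a := fun h hh => by
    rw [ha, ← Bn_coe_smul, hα h hh]
  have hbz : ∀ h ∈ Gz (F := F) ζ, h • b = b := fun h hh => by
    rw [hb, ← Bn_coe_smul, hβ h hh]
  have haH : ∀ h ∈ H, h • a = a := fun h hh => haz h (hHz hh)
  have hbH : ∀ h ∈ H, h • b = b := fun h hh => hbz h (hHz hh)
  have h0 := hBB a b (Units.ne_zero _) (Units.ne_zero _) haz hbz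
  have hmem : ∀ t : Gal(Ω/F) ⧸ H, sy p ζ (t.out • α) (t.out • β) ∈ Vg p H := fun t =>
    sy_mem_Vg hζ hζH
      (Bn_fix_pow (Bn_smul_pow hαv t.out) (Bn_fix hH haH t.out))
      (Bn_fix_pow (Bn_smul_pow hβv t.out) (Bn_fix hH hbH t.out))
  have hterm : ∀ t : Gal(Ω/F) ⧸ H,
      (((w t.out)⁻¹ : (ZMod p)ˣ) : ZMod p) • SF p ζ H (t.out • a) (t.out • b) =
      vc ((sy p ζ (t.out • α) (t.out • β)) ^ (((w t.out)⁻¹ : (ZMod p)ˣ) : ZMod p).val)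
        (pow_mem (hmem t) _) := by
    intro t
    rw [← vc_smul, SF_eq hpΩ hζ hζH (Bn_smul_pow hαv t.out) (Bn_smul_pow hβv t.out)
      (Bn_fix hH haH t.out) (Bn_fix hH hbH t.out) (hmem t)]
  unfold BB at h0
  rw [Finset.sum_congr rfl fun t _ => hterm t, ← vc_sum, vc_eq_zero] at h0
  have hval : ∀ h ∈ H, ∀ k ∈ H, Psi_N H (sy p ζ α β) h k = (∏ t : Gal(Ω/F) ⧸ H,
      (sy p ζ (t.out • α) (t.out • β)) ^ (((w t.out)⁻¹ : (ZMod p)ˣ) : ZMod p).val) h k := by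
    intro h hh k hk
    rw [Psi_N_apply, Finset.prod_apply, Finset.prod_apply, Finset.prod_apply, Finset.prod_apply]
    refine Finset.prod_congr rfl fun t _ => ?_
    rw [inn_sy' hp hζ hH hζH hαH hβH t.out (hw t.out) hh hk]
    rfl
  have := mul_mem (div_mem_Cob_of_eq hval) h0
  rwa [div_mul_cancel] at this

theorem case3 {p : ℕ} [Fact p.Prime] (hpΩ : (p : Ω) ≠ 0) {ζ : Ωˣ}
    (hζ : IsPrimitiveRoot ζ p) (w : Gal(Ω/F) →* (ZMod p)ˣ)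
    (hw : ∀ g : Gal(Ω/F), g • ζ = pw p ζ (w g : ZMod p)) (hTm : TmP p ζ w)
    {c : Gal(Ω/F) → Gal(Ω/F) → Ωˣ} (hc : c ∈ Coc ⊤) (hcS : c ∈ Sym p ζ (Gz ζ))
    (hcp : c ^ p ∈ Cob (⊤ : Subgroup Gal(Ω/F))) : c ∈ Cob (⊤ : Subgroup Gal(Ω/F)) := by
  obtain ⟨H, hfin, hON, hHz, hcop, hBB⟩ := hTm
  obtain ⟨hH, hHo⟩ := hON
  -- `Ψ c ∈ Cob H`
  have hle : Sym p ζ (Gz (F := F) ζ) ≤ (Cob H).comap (Psi_N H) := by
    unfold Sym
    refine sup_le ?_ ?_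
    · rw [Subgroup.closure_le]
      rintro c' ⟨α, β, hα, hβ, rfl⟩
      exact Psi_sy hpΩ hζ w hw hH hHz hBB hα hβ
    · intro c' hc'
      rw [Subgroup.mem_comap, Psi_N_apply]
      exact prod_mem fun t _ => inn_cob hH t.out (Cob_anti hHz hc')
  have h1 : Psi_N H c ∈ Cob H := hle hcS
  -- `Ψ c / c ^ n ∈ Cob H`
  have h2 : Psi_N H c / c ^ (Fintype.card (Gal(Ω/F) ⧸ H)) ∈ Cob H := by
    have e : Psi_N H c / c ^ (Fintype.card (Gal(Ω/F) ⧸ H)) =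
        ∏ t : Gal(Ω/F) ⧸ H, inn t.out c / c := by
      rw [Finset.prod_div_distrib, Finset.prod_const, Finset.card_univ, Psi_N_apply]
    rw [e]
    exact prod_mem fun t _ => Cob_anti le_top (inn_coc t.out hc)
  have hn : Fintype.card (Gal(Ω/F) ⧸ H) = H.index := by
    rw [Subgroup.index_eq_card, Nat.card_eq_fintype_card]
  have h3 : c ^ H.index ∈ Cob H := by
    have := div_mem h1 h2
    rw [hn, div_div_cancel] at this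
    exact this
  have h4 : (c ^ H.index) ^ (H.relIndex ⊤) ∈ Cob (⊤ : Subgroup Gal(Ω/F)) :=
    res_cores hHo le_top (pow_mem hc _) h3
  rw [Subgroup.relIndex_top_right, ← pow_mul] at h4
  exact pow_coprime_mem _ c h4 hcp (Nat.Coprime.mul_left hcop hcop)

end BrR
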