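import Pool.Agent.H48.BR.Gam

set_option autoImplicit false

/-! # Row Tma: `T_m = 0` for `m = 1, 2, 3, 4` (about 150 lines)

Take `H = Gz ζ` (normal, open, index `m` coprime to `p`; `Fintype` from `finite_quot`), `N = NN H`, `LN ζ H = ⊤` (every element of
`N` is fixed by `H = Gz ζ`). `g₀` from `exists_gen`, `S = twsym ... g₀`, `ω = w g₀` of order `m` in `(ZMod p)ˣ`; `g₀^m ∈ Gz ζ = H`
(`w_eq_one`, `pow_orderOf_eq_one`), so `resN g₀` iterated `m` times is the identity of `N`. For `a b : Ω` fixed by `Gz ζ`, view them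
in `N` (`mem_NN`) and apply
* `m = 1`: `g₀ ∈ Gz ζ`, so every `g` is in `Gz ζ` (`hgen`), `a` is fixed by `G`: `BB_fixed` (or `S.fixed`).
* `m = 2`: `TwSym.two`, `ω = -1` (order two in a field; `2 ≠ 0` in `ZMod p` as `p` is odd).
* `m = 4`: `TwSym.four`, `ω^2 = -1` (`(ω^2)^2 = 1`, `ω^2 ≠ 1`).
* `m = 3`: `TwSym.three`, `ω^2 + ω + 1 = 0`, `ω ≠ 1`. The hypothesis `hdim`: any four elements `e i` of `N` are linearly dependent over
  `F`, so there are `c i` in the image of `F` (fixed by everything, elements of `LN`), not all zero, with `∑ c i * e i = 0`: the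
  `F`-dimension of `NN H` is `3`: `NN (Gz ζ) = F⟮ζ⟯` (`InfiniteGalois.fixedField_fixingSubgroup`, the fixing subgroup of `F⟮(ζ:Ω)⟯` is
  `Gz ζ`) and `finrank F F⟮ζ⟯ = natDegree (minpoly F ζ)` = number of conjugates = size of the orbit of `ζ` = index of the
  stabiliser `Gz ζ`; or: `FiniteDimensional` and `IsGalois.card_aut_eq_finrank` with `Gal(N/F) ≃ G ⧸ Gz ζ`
  (`InfiniteGalois.normalAutEquivQuotient`). With `Module.finrank F N = 3 < 4`: `exists_nontrivial_relation_of_finrank_lt_card` or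
  `¬ LinearIndependent` via `LinearIndependent.fintype_card_le_finrank`. -/

namespace BrR

variable {F Ω : Type} [Field F] [Field Ω] [Algebra F Ω] [IsGalois F Ω] [IsSepClosed Ω]

theorem nn_finrank {H : Subgroup Gal(Ω/F)} (hH : H.Normal) (hHo : IsOpen (H : Set Gal(Ω/F))) :
    FiniteDimensional F ↥(NN H) ∧ Module.finrank F ↥(NN H) = H.index := by
  have hcl : IsClosed (H : Set Gal(Ω/F)) := Subgroup.isClosed_of_isOpen H hHo
  have hfix : (NN H).fixingSubgroup = H :=
    InfiniteGalois.fixingSubgroup_fixedField ⟨H, hcl⟩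
  constructor
  · rw [← InfiniteGalois.isOpen_iff_finite, hfix]
    exact hHo
  · rw [IntermediateField.finrank_eq_fixingSubgroup_index, hfix]

theorem Tma_sq {p : ℕ} [Fact p.Prime] {x : ZMod p} (h1 : x ^ 2 = 1) (h2 : x ≠ 1) : x = -1 := by
  have h3 : (x - 1) * (x + 1) = 0 := by linear_combination h1
  rcases mul_eq_zero.1 h3 with h | h
  · exact absurd (sub_eq_zero.1 h) h2
  · exact eq_neg_of_add_eq_zero_left h

theorem tma {p : ℕ} [Fact p.Prime] (hodd : Odd p) (hpΩ : (p : Ω) ≠ 0) {ζ : Ωˣ}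
    (hζ : IsPrimitiveRoot ζ p) (w : Gal(Ω/F) →* (ZMod p)ˣ)
    (hw : ∀ g : Gal(Ω/F), g • ζ = pw p ζ (w g : ZMod p)) (hA : HypA F p ζ)
    (hm : (Gz (F := F) ζ).index = 1 ∨ (Gz (F := F) ζ).index = 2 ∨ (Gz (F := F) ζ).index = 3 ∨
      (Gz (F := F) ζ).index = 4) : TmP p ζ w := by
  have hp : p.Prime := Fact.out
  have hHn := gz_normal (F := F) hp hζ
  have hHo := gz_open (F := F) ζ
  haveI hfin : Finite (Gal(Ω/F) ⧸ Gz (F := F) ζ) := finite_quot hHo
  haveI hft : Fintype (Gal(Ω/F) ⧸ Gz (F := F) ζ) := Fintype.ofFinite _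
  obtain ⟨g₀, hgen, hord⟩ := exists_gen (F := F) hp hζ w hw
  refine ⟨Gz (F := F) ζ, hft, ⟨hHn, hHo⟩, le_rfl, gz_coprime hp hζ, ?_⟩
  intro a b ha0 hb0 ha hb
  let S := twsym hpΩ hζ hHn hHo (fun h hh => mem_Gz.1 hh) w hw hA g₀ hgen
  have haN : a ∈ NN (Gz (F := F) ζ) := mem_NN.2 ha
  have hbN : b ∈ NN (Gz (F := F) ζ) := mem_NN.2 hb
  have hS : S.B ⟨a, haN⟩ ⟨b, hbN⟩ = BB p ζ (Gz ζ) w a b := rfl
  rw [← hS]
  have ha0' : (⟨a, haN⟩ : ↥(NN (Gz (F := F) ζ))) ≠ 0 := by
    intro h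
    exact ha0 (congrArg Subtype.val h)
  have hb0' : (⟨b, hbN⟩ : ↥(NN (Gz (F := F) ζ))) ≠ 0 := by
    intro h
    exact hb0 (congrArg Subtype.val h)
  have hLN : ∀ x : ↥(NN (Gz (F := F) ζ)), x ∈ LN ζ (Gz (F := F) ζ) := fun x =>
    mem_LN.2 (mem_NN.1 x.2)
  have hgm : g₀ ^ (Gz (F := F) ζ).index ∈ Gz (F := F) ζ := by
    rw [← w_eq_one hp hζ w hw, map_pow, ← hord, pow_orderOf_eq_one]
  have hfix : ∀ x : ↥(NN (Gz (F := F) ζ)), (g₀ ^ (Gz (F := F) ζ).index) • (x : Ω) = x :=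
    fun x => mem_NN.1 x.2 _ hgm
  have h2p : (2 : ZMod p) ≠ 0 := by
    intro h
    have h1 : ((2 : ℕ) : ZMod p) = 0 := by exact_mod_cast h
    rw [ZMod.natCast_eq_zero_iff] at h1
    have h2 := (Nat.prime_dvd_prime_iff_eq hp Nat.prime_two).1 h1
    rw [h2] at hodd
    exact absurd hodd (by decide)
  have hpw : ((w g₀ : (ZMod p)ˣ) : ZMod p) ^ (Gz (F := F) ζ).index = 1 := by
    rw [← Units.val_pow_eq_pow_val, ← hord, pow_orderOf_eq_one, Units.val_one]
  rcases hm with hm | hm | hm | hm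
  · -- index 1
    have htop := Subgroup.index_eq_one.1 hm
    refine S.fixed _ _ ha0' hb0' (hLN _) ?_
    apply Subtype.ext
    rw [resN_coe]
    exact ha g₀ (by rw [htop]; exact Subgroup.mem_top _)
  · -- index 2
    rw [hm] at hfix hpw hord
    have hne : ((w g₀ : (ZMod p)ˣ) : ZMod p) ≠ 1 := by
      intro h
      have h1 : w g₀ = 1 := Units.ext h
      rw [h1, orderOf_one] at hord
      omega
    refine S.two (Tma_sq hpw hne) h2p (fun x _ => hLN _) (fun x => ?_) _ _ (hLN _) ha0' (hLN _)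
      hb0'
    apply Subtype.ext
    rw [resN_coe, resN_coe, smul_smul, ← pow_two]
    exact hfix x
  · -- index 3
    rw [hm] at hfix hpw hord
    have hne : ((w g₀ : (ZMod p)ˣ) : ZMod p) ≠ 1 := by
      intro h
      have h1 : w g₀ = 1 := Units.ext h
      rw [h1, orderOf_one] at hord
      omega
    have hω : ((w g₀ : (ZMod p)ˣ) : ZMod p) ^ 2 + ((w g₀ : (ZMod p)ˣ) : ZMod p) + 1 = 0 := by
      have h3 : (((w g₀ : (ZMod p)ˣ) : ZMod p) - 1) *
          (((w g₀ : (ZMod p)ˣ) : ZMod p) ^ 2 + ((w g₀ : (ZMod p)ˣ) : ZMod p) + 1) = 0 := by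
        linear_combination hpw
      exact (mul_eq_zero.1 h3).resolve_left (sub_ne_zero.2 hne)
    obtain ⟨hfd, hfr⟩ := nn_finrank hHn hHo
    refine S.three hω hne (fun x _ => hLN _) (fun x => ?_) ?_ _ _ (hLN _) ha0' (hLN _) hb0'
    · apply Subtype.ext
      rw [resN_coe, resN_coe, resN_coe, smul_smul, smul_smul]
      have h4 := hfix x
      rwa [pow_succ, pow_two] at h4
    · intro e _
      have hli : ¬ LinearIndependent F e := by
        intro hli
        have h5 := hli.fintype_card_le_finrank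
        rw [hfr, hm, Fintype.card_fin] at h5
        omega
      rw [Fintype.not_linearIndependent_iff] at hli
      obtain ⟨c, hc, i, hi⟩ := hli
      refine ⟨fun i => algebraMap F _ (c i), ⟨i, ?_⟩, fun j => ⟨hLN _, ?_⟩, ?_⟩
      · intro h
        apply hi
        exact (map_eq_zero _).1 h
      · apply Subtype.ext
        rw [resN_coe]
        exact AlgEquiv.commutes g₀ (c j)
      · rw [Fin.sum_univ_four] at hc
        simpa only [Algebra.smul_def] using hc
  · -- index 4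
    rw [hm] at hfix hpw hord
    have hne : ((w g₀ : (ZMod p)ˣ) : ZMod p) ^ 2 ≠ 1 := by
      intro h
      have h1 : w g₀ ^ 2 = 1 := Units.ext (by rw [Units.val_pow_eq_pow_val, h, Units.val_one])
      have h2 := orderOf_dvd_of_pow_eq_one h1
      rw [hord] at h2
      omega
    have hω : ((w g₀ : (ZMod p)ˣ) : ZMod p) ^ 2 = -1 := by
      refine Tma_sq ?_ hne
      rw [← pow_mul]
      exact hpw
    refine S.four hω h2p (fun x _ => hLN _) (fun x => ?_) _ _ (hLN _) ha0' (hLN _) hb0'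
    apply Subtype.ext
    rw [resN_coe, resN_coe, resN_coe, resN_coe, smul_smul, smul_smul, smul_smul]
    have h4 := hfix x
    rwa [show (4 : ℕ) = 1 + 1 + 1 + 1 from rfl, pow_add, pow_add, pow_add, pow_one] at h4

end BrR
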