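import Pool.Agent.H48.BR.Gam

set_option autoImplicit false

/-! # Row Tmb: `T_6 = 0` (about 150 lines)

`(Gz ζ).index = 6` divides `p - 1`, so `p ≥ 7` and `2, 3 ≠ 0` in `ZMod p`.
`θ ∈ Ω` with `θ^2 + θ + 1 = 0`: if `(3 : Ω) = 0` take `θ = 1`; otherwise the polynomial `X^2 + X + 1` is separable (discriminant `-3`) or: take
`θ` a primitive cube root of unity, obtained from `X^3 - 1` separable: `IsSepClosed` gives roots; (e.g. `IsSepClosed.exists_root` for
`cyclotomic 3`, `Polynomial.separable_cyclotomic`?). `θ ≠ 0`; every `g ∈ G` maps `θ` to `θ` or `θ^2 = θ⁻¹ = -1-θ` (the two roots), so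
`g • g • θ = θ`.
`H = Gz ζ ⊓ stabilizer θ` : normal (a conjugate of an element fixing `θ` fixes `θ` since `g•θ ∈ {θ, θ⁻¹}`), open, index divides `12`:
`H.index = (Gz ζ).index * H.relIndex (Gz ζ)` and the relative index is at most `2` (orbit of `θ`), so `H.index ∈ {6, 12}`, coprime to
`p ≥ 7` (p prime, `p ∣ 12` impossible). `g₀` from `exists_gen`, `ω = w g₀` of order `6`: `ω^2 - ω + 1 = 0` (factor `ω^6 - 1 = (ω^3 - 1)(ω+1)(ω^2-ω+1)`,
`ω^3 ≠ 1`, `ω ≠ -1` since `ω^2 ≠ 1`). `g₀^6 ∈ Gz ζ` and fixes `θ`: so in `H`: `h6` for `resN g₀`. `γ (γ θ) = θ`.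
`hL`: `resN g₀` maps `LN` to itself (`Gz ζ` normal: `gz_normal`). Apply `TwSym.six` to `S = twsym ...` and `a, b` (fixed by `Gz ζ ≥ H`, so in `N`, and in
`LN`). -/

namespace BrR

variable {F Ω : Type} [Field F] [Field Ω] [Algebra F Ω]

/-- a root of `X ^ 2 + X + 1` -/
theorem Tmb_theta [IsSepClosed Ω] : ∃ θ : Ω, θ ^ 2 + θ + 1 = 0 := by
  by_cases h3 : (3 : Ω) = 0
  · refine ⟨1, ?_⟩
    rw [← h3]
    norm_num
  · have hsep : (Polynomial.X ^ 2 + Polynomial.X + 1 : Polynomial Ω).Separable := by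
      rw [Polynomial.separable_def']
      refine ⟨Polynomial.C (4 / 3), - (Polynomial.C (1 / 3) * (2 * Polynomial.X + 1)), ?_⟩
      have hd : Polynomial.derivative (Polynomial.X ^ 2 + Polynomial.X + 1 : Polynomial Ω)
          = 2 * Polynomial.X + 1 := by
        simp only [Polynomial.derivative_add, Polynomial.derivative_X_pow,
          Polynomial.derivative_X, Polynomial.derivative_one]
        rw [Nat.cast_ofNat, map_ofNat Polynomial.C 2]
        norm_num
      rw [hd]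
      have h1 : (Polynomial.C (4 / 3) : Polynomial Ω) = 4 * Polynomial.C (1 / 3) := by
        rw [show (4 : Polynomial Ω) = Polynomial.C 4 from (map_ofNat Polynomial.C 4).symm,
          ← Polynomial.C_mul]
        congr 1
        ring
      have h2 : (3 : Polynomial Ω) * Polynomial.C (1 / 3) = 1 := by
        rw [show (3 : Polynomial Ω) = Polynomial.C 3 from (map_ofNat Polynomial.C 3).symm, ← Polynomial.C_mul,
          mul_one_div_cancel h3, Polynomial.C_1]
      rw [h1]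
      linear_combination h2
    obtain ⟨θ, hθ⟩ := IsSepClosed.exists_root (Polynomial.X ^ 2 + Polynomial.X + 1 : Polynomial Ω)
      (by
        have : (Polynomial.X ^ 2 + Polynomial.X + 1 : Polynomial Ω).degree = 2 := by
          compute_degree!
        rw [this]
        norm_num) hsep
    refine ⟨θ, ?_⟩
    have h1 : Polynomial.eval θ (Polynomial.X ^ 2 + Polynomial.X + 1 : Polynomial Ω) = 0 := hθ
    simpa using h1

theorem Tmb_conj {θ : Ω} (hθ : θ ^ 2 + θ + 1 = 0) (g : Gal(Ω/F)) :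
    g • θ = θ ∨ g • θ = -1 - θ := by
  have h1 : (g • θ) ^ 2 + g • θ + 1 = 0 := by
    have := congrArg (fun x => g • x) hθ
    simpa only [smul_add, smul_pow', smul_one, smul_zero] using this
  have h2 : (g • θ - θ) * (g • θ - (-1 - θ)) = 0 := by
    linear_combination h1 - hθ
  rcases mul_eq_zero.mp h2 with h | h
  · exact Or.inl (sub_eq_zero.mp h)
  · exact Or.inr (sub_eq_zero.mp h)

theorem Tmb_twice {θ : Ω} (hθ : θ ^ 2 + θ + 1 = 0) (g : Gal(Ω/F)) : g • g • θ = θ := by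
  rcases Tmb_conj hθ g with h | h
  · rw [h, h]
  · have h1 : g • (-1 - θ) = -1 - g • θ := by
      rw [smul_sub, smul_neg, smul_one]
    rw [h, h1, h]
    ring

theorem Tmb_normal {θ : Ω} (hθ : θ ^ 2 + θ + 1 = 0) :
    (MulAction.stabilizer Gal(Ω/F) θ).Normal := by
  constructor
  intro n hn g
  rw [MulAction.mem_stabilizer_iff] at hn ⊢
  have h1 : n • g⁻¹ • θ = g⁻¹ • θ := by
    rcases Tmb_conj hθ g⁻¹ with h | h
    · rw [h, hn]
    · rw [h, smul_sub, smul_neg, smul_one, hn]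
  rw [mul_smul, mul_smul, h1, smul_inv_smul]

theorem Tmb_index {θ : Ω} (hθ : θ ^ 2 + θ + 1 = 0) :
    (MulAction.stabilizer Gal(Ω/F) θ).index ∣ 2 := by
  rw [MulAction.index_stabilizer]
  have h1 : MulAction.orbit Gal(Ω/F) θ ⊆ {θ, -1 - θ} := by
    rintro _ ⟨g, rfl⟩
    exact Tmb_conj hθ g
  have hfin : (MulAction.orbit Gal(Ω/F) θ).Finite :=
    Set.Finite.subset (by simp) h1
  have h2 : (MulAction.orbit Gal(Ω/F) θ).ncard ≤ 2 := by
    refine (Set.ncard_le_ncard h1 (by simp)).trans ?_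
    have := Set.ncard_insert_le θ {-1 - θ}
    rwa [Set.ncard_singleton] at this
  have h3 : 0 < (MulAction.orbit Gal(Ω/F) θ).ncard := by
    rw [Set.ncard_pos hfin]
    exact ⟨θ, MulAction.mem_orbit_self θ⟩
  have h4 : (MulAction.orbit Gal(Ω/F) θ).ncard = 1 ∨
    (MulAction.orbit Gal(Ω/F) θ).ncard = 2 := by omega
  rcases h4 with h | h <;> rw [h]
  norm_num

/-- an element of order six of the units of `ZMod p` -/
theorem Tmb_omega {p : ℕ} [Fact p.Prime] (u : (ZMod p)ˣ) (hu : orderOf u = 6) :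
    (u : ZMod p) ^ 2 - (u : ZMod p) + 1 = 0 := by
  have h6 : (u : ZMod p) ^ 6 = 1 := by
    have : u ^ 6 = 1 := by rw [← hu]; exact pow_orderOf_eq_one u
    have h := congrArg (fun v : (ZMod p)ˣ => (v : ZMod p)) this
    simpa using h
  have h3 : (u : ZMod p) ^ 3 ≠ 1 := by
    intro h
    have h' : u ^ 3 = 1 := Units.ext (by simpa using h)
    have := orderOf_dvd_of_pow_eq_one h'
    rw [hu] at this
    exact absurd this (by norm_num)
  have h2 : (u : ZMod p) ^ 2 ≠ 1 := by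
    intro h
    have h' : u ^ 2 = 1 := Units.ext (by simpa using h)
    have := orderOf_dvd_of_pow_eq_one h'
    rw [hu] at this
    exact absurd this (by norm_num)
  have h1 : ((u : ZMod p) ^ 3 - 1) * (((u : ZMod p) + 1) * ((u : ZMod p) ^ 2 - (u : ZMod p) + 1))
      = 0 := by
    linear_combination h6
  have h4 := (mul_eq_zero.mp h1).resolve_left (sub_ne_zero.mpr h3)
  refine (mul_eq_zero.mp h4).resolve_left ?_
  intro h5
  apply h2
  linear_combination ((u : ZMod p) - 1) * h5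

variable [IsGalois F Ω] [IsSepClosed Ω]

theorem tmb {p : ℕ} [Fact p.Prime] (hodd : Odd p) (hpΩ : (p : Ω) ≠ 0) {ζ : Ωˣ}
    (hζ : IsPrimitiveRoot ζ p) (w : Gal(Ω/F) →* (ZMod p)ˣ)
    (hw : ∀ g : Gal(Ω/F), g • ζ = pw p ζ (w g : ZMod p)) (hA : HypA F p ζ)
    (hm : (Gz (F := F) ζ).index = 6) : TmP p ζ w := by
  have hp : p.Prime := Fact.out
  have h6p : 6 ∣ p - 1 := by
    have := gz_index_dvd (F := F) hp hζ
    rwa [hm] at this
  have hp7 : 7 ≤ p := by
    have h1 : 0 < p - 1 := by have := hp.two_le; omega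
    have := Nat.le_of_dvd h1 h6p
    omega
  have h2ne : (2 : ZMod p) ≠ 0 := by
    intro h
    have h' : ((2 : ℕ) : ZMod p) = 0 := by exact_mod_cast h
    rw [ZMod.natCast_eq_zero_iff] at h'
    have := Nat.le_of_dvd (by norm_num) h'
    omega
  have h3ne : (3 : ZMod p) ≠ 0 := by
    intro h
    have h' : ((3 : ℕ) : ZMod p) = 0 := by exact_mod_cast h
    rw [ZMod.natCast_eq_zero_iff] at h'
    have := Nat.le_of_dvd (by norm_num) h'
    omega
  obtain ⟨θ, hθ⟩ := Tmb_theta (Ω := Ω)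
  obtain ⟨g₀, hgen, hord⟩ := exists_gen (F := F) hp hζ w hw
  rw [hm] at hord
  have hω := Tmb_omega (w g₀) hord
  have hGn : (Gz (F := F) ζ).Normal := gz_normal hp hζ
  have hKn : (MulAction.stabilizer Gal(Ω/F) θ).Normal := Tmb_normal hθ
  obtain ⟨H, hHdef⟩ : ∃ H : Subgroup Gal(Ω/F), H = Gz ζ ⊓ MulAction.stabilizer Gal(Ω/F) θ :=
    ⟨_, rfl⟩
  have hH : H.Normal := by rw [hHdef]; infer_instance
  have hHo : IsOpen (H : Set Gal(Ω/F)) := by
    rw [hHdef, Subgroup.coe_inf]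
    refine (gz_open ζ).inter ?_
    obtain ⟨U, hU, hfix⟩ := smo_field (F := F) (Ω := Ω) θ
    exact Subgroup.isOpen_mono (H₁ := U) (fun u hu => hfix u hu) hU.2
  have hHG : H ≤ Gz ζ := by rw [hHdef]; exact inf_le_left
  have hζH : ∀ h ∈ H, h • ζ = ζ := fun h hh => hHG hh
  have hθH : ∀ h ∈ H, h • θ = θ := by
    intro h hh
    rw [hHdef] at hh
    exact hh.2
  have hidx : H.index ∣ 12 := by
    have h1 := Subgroup.relIndex_mul_index hHG
    have h2 : H.relIndex (Gz ζ) ∣ 2 := by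
      rw [hHdef, Subgroup.inf_relIndex_left]
      exact (Subgroup.relIndex_dvd_index_of_normal _ _).trans (Tmb_index hθ)
    rw [← h1, hm]
    exact Nat.mul_dvd_mul h2 (dvd_refl 6)
  have hcop : Nat.Coprime H.index p := by
    rw [Nat.coprime_comm, hp.coprime_iff_not_dvd]
    intro h
    have h1 : p ∣ 2 * 2 * 3 := h.trans hidx
    rcases (hp.dvd_mul).1 h1 with h2 | h2
    · rcases (hp.dvd_mul).1 h2 with h3 | h3
      · have := Nat.le_of_dvd (by norm_num) h3
        omega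
      · have := Nat.le_of_dvd (by norm_num) h3
        omega
    · have := Nat.le_of_dvd (by norm_num) h2
      omega
  have hfin : Finite (Gal(Ω/F) ⧸ H) := finite_quot hHo
  let _ : Fintype (Gal(Ω/F) ⧸ H) := Fintype.ofFinite _
  refine ⟨H, inferInstance, ⟨hH, hHo⟩, hHG, hcop, ?_⟩
  intro a b ha0 hb0 ha hb
  have h6H : g₀ ^ 6 ∈ H := by
    rw [hHdef]
    refine ⟨?_, ?_⟩
    · show g₀ ^ 6 ∈ Gz ζ
      rw [← w_eq_one hp hζ w hw, map_pow, ← hord, pow_orderOf_eq_one]
    · show g₀ ^ 6 • θ = θ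
      rw [show g₀ ^ 6 = g₀ * (g₀ * (g₀ * (g₀ * (g₀ * g₀)))) by
        simp only [pow_succ, pow_zero, one_mul, mul_assoc]]
      simp only [mul_smul, Tmb_twice hθ]
  have h6 : ∀ x, resN hH g₀ (resN hH g₀ (resN hH g₀ (resN hH g₀ (resN hH g₀
      (resN hH g₀ x))))) = x := by
    intro x
    apply Subtype.ext
    simp only [resN_coe, ← mul_smul]
    rw [show g₀ * (g₀ * (g₀ * (g₀ * (g₀ * g₀)))) = g₀ ^ 6 by
      simp only [pow_succ, pow_zero, one_mul, mul_assoc]]
    exact mem_NN.1 x.2 _ h6H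
  have hL : ∀ x ∈ LN ζ H, resN hH g₀ x ∈ LN ζ H := by
    intro x hx
    rw [mem_LN] at hx ⊢
    rw [resN_coe]
    exact Bn_fix hGn hx g₀
  have hmem : ∀ x : Ω, (∀ h ∈ Gz (F := F) ζ, h • x = x) → x ∈ NN H := fun x hx =>
    mem_NN.2 fun h hh => hx h (hHG hh)
  have key := (twsym hpΩ hζ hH hHo hζH w hw hA g₀ hgen).six hω h2ne h3ne hL h6
    ⟨θ, mem_NN.2 hθH⟩ (Subtype.ext hθ) (Subtype.ext (Tmb_twice hθ g₀))
    ⟨a, hmem a ha⟩ ⟨b, hmem b hb⟩ ha (fun h => ha0 (congrArg Subtype.val h)) hb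
    (fun h => hb0 (congrArg Subtype.val h))
  exact key

end BrR
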