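import Pool.Agent.H48.BR.Sy1
import Pool.Agent.H48.BR.Psi
import Pool.Agent.H48.BR.Tma
import Pool.Agent.H48.BR.Tmb
import Pool.Agent.H48.BR.Cn

set_option autoImplicit false

/-! # The cohomological form of the main theorem (assembly, complete) -/

namespace BrR

variable {F Ω : Type} [Field F] [Field Ω] [Algebra F Ω] [IsGalois F Ω] [IsSepClosed Ω]

theorem main_coh {p : ℕ} [hpf : Fact p.Prime] (hodd : Odd p) (hpΩ : (p : Ω) ≠ 0) {ζ : Ωˣ}
    (hζ : IsPrimitiveRoot ζ p)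
    (hm : (Gz (F := F) ζ).index = 1 ∨ (Gz (F := F) ζ).index = 2 ∨ (Gz (F := F) ζ).index = 3 ∨
      (Gz (F := F) ζ).index = 4 ∨ (Gz (F := F) ζ).index = 6)
    {c : Gal(Ω/F) → Gal(Ω/F) → Ωˣ} (hc : c ∈ Coc ⊤) (hne : c ∉ Cob ⊤)
    {H' : Subgroup Gal(Ω/F)} (hH' : IsOpen (H' : Set Gal(Ω/F))) (hidx : H'.index = p)
    (hcH : c ∈ Cob H') : ∃ y : ℕ → Gal(Ω/F) → Gal(Ω/F) → Ωˣ, DivSeq p y := by
  have hp : p.Prime := hpf.out
  haveI : NeZero p := ⟨hp.ne_zero⟩
  obtain ⟨z, hz0, hz1, hz2⟩ := exists_zsys p hp hpΩ ζ hζ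
  have hz : ZSys p ζ z := ⟨hz0, hz1, hz2⟩
  have hcop : Nat.Coprime (Gz (F := F) ζ).index p := gz_coprime hp hζ
  by_cases hI : HypI F p z
  · by_cases hA : HypA F p ζ
    · exfalso
      apply hne
      obtain ⟨w, hw⟩ := exists_w (F := F) hp hζ
      have hTm : TmP p ζ w := by
        rcases hm with h | h | h | h | h
        · exact tma hodd hpΩ hζ w hw hA (Or.inl h)
        · exact tma hodd hpΩ hζ w hw hA (Or.inr (Or.inl h))
        · exact tma hodd hpΩ hζ w hw hA (Or.inr (Or.inr (Or.inl h)))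
        · exact tma hodd hpΩ hζ w hw hA (Or.inr (Or.inr (Or.inr h)))
        · exact tmb hodd hpΩ hζ w hw hA h
      have hS : c ∈ Sym p ζ (Gz ζ) := sym_of_split hp hodd hpΩ hζ hcop hH' hidx hc hcH
      have hcp : c ^ p ∈ Cob (⊤ : Subgroup Gal(Ω/F)) := by
        have h := res_cores (H := (⊤ : Subgroup Gal(Ω/F))) (P := H') hH' le_top hc hcH
        rwa [Subgroup.relIndex_top_right, hidx] at h
      exact case3 hpΩ hζ w hw hTm hc hS hcp
    · unfold HypA at hA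
      push Not at hA
      obtain ⟨φ, hφ, χ, hχ, hχ2, hn⟩ := hA
      exact case2 hodd hpΩ hz hcop hI φ hφ χ hχ hχ2 hn
  · unfold HypI at hI
    push Not at hI
    obtain ⟨s, θ, hθ, j, a, ha, hn⟩ := hI
    exact case1 hθ j a ha hn

end BrR
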