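import Pool.Agent.H48.BR.Smo

set_option autoImplicit false

/-! # Definition of `IsRep` and easy facts (row Rep, about 130 lines)

`IsRep F Ω B ι c`: the finite dimensional `F`-algebra `B` is an `F`-form of the matrix algebra `M_ι(Ω)`, and its class is the
2-cocycle `c`: there are `ρ : B →ₐ[F] M_ι(Ω)` whose image spans `M_ι(Ω)` over `Ω`, `dim_F B ≤ |ι|²`, and a locally constant
`T : G → GL_ι(Ω)` with `T g * g(ρ b) = ρ b * T g` and `T g * g(T h) = c g h • T (g h)`.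

* `IsRep.cob`: `c' = c * dd b` on `G` (`H = ⊤`): replace `T g` by `b g • T g` (unit: `Units` smul or multiply by the scalar matrix).
* `isRep_matrix`: `B = M_ι(F)`, `ρ = ` map of `algebraMap F Ω` entrywise (`Matrix.mapAlgHom`-like / `(Algebra.ofId F Ω).mapMatrix`), `T = 1`. Span: the
  matrix units `Matrix.single i j 1` are in the range. `Module.finrank_matrix`. `g` fixes `algebraMap F Ω x`.
* `IsRep.equiv`: transport along `e : B ≃ₐ[F] B'`.
* `IsRep.reindex`: transport along `e : ι ≃ ι'` (`Matrix.reindexAlgEquiv`).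
* `isRep_coc`: `c ∈ Coc ⊤` if `ι` is nonempty. LC2: let `U` be ON with `T (g u) = T g` and fixing all the entries of all `T g` (finitely many
  values, `LC1.finite_range`, `Smo.fix_finite` with `smo_field`): `c g h • T (g h)` does not change under `g ↦ g u`, `h ↦ h v` (`T (g u h v) = T (g h u' v)`, `u' = h⁻¹ u h ∈ U`), and
  `T (g h)` is invertible, so nonzero. Cocycle identity: compute `T g * g(T h) * gh(T k)` in two ways:
  `T g * g(T h * h(T k)) = T g * g(c h k • T (h k)) = g(c h k) • c g (h k) • T (g h k)` and `(c g h • T (g h)) * gh(T k) = c g h * c (g h) k • T (g h k)`. -/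

namespace BrR

/-- `B` is an `F`-form of `M_ι(Ω)` with class `c` -/
def IsRep (F Ω : Type) [Field F] [Field Ω] [Algebra F Ω] (B : Type) [Ring B] [Algebra F B]
    (ι : Type) [Fintype ι] [DecidableEq ι] (c : Gal(Ω/F) → Gal(Ω/F) → Ωˣ) : Prop :=
  ∃ (ρ : B →ₐ[F] Matrix ι ι Ω) (T : Gal(Ω/F) → (Matrix ι ι Ω)ˣ),
    Submodule.span Ω (Set.range ρ) = ⊤ ∧ Module.Finite F B ∧
    Module.finrank F B ≤ Fintype.card ι ^ 2 ∧ LC1 T ∧
    (∀ (g : Gal(Ω/F)) (b : B), (T g : Matrix ι ι Ω) * (ρ b).map g = ρ b * (T g : Matrix ι ι Ω)) ∧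
    (∀ g h : Gal(Ω/F), (T g : Matrix ι ι Ω) * ((T h : Matrix ι ι Ω)).map g =
      (c g h : Ω) • (T (g * h) : Matrix ι ι Ω))

variable {F Ω : Type} [Field F] [Field Ω] [Algebra F Ω] [IsGalois F Ω]

theorem Rep_map_smul {ι : Type} [Fintype ι] [DecidableEq ι] (g : Gal(Ω/F)) (x : Ω)
    (M : Matrix ι ι Ω) : (x • M).map g = (g x) • M.map g := by
  ext i j
  simp [Matrix.map_apply]

theorem Rep_map_mul {ι : Type} [Fintype ι] [DecidableEq ι] (g : Gal(Ω/F))
    (M N : Matrix ι ι Ω) : (M * N).map g = M.map g * N.map g :=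
  Matrix.map_mul (f := (g : Ω →+* Ω))

theorem Rep_map_map {ι : Type} [Fintype ι] [DecidableEq ι] (g h : Gal(Ω/F))
    (M : Matrix ι ι Ω) : (M.map h).map g = M.map (g * h : Gal(Ω/F)) := by
  ext i j
  simp [Matrix.map_apply]

theorem IsRep.cob {B : Type} [Ring B] [Algebra F B] {ι : Type} [Fintype ι] [DecidableEq ι]
    {c c' : Gal(Ω/F) → Gal(Ω/F) → Ωˣ} (h : IsRep F Ω B ι c)
    (hcc : c' / c ∈ Cob (⊤ : Subgroup Gal(Ω/F))) : IsRep F Ω B ι c' := by
  obtain ⟨ρ, T, h1, h2, h3, h4, h5, h6⟩ := h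
  obtain ⟨b, hb, hbc⟩ := hcc
  let S : Ωˣ →* (Matrix ι ι Ω)ˣ := Units.map (algebraMap Ω (Matrix ι ι Ω)).toMonoidHom
  have hS : ∀ x : Ωˣ, ∀ y : (Matrix ι ι Ω)ˣ,
      ((S x * y : (Matrix ι ι Ω)ˣ) : Matrix ι ι Ω) = (x : Ω) • (y : Matrix ι ι Ω) := by
    intro x y
    rw [Units.val_mul, Algebra.smul_def]
    rfl
  refine ⟨ρ, fun g => S (b g) * T g, h1, h2, h3, hb.comp₂ h4 (fun x y => S x * y), ?_, ?_⟩
  · intro g x
    rw [hS, smul_mul_assoc, h5, mul_smul_comm]
  · intro g k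
    have h7 := hbc g (Subgroup.mem_top g) k (Subgroup.mem_top k)
    have h8 : (c' g k : Ω) * (b (g * k) : Ω) = (b g : Ω) * g (b k : Ω) * (c g k : Ω) := by
      have h9 : c' g k * b (g * k) = b g * g • b k * c g k := by
        rw [Pi.div_apply, Pi.div_apply, dd, div_eq_div_iff_mul_eq_mul] at h7
        rw [h7]
      have h10 := congrArg (fun u : Ωˣ => (u : Ω)) h9
      simpa using h10
    rw [hS, hS, hS, Rep_map_smul, smul_mul_smul_comm, h6, smul_smul, smul_smul, h8]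

theorem isRep_matrix (ι : Type) [Fintype ι] [DecidableEq ι] :
    IsRep F Ω (Matrix ι ι F) ι (1 : Gal(Ω/F) → Gal(Ω/F) → Ωˣ) := by
  refine ⟨(Algebra.ofId F Ω).mapMatrix, 1, ?_, inferInstance, ?_, LC1.const 1, ?_, ?_⟩
  · rw [eq_top_iff]
    intro M _
    rw [Matrix.matrix_eq_sum_single M]
    refine Submodule.sum_mem _ fun i _ => Submodule.sum_mem _ fun j _ => ?_
    have h1 : Matrix.single i j (M i j) = (M i j) • (Algebra.ofId F Ω).mapMatrix
        (Matrix.single i j (1 : F)) := by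
      ext k l
      simp only [AlgHom.mapMatrix_apply, Matrix.smul_apply, Matrix.map_apply, Matrix.single_apply]
      split_ifs <;> simp
    rw [h1]
    exact Submodule.smul_mem _ _ (Submodule.subset_span ⟨_, rfl⟩)
  · rw [Module.finrank_matrix, Module.finrank_self, mul_one, sq]
  · intro g b
    have h1 : ((Algebra.ofId F Ω).mapMatrix b).map g = (Algebra.ofId F Ω).mapMatrix b := by
      ext i j
      simp [Matrix.map_apply, Algebra.ofId_apply]
    rw [h1]
    simp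
  · intro g h
    simp

theorem IsRep.equiv {B B' : Type} [Ring B] [Algebra F B] [Ring B'] [Algebra F B'] {ι : Type}
    [Fintype ι] [DecidableEq ι] {c : Gal(Ω/F) → Gal(Ω/F) → Ωˣ} (h : IsRep F Ω B ι c)
    (e : B ≃ₐ[F] B') : IsRep F Ω B' ι c := by
  obtain ⟨ρ, T, h1, h2, h3, h4, h5, h6⟩ := h
  refine ⟨ρ.comp e.symm.toAlgHom, T, ?_, Module.Finite.equiv e.toLinearEquiv, ?_, h4, ?_, h6⟩
  · have h7 : Set.range (ρ.comp e.symm.toAlgHom) = Set.range ρ := by
      ext M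
      constructor
      · rintro ⟨x, rfl⟩
        exact ⟨e.symm x, rfl⟩
      · rintro ⟨x, rfl⟩
        exact ⟨e x, by simp⟩
    rw [h7, h1]
  · rw [← e.toLinearEquiv.finrank_eq]
    exact h3
  · intro g b
    exact h5 g (e.symm b)

theorem IsRep.reindex {B : Type} [Ring B] [Algebra F B] {ι ι' : Type}
    [Fintype ι] [DecidableEq ι] [Fintype ι'] [DecidableEq ι'] {c : Gal(Ω/F) → Gal(Ω/F) → Ωˣ}
    (h : IsRep F Ω B ι c) (e : ι ≃ ι') : IsRep F Ω B ι' c := by
  obtain ⟨ρ, T, h1, h2, h3, h4, h5, h6⟩ := h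
  let R : Matrix ι ι Ω ≃ₐ[Ω] Matrix ι' ι' Ω := Matrix.reindexAlgEquiv Ω Ω e
  have hR : ∀ (g : Gal(Ω/F)) (M : Matrix ι ι Ω), (R M).map g = R (M.map g) := by
    intro g M
    ext i j
    simp [R, Matrix.map_apply]
  refine ⟨(R.toAlgHom.restrictScalars F).comp ρ, fun g => Units.map (R : Matrix ι ι Ω →* Matrix ι' ι' Ω) (T g),
    ?_, h2, ?_, h4.comp _, ?_, ?_⟩
  · have h7 : Set.range ((R.toAlgHom.restrictScalars F).comp ρ) = R.toLinearMap '' (Set.range ρ) := by
      ext M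
      constructor
      · rintro ⟨x, rfl⟩
        exact ⟨ρ x, ⟨x, rfl⟩, rfl⟩
      · rintro ⟨_, ⟨x, rfl⟩, rfl⟩
        exact ⟨x, rfl⟩
    rw [h7, Submodule.span_image, h1, Submodule.map_top, LinearMap.range_eq_top]
    exact R.surjective
  · rw [← Fintype.card_congr e]
    exact h3
  · intro g b
    change R (T g : Matrix ι ι Ω) * (R (ρ b)).map g = R (ρ b) * R (T g : Matrix ι ι Ω)
    rw [hR, ← map_mul, h5, map_mul]
  · intro g k
    change R (T g : Matrix ι ι Ω) * (R (T k : Matrix ι ι Ω)).map g =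
      (c g k : Ω) • R (T (g * k) : Matrix ι ι Ω)
    rw [hR, ← map_mul, h6, map_smul]

theorem isRep_coc {B : Type} [Ring B] [Algebra F B] {ι : Type} [Fintype ι] [DecidableEq ι]
    [Nonempty ι] {c : Gal(Ω/F) → Gal(Ω/F) → Ωˣ} (h : IsRep F Ω B ι c) :
    c ∈ Coc (⊤ : Subgroup Gal(Ω/F)) := by
  obtain ⟨ρ, T, -, -, -, h4, -, h6⟩ := h
  have hinj : ∀ (x y : Ωˣ) (g : Gal(Ω/F)),
      (x : Ω) • (T g : Matrix ι ι Ω) = (y : Ω) • (T g : Matrix ι ι Ω) → x = y := by
    intro x y g hxy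
    have h7 := congrArg (fun M => M * ((T g)⁻¹ : (Matrix ι ι Ω)ˣ).val) hxy
    simp only [smul_mul_assoc, Units.mul_inv] at h7
    obtain ⟨i⟩ := ‹Nonempty ι›
    have h8 := congrFun (congrFun h7 i) i
    simp only [Matrix.smul_apply, Matrix.one_apply_eq, smul_eq_mul, mul_one] at h8
    exact Units.ext h8
  constructor
  · obtain ⟨V, hV, hV'⟩ := (smo_field (F := F) (Ω := Ω)).fix_finite
      (⋃ g : Gal(Ω/F), Set.range (fun q : ι × ι => (T g : Matrix ι ι Ω) q.1 q.2)) (by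
        have h7 : (⋃ g : Gal(Ω/F), Set.range (fun q : ι × ι => (T g : Matrix ι ι Ω) q.1 q.2)) =
            ⋃ M ∈ Set.range T, Set.range (fun q : ι × ι => (M : Matrix ι ι Ω) q.1 q.2) := by
          rw [Set.biUnion_range]
        rw [h7]
        exact Set.Finite.biUnion h4.finite_range fun M _ => Set.finite_range _)
    obtain ⟨U, hU, hU'⟩ := h4
    refine ⟨U ⊓ V, hU.inf hV, fun g k u hu v hv => ?_⟩
    have hfix : (T k : Matrix ι ι Ω).map u = (T k : Matrix ι ι Ω) := by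
      ext i j
      rw [Matrix.map_apply]
      exact hV' u hu.2 _ (Set.mem_iUnion.2 ⟨k, ⟨(i, j), rfl⟩⟩)
    obtain ⟨w, hw, hw2⟩ := Smo_mul_conj hU g k hu.1 hv.1
    have h7 := h6 (g * u) (k * v)
    rw [hU' g u hu.1, hU' k v hv.1, hw2, hU' _ w hw, ← Rep_map_map, hfix, h6 g k] at h7
    exact (hinj _ _ _ h7).symm
  · intro g _ k _ l _
    apply hinj _ _ (g * k * l)
    have h7 : (T g : Matrix ι ι Ω) * ((T k : Matrix ι ι Ω) * (T l : Matrix ι ι Ω).map k).map g =
        ((T g : Matrix ι ι Ω) * (T k : Matrix ι ι Ω).map g) *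
          (T l : Matrix ι ι Ω).map (g * k : Gal(Ω/F)) := by
      rw [Rep_map_mul, Rep_map_map, mul_assoc]
    rw [h6 k l, Rep_map_smul, mul_smul_comm, h6 g (k * l), smul_smul, h6 g k, smul_mul_assoc,
      h6 (g * k) l, smul_smul, ← mul_assoc] at h7
    have h8 : ((g • c k l * c g (k * l) : Ωˣ) : Ω) = g (c k l : Ω) * (c g (k * l) : Ω) := by
      rw [Units.val_mul]
      rfl
    rw [h8, h7, Units.val_mul, mul_comm (c g k : Ω)]

end BrR
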