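import Pool.Agent.H48.BR.Fin

set_option autoImplicit false

/-! # The final theorem -/

namespace BrR

theorem infinite_of_div {F : Type} [Field F] {p : ℕ} (hp : p.Prime) (D : Type) [DivisionRing D]
    [Algebra F D] (hcen : Algebra.IsCentral F D) (hdim : Module.finrank F D = p ^ 2) :
    Infinite F := by
  by_contra hinf
  rw [not_infinite_iff_finite] at hinf
  have hfinD : Module.Finite F D := by
    apply Module.finite_of_finrank_pos
    rw [hdim]
    exact pow_pos hp.pos 2
  have hD : Finite D := Module.finite_of_finite F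
  have hcomm : ∀ x y : D, x * y = y * x := (littleWedderburn D).mul_comm
  have htop : (⊤ : Subalgebra F D) ≤ ⊥ := by
    refine le_trans ?_ hcen.out
    intro x _
    rw [Subalgebra.mem_center_iff]
    intro y
    exact hcomm y x
  have h1 : (⊥ : Subalgebra F D) = ⊤ := (top_le_iff.mp htop)
  have h2 := Subalgebra.bot_eq_top_iff_finrank_eq_one.mp h1
  rw [hdim] at h2
  have := hp.two_le
  nlinarith

theorem main_alg (F : Type) [Field F] (p : ℕ) (hp : p.Prime) (h2 : p ≠ 2) (hchar : (p : F) ≠ 0)
    (hm : Module.finrank F (CyclotomicField p F) = 1 ∨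
      Module.finrank F (CyclotomicField p F) = 2 ∨ Module.finrank F (CyclotomicField p F) = 3 ∨
      Module.finrank F (CyclotomicField p F) = 4 ∨ Module.finrank F (CyclotomicField p F) = 6)
    (D : Type) [DivisionRing D] [Algebra F D] (hcen : Algebra.IsCentral F D)
    (hdim : Module.finrank F D = p ^ 2) :
    ∃ (A : ℕ → Type) (_ : ∀ n, Ring (A n)) (_ : ∀ n, Algebra F (A n)),
      (∀ n, Algebra.IsCentral F (A n) ∧ IsSimpleRing (A n) ∧ FiniteDimensional F (A n)) ∧
      (∃ k m : ℕ, Nonempty (PiTensorProduct F (fun _ : Fin (p ^ k) => A 0) ≃ₐ[F]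
          Matrix (Fin m) (Fin m) F)) ∧
      (¬ ∃ m : ℕ, Nonempty (A 0 ≃ₐ[F] Matrix (Fin m) (Fin m) F)) ∧
      ∀ n : ℕ, ∃ a b : ℕ, 0 < a ∧ 0 < b ∧
        Nonempty (Matrix (Fin a) (Fin a) (PiTensorProduct F (fun _ : Fin p => A (n + 1))) ≃ₐ[F]
          Matrix (Fin b) (Fin b) (A n)) := by
  haveI : Infinite F := infinite_of_div hp D hcen hdim
  haveI : Fact p.Prime := ⟨hp⟩
  have hodd : Odd p := hp.odd_of_ne_two h2
  have hpΩ : (p : SeparableClosure F) ≠ 0 := by
    intro h
    apply hchar
    have h1 : algebraMap F (SeparableClosure F) (p : F) = 0 := by rw [map_natCast, h]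
    exact (map_eq_zero _).mp h1
  obtain ⟨ζ, hζ⟩ := exists_zeta (F := F) (Ω := SeparableClosure F) hp hchar
  have hgz := gz_index (F := F) (Ω := SeparableClosure F) hp hchar hζ
  rw [← hgz] at hm
  obtain ⟨c, hc, H', hH', hidx, hcH⟩ :=
    div_class (Ω := SeparableClosure F) hp hchar D hcen hdim
  haveI : Nonempty (Fin p) := ⟨⟨0, hp.pos⟩⟩
  have hne : c ∉ Cob (⊤ : Subgroup Gal(SeparableClosure F/F)) := by
    intro hcob
    obtain ⟨m, ⟨e⟩⟩ := isRep_iso_split hc hcob
    -- a matrix algebra of size `p ≥ 2` is not a division ring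
    have hmm : m * m = p ^ 2 := by
      have := e.toLinearEquiv.finrank_eq
      rw [hdim, Module.finrank_matrix, Module.finrank_self] at this
      simpa using this.symm
    have hm2 : 2 ≤ m := by
      by_contra hlt
      have h3 := hp.two_le
      have : m * m ≤ 1 := by
        have : m ≤ 1 := by omega
        nlinarith
      nlinarith
    have h0 : (Matrix.single (⟨0, by omega⟩ : Fin m) (⟨1, by omega⟩ : Fin m) (1 : F)) *
        (Matrix.single (⟨0, by omega⟩ : Fin m) (⟨1, by omega⟩ : Fin m) (1 : F)) = 0 := by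
      apply Matrix.single_mul_single_of_ne
      intro h
      have := congrArg Fin.val h
      simp at this
    have h1 := congrArg e.symm h0
    rw [map_mul, map_zero, mul_self_eq_zero] at h1
    have h4 := (map_eq_zero_iff _ e.symm.injective).mp h1
    have h5 := congrFun (congrFun h4 ⟨0, by omega⟩) ⟨1, by omega⟩
    simp at h5
  obtain ⟨y, hy⟩ := main_coh hodd hpΩ hζ hm (isRep_coc hc) hne hH' hidx hcH
  exact algebras_of_divSeq hp hy

end BrR
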