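import Pool.Agent.H48.BR.Tsb

set_option autoImplicit false

/-! # Row Rta: reciprocity for trace symbols (Rosset-Tate), part 1 (about 200 lines)

`Sym p ζ H` = sums of symbols over the fixed field of `H`, plus `Cob H`.

* `sy_mem_Sym`: a generator. `Sym_of_div`: `c / c' ∈ Cob H`, `c' ∈ Sym` ⇒ `c ∈ Sym`.
* `recip3`: `δ^p = α^p - ν^p` on `X`: `[α, δ] = [ν, δ] - [ν, α]` modulo `Cob H`.
  PROOF. `(ν/α)^p + (δ/α)^p = 1`, so `ts (ν/α) (δ/α) ∈ Cob` (`ts_steinberg`); bimultiplicativity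
  (`ts_mul_left, ts_inv_left, ...` on `H × H`, use `div_mem_Cob_of_eq`): `[ν,δ] - [ν,α] - [α,δ] + [α,α] ~ 0`,
  and `[α,α] ~ 0` (`ts_self`).
* `recip`: `X ⊆ T`, `Y ⊆ T'`, `δ (x,y)^p = (α x)^p - (ν y)^p` on `X ×ˢ Y`,
  `Δ₁ x = ∏ y∈Y, δ (x,y)`, `Δ₂ y = ∏ x∈X, δ (x,y)`. If `ts Y ν Δ₂ ∈ Sym` then `ts X α Δ₁ ∈ Sym`.
  PROOF. On `W = X ×ˢ Y ⊆ T × T'` (diagonal action): `ts X α Δ₁ = ts W (α∘fst) δ` on `H×H` (`ts_proj_left`, `Δ₁` is
  the norm `nm Prod.fst W δ` on `X`), `ts W (ν∘snd) δ = ts Y ν Δ₂` (`ts_proj_left` for `snd`), and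
  `ts W (ν∘snd) (α∘fst) = ts Y ν (nm snd (α∘fst)) = ts Y ν (fun _ => ∏ x∈X, α x) = sy (∏ y∈Y, ν y) (∏ x∈X, α x)` on
  `H × H` (`ts_proj_left`, `ts_const_right`; `(∏ x∈X, α x)^p` is fixed by `H` because `X` is stable and `α` is `Good`).
  Now `recip3` on `W`. (Where a `nm` only agrees with `Δ` on the set, use that `ts` only looks at the values on the
  set: `ts_congr`.)
* `Sym_of_pow`: `c^p = 1` (or `∈ Sym`) and `c^n ∈ Sym` with `n` coprime to `p` ⇒ `c ∈ Sym` (Bezout in the group). -/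

namespace BrR

variable {F Ω : Type} [Field F] [Field Ω] [Algebra F Ω]

theorem sy_mem_Sym {p : ℕ} {ζ : Ωˣ} {H : Subgroup Gal(Ω/F)} {α β : Ωˣ}
    (hα : ∀ h ∈ H, h • (α ^ p) = α ^ p) (hβ : ∀ h ∈ H, h • (β ^ p) = β ^ p) :
    sy p ζ α β ∈ Sym p ζ H :=
  Subgroup.mem_sup_left (Subgroup.subset_closure ⟨α, β, hα, hβ, rfl⟩)

theorem Cob_le_Sym {p : ℕ} {ζ : Ωˣ} {H : Subgroup Gal(Ω/F)} : Cob H ≤ Sym p ζ H := le_sup_right

theorem Sym_of_div {p : ℕ} {ζ : Ωˣ} {H : Subgroup Gal(Ω/F)} {c c' : Gal(Ω/F) → Gal(Ω/F) → Ωˣ}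
    (h : c / c' ∈ Cob H) (h' : c' ∈ Sym p ζ H) : c ∈ Sym p ζ H := by
  have := mul_mem (Cob_le_Sym (p := p) (ζ := ζ) h) h'
  rwa [div_mul_cancel] at this

theorem pow_coprime_mem {G' : Type*} [CommGroup G'] (S : Subgroup G') (c : G') {m n : ℕ}
    (hm : c ^ m ∈ S) (hn : c ^ n ∈ S) (hmn : Nat.Coprime m n) : c ∈ S := by
  have h1 : ((Nat.gcd m n : ℕ) : ℤ) = m * Nat.gcdA m n + n * Nat.gcdB m n := Nat.gcd_eq_gcd_ab m n
  rw [hmn, Nat.cast_one] at h1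
  have h2 : c = (c ^ m) ^ (Nat.gcdA m n) * (c ^ n) ^ (Nat.gcdB m n) := by
    rw [← zpow_natCast c m, ← zpow_natCast c n, ← zpow_mul, ← zpow_mul, ← zpow_add, ← h1, zpow_one]
  rw [h2]
  exact mul_mem (Subgroup.zpow_mem _ hm _) (Subgroup.zpow_mem _ hn _)

section

variable {p : ℕ} [NeZero p] {ζ : Ωˣ} (hζ : IsPrimitiveRoot ζ p) {H : Subgroup Gal(Ω/F)}
  (hζH : ∀ h ∈ H, h • ζ = ζ) {T : Type} [MulAction Gal(Ω/F) T] {X : Finset T}
  (hX : Stb H X)

include hX in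
theorem ts_congr {α β α' β' : T → Ωˣ} (hα : ∀ x ∈ X, α x = α' x) (hβ : ∀ x ∈ X, β x = β' x)
    {h k : Gal(Ω/F)} (hh : h ∈ H) (hk : k ∈ H) : ts p ζ X α β h k = ts p ζ X α' β' h k := by
  rw [ts, ts]
  congr 1
  refine Finset.sum_congr rfl fun x hx => ?_
  have h1 := hX k hk x hx
  have h2 := hX h hh _ h1
  simp only [ex]
  rw [hα _ h1, hα _ h2, hβ _ hx, hβ _ h1]

theorem Rta_good_mul {α β : T → Ωˣ} (hα : Good p H X α) (hβ : Good p H X β) :
    Good p H X (α * β) := by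
  intro h hh x hx
  rw [Pi.mul_apply, Pi.mul_apply, smul_mul', mul_pow, mul_pow, hα h hh x hx, hβ h hh x hx]

theorem Rta_good_inv {α : T → Ωˣ} (hα : Good p H X α) : Good p H X α⁻¹ := by
  intro h hh x hx
  rw [Pi.inv_apply, Pi.inv_apply, smul_inv', inv_pow, inv_pow, hα h hh x hx]

include hX in
theorem Rta_prod_fix {α : T → Ωˣ} (hα : Good p H X α) {h : Gal(Ω/F)} (hh : h ∈ H) :
    h • ((∏ x ∈ X, α x) ^ p) = (∏ x ∈ X, α x) ^ p := by
  rw [← Finset.prod_pow, Finset.smul_prod']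
  have h1 : ∏ x ∈ X, h • (α x) ^ p = ∏ x ∈ X, (α (h • x)) ^ p := by
    refine Finset.prod_congr rfl fun x hx => ?_
    rw [smul_pow', hα h hh x hx]
  rw [h1]
  refine Finset.prod_bij (fun x _ => h • x) (fun x hx => hX h hh x hx)
    (fun x _ y _ e => MulAction.injective h e) (fun y hy => ?_) (fun x _ => rfl)
  exact ⟨h⁻¹ • y, hX h⁻¹ (inv_mem hh) y hy, smul_inv_smul h y⟩

variable [IsGalois F Ω] [IsSepClosed Ω]

include hζ hζH hX in
theorem recip3 (hp : Odd p) (hpΩ : (p : Ω) ≠ 0) (hT : Smo F Ω T) {α ν δ : T → Ωˣ}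
    (hα : Good p H X α) (hν : Good p H X ν) (hδ : Good p H X δ)
    (h : ∀ x ∈ X, ((δ x : Ω)) ^ p = (α x : Ω) ^ p - (ν x : Ω) ^ p) :
    ts p ζ X α δ / (ts p ζ X ν δ / ts p ζ X ν α) ∈ Cob H := by
  have gα := Rta_good_inv hα
  have gν := Rta_good_mul hν gα
  have gδ := Rta_good_mul hδ gα
  have S := ts_steinberg hζ hζH hX hpΩ hT gν gδ (fun x hx => by
    have e := h x hx
    have ne : (α x : Ω) ^ p ≠ 0 := pow_ne_zero _ (Units.ne_zero _)
    simp only [Pi.mul_apply, Pi.inv_apply, Units.val_mul, Units.val_inv_eq_inv_val, mul_pow,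
      inv_pow]
    rw [e]
    field_simp
    ring)
  have S' := ts_self hζ hζH hX hT hp hα
  have key : ts p ζ X α δ / (ts p ζ X ν δ / ts p ζ X ν α) /
      ((ts p ζ X (ν * α⁻¹) (δ * α⁻¹))⁻¹ * ts p ζ X α α) ∈ Cob H := by
    refine div_mem_Cob_of_eq fun g hg k hk => ?_
    simp only [Pi.div_apply, Pi.mul_apply, Pi.inv_apply]
    rw [ts_mul_left hζ hX hν gα hg hk, ts_mul_right hζ hX hδ gα hg hk,
      ts_mul_right hζ hX hδ gα hg hk, ts_inv_right hζ hX hα hg hk, ts_inv_right hζ hX hα hg hk,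
      ts_inv_left hζ hX hα hg hk, ts_inv_left hζ hX hα hg hk]
    generalize ts p ζ X α δ g k = a
    generalize ts p ζ X ν δ g k = b
    generalize ts p ζ X ν α g k = c
    generalize ts p ζ X α α g k = d
    rw [inv_inv]
    simp only [div_eq_mul_inv, mul_inv, inv_inv]
    rw [show b⁻¹ * c * (a * d⁻¹) * d = a * (b⁻¹ * c) * (d⁻¹ * d) by
      simp only [mul_assoc, mul_comm, mul_left_comm], inv_mul_cancel, mul_one]
  have := mul_mem key (mul_mem (inv_mem S) S')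
  rwa [div_mul_cancel] at this

include hζ hζH hX in
theorem recip (hp : Odd p) (hpΩ : (p : Ω) ≠ 0) (hT : Smo F Ω T) {T' : Type}
    [MulAction Gal(Ω/F) T'] (hT' : Smo F Ω T') {Y : Finset T'} (hY : Stb H Y)
    {α : T → Ωˣ} (hα : Good p H X α) {ν : T' → Ωˣ} (hν : Good p H Y ν) (δ : T → T' → Ωˣ)
    (h : ∀ x ∈ X, ∀ y ∈ Y, ((δ x y : Ω)) ^ p = (α x : Ω) ^ p - (ν y : Ω) ^ p)
    (hS : ts p ζ Y ν (fun y => ∏ x ∈ X, δ x y) ∈ Sym p ζ H) :
    ts p ζ X α (fun x => ∏ y ∈ Y, δ x y) ∈ Sym p ζ H := by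
  classical
  have hW : Stb H (X ×ˢ Y) := by
    intro g hg z hz
    rw [Finset.mem_product] at hz ⊢
    exact ⟨hX g hg _ hz.1, hY g hg _ hz.2⟩
  have gα : Good p H (X ×ˢ Y) (fun z : T × T' => α z.1) := by
    intro g hg z hz
    rw [Finset.mem_product] at hz
    exact hα g hg z.1 hz.1
  have gν : Good p H (X ×ˢ Y) (fun z : T × T' => ν z.2) := by
    intro g hg z hz
    rw [Finset.mem_product] at hz
    exact hν g hg z.2 hz.2
  have gδ : Good p H (X ×ˢ Y) (fun z : T × T' => δ z.1 z.2) := by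
    intro g hg z hz
    rw [Finset.mem_product] at hz
    have e1 := h z.1 hz.1 z.2 hz.2
    have e2 := h (g • z.1) (hX g hg _ hz.1) (g • z.2) (hY g hg _ hz.2)
    have e3 := congrArg (Units.val) (hα g hg z.1 hz.1)
    have e4 := congrArg (Units.val) (hν g hg z.2 hz.2)
    refine Units.ext ?_
    show ((g • δ z.1 z.2) ^ p : Ωˣ).val = (δ (g • z.1) (g • z.2) ^ p : Ωˣ).val
    simp only [Units.val_pow_eq_pow_val] at e3 e4 ⊢
    rw [e2, ← e3, ← e4]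
    have e5 := congrArg (fun t : Ω => g • t) e1
    simp only [smul_sub, smul_pow'] at e5
    exact e5
  have R := recip3 hζ hζH hW hp hpΩ (Smo.prod hT hT') gα gν gδ (fun z hz => by
    rw [Finset.mem_product] at hz
    exact h z.1 hz.1 z.2 hz.2)
  have nf : ∀ (β : T × T' → Ωˣ) (x : T), x ∈ X →
      nm Prod.fst (X ×ˢ Y) β x = ∏ y ∈ Y, β (x, y) := by
    intro β x hx
    rw [nm, Finset.prod_filter, Finset.prod_product, Finset.prod_eq_single x]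
    · refine Finset.prod_congr rfl fun y _ => ?_
      rw [if_pos rfl]
    · intro x' _ hne
      refine Finset.prod_eq_one fun y _ => ?_
      rw [if_neg hne]
    · intro hx'; exact absurd hx hx'
  have ns : ∀ (β : T × T' → Ωˣ) (y : T'), y ∈ Y →
      nm Prod.snd (X ×ˢ Y) β y = ∏ x ∈ X, β (x, y) := by
    intro β y hy
    rw [nm, Finset.prod_filter, Finset.prod_product]
    refine Finset.prod_congr rfl fun x _ => ?_
    rw [Finset.prod_eq_single y]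
    · rw [if_pos rfl]
    · intro y' _ hne
      rw [if_neg hne]
    · intro hy'; exact absurd hy hy'
  have A : ∀ g ∈ H, ∀ k ∈ H, ts p ζ X α (fun x => ∏ y ∈ Y, δ x y) g k =
      ts p ζ (X ×ˢ Y) (fun z : T × T' => α z.1) (fun z : T × T' => δ z.1 z.2) g k := by
    intro g hg k hk
    have e1 := ts_proj_left (π := (Prod.fst : T × T' → T)) (Y := X) hζ hζH hW hX (fun _ _ => rfl)
      (fun z hz => (Finset.mem_product.mp hz).1) hα gδ hg hk
    have e2 := ts_congr (p := p) (ζ := ζ) (α := α) (α' := α)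
      (β := nm (Prod.fst : T × T' → T) (X ×ˢ Y) (fun z : T × T' => δ z.1 z.2))
      (β' := fun x => ∏ y ∈ Y, δ x y) hX (fun _ _ => rfl)
      (fun x hx => nf (fun z : T × T' => δ z.1 z.2) x hx) hg hk
    exact (e1.trans e2).symm
  have B : ∀ g ∈ H, ∀ k ∈ H,
      ts p ζ (X ×ˢ Y) (fun z : T × T' => ν z.2) (fun z : T × T' => δ z.1 z.2) g k =
      ts p ζ Y ν (fun y => ∏ x ∈ X, δ x y) g k := by
    intro g hg k hk
    have e1 := ts_proj_left (π := (Prod.snd : T × T' → T')) (Y := Y) hζ hζH hW hY (fun _ _ => rfl)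
      (fun z hz => (Finset.mem_product.mp hz).2) hν gδ hg hk
    have e2 := ts_congr (p := p) (ζ := ζ) (α := ν) (α' := ν)
      (β := nm (Prod.snd : T × T' → T') (X ×ˢ Y) (fun z : T × T' => δ z.1 z.2))
      (β' := fun y => ∏ x ∈ X, δ x y) hY (fun _ _ => rfl)
      (fun y hy => ns (fun z : T × T' => δ z.1 z.2) y hy) hg hk
    exact e1.trans e2
  have C : ∀ g ∈ H, ∀ k ∈ H,
      ts p ζ (X ×ˢ Y) (fun z : T × T' => ν z.2) (fun z : T × T' => α z.1) g k =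
      sy p ζ (∏ y ∈ Y, ν y) (∏ x ∈ X, α x) g k := by
    intro g hg k hk
    have e1 := ts_proj_left (π := (Prod.snd : T × T' → T')) (Y := Y) hζ hζH hW hY (fun _ _ => rfl)
      (fun z hz => (Finset.mem_product.mp hz).2) hν gα hg hk
    have e2 := ts_congr (p := p) (ζ := ζ) (α := ν) (α' := ν)
      (β := nm (Prod.snd : T × T' → T') (X ×ˢ Y) (fun z : T × T' => α z.1))
      (β' := fun _ => ∏ x ∈ X, α x) hY (fun _ _ => rfl)
      (fun y hy => ns (fun z : T × T' => α z.1) y hy) hg hk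
    have e3 := ts_const_right (β := ν) (γ := ∏ x ∈ X, α x) hζ hζH hY
      (fun g' hg' => Rta_prod_fix hX hα hg') hν hg hk
    exact (e1.trans e2).trans e3
  have hsy : sy p ζ (∏ y ∈ Y, ν y) (∏ x ∈ X, α x) ∈ Sym p ζ H :=
    sy_mem_Sym (fun g hg => Rta_prod_fix hY hν hg) (fun g hg => Rta_prod_fix hX hα hg)
  have D1 : ts p ζ X α (fun x => ∏ y ∈ Y, δ x y) /
      ts p ζ (X ×ˢ Y) (fun z : T × T' => α z.1) (fun z : T × T' => δ z.1 z.2) ∈ Cob H :=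
    div_mem_Cob_of_eq A
  have D2 : (ts p ζ (X ×ˢ Y) (fun z : T × T' => ν z.2) (fun z : T × T' => δ z.1 z.2) /
      ts p ζ (X ×ˢ Y) (fun z : T × T' => ν z.2) (fun z : T × T' => α z.1)) /
      (ts p ζ Y ν (fun y => ∏ x ∈ X, δ x y) / sy p ζ (∏ y ∈ Y, ν y) (∏ x ∈ X, α x)) ∈ Cob H := by
    refine div_mem_Cob_of_eq fun g hg k hk => ?_
    rw [Pi.div_apply, Pi.div_apply, Pi.div_apply, Pi.div_apply, B g hg k hk, C g hg k hk]
  exact Sym_of_div D1 (Sym_of_div R (Sym_of_div D2 (div_mem hS hsy)))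

end

end BrR
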