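import Pool.Agent.H48.BR.Smo

set_option autoImplicit false

/-! # Row Sha: transfer of 2-cochains (about 200 lines)

`P ≤ H` open subgroups, `X` the (finite) set of cosets `x ∈ G ⧸ P` contained in `H` (`x.out ∈ H`).
`uu h x = (h • x).out⁻¹ * h * x.out ∈ P`, `uu (h*k) x = uu h (k•x) * uu k x`,
`(h•k•x).out * uu h (k • x) = h * (k•x).out`.
`tr X c (h,k) = ∏ x ∈ X, (h•k•x).out • c (uu h (k•x)) (uu k x)`.

* `uu_mem`: `(h • x) = (h * x.out) P = (h•x).out P`. `uu_mul`, `out_mul_uu`: group computation.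
* `cst_smul`: for `k ∈ H`: `k • x ∈ X ↔ x ∈ X` (`(k • x).out = k * x.out * (element of P)`, `P ≤ H`).
* `sha1`: for `c ∈ Coc H`, `h, k ∈ H`, `x ∈ X`, put `F h x = c h x.out / c (h • x).out (uu h x)`. The cocycle
  identity at `(h, k, x.out)`, at `(h, (k•x).out, uu k x)` and at `((hk•x).out, uu h (k•x), uu k x)` gives
     `c h k = (h•k•x).out • c (uu h (k•x)) (uu k x) * (F h (k•x) * h • F k x / F (h k) x)`.
  Take the product over `x ∈ X`; with `Φ h = ∏ x ∈ X, F h x` one has `∏ x ∈ X, F h (k • x) = Φ h` (reindex by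
  `x ↦ k • x`, a permutation of `X` for `k ∈ H`). So `c^(card X) = tr X c * dd Φ` on `H × H`.
  `Φ` is locally constant: with `U` ON from `hc.1` and `V = U ⊓ (ON subgroup of P)`: for `v ∈ V`:
  `v • x = x` for all `x : G ⧸ P` (so `(h v) • x = h • x`), `uu (h v) x = uu h x * (x.out⁻¹ v x.out)` with
  `x.out⁻¹ v x.out ∈ V`, so `F (h v) x = F h x`.
* `sha2`: `c = dd b` on `P` with `b` LC1. Put `B h = ∏ x ∈ X, (h•x).out • b (uu h x)`. Then for `h, k ∈ H`: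
  `tr X c h k = ∏ x, (h•k•x).out • (b (uu h (k•x)) * (uu h (k•x)) • b (uu k x) / b (uu (h k) x))`
  and `(h•k•x).out • (uu h (k•x)) • b(..) = h • ((k•x).out • b (uu k x))`, so `tr X c = dd B` on `H`
  (reindexing `x ↦ k • x` in the first factor). `B` is LC1: use `LC1.strong`-type argument: `V` fixing the
  (finitely many) values; note `(h v) • x = h • x`, `uu (h v) x = uu h x * v'`.
* `res_cores`: `c ∈ Coc H`, `c ∈ Cob P` ⇒ `c ^ (card X) ∈ Cob H`: `c^card = (c^card / tr X c) * tr X c`.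
* `card_cst`: `X.card = P.relIndex H`: the map `H ⧸ (P.subgroupOf H) → G ⧸ P` is injective with image `X`. -/

namespace BrR

variable {F Ω : Type} [Field F] [Field Ω] [Algebra F Ω]

/-- the `P`-component of the action on coset representatives -/
noncomputable def uu {P : Subgroup Gal(Ω/F)} (h : Gal(Ω/F)) (x : Gal(Ω/F) ⧸ P) : Gal(Ω/F) :=
  (h • x).out⁻¹ * h * x.out

/-- transfer of a 2-cochain -/
noncomputable def tr {P : Subgroup Gal(Ω/F)} (X : Finset (Gal(Ω/F) ⧸ P))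
    (c : Gal(Ω/F) → Gal(Ω/F) → Ωˣ) : Gal(Ω/F) → Gal(Ω/F) → Ωˣ :=
  fun h k => ∏ x ∈ X, (h • k • x).out • c (uu h (k • x)) (uu k x)

/-- `X` = the cosets of `P` contained in `H` -/
def IsCst {P : Subgroup Gal(Ω/F)} (H : Subgroup Gal(Ω/F)) (X : Finset (Gal(Ω/F) ⧸ P)) : Prop :=
  ∀ x, x ∈ X ↔ x.out ∈ H

private theorem Sha_mk_out {P : Subgroup Gal(Ω/F)} (x : Gal(Ω/F) ⧸ P) :
    ((x.out : Gal(Ω/F)) : Gal(Ω/F) ⧸ P) = x := QuotientGroup.out_eq' x

theorem uu_mem {P : Subgroup Gal(Ω/F)} (h : Gal(Ω/F)) (x : Gal(Ω/F) ⧸ P) : uu h x ∈ P := by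
  have h1 : (((h • x).out : Gal(Ω/F)) : Gal(Ω/F) ⧸ P) = ((h * x.out : Gal(Ω/F)) : Gal(Ω/F) ⧸ P) := by
    rw [Sha_mk_out]
    conv_lhs => rw [← Sha_mk_out x]
    rfl
  have h2 := QuotientGroup.eq.mp h1
  rw [uu, mul_assoc]
  exact h2

theorem uu_mul {P : Subgroup Gal(Ω/F)} (h k : Gal(Ω/F)) (x : Gal(Ω/F) ⧸ P) :
    uu (h * k) x = uu h (k • x) * uu k x := by
  simp only [uu, mul_smul]
  group

theorem out_mul_uu {P : Subgroup Gal(Ω/F)} (h : Gal(Ω/F)) (x : Gal(Ω/F) ⧸ P) :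
    (h • x).out * uu h x = h * x.out := by
  simp only [uu]
  group

theorem cst_smul {H P : Subgroup Gal(Ω/F)} (hPH : P ≤ H) {X : Finset (Gal(Ω/F) ⧸ P)}
    (hX : IsCst H X) {k : Gal(Ω/F)} (hk : k ∈ H) (x : Gal(Ω/F) ⧸ P) : k • x ∈ X ↔ x ∈ X := by
  rw [hX, hX]
  rw [← H.mul_mem_cancel_right (hPH (uu_mem k x)), out_mul_uu, H.mul_mem_cancel_left hk]

/-- reindexing by `x ↦ k • x` -/
private theorem Sha_reindex {H P : Subgroup Gal(Ω/F)} (hPH : P ≤ H) {X : Finset (Gal(Ω/F) ⧸ P)}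
    (hX : IsCst H X) {k : Gal(Ω/F)} (hk : k ∈ H) (f : Gal(Ω/F) ⧸ P → Ωˣ) :
    ∏ x ∈ X, f (k • x) = ∏ x ∈ X, f x := by
  refine Finset.prod_bij (fun x _ => k • x) ?_ ?_ ?_ ?_
  · intro x hx
    exact (cst_smul hPH hX hk x).mpr hx
  · intro x _ y _ h
    exact MulAction.injective k h
  · intro y hy
    refine ⟨k⁻¹ • y, (cst_smul hPH hX (H.inv_mem hk) y).mpr hy, ?_⟩
    exact smul_inv_smul k y
  · intro x _
    rfl

private theorem Sha_smul_fix {P V : Subgroup Gal(Ω/F)} (hV : V.Normal) (hVP : V ≤ P)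
    {v : Gal(Ω/F)} (hv : v ∈ V) (x : Gal(Ω/F) ⧸ P) : v • x = x := by
  have h1 : v • x = ((v * x.out : Gal(Ω/F)) : Gal(Ω/F) ⧸ P) := by
    conv_lhs => rw [← Sha_mk_out x]
    rfl
  have h2 : ((v * x.out : Gal(Ω/F)) : Gal(Ω/F) ⧸ P) = ((x.out : Gal(Ω/F)) : Gal(Ω/F) ⧸ P) := by
    rw [QuotientGroup.eq]
    have h3 := hV.conj_mem v⁻¹ (V.inv_mem hv) (x.out)⁻¹
    have h4 : (v * x.out)⁻¹ * x.out = (x.out)⁻¹ * v⁻¹ * ((x.out)⁻¹)⁻¹ := by group
    rw [h4]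
    exact hVP h3
  rw [h1, h2, Sha_mk_out]

private theorem Sha_uu_mul {P V : Subgroup Gal(Ω/F)} (hV : V.Normal) (hVP : V ≤ P)
    {v : Gal(Ω/F)} (hv : v ∈ V) (h : Gal(Ω/F)) (x : Gal(Ω/F) ⧸ P) :
    (h * v) • x = h • x ∧ ∃ w ∈ V, uu (h * v) x = uu h x * w := by
  have h1 : (h * v) • x = h • x := by rw [mul_smul, Sha_smul_fix hV hVP hv]
  refine ⟨h1, (x.out)⁻¹ * v * x.out, ?_, ?_⟩
  · have h3 := hV.conj_mem v hv (x.out)⁻¹
    rwa [inv_inv] at h3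
  · simp only [uu, h1]
    group

variable [IsGalois F Ω]

theorem exists_cst {H P : Subgroup Gal(Ω/F)} (hP : IsOpen (P : Set Gal(Ω/F))) :
    ∃ X : Finset (Gal(Ω/F) ⧸ P), IsCst H X := by
  classical
  haveI := finite_quot hP
  refine ⟨(Set.toFinite {x : Gal(Ω/F) ⧸ P | x.out ∈ H}).toFinset, fun x => ?_⟩
  rw [Set.Finite.mem_toFinset]
  rfl

theorem card_cst {H P : Subgroup Gal(Ω/F)} (hPH : P ≤ H)
    {X : Finset (Gal(Ω/F) ⧸ P)} (hX : IsCst H X) : X.card = P.relIndex H := by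
  classical
  have h1 : P.subgroupOf H = MulAction.stabilizer H ((1 : Gal(Ω/F)) : Gal(Ω/F) ⧸ P) := by
    ext g
    rw [Subgroup.mem_subgroupOf, MulAction.mem_stabilizer_iff]
    have h2 : g • ((1 : Gal(Ω/F)) : Gal(Ω/F) ⧸ P) = (((g : Gal(Ω/F)) * 1 : Gal(Ω/F)) : Gal(Ω/F) ⧸ P) :=
      rfl
    rw [h2, eq_comm, QuotientGroup.eq]
    simp
  have h2 : (X : Set (Gal(Ω/F) ⧸ P)) = MulAction.orbit H ((1 : Gal(Ω/F)) : Gal(Ω/F) ⧸ P) := by
    ext x
    rw [Finset.mem_coe, hX x, MulAction.mem_orbit_iff]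
    constructor
    · intro hx
      refine ⟨⟨x.out, hx⟩, ?_⟩
      have h3 : (⟨x.out, hx⟩ : H) • ((1 : Gal(Ω/F)) : Gal(Ω/F) ⧸ P) =
          ((x.out * 1 : Gal(Ω/F)) : Gal(Ω/F) ⧸ P) := rfl
      rw [h3, mul_one, Sha_mk_out]
    · rintro ⟨g, rfl⟩
      have h3 : g • ((1 : Gal(Ω/F)) : Gal(Ω/F) ⧸ P) =
          (((g : Gal(Ω/F)) * 1 : Gal(Ω/F)) : Gal(Ω/F) ⧸ P) := rfl
      rw [h3, mul_one]
      obtain ⟨p, hp⟩ := QuotientGroup.mk_out_eq_mul P (g : Gal(Ω/F))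
      rw [hp]
      exact H.mul_mem g.2 (hPH p.2)
  rw [Subgroup.relIndex, h1, MulAction.index_stabilizer, ← h2, Set.ncard_coe_finset]

private theorem Sha_alg {A B C D E M N Q R T : Ωˣ} (q1 : B * C = D * A) (q2 : E * C = M * N)
    (q3 : T * Q = M * R) : A = T * (N / R * (B / E) / (D / Q)) := by
  have h1 : A = D⁻¹ * (B * C) := by rw [q1, inv_mul_cancel_left]
  have h2 : C = E⁻¹ * (M * N) := by rw [← q2, inv_mul_cancel_left]
  have h3 : M = T * Q * R⁻¹ := by rw [q3, mul_inv_cancel_right]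
  rw [h1, h2, h3]
  simp only [div_eq_mul_inv, mul_inv_rev, inv_inv, mul_assoc, mul_comm, mul_left_comm]

theorem sha1 {H P : Subgroup Gal(Ω/F)} (hP : IsOpen (P : Set Gal(Ω/F))) (hPH : P ≤ H)
    {X : Finset (Gal(Ω/F) ⧸ P)} (hX : IsCst H X) {c : Gal(Ω/F) → Gal(Ω/F) → Ωˣ} (hc : c ∈ Coc H) :
    c ^ X.card / tr X c ∈ Cob H := by
  classical
  obtain ⟨U, hU, hcU⟩ := hc.1
  obtain ⟨W, hW, hWP⟩ := exists_ON_le hP
  have hV := hU.inf hW
  set f : Gal(Ω/F) → Gal(Ω/F) ⧸ P → Ωˣ := fun h x => c h x.out / c (h • x).out (uu h x) with hf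
  refine ⟨fun h => ∏ x ∈ X, f h x, ⟨U ⊓ W, hV, ?_⟩, ?_⟩
  · intro g u hu
    refine Finset.prod_congr rfl fun x _ => ?_
    obtain ⟨h1, w, hw, h2⟩ := Sha_uu_mul (P := P) hV.1 (inf_le_right.trans hWP) hu g x
    simp only [hf, h1, h2]
    have e1 : c (g * u) x.out = c g x.out := by
      have := hcU g x.out u hu.1 1 U.one_mem
      rwa [mul_one] at this
    have e2 : c (g • x).out (uu g x * w) = c (g • x).out (uu g x) := by
      have := hcU (g • x).out (uu g x) 1 U.one_mem w hw.1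
      rwa [mul_one] at this
    rw [e1, e2]
  · intro h hh k hk
    have key : ∀ x ∈ X, c h k = ((h • k • x).out • c (uu h (k • x)) (uu k x)) *
        (f h (k • x) * h • f k x / f (h * k) x) := by
      intro x hx
      have hxo : x.out ∈ H := (hX x).mp hx
      have hkx : (k • x).out ∈ H := (hX _).mp ((cst_smul hPH hX hk x).mpr hx)
      have hhkx : (h • k • x).out ∈ H :=
        (hX _).mp ((cst_smul hPH hX hh _).mpr ((cst_smul hPH hX hk x).mpr hx))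
      have q1 := hc.2 h hh k hk x.out hxo
      have q2 := hc.2 h hh (k • x).out hkx (uu k x) (hPH (uu_mem k x))
      have q3 := hc.2 (h • k • x).out hhkx (uu h (k • x)) (hPH (uu_mem h (k • x))) (uu k x)
        (hPH (uu_mem k x))
      rw [out_mul_uu] at q2
      rw [out_mul_uu, ← uu_mul] at q3
      simp only [hf, mul_smul, smul_div']
      exact Sha_alg q1 q2 q3
    have h1 : ∏ x ∈ X, c h k = (∏ x ∈ X, ((h • k • x).out • c (uu h (k • x)) (uu k x))) *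
        ((∏ x ∈ X, f h (k • x)) * (∏ x ∈ X, h • f k x) / ∏ x ∈ X, f (h * k) x) := by
      rw [← Finset.prod_mul_distrib, ← Finset.prod_div_distrib, ← Finset.prod_mul_distrib]
      exact Finset.prod_congr rfl key
    rw [Finset.prod_const] at h1
    simp only [Pi.div_apply, Pi.pow_apply, tr, dd]
    rw [h1, mul_div_cancel_left, Sha_reindex hPH hX hk (f h), Finset.smul_prod']

theorem sha2 {H P : Subgroup Gal(Ω/F)} (hP : IsOpen (P : Set Gal(Ω/F))) (hPH : P ≤ H)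
    {X : Finset (Gal(Ω/F) ⧸ P)} (hX : IsCst H X) {c : Gal(Ω/F) → Gal(Ω/F) → Ωˣ} (hc : c ∈ Cob P) :
    tr X c ∈ Cob H := by
  classical
  obtain ⟨b, ⟨U, hU, hbU⟩, hcb⟩ := hc
  obtain ⟨W, hW, hWP⟩ := exists_ON_le hP
  have hV := hU.inf hW
  set f : Gal(Ω/F) → Gal(Ω/F) ⧸ P → Ωˣ := fun h x => (h • x).out • b (uu h x) with hf
  refine ⟨fun h => ∏ x ∈ X, f h x, ⟨U ⊓ W, hV, ?_⟩, ?_⟩
  · intro g u hu
    refine Finset.prod_congr rfl fun x _ => ?_
    obtain ⟨h1, w, hw, h2⟩ := Sha_uu_mul (P := P) hV.1 (inf_le_right.trans hWP) hu g x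
    simp only [hf, h1, h2]
    rw [hbU _ w hw.1]
  · intro h hh k hk
    have key : ∀ x ∈ X, (h • k • x).out • c (uu h (k • x)) (uu k x) =
        f h (k • x) * h • f k x / f (h * k) x := by
      intro x _
      rw [hcb _ (uu_mem h (k • x)) _ (uu_mem k x)]
      simp only [hf, dd, smul_mul', smul_div', mul_smul, ← uu_mul]
      congr 2
      rw [← mul_smul, out_mul_uu, mul_smul]
    simp only [tr, dd]
    rw [Finset.prod_congr rfl key, Finset.prod_div_distrib, Finset.prod_mul_distrib,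
      Sha_reindex hPH hX hk (f h), Finset.smul_prod']

theorem tr_mul {P : Subgroup Gal(Ω/F)} (X : Finset (Gal(Ω/F) ⧸ P))
    (c c' : Gal(Ω/F) → Gal(Ω/F) → Ωˣ) : tr X (c * c') = tr X c * tr X c' := by
  funext h k
  simp only [tr, Pi.mul_apply, smul_mul', Finset.prod_mul_distrib]

/-- restriction followed by corestriction -/
theorem res_cores {H P : Subgroup Gal(Ω/F)} (hP : IsOpen (P : Set Gal(Ω/F))) (hPH : P ≤ H)
    {c : Gal(Ω/F) → Gal(Ω/F) → Ωˣ} (hc : c ∈ Coc H) (hcP : c ∈ Cob P) :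
    c ^ (P.relIndex H) ∈ Cob H := by
  obtain ⟨X, hX⟩ := exists_cst (H := H) hP
  rw [← card_cst hPH hX]
  have h1 := (Cob H).mul_mem (sha1 hP hPH hX hc) (sha2 hP hPH hX hcP)
  rwa [div_mul_cancel] at h1

end BrR
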