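import Pool.Agent.H48.BR.Defs

set_option autoImplicit false

/-! # Row Smo: smoothness and local constancy (about 180 lines)

`G = Gal(Ω/F)` with the Krull topology is a compact totally disconnected topological group
(instances exist in Mathlib for `IsGalois F Ω`). `ON U` = open normal subgroup.

PROOFS.
* `exists_ON_le`: `ProfiniteGrp.exist_openNormalSubgroup_sub_open_nhds_of_one` applied to the open set
  `H` containing `1`.
* `finite_quot`: `Subgroup.quotient_finite_of_isOpen`.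
* `smo_field`: for `x : Ω` let `E = IntermediateField.adjoin F {x}`; it is finite dimensional because `x`
  is integral (`Algebra.IsAlgebraic`); `E.fixingSubgroup` is open (`IntermediateField.fixingSubgroup_isOpen`),
  its elements fix `x`; then `exists_ON_le`.
* `smo_units`: from `smo_field` applied to `(x : Ω)`, `Units.ext`.
* `Smo.prod`, `Smo.fix_finset`, `Smo.fix_finite`: finite intersections with `ON.inf` (induction on the
  finite set, start with `ON.top`).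
* `smo_quot`: for `x = Quotient of g`: `U` from `exists_ON_le` for the open subgroup `P`; `u • gP = gP`
  because `g⁻¹ u g ∈ U ≤ P` (`U` normal).
* `Smo.orbit_finite`: the orbit is the image of `G ⧸ U` (finite) under `gU ↦ g • x`: every element `g • x`
  equals `(Quotient.out (gU)) • x`.
* `LC1.finite_range`: the range is the range of `x ↦ f x.out` on the finite type `G ⧸ U`.
* `LC1.strong`: the range of `b` is finite, so by `Smo.fix_finite` there is `V` fixing all values; take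
  `U ⊓ V`.
* `LC2.strong`: same with the range `{c g h}`, the image of `(G⧸U) × (G⧸U)`.
* `LC1.smul`, `LC1.dd`: with `U` from `LC1.strong`: `(g*u) • b (h*v) = g • (u • b h) = g • b h`; and
  `(g*u)*(h*v) = (g*h) * ((h⁻¹*u*h)*v)` with `(h⁻¹*u*h) ∈ U` by normality.
* `LC1.ite`: intersect `U` with an `ON` subgroup of `H`; then `g*u ∈ H ↔ g ∈ H`.
* `LC1.lmul`: clear. `LC1.conj`: `s⁻¹*(g*u)*t = (s⁻¹*g*t)*(t⁻¹*u*t)`.
* `LC1.smul_elt`: `x : T` smooth, `f g = g • x` is locally constant. -/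

namespace BrR

variable {F Ω : Type} [Field F] [Field Ω] [Algebra F Ω] [IsGalois F Ω]

theorem exists_ON_le {H : Subgroup Gal(Ω/F)} (hH : IsOpen (H : Set Gal(Ω/F))) :
    ∃ U : Subgroup Gal(Ω/F), ON U ∧ U ≤ H := by
  obtain ⟨U, hU⟩ := ProfiniteGrp.exist_openNormalSubgroup_sub_open_nhds_of_one hH H.one_mem
  exact ⟨U.toSubgroup, ⟨U.isNormal', U.isOpen'⟩, hU⟩

theorem finite_quot {H : Subgroup Gal(Ω/F)} (hH : IsOpen (H : Set Gal(Ω/F))) :
    Finite (Gal(Ω/F) ⧸ H) := Subgroup.quotient_finite_of_isOpen H hH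

theorem smo_field : Smo F Ω Ω := by
  intro x
  have hx : IsIntegral F x := Algebra.IsIntegral.isIntegral x
  have : FiniteDimensional F (IntermediateField.adjoin F {x}) :=
    IntermediateField.adjoin.finiteDimensional hx
  obtain ⟨U, hU, hle⟩ := exists_ON_le
    (IntermediateField.fixingSubgroup_isOpen (IntermediateField.adjoin F {x}))
  refine ⟨U, hU, fun u hu => ?_⟩
  have h1 := (IntermediateField.mem_fixingSubgroup_iff (IntermediateField.adjoin F {x}) u).1 (hle hu)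
  exact h1 x (IntermediateField.mem_adjoin_simple_self F x)

theorem smo_units : Smo F Ω Ωˣ := by
  intro x
  obtain ⟨U, hU, h⟩ := smo_field (F := F) (x : Ω)
  exact ⟨U, hU, fun u hu => Units.ext (h u hu)⟩

theorem Smo.prod {T T' : Type} [MulAction Gal(Ω/F) T] [MulAction Gal(Ω/F) T'] (hT : Smo F Ω T)
    (hT' : Smo F Ω T') : Smo F Ω (T × T') := by
  rintro ⟨x, y⟩
  obtain ⟨U, hU, h⟩ := hT x
  obtain ⟨V, hV, h'⟩ := hT' y
  refine ⟨U ⊓ V, hU.inf hV, fun u hu => ?_⟩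
  rw [Prod.smul_mk, h u hu.1, h' u hu.2]

theorem smo_quot {P : Subgroup Gal(Ω/F)} (hP : IsOpen (P : Set Gal(Ω/F))) :
    Smo F Ω (Gal(Ω/F) ⧸ P) := by
  intro x
  obtain ⟨U, hU, hle⟩ := exists_ON_le hP
  refine ⟨U, hU, fun u hu => ?_⟩
  obtain ⟨g, rfl⟩ := QuotientGroup.mk_surjective x
  rw [MulAction.Quotient.smul_mk, eq_comm, QuotientGroup.eq, smul_eq_mul, ← mul_assoc]
  apply hle
  have h1 := hU.1.conj_mem u hu g⁻¹
  rwa [inv_inv] at h1

theorem Smo.fix_finite {T : Type} [MulAction Gal(Ω/F) T] (hT : Smo F Ω T) (X : Set T)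
    (hX : X.Finite) : ∃ U : Subgroup Gal(Ω/F), ON U ∧ ∀ u ∈ U, ∀ x ∈ X, u • x = x := by
  induction X, hX using Set.Finite.induction_on with
  | empty => exact ⟨⊤, ON.top, fun _ _ _ hx => absurd hx (Set.notMem_empty _)⟩
  | @insert a S _ _ ih =>
    obtain ⟨U, hU, h⟩ := ih
    obtain ⟨V, hV, h'⟩ := hT a
    refine ⟨U ⊓ V, hU.inf hV, fun u hu x hx => ?_⟩
    rcases Set.mem_insert_iff.1 hx with rfl | hx
    · exact h' u hu.2
    · exact h u hu.1 x hx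

theorem Smo.orbit_finite {T : Type} [MulAction Gal(Ω/F) T] (hT : Smo F Ω T) (x : T) :
    (MulAction.orbit Gal(Ω/F) x).Finite := by
  obtain ⟨U, hU, h⟩ := hT x
  have := finite_quot hU.2
  refine (Set.finite_range (fun q : Gal(Ω/F) ⧸ U => q.out • x)).subset ?_
  rintro _ ⟨g, rfl⟩
  refine ⟨(g : Gal(Ω/F) ⧸ U), ?_⟩
  obtain ⟨u, hu⟩ := QuotientGroup.mk_out_eq_mul U g
  simp only [hu, mul_smul, h _ u.2]

theorem LC1.finite_range {A : Type*} {f : Gal(Ω/F) → A} (hf : LC1 f) : (Set.range f).Finite := by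
  obtain ⟨U, hU, h⟩ := hf
  have := finite_quot hU.2
  refine (Set.finite_range (fun q : Gal(Ω/F) ⧸ U => f q.out)).subset ?_
  rintro _ ⟨g, rfl⟩
  refine ⟨(g : Gal(Ω/F) ⧸ U), ?_⟩
  obtain ⟨u, hu⟩ := QuotientGroup.mk_out_eq_mul U g
  simp only [hu, h g _ u.2]

theorem LC1.strong {b : Gal(Ω/F) → Ωˣ} (hb : LC1 b) : ∃ U : Subgroup Gal(Ω/F), ON U ∧
    (∀ g, ∀ u ∈ U, b (g * u) = b g) ∧ ∀ u ∈ U, ∀ g, u • b g = b g := by
  obtain ⟨V, hV, h'⟩ := (smo_units (F := F) (Ω := Ω)).fix_finite _ hb.finite_range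
  obtain ⟨U, hU, h⟩ := hb
  exact ⟨U ⊓ V, hU.inf hV, fun g u hu => h g u hu.1, fun u hu g => h' u hu.2 _ ⟨g, rfl⟩⟩

theorem LC2.strong {c : Gal(Ω/F) → Gal(Ω/F) → Ωˣ} (hc : LC2 c) : ∃ U : Subgroup Gal(Ω/F), ON U ∧
    (∀ g h, ∀ u ∈ U, ∀ v ∈ U, c (g * u) (h * v) = c g h) ∧ ∀ u ∈ U, ∀ g h, u • c g h = c g h := by
  obtain ⟨U, hU, h⟩ := hc
  have := finite_quot hU.2
  have hfin : (Set.range (fun q : Gal(Ω/F) × Gal(Ω/F) => c q.1 q.2)).Finite := by
    refine (Set.finite_range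
      (fun q : (Gal(Ω/F) ⧸ U) × (Gal(Ω/F) ⧸ U) => c q.1.out q.2.out)).subset ?_
    rintro _ ⟨⟨g, k⟩, rfl⟩
    refine ⟨((g : Gal(Ω/F) ⧸ U), (k : Gal(Ω/F) ⧸ U)), ?_⟩
    obtain ⟨u, hu⟩ := QuotientGroup.mk_out_eq_mul U g
    obtain ⟨v, hv⟩ := QuotientGroup.mk_out_eq_mul U k
    simp only [hu, hv, h g k _ u.2 _ v.2]
  obtain ⟨V, hV, h'⟩ := (smo_units (F := F) (Ω := Ω)).fix_finite _ hfin
  exact ⟨U ⊓ V, hU.inf hV, fun g k u hu v hv => h g k u hu.1 v hv.1,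
    fun u hu g k => h' u hu.2 _ ⟨(g, k), rfl⟩⟩

theorem LC1.smul {b : Gal(Ω/F) → Ωˣ} (hb : LC1 b) : LC2 (fun g h => g • b h) := by
  obtain ⟨U, hU, h1, h2⟩ := hb.strong
  refine ⟨U, hU, fun g h u hu v hv => ?_⟩
  simp only [h1 h v hv, mul_smul, h2 u hu]

theorem Smo_mul_conj {U : Subgroup Gal(Ω/F)} (hU : ON U) (g h : Gal(Ω/F)) {u v : Gal(Ω/F)}
    (hu : u ∈ U) (hv : v ∈ U) : ∃ w ∈ U, (g * u) * (h * v) = (g * h) * w := by
  refine ⟨h⁻¹ * u * h * v, U.mul_mem ?_ hv, by group⟩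
  have h1 := hU.1.conj_mem u hu h⁻¹
  rwa [inv_inv] at h1

theorem LC1.mul' {A : Type*} {b : Gal(Ω/F) → A} (hb : LC1 b) : LC2 (fun g h => b (g * h)) := by
  obtain ⟨U, hU, h1⟩ := hb
  refine ⟨U, hU, fun g h u hu v hv => ?_⟩
  obtain ⟨w, hw, h2⟩ := Smo_mul_conj hU g h hu hv
  simp only [h2, h1 _ w hw]

theorem LC1.fst {A : Type*} {b : Gal(Ω/F) → A} (hb : LC1 b) :
    LC2 (fun g (_ : Gal(Ω/F)) => b g) := by
  obtain ⟨U, hU, h1⟩ := hb
  exact ⟨U, hU, fun g h u hu v hv => h1 g u hu⟩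

theorem LC1.snd {A : Type*} {b : Gal(Ω/F) → A} (hb : LC1 b) :
    LC2 (fun (_ : Gal(Ω/F)) h => b h) := by
  obtain ⟨U, hU, h1⟩ := hb
  exact ⟨U, hU, fun g h u hu v hv => h1 h v hv⟩

theorem LC1.dd {b : Gal(Ω/F) → Ωˣ} (hb : LC1 b) : LC2 (BrR.dd b) := by
  exact (hb.fst.comp₂ hb.smul (· * ·)).comp₂ hb.mul' (· / ·)

theorem LC2.left {A : Type*} {c : Gal(Ω/F) → Gal(Ω/F) → A} (hc : LC2 c) (h : Gal(Ω/F)) :
    LC1 (fun g => c g h) := by
  obtain ⟨U, hU, h1⟩ := hc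
  refine ⟨U, hU, fun g u hu => ?_⟩
  have h2 := h1 g h u hu 1 U.one_mem
  rwa [mul_one] at h2

theorem LC2.right {A : Type*} {c : Gal(Ω/F) → Gal(Ω/F) → A} (hc : LC2 c) (g : Gal(Ω/F)) :
    LC1 (fun h => c g h) := by
  obtain ⟨U, hU, h1⟩ := hc
  refine ⟨U, hU, fun h u hu => ?_⟩
  have h2 := h1 g h 1 U.one_mem u hu
  rwa [mul_one] at h2

open Classical in
/-- a function that is only locally constant on `H` -/
theorem Smo_ite' {A : Type*} {H : Subgroup Gal(Ω/F)} (hH : IsOpen (H : Set Gal(Ω/F)))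
    {f : Gal(Ω/F) → A} (U : Subgroup Gal(Ω/F)) (hU : ON U)
    (hf : ∀ g ∈ H, ∀ u ∈ U, u ∈ H → f (g * u) = f g) (a : A) :
    LC1 (fun g => if g ∈ H then f g else a) := by
  obtain ⟨V, hV, hle⟩ := exists_ON_le hH
  refine ⟨U ⊓ V, hU.inf hV, fun g u hu => ?_⟩
  have huH : u ∈ H := hle hu.2
  by_cases hg : g ∈ H
  · simp only [if_pos hg, if_pos (H.mul_mem hg huH), hf g hg u hu.1 huH]
  · have h1 : g * u ∉ H := fun h => hg ((H.mul_mem_cancel_right huH).1 h)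
    simp only [if_neg hg, if_neg h1]

open Classical in
theorem LC1.ite {A : Type*} {H : Subgroup Gal(Ω/F)} (hH : IsOpen (H : Set Gal(Ω/F)))
    {f : Gal(Ω/F) → A} (hf : LC1 f) (a : A) : LC1 (fun g => if g ∈ H then f g else a) := by
  obtain ⟨U, hU, h⟩ := hf
  exact Smo_ite' hH U hU (fun g _ u hu _ => h g u hu) a

open Classical in
/-- a function that is only locally constant on `H` -/
theorem LC1.ite' {A : Type*} {H : Subgroup Gal(Ω/F)} (hH : IsOpen (H : Set Gal(Ω/F)))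
    {f : Gal(Ω/F) → A} (U : Subgroup Gal(Ω/F)) (hU : ON U)
    (hf : ∀ g ∈ H, ∀ u ∈ U, u ∈ H → f (g * u) = f g) (a : A) :
    LC1 (fun g => if g ∈ H then f g else a) := Smo_ite' hH U hU hf a

theorem LC1.lmul {A : Type*} {f : Gal(Ω/F) → A} (hf : LC1 f) (s : Gal(Ω/F)) :
    LC1 (fun g => f (s * g)) := by
  obtain ⟨U, hU, h⟩ := hf
  refine ⟨U, hU, fun g u hu => ?_⟩
  simp only [← mul_assoc, h _ u hu]

theorem LC1.conj {A : Type*} {f : Gal(Ω/F) → A} (hf : LC1 f) (s t : Gal(Ω/F)) :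
    LC1 (fun g => f (s⁻¹ * g * t)) := by
  obtain ⟨U, hU, h⟩ := hf
  refine ⟨U, hU, fun g u hu => ?_⟩
  have h1 : s⁻¹ * (g * u) * t = (s⁻¹ * g * t) * (t⁻¹ * u * t) := by group
  have h2 : t⁻¹ * u * t ∈ U := by
    have h3 := hU.1.conj_mem u hu t⁻¹
    rwa [inv_inv] at h3
  simp only [h1, h _ _ h2]

theorem LC1.smul_elt {T : Type} [MulAction Gal(Ω/F) T] (hT : Smo F Ω T) (x : T) :
    LC1 (fun g : Gal(Ω/F) => g • x) := by
  obtain ⟨U, hU, h⟩ := hT x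
  refine ⟨U, hU, fun g u hu => ?_⟩
  simp only [mul_smul, h u hu]

/-- coboundaries (of locally constant cochains) are cocycles -/
theorem dd_mem_Coc {b : Gal(Ω/F) → Ωˣ} (hb : LC1 b) (H : Subgroup Gal(Ω/F)) :
    BrR.dd b ∈ Coc H := by
  refine ⟨hb.dd, fun g _ h _ k _ => ?_⟩
  simp only [BrR.dd, smul_div', smul_mul', smul_smul, mul_assoc]
  rw [div_mul_div_comm, div_mul_div_comm]
  rw [div_eq_div_iff_mul_eq_mul]
  simp only [mul_assoc, mul_comm, mul_left_comm]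

theorem dd_mem_Cob {b : Gal(Ω/F) → Ωˣ} (hb : LC1 b) (H : Subgroup Gal(Ω/F)) :
    BrR.dd b ∈ Cob H := ⟨b, hb, fun _ _ _ _ => rfl⟩

end BrR
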