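import Pool.Agent.H48.BR.Smo

set_option autoImplicit false

/-! # Row Syl: Sylow argument (about 150 lines)

THEOREM `syl`. `H` open, `H' ≤ H` open with `H'.relIndex H = p` prime. Then there are an open `P ≤ H` with
`P.relIndex H` coprime to `p`, and `χ : G → ZMod p` locally constant, additive on `P`, with some `σ ∈ P`, `χ σ = 1`, and
`χ g = 0 → g ∈ H'` for `g ∈ P`.

PROOF. Let `A = H ⧸ (H'.subgroupOf H)`, a type with `p` elements (`Subgroup.relIndex`, `index_eq_card`), with the action of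
`H`; `φ = MulAction.toPermHom H A : H →* Equiv.Perm A`. `ker φ ≤ H'.subgroupOf H` (an element acting trivially fixes the coset
of `1`). `ker φ` is open in `H` (it contains an ON subgroup of `G` contained in `H'`: such `U` acts trivially since `U` is
normal and `≤ H'`). Let `R = φ.range`, a finite group; `p ∣ Nat.card R` since `R` acts transitively on `A`
(`Nat.card A = p` divides: orbit-stabiliser); `Nat.card R ∣ Nat.card (Perm A) = p!` and `p^2 ∤ p!`
(`Nat.Prime.multiplicity_factorial` or: `p! = p * (p-1)!`, `p ∤ (p-1)!`). Let `S` be a Sylow `p`-subgroup of `R`: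
`Nat.card S = p` (`Sylow.card_eq_multiplicity`), index coprime to `p`. `P :=` image in `G` of `φ⁻¹(S)` (use
`φ.rangeRestrict` and `Subgroup.comap`, then `Subgroup.map H.subtype`). `P.relIndex H = S.index` in `R`.
`S` is cyclic of prime order: choose an isomorphism `S ≃* Multiplicative (ZMod p)` (`zmodCyclicMulEquiv` /
`mulEquivOfPrimeCardEq`), `χ g = ` the image of `φ g` for `g ∈ P`, `0` for `g ∉ P`. `σ` exists by surjectivity. `χ g = 0`,
`g ∈ P` ⇒ `φ g = 1` ⇒ `g ∈ H'`. Local constancy: for `u ∈ U` (ON, `U ≤ H'`, so `U ≤ ker φ ≤ P`): `χ (g u) = χ g`.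
`P` is open because it contains `U` (`Subgroup.isOpen_mono`). -/

namespace BrR

/-- the finite group theory behind `syl` -/
theorem Syl_grp {H : Type*} [Group H] {p : ℕ} (hp : p.Prime) (K : Subgroup H) (hK : K.index = p) :
    ∃ P : Subgroup H, K.normalCore ≤ P ∧ Nat.Coprime P.index p ∧
      ∃ X : H → ZMod p, (∀ g ∈ P, ∀ h ∈ P, X (g * h) = X g + X h) ∧ (∃ σ ∈ P, X σ = 1) ∧
        (∀ g ∈ P, X g = 0 → g ∈ K) ∧ ∀ g ∈ K.normalCore, X g = 0 := by
  have : Fact p.Prime := ⟨hp⟩
  have hfin : Finite (H ⧸ K) := by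
    apply Nat.finite_of_card_ne_zero
    rw [← Subgroup.index_eq_card, hK]
    exact hp.ne_zero
  have : Fintype (H ⧸ K) := Fintype.ofFinite _
  classical
  set φ := MulAction.toPermHom H (H ⧸ K) with hφ
  have hker : φ.ker = K.normalCore := (Subgroup.normalCore_eq_ker K).symm
  have : Finite φ.range := inferInstance
  have hcR : Nat.card φ.range = K.normalCore.index := by
    rw [← hker, Subgroup.index_ker]
  have hpR : p ∣ Nat.card φ.range := by
    rw [hcR]
    have := Subgroup.index_dvd_of_le (Subgroup.normalCore_le K)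
    rwa [hK] at this
  have hRf : Nat.card φ.range ∣ p.factorial := by
    have h1 := Subgroup.card_subgroup_dvd_card φ.range
    have h2 : Nat.card (Equiv.Perm (H ⧸ K)) = p.factorial := by
      rw [Nat.card_perm, ← Subgroup.index_eq_card, hK]
    rwa [h2] at h1
  have hp2 : ¬ p ^ 2 ∣ Nat.card φ.range := by
    intro h
    have h3 := h.trans hRf
    obtain ⟨q, rfl⟩ : ∃ q, p = q + 1 := ⟨p - 1, (Nat.succ_pred_eq_of_pos hp.pos).symm⟩
    rw [Nat.factorial_succ, pow_two] at h3
    have h4 := Nat.dvd_of_mul_dvd_mul_left hp.pos h3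
    have h5 := (hp.dvd_factorial).1 h4
    omega
  obtain ⟨S⟩ : Nonempty (Sylow p φ.range) := inferInstance
  have hcS : Nat.card S = p := by
    rw [Sylow.card_eq_multiplicity S]
    have h1 : (Nat.card φ.range).factorization p = 1 := by
      have hne : Nat.card φ.range ≠ 0 := Nat.card_pos.ne'
      apply le_antisymm
      · by_contra hc
        push Not at hc
        exact hp2 ((hp.pow_dvd_iff_le_factorization hne).2 hc)
      · exact (hp.dvd_iff_one_le_factorization hne).1 hpR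
    rw [h1, pow_one]
  have hSi : Nat.Coprime (S : Subgroup φ.range).index p := by
    rw [Nat.coprime_comm, Nat.Prime.coprime_iff_not_dvd hp]
    exact S.not_dvd_index
  set P : Subgroup H := Subgroup.comap φ.rangeRestrict (S : Subgroup φ.range) with hP
  have hPi : P.index = (S : Subgroup φ.range).index :=
    Subgroup.index_comap_of_surjective _ φ.rangeRestrict_surjective
  let e : S ≃* Multiplicative (ZMod p) :=
    mulEquivOfPrimeCardEq (p := p) hcS (by simp [Nat.card_eq_fintype_card, ZMod.card])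
  let ψ : P →* S := (φ.rangeRestrict.comp P.subtype).codRestrict (S : Subgroup φ.range)
    (fun x => x.2)
  have hψ : Function.Surjective ψ := by
    rintro ⟨y, hy⟩
    obtain ⟨x, hx⟩ := φ.rangeRestrict_surjective y
    have hxP : x ∈ P := by
      rw [hP, Subgroup.mem_comap, hx]
      exact hy
    exact ⟨⟨x, hxP⟩, Subtype.ext hx⟩
  have hψ1 : ∀ g : P, ψ g = 1 ↔ (g : H) ∈ K.normalCore := by
    intro g
    rw [← hker, MonoidHom.mem_ker]
    constructor
    · intro h
      have h1 := congrArg (fun t : S => ((t : φ.range) : Equiv.Perm (H ⧸ K))) h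
      exact h1
    · intro h
      apply Subtype.ext
      apply Subtype.ext
      exact h
  have hcore : K.normalCore ≤ P := by
    intro x hx
    rw [hP, Subgroup.mem_comap]
    have : φ.rangeRestrict x = 1 := by
      apply Subtype.ext
      rw [← hker, MonoidHom.mem_ker] at hx
      exact hx
    rw [this]
    exact one_mem _
  let X : H → ZMod p := fun g => if h : g ∈ P then Multiplicative.toAdd (e (ψ ⟨g, h⟩)) else 0
  have hX : ∀ g, ∀ h : g ∈ P, X g = Multiplicative.toAdd (e (ψ ⟨g, h⟩)) := by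
    intro g h
    simp only [X, dif_pos h]
  refine ⟨P, hcore, by rw [hPi]; exact hSi, X, ?_, ?_, ?_, ?_⟩
  · intro g hg h hh
    rw [hX g hg, hX h hh, hX (g * h) (mul_mem hg hh), ← toAdd_mul, ← map_mul, ← map_mul]
    rfl
  · obtain ⟨⟨s, hs⟩, hs1⟩ := hψ (e.symm (Multiplicative.ofAdd 1))
    refine ⟨s, hs, ?_⟩
    rw [hX s hs, hs1, MulEquiv.apply_symm_apply, toAdd_ofAdd]
  · intro g hg h0
    rw [hX g hg] at h0
    have h1 : ψ ⟨g, hg⟩ = 1 := by
      apply e.injective
      rw [map_one]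
      apply Multiplicative.toAdd.injective
      rw [h0, toAdd_one]
    exact Subgroup.normalCore_le K ((hψ1 ⟨g, hg⟩).1 h1)
  · intro g hg
    rw [hX g (hcore hg), (hψ1 ⟨g, hcore hg⟩).2 hg, map_one, toAdd_one]

/-- the same inside a larger group -/
theorem Syl_grp2 {G : Type*} [Group G] {p : ℕ} (hp : p.Prime) {H H' U : Subgroup G}
    (hUn : U.Normal) (hUH : U ≤ H') (hle : H' ≤ H) (hidx : H'.relIndex H = p) :
    ∃ P : Subgroup G, U ≤ P ∧ P ≤ H ∧ Nat.Coprime (P.relIndex H) p ∧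
      ∃ X : G → ZMod p, (∀ g, ∀ u ∈ U, X (g * u) = X g) ∧
        (∀ g ∈ P, ∀ h ∈ P, X (g * h) = X g + X h) ∧ (∃ σ ∈ P, X σ = 1) ∧
        ∀ g ∈ P, X g = 0 → g ∈ H' := by
  obtain ⟨P, hP1, hP2, Y, hYa, hYs, hY1, hY2⟩ := Syl_grp hp (H'.subgroupOf H) hidx
  have hmap : ∀ g : G, g ∈ P.map H.subtype ↔ ∃ h : g ∈ H, (⟨g, h⟩ : H) ∈ P := by
    intro g
    rw [Subgroup.mem_map]
    constructor
    · rintro ⟨x, hx, rfl⟩
      exact ⟨x.2, hx⟩
    · rintro ⟨h, hg⟩
      exact ⟨⟨g, h⟩, hg, rfl⟩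
  have hUcore : ∀ u, ∀ hu : u ∈ U, (⟨u, hle (hUH hu)⟩ : H) ∈ (H'.subgroupOf H).normalCore := by
    intro u hu b
    rw [Subgroup.mem_subgroupOf]
    exact hUH (hUn.conj_mem u hu b)
  have hUP : ∀ u, ∀ hu : u ∈ U, (⟨u, hle (hUH hu)⟩ : H) ∈ P := fun u hu => hP1 (hUcore u hu)
  have hUP' : U ≤ P.map H.subtype := fun u hu => (hmap u).2 ⟨_, hUP u hu⟩
  have hPH : P.map H.subtype ≤ H := by
    intro g hg
    exact ((hmap g).1 hg).1
  classical
  let X : G → ZMod p := fun g => if h : g ∈ P.map H.subtype then Y ⟨g, hPH h⟩ else 0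
  have hX : ∀ g, ∀ h : g ∈ P.map H.subtype, ∀ h' : g ∈ H, X g = Y ⟨g, h'⟩ := by
    intro g h h'
    simp only [X, dif_pos h]
  have hX0 : ∀ g, g ∉ P.map H.subtype → X g = 0 := by
    intro g hg
    simp only [X, dif_neg hg]
  have hmem : ∀ g, ∀ h : g ∈ P.map H.subtype, (⟨g, hPH h⟩ : H) ∈ P := by
    intro g h
    obtain ⟨h1, h2⟩ := (hmap g).1 h
    exact h2
  have hadd : ∀ g ∈ P.map H.subtype, ∀ h ∈ P.map H.subtype, X (g * h) = X g + X h := by
    intro g hg h hh
    rw [hX g hg (hPH hg), hX h hh (hPH hh), hX (g * h) (mul_mem hg hh) (hPH (mul_mem hg hh)),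
      ← hYa _ (hmem g hg) _ (hmem h hh)]
    rfl
  have hXU : ∀ u ∈ U, X u = 0 := by
    intro u hu
    rw [hX u (hUP' hu) (hle (hUH hu))]
    exact hY2 _ (hUcore u hu)
  refine ⟨P.map H.subtype, hUP', hPH, ?_, X, ?_, hadd, ?_, ?_⟩
  · have : (P.map H.subtype).relIndex H = P.index := by
      rw [Subgroup.relIndex, Subgroup.subgroupOf, Subgroup.comap_map_eq_self_of_injective]
      exact H.subtype_injective
    rw [this]
    exact hP2
  · intro g u hu
    by_cases hg : g ∈ P.map H.subtype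
    · rw [hadd g hg u (hUP' hu), hXU u hu, add_zero]
    · have hg' : g * u ∉ P.map H.subtype := by
        intro h
        apply hg
        have := mul_mem h (inv_mem (hUP' hu))
        rwa [mul_inv_cancel_right] at this
      rw [hX0 g hg, hX0 _ hg']
  · obtain ⟨⟨s, hs1⟩, hs2, hs⟩ := hYs
    have h1 : s ∈ P.map H.subtype := (hmap s).2 ⟨hs1, hs2⟩
    exact ⟨s, h1, by rw [hX s h1 hs1, hs]⟩
  · intro g hg h0
    rw [hX g hg (hPH hg)] at h0
    exact hY1 _ (hmem g hg) h0

variable {F Ω : Type} [Field F] [Field Ω] [Algebra F Ω] [IsGalois F Ω]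

theorem syl {p : ℕ} (hp : p.Prime) {H H' : Subgroup Gal(Ω/F)} (hH' : IsOpen (H' : Set Gal(Ω/F)))
    (hle : H' ≤ H) (hidx : H'.relIndex H = p) :
    ∃ P : Subgroup Gal(Ω/F), IsOpen (P : Set Gal(Ω/F)) ∧ P ≤ H ∧ Nat.Coprime (P.relIndex H) p ∧
      ∃ χ : Gal(Ω/F) → ZMod p, LC1 χ ∧ Hm P χ ∧ (∃ σ ∈ P, χ σ = 1) ∧
        ∀ g ∈ P, χ g = 0 → g ∈ H' := by
  obtain ⟨U, hU, hUH⟩ := exists_ON_le hH'
  obtain ⟨P, h1, h2, h3, X, h4, h5, h6, h7⟩ := Syl_grp2 hp hU.1 hUH hle hidx
  exact ⟨P, Subgroup.isOpen_mono h1 hU.2, h2, h3, X, ⟨U, hU, h4⟩, h5, h6, h7⟩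

/-- index bookkeeping: `H'` of index `p`, `K` of index prime to `p`: then `H' ⊓ K` has index `p` in `K`. -/
theorem relIndex_inf_prime {p : ℕ} (hp : p.Prime) {K H' : Subgroup Gal(Ω/F)}
    (hidx : H'.index = p) (hK : Nat.Coprime K.index p) (hK0 : K.index ≠ 0) :
    (H' ⊓ K).relIndex K = p := by
  rw [Subgroup.inf_relIndex_right]
  have h1 : H'.relIndex K * K.index = (H' ⊓ K).index := by
    rw [← Subgroup.inf_relIndex_right, Subgroup.relIndex_mul_index inf_le_right]
  have h2 : K.relIndex H' * H'.index = (H' ⊓ K).index := by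
    rw [← Subgroup.inf_relIndex_right, Subgroup.relIndex_mul_index inf_le_right, inf_comm]
  have h3 : p ∣ H'.relIndex K * K.index := by
    rw [h1, ← h2, hidx]
    exact dvd_mul_left _ _
  have h4 : p ∣ H'.relIndex K := (Nat.Coprime.symm hK).dvd_of_dvd_mul_right h3
  have h0 : H'.relIndex ⊤ ≠ 0 := by
    rw [Subgroup.relIndex_top_right, hidx]
    exact hp.ne_zero
  have h5 : H'.relIndex K ≤ p := by
    have := Subgroup.relIndex_le_of_le_right (le_top : K ≤ ⊤) h0
    rwa [Subgroup.relIndex_top_right, hidx] at this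
  have h6 : H'.relIndex K ≠ 0 := fun h =>
    h0 (Subgroup.relIndex_eq_zero_of_le_right (le_top : K ≤ ⊤) h)
  exact le_antisymm h5 (Nat.le_of_dvd (Nat.pos_of_ne_zero h6) h4)

end BrR
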