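import Pool.Agent.H48.BR.Shc
import Pool.Agent.H48.BR.Syl
import Pool.Agent.H48.BR.Cyc
import Pool.Agent.H48.BR.Cra

set_option autoImplicit false

/-! # Row Sy1: a class split by an extension of degree `p` is a sum of symbols over `F(ζ)` (about 80 lines)

THEOREM `sym_of_split`. `c ∈ Coc ⊤`, `c ∈ Cob H'`, `H'` open of index `p`, `Gz ζ` (the stabiliser of `ζ`) has index prime to `p`.
Then `c ∈ Sym p ζ (Gz ζ)`.
PROOF. Let `H = Gz ζ` (open: `ζ` has an open stabiliser, `smo_units`, `Subgroup.isOpen_mono`), `H'' = H' ⊓ H`, relative index `p`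
in `H` (`relIndex_inf_prime`; `H.index ≠ 0` since `H` is open in a compact group, `finite_quot`). `syl` gives `P, χ, σ`.
Let `K = {g ∈ P | χ g = 0}` (a subgroup: `χ` additive on `P`), `K ≤ H''` so `c ∈ Cob K`. `cyc` (with `N = p`): `c / car p a χ ∈ Cob P`,
`a` fixed by `P`. `kummer` (with `z = ζ`, `ε = 1`): `α` with `h • α = pw p ζ (χ h) * α` on `P`, so `α^p` is fixed by `P`; `β^p = a`
(`exists_root`). `car_sy`: `car p (β^p) χ * sy β α ∈ Cob P`. So `c ∈ Sym p ζ P`. `sym_cores`: `c^n ∈ Sym p ζ H`, `n = P.relIndex H`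
coprime to `p`. `res_cores` for `H'' ≤ H`: `c^p ∈ Cob H ≤ Sym`. `pow_coprime_mem`. -/

namespace BrR

variable {F Ω : Type} [Field F] [Field Ω] [Algebra F Ω] [IsGalois F Ω] [IsSepClosed Ω]

theorem sym_of_split {p : ℕ} (hp : p.Prime) (hodd : Odd p) (hpΩ : (p : Ω) ≠ 0) {ζ : Ωˣ}
    (hζ : IsPrimitiveRoot ζ p) (hidx : Nat.Coprime (Gz (F := F) ζ).index p)
    {H' : Subgroup Gal(Ω/F)} (hH' : IsOpen (H' : Set Gal(Ω/F))) (hH'p : H'.index = p)
    {c : Gal(Ω/F) → Gal(Ω/F) → Ωˣ} (hc : c ∈ Coc ⊤) (hcH' : c ∈ Cob H') :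
    c ∈ Sym p ζ (Gz ζ) := by
  have hpz : NeZero p := ⟨hp.ne_zero⟩
  have hp1 : 1 < p := hp.one_lt
  -- the stabiliser of `ζ` is open
  have hGo : IsOpen ((Gz (F := F) ζ : Subgroup Gal(Ω/F)) : Set Gal(Ω/F)) := by
    obtain ⟨U, hU, hUz⟩ := (smo_units (F := F) (Ω := Ω)) ζ
    exact Subgroup.isOpen_mono (H₁ := U) (fun u hu => hUz u hu) hU.2
  have hfin := finite_quot hGo
  have hG0 : (Gz (F := F) ζ).index ≠ 0 := Subgroup.index_ne_zero_of_finite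
  have hrel : (H' ⊓ Gz ζ).relIndex (Gz ζ) = p := relIndex_inf_prime hp hH'p hidx hG0
  have hH''o : IsOpen ((H' ⊓ Gz ζ : Subgroup Gal(Ω/F)) : Set Gal(Ω/F)) := by
    rw [Subgroup.coe_inf]
    exact hH'.inter hGo
  obtain ⟨P, hPo, hPH, hPcop, χ, hχ, hχ2, ⟨σ, hσP, hσ1⟩, hker⟩ := syl hp hH''o inf_le_right hrel
  have hχ1 : χ 1 = 0 := by
    have := hχ2 1 P.one_mem 1 P.one_mem
    rw [mul_one] at this
    exact left_eq_add.mp this
  -- the kernel of `χ` on `P`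
  let K : Subgroup Gal(Ω/F) :=
    { carrier := {g | g ∈ P ∧ χ g = 0}
      mul_mem' := by
        rintro a b ⟨ha, ha'⟩ ⟨hb, hb'⟩
        exact ⟨P.mul_mem ha hb, by rw [hχ2 a ha b hb, ha', hb', add_zero]⟩
      one_mem' := ⟨P.one_mem, hχ1⟩
      inv_mem' := by
        rintro a ⟨ha, ha'⟩
        refine ⟨P.inv_mem ha, ?_⟩
        have := hχ2 a⁻¹ (P.inv_mem ha) a ha
        rw [inv_mul_cancel, hχ1, ha', add_zero] at this
        exact this.symm }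
  have hKmem : ∀ g, g ∈ K ↔ g ∈ P ∧ χ g = 0 := fun g => Iff.rfl
  have hKH'' : K ≤ H' ⊓ Gz ζ := fun g hg => hker g hg.1 hg.2
  have hcK : c ∈ Cob K := Cob_anti (hKH''.trans inf_le_left) hcH'
  have hcP : c ∈ Coc P := Coc_anti le_top hc
  obtain ⟨a, ha, hca⟩ := cyc hPo χ hχ hχ2 σ hσP hσ1 K hKmem c hcP hcK
  have hζP : ∀ h ∈ P, h • ζ = ζ := fun h hh => hPH hh
  have hpwζ : ∀ g ∈ P, g • ζ = pw p ζ (1 : ZMod p) := by
    intro g hg
    rw [hζP g hg]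
    have := pw_natCast (N := p) hζ.pow_eq_one 1
    rw [Nat.cast_one, pow_one] at this
    exact this.symm
  obtain ⟨α, hα⟩ := kummer hPo hζ (fun _ => (1 : ZMod p)) hpwζ χ hχ (by
    intro g hg h hh
    rw [hχ2 g hg h hh, one_mul])
  obtain ⟨β, hβ⟩ := exists_root (Ω := Ω) p hpΩ a
  have hαp : ∀ h ∈ P, h • (α ^ p) = α ^ p := by
    intro h hh
    rw [smul_pow', hα h hh, mul_pow, pw_pow_self hζ.pow_eq_one, one_mul]
  have hβp : ∀ h ∈ P, h • (β ^ p) = β ^ p := by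
    intro h hh
    rw [hβ]
    exact ha h hh
  have hcs := car_sy hζ hζP hχ hχ2 hα hβp
  rw [hβ] at hcs
  -- `c ∈ Sym p ζ P`
  have hsy : sy p ζ β α ∈ Sym p ζ P := by
    refine (le_sup_left : _ ≤ Sym p ζ P) ?_
    exact Subgroup.subset_closure ⟨β, α, hβp, hαp, rfl⟩
  have hCob : ∀ H : Subgroup Gal(Ω/F), Cob H ≤ Sym p ζ H := fun H => le_sup_right
  have hcSP : c ∈ Sym p ζ P := by
    have e1 : c = (c / car p a χ) * (car p a χ * sy p ζ β α) * (sy p ζ β α)⁻¹ := by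
      rw [← mul_assoc, div_mul_cancel, mul_inv_cancel_right]
    rw [e1]
    exact (Sym p ζ P).mul_mem ((Sym p ζ P).mul_mem (hCob P hca) (hCob P hcs))
      ((Sym p ζ P).inv_mem hsy)
  have hcG : c ∈ Coc (Gz ζ) := Coc_anti le_top hc
  have hζG : ∀ h ∈ Gz (F := F) ζ, h • ζ = ζ := fun h hh => hh
  have h1 : c ^ (P.relIndex (Gz ζ)) ∈ Sym p ζ (Gz ζ) :=
    sym_cores hp hodd hpΩ hζ hPo hζG hPH hcG hcSP
  have h2 : c ^ p ∈ Sym p ζ (Gz ζ) := by
    have := res_cores hH''o (inf_le_right : H' ⊓ Gz ζ ≤ Gz ζ) hcG (Cob_anti inf_le_left hcH')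
    rw [hrel] at this
    exact hCob _ this
  exact pow_coprime_mem _ c h1 h2 hPcop

end BrR
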