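import Pool.Agent.H48.BR.Kum

set_option autoImplicit false

/-! # Row Tsa: trace symbols, basic identities (about 220 lines)

`H` fixes `ζ` (primitive `p`-th root of unity), `X ⊆ T` finite, `H`-stable, `α` `Good` on `X`
(`(h • α x)^p = (α (h•x))^p` for `h ∈ H`, `x ∈ X`), so `pw p ζ (ex α h x) = h • α x / α (h • x)` (`ex_spec`).

* `ex_mul`: for `h, k ∈ H`, `x ∈ X`: `ex α (h k) x = ex α h (k • x) + ex α k x`:
  `hk • α x / α (hk•x) = h • (k • α x / α (k • x)) * (h • α (k•x) / α (h•k•x))`, and `h` fixes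
  `k • α x / α(k•x) = pw p ζ _` (`smul_pw_of_fix`); `lg_mul`.
* `ts_coc`: with `e h x = ex α h x`, `f h x = ex β h x` the exponent is `c h k = ∑ x∈X, e h (k•x) * f k x`.
  `c k l + c h (k l) = c (h k) l + c h k`: by `ex_mul` the difference of the two sides is
  `∑ x, e h (k•l•x) * f k (l•x) - ∑ x, e h (k•x) * f k x = 0` by reindexing `x ↦ l • x` (`Finset.sum_bij`,
  `H`-stability, inverse `l⁻¹`). Action: `h ∈ H` fixes `pw p ζ _`. LC2: `ts_lc`.
* `ts_lc`: for `x ∈ X` the orbit of `x` is finite (`Smo.orbit_finite`); let `Y` = union of the orbits of the points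
  of `X` (finite set), `U` ON fixing all points of `Y` and all `α y, β y` (`y ∈ Y`) (`Smo.fix_finite` for `T` and for
  `Ωˣ`). For `u, v ∈ U`: `(k v) • x = k • (v • x) = k • x`, `(h u) • (k•x) = h • k • x`,
  `(h u) • α (k • x) = h • α (k•x)`, so nothing changes.
* `ts_mul_left`: `ex (α*α') h x = ex α h x + ex α' h x` on `X` (`lg_mul`); note `k • x ∈ X`. Equality on `H × H`.
* `ts_mul_right`: same.
* `ts_pow`: `ex (fun x => α x ^ μ x) h x = μ x * ex α h x` if `μ : T → ℕ`, `μ (h•x) = μ x`.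
* `ts_root`: (change of root) `α' = α * η` with `(η x)^p = 1` on `X`: put `ν x = lg p ζ (η x)`;
  `ex α' h x = ex α h x + ν x - ν (h • x)`; `ts α' β / ts α β = dd b` on `H` with `b h = pw p ζ (∑ x∈X, ν (h•x) * ex β h x)`:
  `b h + b k - b(hk) = ∑ ν(h•x) f h x + ∑ ν(k•x) f k x - ∑ ν(hk•x) (f h (k•x) + f k x)` and
  `∑ ν(h•x) f h x = ∑ ν(hk•x) f h (k•x)` by reindexing. `b` is LC1 as in `ts_lc`.
* `ts_anti`: `ts α β * ts β α = dd b` inverse with `b h = pw p ζ (- ∑ x∈X, e h x * f h x)`.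
* `ts_equi`: if `h • α x = α (h • x)` for `h ∈ H, x ∈ X` then `ex α h x = 0`, `ts α β h k = 1` on `H`.
* `ts_self`: `(ts α α)^2 ∈ Cob H` by `ts_anti` and `(ts α α)^p = 1`, `p` odd: `ts α α ∈ Cob H`.
* `ts_root_right`: from `ts_anti` and `ts_root`, or directly. -/

namespace BrR

variable {F Ω : Type} [Field F] [Field Ω] [Algebra F Ω]

section

variable {p : ℕ} [NeZero p] {ζ : Ωˣ} (hζ : IsPrimitiveRoot ζ p) {H : Subgroup Gal(Ω/F)}
  (hζH : ∀ h ∈ H, h • ζ = ζ) {T : Type} [MulAction Gal(Ω/F) T] {X : Finset T}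
  (hX : Stb H X) {α β α' : T → Ωˣ}

theorem Tsa_pow_one (hα : Good p H X α) {h : Gal(Ω/F)} (hh : h ∈ H) {x : T} (hx : x ∈ X) :
    (h • α x / α (h • x)) ^ p = 1 := by
  rw [div_pow, hα h hh x hx, div_self']

include hζ in
theorem ex_spec (hα : Good p H X α) {h : Gal(Ω/F)} (hh : h ∈ H) {x : T} (hx : x ∈ X) :
    pw p ζ (ex p ζ α h x) = h • α x / α (h • x) := by
  rw [ex]
  exact pw_lg hζ (Tsa_pow_one hα hh hx)

include hζ hζH hX in
theorem ex_mul (hα : Good p H X α) {h k : Gal(Ω/F)} (hh : h ∈ H) (hk : k ∈ H) {x : T}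
    (hx : x ∈ X) : ex p ζ α (h * k) x = ex p ζ α h (k • x) + ex p ζ α k x := by
  apply pw_injective hζ
  rw [pw_add hζ.pow_eq_one, ex_spec hζ hα (H.mul_mem hh hk) hx, ex_spec hζ hα hh (hX k hk x hx)]
  have h1 : pw p ζ (ex p ζ α k x) = h • (k • α x) / h • α (k • x) := by
    rw [← smul_div', ← ex_spec hζ hα hk hx, smul_pw_of_fix (hζH h hh)]
  rw [h1, mul_smul, mul_smul]
  rw [div_mul_div_comm, mul_comm (h • α (k • x)), mul_div_mul_right_eq_div]

/-- reindexing of a sum over a stable set -/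
theorem Tsa_reidx {A : Type*} [AddCommMonoid A] (hX : Stb H X) {k : Gal(Ω/F)} (hk : k ∈ H)
    (f : T → A) : ∑ x ∈ X, f (k • x) = ∑ x ∈ X, f x := by
  refine Finset.sum_bij' (fun x _ => k • x) (fun x _ => k⁻¹ • x) ?_ ?_ ?_ ?_ ?_
  · intro x hx
    exact hX k hk x hx
  · intro x hx
    exact hX k⁻¹ (H.inv_mem hk) x hx
  · intro x _
    exact inv_smul_smul k x
  · intro x _
    exact smul_inv_smul k x
  · intro x _
    rfl

include hζ in
theorem Tsa_ex_mul_fun (hα : Good p H X α) (hα' : Good p H X α') {h : Gal(Ω/F)} (hh : h ∈ H)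
    {x : T} (hx : x ∈ X) : ex p ζ (α * α') h x = ex p ζ α h x + ex p ζ α' h x := by
  simp only [ex]
  rw [← lg_mul hζ (Tsa_pow_one hα hh hx) (Tsa_pow_one hα' hh hx), Pi.mul_apply, Pi.mul_apply,
    smul_mul', div_mul_div_comm]

include hζ in
theorem Tsa_ex_inv (hα : Good p H X α) {h : Gal(Ω/F)} (hh : h ∈ H)
    {x : T} (hx : x ∈ X) : ex p ζ α⁻¹ h x = - ex p ζ α h x := by
  simp only [ex]
  rw [← lg_inv hζ (Tsa_pow_one hα hh hx), Pi.inv_apply, Pi.inv_apply, smul_inv', inv_div,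
    inv_div_inv]

include hζ in
theorem Tsa_lg_pow {u : Ωˣ} (hu : u ^ p = 1) (n : ℕ) : lg p ζ (u ^ n) = n * lg p ζ u := by
  induction n with
  | zero => simp [lg_one hζ]
  | succ n ih =>
    rw [pow_succ, lg_mul hζ (by rw [← pow_mul, mul_comm, pow_mul, hu, one_pow]) hu, ih]
    push_cast
    ring

include hζ in
theorem Tsa_ex_pow (hα : Good p H X α) (n : ℕ) {h : Gal(Ω/F)} (hh : h ∈ H)
    {x : T} (hx : x ∈ X) : ex p ζ (α ^ n) h x = n * ex p ζ α h x := by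
  simp only [ex]
  rw [← Tsa_lg_pow hζ (Tsa_pow_one hα hh hx), Pi.pow_apply, Pi.pow_apply, smul_pow', div_pow]

include hζ in
theorem Tsa_ex_equi (hα : ∀ h ∈ H, ∀ x ∈ X, h • α x = α (h • x)) {h : Gal(Ω/F)} (hh : h ∈ H)
    {x : T} (hx : x ∈ X) : ex p ζ α h x = 0 := by
  rw [ex, hα h hh x hx, div_self', lg_one hζ]

include hζ in
theorem ts_pow_p (X : Finset T) (α β : T → Ωˣ) (h k : Gal(Ω/F)) : (ts p ζ X α β h k) ^ p = 1 := by
  rw [ts]
  exact pw_pow_self hζ.pow_eq_one _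

include hζ hX in
theorem ts_mul_left (hα : Good p H X α) (hα' : Good p H X α') {h k : Gal(Ω/F)} (hh : h ∈ H)
    (hk : k ∈ H) : ts p ζ X (α * α') β h k = ts p ζ X α β h k * ts p ζ X α' β h k := by
  simp only [ts]
  rw [← pw_add hζ.pow_eq_one, ← Finset.sum_add_distrib]
  congr 1
  refine Finset.sum_congr rfl fun x hx => ?_
  rw [Tsa_ex_mul_fun hζ hα hα' hh (hX k hk x hx), add_mul]

include hζ hX in
theorem ts_mul_right (hβ : Good p H X β) (hα' : Good p H X α') {h k : Gal(Ω/F)} (hh : h ∈ H)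
    (hk : k ∈ H) : ts p ζ X α (β * α') h k = ts p ζ X α β h k * ts p ζ X α α' h k := by
  have _ := hX h hh
  simp only [ts]
  rw [← pw_add hζ.pow_eq_one, ← Finset.sum_add_distrib]
  congr 1
  refine Finset.sum_congr rfl fun x hx => ?_
  rw [Tsa_ex_mul_fun hζ hβ hα' hk hx, mul_add]

include hζ hX in
theorem ts_inv_left (hα : Good p H X α) {h k : Gal(Ω/F)} (hh : h ∈ H)
    (hk : k ∈ H) : ts p ζ X α⁻¹ β h k = (ts p ζ X α β h k)⁻¹ := by
  simp only [ts]
  rw [← pw_neg hζ.pow_eq_one, ← Finset.sum_neg_distrib]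
  congr 1
  refine Finset.sum_congr rfl fun x hx => ?_
  rw [Tsa_ex_inv hζ hα hh (hX k hk x hx), neg_mul]

include hζ hX in
theorem ts_inv_right (hβ : Good p H X β) {h k : Gal(Ω/F)} (hh : h ∈ H)
    (hk : k ∈ H) : ts p ζ X α β⁻¹ h k = (ts p ζ X α β h k)⁻¹ := by
  have _ := hX h hh
  simp only [ts]
  rw [← pw_neg hζ.pow_eq_one, ← Finset.sum_neg_distrib]
  congr 1
  refine Finset.sum_congr rfl fun x hx => ?_
  rw [Tsa_ex_inv hζ hβ hk hx, mul_neg]

include hζ hX in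
theorem ts_pow_left (hα : Good p H X α) (n : ℕ) {h k : Gal(Ω/F)} (hh : h ∈ H) (hk : k ∈ H) :
    ts p ζ X (α ^ n) β h k = (ts p ζ X α β h k) ^ n := by
  simp only [ts]
  rw [← pw_pow hζ.pow_eq_one, Finset.mul_sum]
  congr 1
  refine Finset.sum_congr rfl fun x hx => ?_
  rw [Tsa_ex_pow hζ hα n hh (hX k hk x hx), mul_assoc]

include hζ hX in
theorem ts_pow_right (hβ : Good p H X β) (n : ℕ) {h k : Gal(Ω/F)} (hh : h ∈ H) (hk : k ∈ H) :
    ts p ζ X α (β ^ n) h k = (ts p ζ X α β h k) ^ n := by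
  have _ := hX h hh
  simp only [ts]
  rw [← pw_pow hζ.pow_eq_one, Finset.mul_sum]
  congr 1
  refine Finset.sum_congr rfl fun x hx => ?_
  rw [Tsa_ex_pow hζ hβ n hk hx, mul_left_comm]

include hζ hX in
theorem ts_equi_left (hα : ∀ h ∈ H, ∀ x ∈ X, h • α x = α (h • x)) {h k : Gal(Ω/F)} (hh : h ∈ H)
    (hk : k ∈ H) : ts p ζ X α β h k = 1 := by
  rw [ts, Finset.sum_eq_zero, pw_zero]
  intro x hx
  rw [Tsa_ex_equi hζ hα hh (hX k hk x hx), zero_mul]

include hζ in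
theorem ts_equi_right (hβ : ∀ h ∈ H, ∀ x ∈ X, h • β x = β (h • x)) {h k : Gal(Ω/F)} (hk : k ∈ H) :
    ts p ζ X α β h k = 1 := by
  rw [ts, Finset.sum_eq_zero, pw_zero]
  intro x hx
  rw [Tsa_ex_equi hζ hβ hk hx, mul_zero]

omit [NeZero p] in
theorem Tsa_LC1_sum {A ι : Type*} [AddCommMonoid A] (s : Finset ι) {f : ι → Gal(Ω/F) → A}
    (hf : ∀ i ∈ s, LC1 (f i)) : LC1 (fun g => ∑ i ∈ s, f i g) := by
  classical
  induction s using Finset.induction_on with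
  | empty => simpa using LC1.const (F := F) (Ω := Ω) (0 : A)
  | insert a s ha ih =>
    simp only [Finset.sum_insert ha]
    exact (hf a (Finset.mem_insert_self a s)).comp₂
      (ih fun i hi => hf i (Finset.mem_insert_of_mem hi)) (· + ·)

omit [NeZero p] in
theorem Tsa_LC2_sum {A ι : Type*} [AddCommMonoid A] (s : Finset ι)
    {f : ι → Gal(Ω/F) → Gal(Ω/F) → A}
    (hf : ∀ i ∈ s, LC2 (f i)) : LC2 (fun g h => ∑ i ∈ s, f i g h) := by
  classical
  induction s using Finset.induction_on with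
  | empty => simpa using LC2.const (F := F) (Ω := Ω) (0 : A)
  | insert a s ha ih =>
    simp only [Finset.sum_insert ha]
    exact (hf a (Finset.mem_insert_self a s)).comp₂
      (ih fun i hi => hf i (Finset.mem_insert_of_mem hi)) (· + ·)

variable [IsGalois F Ω] (hT : Smo F Ω T)

include hT in
theorem Tsa_ex_lc (p : ℕ) (ζ : Ωˣ) (α : T → Ωˣ) (x : T) :
    LC1 (fun h : Gal(Ω/F) => ex p ζ α h x) := by
  have h1 : LC1 (fun h : Gal(Ω/F) => h • α x) := LC1.smul_elt smo_units (α x)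
  have h2 : LC1 (fun h : Gal(Ω/F) => α (h • x)) := (LC1.smul_elt hT x).comp α
  exact h1.comp₂ h2 (fun a b => lg p ζ (a / b))

include hT in
theorem ts_lc (p : ℕ) (ζ : Ωˣ) (X : Finset T) (α β : T → Ωˣ) : LC2 (ts p ζ X α β : Gal(Ω/F) → Gal(Ω/F) → Ωˣ) := by
  have h0 : LC2 (fun h k : Gal(Ω/F) => ∑ x ∈ X, ex p ζ α h (k • x) * ex p ζ β k x) := by
    refine Tsa_LC2_sum X fun x _ => ?_
    have hb : LC1 (fun h : Gal(Ω/F) => α (h • x)) := (LC1.smul_elt hT x).comp α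
    have h1 : LC2 (fun h k : Gal(Ω/F) => ex p ζ α h (k • x)) := by
      have h2 := hb.smul.comp₂ hb.mul' (fun a b => lg p ζ (a / b))
      simp only [mul_smul] at h2
      exact h2
    exact h1.comp₂ (Tsa_ex_lc hT p ζ β x).snd (· * ·)
  exact h0.comp (pw p ζ)

include hζ hζH hX hT in
theorem ts_coc (hα : Good p H X α) (hβ : Good p H X β) : ts p ζ X α β ∈ Coc H := by
  refine ⟨ts_lc hT p ζ X α β, fun g hg h hh k hk => ?_⟩
  simp only [ts]
  rw [smul_pw_of_fix (hζH g hg), ← pw_add hζ.pow_eq_one, ← pw_add hζ.pow_eq_one]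
  congr 1
  have h1 : ∑ x ∈ X, ex p ζ α g ((h * k) • x) * ex p ζ β (h * k) x =
      ∑ x ∈ X, (ex p ζ α g (h • k • x) * ex p ζ β h (k • x) +
        ex p ζ α g (h • k • x) * ex p ζ β k x) := by
    refine Finset.sum_congr rfl fun x hx => ?_
    rw [ex_mul hζ hζH hX hβ hh hk hx, mul_smul, mul_add]
  have h2 : ∑ x ∈ X, ex p ζ α (g * h) (k • x) * ex p ζ β k x =
      ∑ x ∈ X, (ex p ζ α g (h • k • x) * ex p ζ β k x +
        ex p ζ α h (k • x) * ex p ζ β k x) := by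
    refine Finset.sum_congr rfl fun x hx => ?_
    rw [ex_mul hζ hζH hX hα hg hh (hX k hk x hx), add_mul]
  have h3 : ∑ x ∈ X, ex p ζ α g (h • k • x) * ex p ζ β h (k • x) =
      ∑ x ∈ X, ex p ζ α g (h • x) * ex p ζ β h x :=
    Tsa_reidx hX hk (fun x => ex p ζ α g (h • x) * ex p ζ β h x)
  rw [h1, h2, Finset.sum_add_distrib, Finset.sum_add_distrib, h3]
  ring

include hζ hζH hX hT in
theorem ts_anti (hα : Good p H X α) (hβ : Good p H X β) :
    ts p ζ X α β * ts p ζ X β α ∈ Cob H := by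
  refine ⟨fun h => pw p ζ (- ∑ x ∈ X, ex p ζ α h x * ex p ζ β h x), ?_, fun h hh k hk => ?_⟩
  · have h0 : LC1 (fun h : Gal(Ω/F) => ∑ x ∈ X, ex p ζ α h x * ex p ζ β h x) :=
      Tsa_LC1_sum X fun x _ => (Tsa_ex_lc hT p ζ α x).comp₂ (Tsa_ex_lc hT p ζ β x) (· * ·)
    exact h0.comp (fun a => pw p ζ (- a))
  · simp only [Pi.mul_apply, ts, dd]
    rw [smul_pw_of_fix (hζH h hh), ← pw_add hζ.pow_eq_one, ← pw_add hζ.pow_eq_one,
      ← pw_sub hζ.pow_eq_one]
    congr 1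
    have h1 : ∑ x ∈ X, ex p ζ α (h * k) x * ex p ζ β (h * k) x =
        ∑ x ∈ X, (ex p ζ α h (k • x) * ex p ζ β h (k • x) + ex p ζ α h (k • x) * ex p ζ β k x +
          ex p ζ β h (k • x) * ex p ζ α k x + ex p ζ α k x * ex p ζ β k x) := by
      refine Finset.sum_congr rfl fun x hx => ?_
      rw [ex_mul hζ hζH hX hβ hh hk hx, ex_mul hζ hζH hX hα hh hk hx]
      ring
    have h3 : ∑ x ∈ X, ex p ζ α h (k • x) * ex p ζ β h (k • x) =
        ∑ x ∈ X, ex p ζ α h x * ex p ζ β h x :=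
      Tsa_reidx hX hk (fun x => ex p ζ α h x * ex p ζ β h x)
    rw [h1, Finset.sum_add_distrib, Finset.sum_add_distrib, Finset.sum_add_distrib, h3]
    ring

include hζ hζH hX in
/-- the exponent function of another root -/
theorem Tsa_ex_root (hα : Good p H X α) (h : ∀ x ∈ X, (α' x) ^ p = (α x) ^ p) {g : Gal(Ω/F)}
    (hg : g ∈ H) {x : T} (hx : x ∈ X) : ex p ζ α' g x = ex p ζ α g x +
      (lg p ζ (α' x / α x) - lg p ζ (α' (g • x) / α (g • x))) := by
  have h1 : ∀ y ∈ X, (α' y / α y) ^ p = 1 := fun y hy => by rw [div_pow, h y hy, div_self']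
  have h2 : ∀ y ∈ X, α' y = pw p ζ (lg p ζ (α' y / α y)) * α y := fun y hy => by
    rw [pw_lg hζ (h1 y hy), div_mul_cancel]
  have hα'g : Good p H X α' := by
    intro h' hh' y hy
    rw [← smul_pow', h y hy, h _ (hX h' hh' y hy), smul_pow', hα h' hh' y hy]
  apply pw_injective hζ
  rw [ex_spec hζ hα'g hg hx, pw_add hζ.pow_eq_one, pw_sub hζ.pow_eq_one, ex_spec hζ hα hg hx]
  conv_lhs => rw [h2 x hx, h2 _ (hX g hg x hx)]
  rw [smul_mul', smul_pw_of_fix (hζH g hg), mul_comm, div_mul_div_comm, mul_comm (g • α x),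
    mul_comm (α (g • x))]

include hζ hζH hX hT in
theorem ts_root_left (hα : Good p H X α) (hβ : Good p H X β)
    (h : ∀ x ∈ X, (α' x) ^ p = (α x) ^ p) : ts p ζ X α' β / ts p ζ X α β ∈ Cob H := by
  set ν : T → ZMod p := fun x => lg p ζ (α' x / α x) with hν
  refine ⟨fun g => pw p ζ (∑ x ∈ X, ν (g • x) * ex p ζ β g x), ?_, fun g hg k hk => ?_⟩
  · have h0 : LC1 (fun g : Gal(Ω/F) => ∑ x ∈ X, ν (g • x) * ex p ζ β g x) :=
      Tsa_LC1_sum X fun x _ => ((LC1.smul_elt hT x).comp ν).comp₂ (Tsa_ex_lc hT p ζ β x) (· * ·)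
    exact h0.comp (pw p ζ)
  · simp only [Pi.div_apply, ts, dd]
    rw [smul_pw_of_fix (hζH g hg), ← pw_add hζ.pow_eq_one, ← pw_sub hζ.pow_eq_one,
      ← pw_sub hζ.pow_eq_one]
    congr 1
    have h1 : ∑ x ∈ X, ν ((g * k) • x) * ex p ζ β (g * k) x =
        ∑ x ∈ X, (ν (g • k • x) * ex p ζ β g (k • x) + ν (g • k • x) * ex p ζ β k x) := by
      refine Finset.sum_congr rfl fun x hx => ?_
      rw [ex_mul hζ hζH hX hβ hg hk hx, mul_smul, mul_add]
    have h3 : ∑ x ∈ X, ν (g • k • x) * ex p ζ β g (k • x) =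
        ∑ x ∈ X, ν (g • x) * ex p ζ β g x :=
      Tsa_reidx hX hk (fun x => ν (g • x) * ex p ζ β g x)
    have h4 : ∑ x ∈ X, ex p ζ α' g (k • x) * ex p ζ β k x =
        ∑ x ∈ X, (ex p ζ α g (k • x) * ex p ζ β k x + ν (k • x) * ex p ζ β k x -
          ν (g • k • x) * ex p ζ β k x) := by
      refine Finset.sum_congr rfl fun x hx => ?_
      rw [Tsa_ex_root hζ hζH hX hα h hg (hX k hk x hx)]
      ring
    rw [h1, h4, Finset.sum_sub_distrib, Finset.sum_add_distrib, Finset.sum_add_distrib, h3]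
    ring

omit [NeZero p] [IsGalois F Ω] in
theorem Tsa_grp {M : Type*} [CommGroup M] (a b c d : M) :
    a / c = a * b * (c * d)⁻¹ * (b / d)⁻¹ := by
  rw [inv_div, mul_inv, div_eq_mul_inv, div_eq_mul_inv]
  have : a * b * (c⁻¹ * d⁻¹) * (d * b⁻¹) = a * c⁻¹ * (b * b⁻¹) * (d⁻¹ * d) := by
    simp only [mul_comm, mul_left_comm, mul_assoc]
  rw [this, mul_inv_cancel, inv_mul_cancel, mul_one, mul_one]

include hζ hζH hX hT in
theorem ts_root_right (hα : Good p H X α) (hβ : Good p H X β)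
    (h : ∀ x ∈ X, (α' x) ^ p = (β x) ^ p) : ts p ζ X α α' / ts p ζ X α β ∈ Cob H := by
  have hα'g : Good p H X α' := by
    intro h' hh' y hy
    rw [← smul_pow', h y hy, h _ (hX h' hh' y hy), smul_pow', hβ h' hh' y hy]
  have h1 := ts_anti hζ hζH hX hT hα hα'g
  have h2 := ts_anti hζ hζH hX hT hα hβ
  have h3 := ts_root_left hζ hζH hX hT hβ hα h
  have h4 := (Cob H).mul_mem ((Cob H).mul_mem h1 ((Cob H).inv_mem h2)) ((Cob H).inv_mem h3)
  rw [Tsa_grp (ts p ζ X α α') (ts p ζ X α' α) (ts p ζ X α β) (ts p ζ X β α)]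
  exact h4

include hζ hζH hX hT in
theorem ts_self (hp : Odd p) (hα : Good p H X α) : ts p ζ X α α ∈ Cob H := by
  obtain ⟨m, hm⟩ := hp
  have h1 := ts_anti hζ hζH hX hT hα hα
  have h2 : (ts p ζ X α α : Gal(Ω/F) → Gal(Ω/F) → Ωˣ) ^ p = 1 := by
    funext g k
    exact ts_pow_p hζ X α α g k
  have h3 : (ts p ζ X α α : Gal(Ω/F) → Gal(Ω/F) → Ωˣ) = ((ts p ζ X α α * ts p ζ X α α) ^ m)⁻¹ := by
    rw [eq_inv_iff_mul_eq_one, ← pow_two, ← pow_mul, ← pow_succ', ← hm, h2]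
  rw [h3]
  exact (Cob H).inv_mem ((Cob H).pow_mem h1 m)

end

end BrR
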