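import Pool.Agent.H48.BR.Tsa

set_option autoImplicit false

/-! # Row Tsb: projection formulas and the Steinberg relation for trace symbols (about 230 lines)

`π : T → T'` equivariant, `X ⊆ T` finite `H`-stable, `Y ⊆ T'` finite, `H`-stable, `π X ⊆ Y`.
The norm of `β : T → Ωˣ` is `nm π X β y = ∏ x ∈ X with π x = y, β x`.
* `nm_good`: `(h • nm β y)^p = ∏_{π x = y} (h • β x)^p = ∏_{π x = y} (β (h•x))^p = (nm β (h • y))^p`, the fibre over `y`
  is mapped bijectively to the fibre over `h • y` (`Finset.prod_bij`).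
* `ex_nm`: `ex (nm β) k y = ∑ x∈X, π x = y, ex β k x` for `k ∈ H`, `y ∈ Y` (apply `pw p ζ`, `ex_spec`, injectivity).
* `ts_proj_left`: `ts X (α ∘ π) β = ts Y α (nm π X β)` on `H × H`: group the sum over `X` by `y = π x`
  (`Finset.sum_fiberwise_of_maps_to`), `ex (α ∘ π) h (k • x) = ex α h (k • y)` since `π (k•x) = k • π x`.
* `ts_proj_right`: `ts X β (α ∘ π) = ts Y (nm π X β) α` on `H × H`: the sum over the fibre of `y` of
  `ex β h (k • x)` is the sum over the fibre over `k • y` of `ex β h x'`.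
* `ts_const`: one-point quotient: `ts X (fun _ => γ) β = sy γ (∏ x∈X, β x)` if `γ^p` is fixed by `H`
  (direct: `ex (fun _ => γ) h x = lg (h•γ/γ)`, and `∑ x, ex β k x = lg (k•B/B)`, `B = ∏ β x`).
* `ts_steinberg`: `a x + b x = 1`, `(α x)^p = a x`, `(β x)^p = b x` (in `Ω`) for `x ∈ X`. Let `T₂ = T × Ω` with the
  diagonal action (`Prod` instance), `Y = {(x, y) | x ∈ X, y^p = a x}` = image of `X × ZMod p` under
  `(x,i) ↦ (x, pw p ζ i * α x)`, `H`-stable since `a (h • x) = h • a x` (that is `Good`), `π (x,y) = x`.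
  For `(x,y) ∈ Y`: `∏_{y : y^p = a x} (1 - y) = 1 - a x = b x ≠ 0` (`IsPrimitiveRoot.pow_sub_pow_eq_prod_sub_mul` or
  `X_pow_sub_one_eq_prod`; the fibre is `{ζ^i α x}`), so `1 - y ≠ 0`; choose `δ (x,y)` with
  `(δ (x,y))^p = 1 - y` (`exists_root`), `δ = 1` off `Y`; `Good δ` since `h • (1 - y) = 1 - h • y`.
  `(nm π Y δ x)^p = b x = (β x)^p`. So modulo `Cob H`: `ts X α β ~ ts X α (nm δ)` (`ts_root_right`)
  `= ts Y (α ∘ π) δ` (`ts_proj_left`) `~ ts Y (fun (x,y) => y) δ` (`ts_root_left`, `y^p = (α x)^p`) `= 1` (`ts_equi_left`: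
  `h • y = y (h • (x,y))`). -/

namespace BrR

variable {F Ω : Type} [Field F] [Field Ω] [Algebra F Ω]

open Classical in
/-- norm along a map -/
noncomputable def nm {T T' : Type} (π : T → T') (X : Finset T) (β : T → Ωˣ) : T' → Ωˣ :=
  fun y => ∏ x ∈ X.filter (fun x => π x = y), β x

/-! ### auxiliary lemmas -/

theorem Tsb_pw_sum {ι M : Type*} [CommMonoid M] {N : ℕ} [NeZero N] {z : M} (hz : z ^ N = 1)
    (s : Finset ι) (f : ι → ZMod N) : pw N z (∑ i ∈ s, f i) = ∏ i ∈ s, pw N z (f i) := by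
  classical
  induction s using Finset.induction_on with
  | empty => simp [pw_zero]
  | insert a s ha ih => rw [Finset.sum_insert ha, Finset.prod_insert ha, pw_add hz, ih]

open Classical in
theorem Tsb_fib {H : Subgroup Gal(Ω/F)} {T T' : Type} [MulAction Gal(Ω/F) T]
    [MulAction Gal(Ω/F) T'] {X : Finset T} (hX : Stb H X) {π : T → T'}
    (hπ : ∀ (g : Gal(Ω/F)) x, π (g • x) = g • π x) {M : Type*} [CommMonoid M] {k : Gal(Ω/F)}
    (hk : k ∈ H) (y : T') (f : T → M) :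
    ∏ x ∈ X.filter (fun x => π x = k • y), f x = ∏ x ∈ X.filter (fun x => π x = y), f (k • x) := by
  symm
  refine Finset.prod_nbij' (fun x => k • x) (fun x => k⁻¹ • x) ?_ ?_ ?_ ?_ ?_
  · intro x hx
    rw [Finset.mem_filter] at hx ⊢
    exact ⟨hX k hk x hx.1, by rw [hπ, hx.2]⟩
  · intro x hx
    rw [Finset.mem_filter] at hx ⊢
    exact ⟨hX k⁻¹ (H.inv_mem hk) x hx.1, by rw [hπ, hx.2, inv_smul_smul]⟩
  · intro x _
    exact inv_smul_smul k x
  · intro x _
    exact smul_inv_smul k x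
  · intro x _
    rfl

theorem Tsb_all {H : Subgroup Gal(Ω/F)} {T : Type} [MulAction Gal(Ω/F) T]
    {X : Finset T} (hX : Stb H X) {M : Type*} [CommMonoid M] {k : Gal(Ω/F)}
    (hk : k ∈ H) (f : T → M) : ∏ x ∈ X, f (k • x) = ∏ x ∈ X, f x := by
  refine Finset.prod_nbij' (fun x => k • x) (fun x => k⁻¹ • x) ?_ ?_ ?_ ?_ ?_
  · intro x hx
    exact hX k hk x hx
  · intro x hx
    exact hX k⁻¹ (H.inv_mem hk) x hx
  · intro x _
    exact inv_smul_smul k x
  · intro x _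
    exact smul_inv_smul k x
  · intro x _
    rfl

theorem Tsb_smul_prod {ι : Type*} (g : Gal(Ω/F)) (s : Finset ι) (f : ι → Ωˣ) :
    g • ∏ i ∈ s, f i = ∏ i ∈ s, g • f i := Finset.smul_prod'

section

variable {p : ℕ} [NeZero p] {ζ : Ωˣ} (hζ : IsPrimitiveRoot ζ p) {H : Subgroup Gal(Ω/F)}
  (hζH : ∀ h ∈ H, h • ζ = ζ) {T : Type} [MulAction Gal(Ω/F) T] {X : Finset T}
  (hX : Stb H X) {T' : Type} [MulAction Gal(Ω/F) T'] {Y : Finset T'} (hY : Stb H Y)
  {π : T → T'} (hπ : ∀ (g : Gal(Ω/F)) x, π (g • x) = g • π x) (hπX : ∀ x ∈ X, π x ∈ Y)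

include hX hπ in
theorem nm_good {β : T → Ωˣ} (hβ : Good p H X β) (Y : Finset T') : Good p H Y (nm π X β) := by
  classical
  intro h hh y _
  unfold nm
  rw [Tsb_fib hX hπ hh y, Tsb_smul_prod, ← Finset.prod_pow, ← Finset.prod_pow]
  refine Finset.prod_congr rfl fun x hx => ?_
  exact hβ h hh x (Finset.mem_filter.1 hx).1

include hζ hX hπ in
theorem Tsb_ex_nm {β : T → Ωˣ} (hβ : Good p H X β) {k : Gal(Ω/F)} (hk : k ∈ H) {y : T'}
    [DecidablePred fun x => π x = y] :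
    ex p ζ (nm π X β) k y = ∑ x ∈ X.filter (fun x => π x = y), ex p ζ β k x := by
  classical
  apply pw_injective hζ
  rw [ex_spec hζ (nm_good (p := p) hX hπ hβ {y}) hk (Finset.mem_singleton_self y),
    Tsb_pw_sum hζ.pow_eq_one]
  have h1 : ∀ x ∈ X.filter (fun x => π x = y), pw p ζ (ex p ζ β k x) = k • β x / β (k • x) :=
    fun x hx => ex_spec hζ hβ hk (Finset.mem_filter.1 hx).1
  rw [Finset.prod_congr rfl h1, Finset.prod_div_distrib]
  unfold nm
  rw [Tsb_fib hX hπ hk y, Tsb_smul_prod]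
  congr 1 <;> · refine Finset.prod_congr ?_ fun _ _ => rfl
                ext x
                simp

include hζ hζH hX hY hπ hπX in
theorem ts_proj_left {α : T' → Ωˣ} {β : T → Ωˣ} (hα : Good p H Y α) (hβ : Good p H X β)
    {h k : Gal(Ω/F)} (hh : h ∈ H) (hk : k ∈ H) :
    ts p ζ X (fun x => α (π x)) β h k = ts p ζ Y α (nm π X β) h k := by
  classical
  unfold ts
  congr 1
  rw [← Finset.sum_fiberwise_of_maps_to hπX]
  refine Finset.sum_congr rfl fun y hy => ?_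
  rw [Tsb_ex_nm hζ hX hπ hβ hk, Finset.mul_sum]
  refine Finset.sum_congr rfl fun x hx => ?_
  rw [Finset.mem_filter] at hx
  congr 1
  unfold ex
  simp only [hπ, hx.2]

include hζ hζH hX hY hπ hπX in
theorem ts_proj_right {α : T' → Ωˣ} {β : T → Ωˣ} (hα : Good p H Y α) (hβ : Good p H X β)
    {h k : Gal(Ω/F)} (hh : h ∈ H) (hk : k ∈ H) :
    ts p ζ X β (fun x => α (π x)) h k = ts p ζ Y (nm π X β) α h k := by
  classical
  unfold ts
  congr 1
  rw [← Finset.sum_fiberwise_of_maps_to hπX]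
  refine Finset.sum_congr rfl fun y hy => ?_
  rw [Tsb_ex_nm hζ hX hπ hβ hh, Finset.sum_mul]
  have h1 := Tsb_fib (M := Multiplicative (ZMod p)) hX hπ hk y
    (fun x => Multiplicative.ofAdd (ex p ζ β h x * ex p ζ α k y))
  have h2 : ∑ x ∈ X.filter (fun x => π x = k • y), ex p ζ β h x * ex p ζ α k y =
      ∑ x ∈ X.filter (fun x => π x = y), ex p ζ β h (k • x) * ex p ζ α k y := h1
  rw [h2]
  refine Finset.sum_congr rfl fun x hx => ?_
  rw [Finset.mem_filter] at hx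
  congr 1
  unfold ex
  simp only [hπ, hx.2]

include hζ hX in
theorem Tsb_ex_sum {β : T → Ωˣ} (hβ : Good p H X β) {k : Gal(Ω/F)} (hk : k ∈ H) :
    ∑ x ∈ X, ex p ζ β k x = lg p ζ (k • (∏ x ∈ X, β x) / ∏ x ∈ X, β x) := by
  have h1 : pw p ζ (∑ x ∈ X, ex p ζ β k x) = k • (∏ x ∈ X, β x) / ∏ x ∈ X, β x := by
    rw [Tsb_pw_sum hζ.pow_eq_one, Finset.prod_congr rfl fun x hx => ex_spec hζ hβ hk hx,
      Finset.prod_div_distrib, Tsb_all hX hk β, Tsb_smul_prod]
  rw [← h1, lg_pw hζ]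

include hζ hζH hX in
theorem ts_const_left {γ : Ωˣ} (hγ : ∀ h ∈ H, h • (γ ^ p) = γ ^ p) {β : T → Ωˣ}
    (hβ : Good p H X β) {h k : Gal(Ω/F)} (hh : h ∈ H) (hk : k ∈ H) :
    ts p ζ X (fun _ => γ) β h k = sy p ζ γ (∏ x ∈ X, β x) h k := by
  unfold ts sy
  congr 1
  rw [← Tsb_ex_sum hζ hX hβ hk, Finset.mul_sum]
  rfl

include hζ hζH hX in
theorem ts_const_right {γ : Ωˣ} (hγ : ∀ h ∈ H, h • (γ ^ p) = γ ^ p) {β : T → Ωˣ}
    (hβ : Good p H X β) {h k : Gal(Ω/F)} (hh : h ∈ H) (hk : k ∈ H) :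
    ts p ζ X β (fun _ => γ) h k = sy p ζ (∏ x ∈ X, β x) γ h k := by
  unfold ts sy
  congr 1
  rw [← Tsb_ex_sum hζ hX hβ hh, Finset.sum_mul]
  have h1 := Tsb_all (M := Multiplicative (ZMod p)) hX hk
    (fun x => Multiplicative.ofAdd (ex p ζ β h x * lg p ζ (k • γ / γ)))
  exact h1

include hζ in
theorem Tsb_prod (a : Ω) : ∏ i : ZMod p, (1 - ((pw p ζ i : Ωˣ) : Ω) * a) = 1 - a ^ p := by
  have hz : IsPrimitiveRoot (ζ : Ω) p := IsPrimitiveRoot.coe_units_iff.mpr hζ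
  have h1 := hz.pow_sub_pow_eq_prod_sub_mul (1 : Ω) a (NeZero.pos p)
  rw [one_pow] at h1
  rw [h1]
  refine Finset.prod_nbij (fun i : ZMod p => ((pw p ζ i : Ωˣ) : Ω)) ?_ ?_ ?_ ?_
  · intro i _
    rw [Polynomial.mem_nthRootsFinset (NeZero.pos p), ← Units.val_pow_eq_pow_val,
      pw_pow_self hζ.pow_eq_one, Units.val_one]
  · intro i _ j _ hij
    exact pw_injective hζ (Units.ext hij)
  · intro x hx
    rw [Finset.mem_coe, Polynomial.mem_nthRootsFinset (NeZero.pos p)] at hx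
    have hx0 : x ≠ 0 := by
      rintro rfl
      rw [zero_pow (NeZero.ne p)] at hx
      exact zero_ne_one hx
    have h2 : (Units.mk0 x hx0) ^ p = 1 := Units.ext (by simpa using hx)
    refine ⟨lg p ζ (Units.mk0 x hx0), by simp, ?_⟩
    simp only
    rw [pw_lg hζ h2]
    rfl
  · intro i _
    rfl

include hζ hζH hX in
theorem ts_steinberg [IsGalois F Ω] [IsSepClosed Ω] (hpΩ : (p : Ω) ≠ 0) (hT : Smo F Ω T)
    {α β : T → Ωˣ} (hα : Good p H X α) (hβ : Good p H X β)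
    (h1 : ∀ x ∈ X, ((α x : Ω)) ^ p + ((β x : Ω)) ^ p = 1) : ts p ζ X α β ∈ Cob H := by
  classical
  have hval : ∀ (g : Gal(Ω/F)) (u : Ωˣ), ((g • u : Ωˣ) : Ω) = g • (u : Ω) := fun g u => rfl
  -- the set of the roots
  obtain ⟨Y, hYd⟩ : ∃ Y : Finset (T × Ω), Y = (X ×ˢ (Finset.univ : Finset (ZMod p))).image
    (fun q => (q.1, ((pw p ζ q.2 * α q.1 : Ωˣ) : Ω))) := ⟨_, rfl⟩
  have hmem : ∀ q : T × Ω, q ∈ Y ↔ q.1 ∈ X ∧ q.2 ^ p = (α q.1 : Ω) ^ p := by
    rintro ⟨x, y⟩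
    rw [hYd, Finset.mem_image]
    constructor
    · rintro ⟨⟨x', i⟩, hq, h2⟩
      rw [Finset.mem_product] at hq
      rw [Prod.mk.injEq] at h2
      obtain ⟨h3, h4⟩ := h2
      simp only at h3 h4 ⊢
      subst h3
      refine ⟨hq.1, ?_⟩
      rw [← h4, Units.val_mul, mul_pow, ← Units.val_pow_eq_pow_val, pw_pow_self hζ.pow_eq_one,
        Units.val_one, one_mul]
    · rintro ⟨hx, hy⟩
      simp only at hx hy
      have hy0 : y ≠ 0 := by
        rintro rfl
        rw [zero_pow (NeZero.ne p)] at hy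
        exact pow_ne_zero p (α x).ne_zero hy.symm
      have h2 : (Units.mk0 y hy0 / α x) ^ p = 1 := by
        rw [div_pow, div_eq_one]
        exact Units.ext (by simpa using hy)
      refine ⟨(x, lg p ζ (Units.mk0 y hy0 / α x)), ?_, ?_⟩
      · rw [Finset.mem_product]
        exact ⟨hx, Finset.mem_univ _⟩
      · simp only
        rw [pw_lg hζ h2, div_mul_cancel]
        rfl
  have hαc : ∀ h ∈ H, ∀ x ∈ X, (h • (α x : Ω)) ^ p = (α (h • x) : Ω) ^ p := by
    intro h hh x hx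
    have h2 := congrArg Units.val (hα h hh x hx)
    simpa using h2
  have hYs : Stb H Y := by
    intro h hh q hq
    rw [hmem] at hq ⊢
    refine ⟨hX h hh q.1 hq.1, ?_⟩
    show (h • q.2) ^ p = (α (h • q.1) : Ω) ^ p
    rw [← smul_pow', hq.2, smul_pow', hαc h hh q.1 hq.1]
  have hY1 : ∀ q ∈ Y, 1 - q.2 ≠ 0 := by
    intro q hq h2
    rw [hmem] at hq
    have h3 : q.2 = 1 := (sub_eq_zero.1 h2).symm
    have h4 := h1 q.1 hq.1
    rw [← hq.2, h3, one_pow] at h4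
    have h5 : ((β q.1 : Ω)) ^ p = 0 := by
      linear_combination h4
    exact pow_ne_zero p (β q.1).ne_zero h5
  have hex : ∀ q : T × Ω, ∃ d : Ωˣ, 1 - q.2 ≠ 0 → (d : Ω) ^ p = 1 - q.2 := by
    intro q
    by_cases h2 : 1 - q.2 = 0
    · exact ⟨1, fun h3 => absurd h2 h3⟩
    · obtain ⟨b, hb⟩ := exists_root p hpΩ (Units.mk0 (1 - q.2) h2)
      refine ⟨b, fun _ => ?_⟩
      rw [← Units.val_pow_eq_pow_val, hb]
      rfl
  choose δ hδ using hex
  have hδY : ∀ q ∈ Y, (δ q : Ω) ^ p = 1 - q.2 := fun q hq => hδ q (hY1 q hq)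
  have hδg : Good p H Y δ := by
    intro h hh q hq
    apply Units.ext
    have h2 := hδY (h • q) (hYs h hh q hq)
    rw [Units.val_pow_eq_pow_val, Units.val_pow_eq_pow_val, h2, hval, ← smul_pow',
      hδY q hq, smul_sub, smul_one]
    rfl
  have hπ : ∀ (g : Gal(Ω/F)) (q : T × Ω), (g • q).1 = g • q.1 := fun g q => rfl
  have hπY : ∀ q ∈ Y, q.1 ∈ X := fun q hq => ((hmem q).1 hq).1
  -- the norm of the root
  have hnm : ∀ x ∈ X, (β x) ^ p = (nm (fun q : T × Ω => q.1) Y δ x) ^ p := by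
    intro x hx
    apply Units.ext
    rw [Units.val_pow_eq_pow_val]
    unfold nm
    rw [← Finset.prod_pow, Units.coe_prod]
    have h2 : ∏ q ∈ Y.filter (fun q => q.1 = x), ((δ q ^ p : Ωˣ) : Ω) =
        ∏ i : ZMod p, (1 - ((pw p ζ i : Ωˣ) : Ω) * (α x : Ω)) := by
      symm
      refine Finset.prod_nbij (fun i : ZMod p => (x, ((pw p ζ i * α x : Ωˣ) : Ω))) ?_ ?_ ?_ ?_
      · intro i _
        rw [Finset.mem_filter, hmem]
        refine ⟨⟨hx, ?_⟩, rfl⟩
        simp only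
        rw [Units.val_mul, mul_pow, ← Units.val_pow_eq_pow_val, pw_pow_self hζ.pow_eq_one,
          Units.val_one, one_mul]
      · intro i _ j _ hij
        rw [Prod.mk.injEq] at hij
        exact pw_injective hζ (mul_right_cancel (Units.ext hij.2))
      · intro q hq
        rw [Finset.mem_coe, Finset.mem_filter, hYd, Finset.mem_image] at hq
        obtain ⟨⟨⟨x', i⟩, _, h3⟩, h4⟩ := hq
        refine ⟨i, by simp, ?_⟩
        simp only
        rw [← h3] at h4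
        simp only at h4
        rw [← h3, h4]
      · intro i _
        have h3 : (x, ((pw p ζ i * α x : Ωˣ) : Ω)) ∈ Y := by
          rw [hmem]
          refine ⟨hx, ?_⟩
          simp only
          rw [Units.val_mul, mul_pow, ← Units.val_pow_eq_pow_val, pw_pow_self hζ.pow_eq_one,
            Units.val_one, one_mul]
        rw [Units.val_pow_eq_pow_val, hδY _ h3]
        rfl
    rw [h2, Tsb_prod hζ]
    have h3 := h1 x hx
    linear_combination h3
  -- the tautological function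
  obtain ⟨ρ, hρ⟩ : ∃ ρ : T × Ω → Ωˣ, ∀ q ∈ Y, (ρ q : Ω) = q.2 := by
    have h2 : ∀ q : T × Ω, ∃ d : Ωˣ, q ∈ Y → (d : Ω) = q.2 := by
      intro q
      by_cases h3 : q ∈ Y
      · have hy0 : q.2 ≠ 0 := by
          intro h4
          rw [hmem, h4, zero_pow (NeZero.ne p)] at h3
          exact pow_ne_zero p (α q.1).ne_zero h3.2.symm
        exact ⟨Units.mk0 q.2 hy0, fun _ => rfl⟩
      · exact ⟨1, fun h4 => absurd h4 h3⟩
    choose ρ hρ using h2
    exact ⟨ρ, hρ⟩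
  have hsmo : Smo F Ω (T × Ω) := hT.prod smo_field
  have hng : Good p H X (nm (fun q : T × Ω => q.1) Y δ) := nm_good hYs hπ hδg X
  have hαg : Good p H Y (fun q : T × Ω => α q.1) := fun h hh q hq => hα h hh q.1 (hπY q hq)
  have c1 : ts p ζ X α β / ts p ζ X α (nm (fun q : T × Ω => q.1) Y δ) ∈ Cob H :=
    ts_root_right hζ hζH hX hT hα hng hnm
  have c2 : ts p ζ X α (nm (fun q : T × Ω => q.1) Y δ) / ts p ζ Y (fun q => α q.1) δ ∈ Cob H :=
    div_mem_Cob_of_eq fun g hg k hk => (ts_proj_left hζ hζH hYs hX hπ hπY hα hδg hg hk).symm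
  have c3 : ts p ζ Y ρ δ / ts p ζ Y (fun q => α q.1) δ ∈ Cob H := by
    refine ts_root_left hζ hζH hYs hsmo hαg hδg fun q hq => ?_
    apply Units.ext
    rw [Units.val_pow_eq_pow_val, Units.val_pow_eq_pow_val, hρ q hq]
    exact ((hmem q).1 hq).2
  have c4 : ts p ζ Y ρ δ ∈ Cob H := by
    refine ⟨1, LC1.const 1, fun g hg k hk => ?_⟩
    rw [dd_one]
    refine ts_equi_left hζ hYs (fun h hh q hq => ?_) hg hk
    apply Units.ext
    rw [hval, hρ q hq, hρ _ (hYs h hh q hq)]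
    rfl
  have key : ∀ A B C D : Gal(Ω/F) → Gal(Ω/F) → Ωˣ, A / B ∈ Cob H → B / C ∈ Cob H →
      D / C ∈ Cob H → D ∈ Cob H → A ∈ Cob H := by
    intro A B C D a1 a2 a3 a4
    have h2 : A = (A / B) * (B / C) * (D / C)⁻¹ * D := by
      rw [inv_div, div_mul_div_cancel, div_mul_div_cancel, div_mul_cancel]
    rw [h2]
    exact (Cob H).mul_mem ((Cob H).mul_mem ((Cob H).mul_mem a1 a2) ((Cob H).inv_mem a3)) a4
  exact key _ _ _ _ c1 c2 c3 c4

end

end BrR
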