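import Pool.Agent.H48.BR.Bn

set_option autoImplicit false

/-! # Row Twn: the twisted symbol on the field `N = Ω^H` as a `TwSym` (about 100 lines)

`resN g : N ≃+* N`, the restriction of `g` to `N = IntermediateField.fixedField H`, `H` normal
(`g • x` is fixed by `H`: `h • g • x = g • (g⁻¹ h g) • x`). `LN : Subfield N` = elements fixed by `Gz ζ`.
`twsym`: `B a b = BB p ζ H w a b` (coerced to `Ω`), `γ = resN g₀`, `ω = w g₀`; the field `fixed` uses `BB_fixed`: if `f ∈ LN` and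
`g₀ • f = f` then `f` is fixed by every `g : G`, since `g = g₀^i * h` with `h ∈ Gz ζ` (hypothesis `hgen`). -/

namespace BrR

variable {F Ω : Type} [Field F] [Field Ω] [Algebra F Ω]

/-- the fixed field of `H` -/
abbrev NN (H : Subgroup Gal(Ω/F)) : IntermediateField F Ω := IntermediateField.fixedField H

theorem mem_NN {H : Subgroup Gal(Ω/F)} {x : Ω} : x ∈ NN H ↔ ∀ h ∈ H, h • x = x := by
  rw [NN, IntermediateField.mem_fixedField_iff]
  rfl

/-- restriction of `g` to the fixed field of a normal subgroup -/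
noncomputable def resN {H : Subgroup Gal(Ω/F)} (hH : H.Normal) (g : Gal(Ω/F)) :
    ↥(NN H) ≃+* ↥(NN H) where
  toFun x := ⟨g • (x : Ω), by
    rw [mem_NN]
    intro h hh
    have hx := mem_NN.mp x.2 (g⁻¹ * h * g) (by
      have := hH.conj_mem h hh g⁻¹
      simpa using this)
    rw [smul_smul, show h * g = g * (g⁻¹ * h * g) by group, ← smul_smul, hx]⟩
  invFun x := ⟨g⁻¹ • (x : Ω), by
    rw [mem_NN]
    intro h hh
    have hx := mem_NN.mp x.2 (g * h * g⁻¹) (hH.conj_mem h hh g)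
    rw [smul_smul, show h * g⁻¹ = g⁻¹ * (g * h * g⁻¹) by group, ← smul_smul, hx]⟩
  left_inv x := by
    apply Subtype.ext
    simp
  right_inv x := by
    apply Subtype.ext
    simp
  map_mul' x y := by
    apply Subtype.ext
    simp
  map_add' x y := by
    apply Subtype.ext
    simp

theorem resN_coe {H : Subgroup Gal(Ω/F)} (hH : H.Normal) (g : Gal(Ω/F)) (x : ↥(NN H)) :
    ((resN hH g x : ↥(NN H)) : Ω) = g • (x : Ω) := rfl

/-- the subfield of `N` of elements fixed by the stabiliser of `ζ` -/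
def LN (ζ : Ωˣ) (H : Subgroup Gal(Ω/F)) : Subfield ↥(NN H) where
  carrier := {x | ∀ h ∈ Gz (F := F) ζ, h • (x : Ω) = x}
  mul_mem' := by
    intro a b ha hb h hh
    simp only [MulMemClass.coe_mul, smul_mul', ha h hh, hb h hh]
  one_mem' := by
    intro h _
    simp
  add_mem' := by
    intro a b ha hb h hh
    simp only [AddMemClass.coe_add, smul_add, ha h hh, hb h hh]
  zero_mem' := by
    intro h _
    simp
  neg_mem' := by
    intro a ha h hh
    simp only [NegMemClass.coe_neg, smul_neg, ha h hh]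
  inv_mem' := by
    intro a ha h hh
    simp only [IntermediateField.coe_inv, smul_inv'', ha h hh]

theorem mem_LN {ζ : Ωˣ} {H : Subgroup Gal(Ω/F)} {x : ↥(NN H)} :
    x ∈ LN ζ H ↔ ∀ h ∈ Gz (F := F) ζ, h • (x : Ω) = x := Iff.rfl

theorem Twn_ne {H : Subgroup Gal(Ω/F)} {x : ↥(NN H)} (hx : x ≠ 0) : (x : Ω) ≠ 0 := fun h =>
  hx (Subtype.ext h)

variable [IsGalois F Ω] [IsSepClosed Ω]

/-- the twisted symbol -/
noncomputable def twsym {p : ℕ} [Fact p.Prime] (hpΩ : (p : Ω) ≠ 0) {ζ : Ωˣ}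
    (hζ : IsPrimitiveRoot ζ p) {H : Subgroup Gal(Ω/F)} (hH : H.Normal)
    (hHo : IsOpen (H : Set Gal(Ω/F))) (hζH : ∀ h ∈ H, h • ζ = ζ) [Fintype (Gal(Ω/F) ⧸ H)]
    (w : Gal(Ω/F) →* (ZMod p)ˣ) (hw : ∀ g : Gal(Ω/F), g • ζ = pw p ζ (w g : ZMod p))
    (hA : HypA F p ζ) (g₀ : Gal(Ω/F)) (hgen : ∀ g : Gal(Ω/F), ∃ i : ℤ, g₀ ^ i * g ∈ Gz ζ) :
    TwSym p ↥(NN H) (VV p H) (LN ζ H) (resN hH g₀) (w g₀ : ZMod p) where
  B a b := BB p ζ H w (a : Ω) (b : Ω)
  mul_left a b c ha hb hc := by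
    rw [IntermediateField.coe_mul]
    exact BB_mul_left hpΩ hζ hH hζH w (Twn_ne ha) (Twn_ne hb) (Twn_ne hc) (mem_NN.1 a.2)
      (mem_NN.1 b.2) (mem_NN.1 c.2)
  mul_right a b c ha hb hc := by
    rw [IntermediateField.coe_mul]
    exact BB_mul_right hpΩ hζ hH hζH w (Twn_ne ha) (Twn_ne hb) (Twn_ne hc) (mem_NN.1 a.2)
      (mem_NN.1 b.2) (mem_NN.1 c.2)
  steinberg a b ha hb hab := by
    refine BB_steinberg hpΩ hζ hH hζH w (Twn_ne ha) (Twn_ne hb) (mem_NN.1 a.2) (mem_NN.1 b.2) ?_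
    rw [← IntermediateField.coe_add, hab, IntermediateField.coe_one]
  equi a b ha hb := by
    rw [resN_coe, resN_coe]
    exact BB_equi hζ hH hζH w hw (mem_NN.1 a.2) (mem_NN.1 b.2) g₀
  fixed f b hf hb hfL hfγ := by
    refine BB_fixed hpΩ hζ hH hζH w hw hHo hA (Twn_ne hf) (Twn_ne hb) (fun g => ?_) (mem_NN.1 b.2)
    obtain ⟨i, hi⟩ := hgen g
    have h1 := hfL _ hi
    have h2 : g₀ • (f : Ω) = f := by
      rw [← resN_coe hH, hfγ]
    have h3 : g₀ ∈ MulAction.stabilizer Gal(Ω/F) (f : Ω) := h2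
    have h4 : g₀ ^ i * g ∈ MulAction.stabilizer Gal(Ω/F) (f : Ω) := h1
    exact ((MulAction.stabilizer Gal(Ω/F) (f : Ω)).mul_mem_cancel_left
      ((MulAction.stabilizer Gal(Ω/F) (f : Ω)).zpow_mem h3 i)).1 h4

end BrR
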