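import Pool.Agent.H48.BR.Rep
import Pool.Agent.H48.BR.Des
import Pool.Agent.H48.BR.Sko

set_option autoImplicit false

/-! # Row Uni: the class and the degree determine the algebra (about 200 lines)

THEOREM `isRep_unique`. `F` infinite, `IsRep F Ω B ι c`, `IsRep F Ω B' ι c` ⇒ `B ≃ₐ[F] B'`.
PROOF. `(ρ,T)`, `(ρ',T')`. Consider `act g P = T' g * g(P) * (T g)⁻¹` on `W = M_ι(Ω)`. It is additive, semilinear, `act (g h) = act g ∘ act h` (the scalar
`c g h` cancels: `T' (g h) = (c g h)⁻¹ • T' g * g(T' h)`, same for `T`), `act 1 = id` (from `T 1 * T 1 = c 1 1 • T 1`: `T 1 = c 1 1 • 1`, same for `T' 1`), smooth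
(`T, T'` are LC1 and entries have open stabilisers: for `w`: take `U` ON with `T u = T 1`, `T' u = T' 1` for `u ∈ U` and fixing the entries of `w`, then
`act u w = T' 1 * w * (T 1)⁻¹ = w`). By `descent_span` the fixed vectors span `W`. Choose fixed `P_1, .., P_r` forming an `Ω`-basis of `W`
(`exists_linearIndependent`/ `Submodule.exists_finset...`; finitely many fixed vectors spanning). The polynomial `det (∑ x_i P_i) ∈ Ω[x_1..x_r]` is nonzero (it takes the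
value `1` at the coordinates of the identity matrix), `F` infinite, so there are `x_i ∈ F` with `det ≠ 0` (`MvPolynomial.funext_set` with the infinite set
`range (algebraMap F Ω)`); `P = ∑ x_i P_i` is fixed by `act` (`F`-linear combination) and invertible: `T' g * g(P) = P * T g`.
Let `A(T) = {X | ∀ g, T g * g(X) = X * T g}`, a subalgebra of `M_ι(Ω)` over `F`. `ρ : B → A(T)` is bijective: injective by `rho_inj`; surjective: by
`descent_indep` (for `act g X = T g * g(X) * (T g)⁻¹`) a basis of `A(T)` over `F` is `Ω`-independent in `M_ι(Ω)`, so `dim_F A(T) ≤ |ι|² = dim_F B` (`rho_inj`). Same for `B'`. And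
`X ↦ P X P⁻¹` is an isomorphism `A(T) → A(T')`: `T' g * g(P X P⁻¹) = T' g * g(P) * g(X) * g(P)⁻¹ = P * T g * g(X) * g(P)⁻¹ = P * X * T g * g(P)⁻¹ = P X P⁻¹ * T' g`.
* `formT` (useful also for row Exi): the algebra `A(T)`. -/

namespace BrR

variable {F Ω : Type} [Field F] [Field Ω] [Algebra F Ω]

private lemma Uni_map_mul {ι : Type} [Fintype ι] [DecidableEq ι] (g : Gal(Ω/F))
    (X Y : Matrix ι ι Ω) : (X * Y).map g = X.map g * Y.map g :=
  map_mul (AlgEquiv.mapMatrix (m := ι) g) X Y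

private lemma Uni_map_add {ι : Type} [Fintype ι] [DecidableEq ι] (g : Gal(Ω/F))
    (X Y : Matrix ι ι Ω) : (X + Y).map g = X.map g + Y.map g :=
  map_add (AlgEquiv.mapMatrix (m := ι) g) X Y

private lemma Uni_map_one {ι : Type} [Fintype ι] [DecidableEq ι] (g : Gal(Ω/F)) :
    (1 : Matrix ι ι Ω).map g = 1 :=
  map_one (AlgEquiv.mapMatrix (m := ι) g)

private lemma Uni_map_alg {ι : Type} [Fintype ι] [DecidableEq ι] (g : Gal(Ω/F)) (r : F) :
    (algebraMap F (Matrix ι ι Ω) r).map g = algebraMap F (Matrix ι ι Ω) r :=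
  (AlgEquiv.mapMatrix (m := ι) g).commutes r

private lemma Uni_map_smul {ι : Type} [Fintype ι] [DecidableEq ι] (g : Gal(Ω/F)) (a : Ω)
    (X : Matrix ι ι Ω) : (a • X).map g = (g • a) • X.map g := by
  ext i j
  simp [AlgEquiv.smul_def]

private lemma Uni_map_map {ι : Type} [Fintype ι] [DecidableEq ι] (g h : Gal(Ω/F))
    (X : Matrix ι ι Ω) : (X.map h).map g = X.map (g * h : Gal(Ω/F)) := by
  ext i j
  rfl

private lemma Uni_map_id {ι : Type} [Fintype ι] [DecidableEq ι]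
    (X : Matrix ι ι Ω) : X.map (1 : Gal(Ω/F)) = X := by
  ext i j
  rfl

/-- the fixed algebra of the twisted action -/
def formT {ι : Type} [Fintype ι] [DecidableEq ι] (T : Gal(Ω/F) → (Matrix ι ι Ω)ˣ) :
    Subalgebra F (Matrix ι ι Ω) where
  carrier := {X | ∀ g : Gal(Ω/F), (T g : Matrix ι ι Ω) * X.map g = X * (T g : Matrix ι ι Ω)}
  mul_mem' := by
    intro X Y hX hY g
    rw [Uni_map_mul, ← mul_assoc, hX g, mul_assoc, hY g, ← mul_assoc]
  add_mem' := by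
    intro X Y hX hY g
    rw [Uni_map_add, mul_add, hX g, hY g, add_mul]
  algebraMap_mem' := by
    intro r g
    rw [Uni_map_alg, Algebra.commutes]

private lemma Uni_mem_formT {ι : Type} [Fintype ι] [DecidableEq ι]
    {T : Gal(Ω/F) → (Matrix ι ι Ω)ˣ} {X : Matrix ι ι Ω} :
    X ∈ formT T ↔ ∀ g : Gal(Ω/F), (T g : Matrix ι ι Ω) * X.map g = X * (T g : Matrix ι ι Ω) :=
  Iff.rfl

variable [IsGalois F Ω]

section act

variable {ι : Type} [Fintype ι] [DecidableEq ι]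

/-- the twisted action -/
private def Uni_act (T T' : Gal(Ω/F) → (Matrix ι ι Ω)ˣ) (g : Gal(Ω/F)) (w : Matrix ι ι Ω) :
    Matrix ι ι Ω :=
  (T' g : Matrix ι ι Ω) * w.map g * ((T g)⁻¹ : (Matrix ι ι Ω)ˣ)

omit [IsGalois F Ω] in
private lemma Uni_act_eq {T T' : Gal(Ω/F) → (Matrix ι ι Ω)ˣ} (g : Gal(Ω/F))
    (w v : Matrix ι ι Ω) :
    Uni_act T T' g w = v ↔ (T' g : Matrix ι ι Ω) * w.map g = v * (T g : Matrix ι ι Ω) :=
  Units.mul_inv_eq_iff_eq_mul _

omit [IsGalois F Ω] in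
private lemma Uni_act_add (T T' : Gal(Ω/F) → (Matrix ι ι Ω)ˣ) (g : Gal(Ω/F))
    (v w : Matrix ι ι Ω) : Uni_act T T' g (v + w) = Uni_act T T' g v + Uni_act T T' g w := by
  simp only [Uni_act]
  rw [Uni_map_add, mul_add, add_mul]

omit [IsGalois F Ω] in
private lemma Uni_act_smul (T T' : Gal(Ω/F) → (Matrix ι ι Ω)ˣ) (g : Gal(Ω/F)) (a : Ω)
    (w : Matrix ι ι Ω) : Uni_act T T' g (a • w) = (g • a) • Uni_act T T' g w := by
  simp only [Uni_act]
  rw [Uni_map_smul, mul_smul_comm, smul_mul_assoc]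

omit [IsGalois F Ω] in
private lemma Uni_T_one {T : Gal(Ω/F) → (Matrix ι ι Ω)ˣ} {c : Gal(Ω/F) → Gal(Ω/F) → Ωˣ}
    (hc : ∀ g h : Gal(Ω/F), (T g : Matrix ι ι Ω) * ((T h : Matrix ι ι Ω)).map g =
      (c g h : Ω) • (T (g * h) : Matrix ι ι Ω)) :
    (T 1 : Matrix ι ι Ω) = (c 1 1 : Ω) • (1 : Matrix ι ι Ω) := by
  have h := hc 1 1
  rw [Uni_map_id, mul_one] at h
  have h2 : (T 1 : Matrix ι ι Ω) * (T 1 : Matrix ι ι Ω) =
      ((c 1 1 : Ω) • (1 : Matrix ι ι Ω)) * (T 1 : Matrix ι ι Ω) := by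
    rw [h, smul_mul_assoc, one_mul]
  exact (T 1).isUnit.mul_right_cancel h2

omit [IsGalois F Ω] in
private lemma Uni_act_one {T T' : Gal(Ω/F) → (Matrix ι ι Ω)ˣ} {c : Gal(Ω/F) → Gal(Ω/F) → Ωˣ}
    (hc : ∀ g h : Gal(Ω/F), (T g : Matrix ι ι Ω) * ((T h : Matrix ι ι Ω)).map g =
      (c g h : Ω) • (T (g * h) : Matrix ι ι Ω))
    (hc' : ∀ g h : Gal(Ω/F), (T' g : Matrix ι ι Ω) * ((T' h : Matrix ι ι Ω)).map g =
      (c g h : Ω) • (T' (g * h) : Matrix ι ι Ω)) (w : Matrix ι ι Ω) : Uni_act T T' 1 w = w := by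
  rw [Uni_act_eq, Uni_map_id, Uni_T_one hc, Uni_T_one hc', smul_mul_assoc, one_mul,
    mul_smul_comm, mul_one]

omit [IsGalois F Ω] in
private lemma Uni_act_mul {T T' : Gal(Ω/F) → (Matrix ι ι Ω)ˣ} {c : Gal(Ω/F) → Gal(Ω/F) → Ωˣ}
    (hc : ∀ g h : Gal(Ω/F), (T g : Matrix ι ι Ω) * ((T h : Matrix ι ι Ω)).map g =
      (c g h : Ω) • (T (g * h) : Matrix ι ι Ω))
    (hc' : ∀ g h : Gal(Ω/F), (T' g : Matrix ι ι Ω) * ((T' h : Matrix ι ι Ω)).map g =
      (c g h : Ω) • (T' (g * h) : Matrix ι ι Ω)) (g h : Gal(Ω/F)) (w : Matrix ι ι Ω) :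
    Uni_act T T' (g * h) w = Uni_act T T' g (Uni_act T T' h w) := by
  rw [Uni_act_eq]
  have hcg : IsUnit ((c g h : Ω)) := (c g h).isUnit
  have h1 : (c g h : Ω) • ((T' (g * h) : Matrix ι ι Ω) * w.map (g * h : Gal(Ω/F))) =
      (c g h : Ω) • (Uni_act T T' g (Uni_act T T' h w) * (T (g * h) : Matrix ι ι Ω)) := by
    rw [← smul_mul_assoc, ← hc' g h, ← mul_smul_comm, ← hc g h]
    simp only [Uni_act]
    have h2 : (((T h)⁻¹ : (Matrix ι ι Ω)ˣ) : Matrix ι ι Ω).map g * (T h : Matrix ι ι Ω).map g = 1 := by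
      rw [← Uni_map_mul, Units.inv_mul, Uni_map_one]
    rw [Uni_map_mul, Uni_map_mul, Uni_map_map]
    simp only [mul_assoc]
    rw [Units.inv_mul_cancel_left, h2, mul_one]
  exact smul_right_injective _ (c g h).ne_zero h1

private lemma Uni_act_smo {T T' : Gal(Ω/F) → (Matrix ι ι Ω)ˣ} {c : Gal(Ω/F) → Gal(Ω/F) → Ωˣ}
    (hT : LC1 T) (hT' : LC1 T')
    (hc : ∀ g h : Gal(Ω/F), (T g : Matrix ι ι Ω) * ((T h : Matrix ι ι Ω)).map g =
      (c g h : Ω) • (T (g * h) : Matrix ι ι Ω))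
    (hc' : ∀ g h : Gal(Ω/F), (T' g : Matrix ι ι Ω) * ((T' h : Matrix ι ι Ω)).map g =
      (c g h : Ω) • (T' (g * h) : Matrix ι ι Ω)) (w : Matrix ι ι Ω) :
    ∃ U : Subgroup Gal(Ω/F), ON U ∧ ∀ u ∈ U, Uni_act T T' u w = w := by
  obtain ⟨U, hU, h1⟩ := hT
  obtain ⟨V, hV, h2⟩ := hT'
  obtain ⟨W, hW, h3⟩ := (smo_field (F := F) (Ω := Ω)).fix_finite
    (Set.range (fun p : ι × ι => w p.1 p.2)) (Set.finite_range _)
  refine ⟨U ⊓ V ⊓ W, (hU.inf hV).inf hW, fun u hu => ?_⟩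
  have e1 : T u = T 1 := by simpa using h1 1 u hu.1.1
  have e2 : T' u = T' 1 := by simpa using h2 1 u hu.1.2
  have e3 : w.map u = w := by
    ext i j
    exact h3 u hu.2 (w i j) ⟨(i, j), rfl⟩
  have h4 := Uni_act_one hc hc' w
  rw [Uni_act_eq, Uni_map_id] at h4
  rw [Uni_act_eq, e1, e2, e3, h4]

private theorem Uni_span {T T' : Gal(Ω/F) → (Matrix ι ι Ω)ˣ} {c : Gal(Ω/F) → Gal(Ω/F) → Ωˣ}
    (hT : LC1 T) (hT' : LC1 T')
    (hc : ∀ g h : Gal(Ω/F), (T g : Matrix ι ι Ω) * ((T h : Matrix ι ι Ω)).map g =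
      (c g h : Ω) • (T (g * h) : Matrix ι ι Ω))
    (hc' : ∀ g h : Gal(Ω/F), (T' g : Matrix ι ι Ω) * ((T' h : Matrix ι ι Ω)).map g =
      (c g h : Ω) • (T' (g * h) : Matrix ι ι Ω)) :
    Submodule.span Ω {w : Matrix ι ι Ω | ∀ g : Gal(Ω/F),
      (T' g : Matrix ι ι Ω) * w.map g = w * (T g : Matrix ι ι Ω)} = ⊤ := by
  have h := descent_span (F := F) (Ω := Ω) (W := Matrix ι ι Ω) (Uni_act T T')
    (Uni_act_add T T') (Uni_act_smul T T') (Uni_act_mul hc hc') (Uni_act_one hc hc')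
    (Uni_act_smo hT hT' hc hc')
  rw [← h]
  congr 1
  ext w
  exact forall_congr' fun g => (Uni_act_eq g w w).symm

end act

/-- the fixed algebra is an `F`-form: its elements span `M_ι(Ω)` and its dimension is at most `|ι|²` -/
theorem formT_span {ι : Type} [Fintype ι] [DecidableEq ι] {T : Gal(Ω/F) → (Matrix ι ι Ω)ˣ}
    (hT : LC1 T) {c : Gal(Ω/F) → Gal(Ω/F) → Ωˣ}
    (hc : ∀ g h : Gal(Ω/F), (T g : Matrix ι ι Ω) * ((T h : Matrix ι ι Ω)).map g =
      (c g h : Ω) • (T (g * h) : Matrix ι ι Ω)) :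
    Submodule.span Ω ((formT T : Subalgebra F (Matrix ι ι Ω)) : Set (Matrix ι ι Ω)) = ⊤ ∧
      Module.Finite F (formT T) ∧ Module.finrank F (formT T) ≤ Fintype.card ι ^ 2 := by
  refine ⟨Uni_span hT hT hc hc, ?_⟩
  have b := Module.Free.chooseBasis F (formT T)
  have hli : LinearIndependent F (fun i => ((b i : formT T) : Matrix ι ι Ω)) := by
    have := b.linearIndependent.map' (formT T).val.toLinearMap
      (LinearMap.ker_eq_bot.2 Subtype.val_injective)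
    exact this
  have hli' : LinearIndependent Ω (fun i => ((b i : formT T) : Matrix ι ι Ω)) :=
    descent_indep (Uni_act T T) (Uni_act_add T T) (Uni_act_smul T T) _
      (fun i g => (Uni_act_eq g _ _).2 ((b i).2 g)) hli
  have hfin : Finite (Module.Free.ChooseBasisIndex F (formT T)) := hli'.finite_of_isNoetherian
  have := Fintype.ofFinite (Module.Free.ChooseBasisIndex F (formT T))
  refine ⟨Module.Finite.of_basis b, ?_⟩
  rw [Module.finrank_eq_card_basis b]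
  refine hli'.fintype_card_le_finrank.trans ?_
  rw [Module.finrank_matrix, Module.finrank_self, mul_one, sq]

section uniq

variable {ι : Type} [Fintype ι] [DecidableEq ι]

private theorem Uni_exists_P [Infinite F] {T T' : Gal(Ω/F) → (Matrix ι ι Ω)ˣ}
    {c : Gal(Ω/F) → Gal(Ω/F) → Ωˣ} (hT : LC1 T) (hT' : LC1 T')
    (hc : ∀ g h : Gal(Ω/F), (T g : Matrix ι ι Ω) * ((T h : Matrix ι ι Ω)).map g =
      (c g h : Ω) • (T (g * h) : Matrix ι ι Ω))
    (hc' : ∀ g h : Gal(Ω/F), (T' g : Matrix ι ι Ω) * ((T' h : Matrix ι ι Ω)).map g =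
      (c g h : Ω) • (T' (g * h) : Matrix ι ι Ω)) :
    ∃ P : (Matrix ι ι Ω)ˣ, ∀ g : Gal(Ω/F),
      (T' g : Matrix ι ι Ω) * (P : Matrix ι ι Ω).map g = (P : Matrix ι ι Ω) * (T g : Matrix ι ι Ω) := by
  have h1 : (1 : Matrix ι ι Ω) ∈ Submodule.span Ω {w : Matrix ι ι Ω | ∀ g : Gal(Ω/F),
      (T' g : Matrix ι ι Ω) * w.map g = w * (T g : Matrix ι ι Ω)} := by
    rw [Uni_span hT hT' hc hc']; trivial
  rw [Submodule.mem_span_set] at h1
  obtain ⟨a, ha, ha1⟩ := h1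
  let D : MvPolynomial a.support Ω :=
    Matrix.det (∑ i : a.support, (MvPolynomial.X i : MvPolynomial a.support Ω) •
      ((i : Matrix ι ι Ω).map (MvPolynomial.C : Ω →+* MvPolynomial a.support Ω)))
  have hD : ∀ x : a.support → Ω, MvPolynomial.eval x D =
      Matrix.det (∑ i : a.support, x i • (i : Matrix ι ι Ω)) := by
    intro x
    simp only [D]
    rw [RingHom.map_det]
    congr 1
    ext s t
    simp [Matrix.sum_apply]
  have hne : ∃ y : a.support → F,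
      Matrix.det (∑ i : a.support, algebraMap F Ω (y i) • (i : Matrix ι ι Ω)) ≠ 0 := by
    by_contra hcon
    push Not at hcon
    have hD0 : D = 0 := by
      refine MvPolynomial.funext_set (fun _ => Set.range (algebraMap F Ω))
        (fun _ => Set.infinite_range_of_injective (algebraMap F Ω).injective) fun x hx => ?_
      choose y hy using fun i => hx i trivial
      rw [hD, map_zero, ← hcon y]
      congr 1
      refine Finset.sum_congr rfl fun i _ => ?_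
      rw [hy]
    have h2 := hD (fun i => a i)
    rw [hD0, map_zero] at h2
    have h3 : ∑ i : a.support, a i • (i : Matrix ι ι Ω) = 1 := by
      rw [← ha1, Finsupp.sum]
      exact Finset.sum_coe_sort a.support (fun i => a i • i)
    rw [h3, Matrix.det_one] at h2
    exact zero_ne_one h2
  obtain ⟨y, hy⟩ := hne
  obtain ⟨P, hP⟩ := (Matrix.isUnit_iff_isUnit_det _).2 (isUnit_iff_ne_zero.2 hy)
  refine ⟨P, fun g => ?_⟩
  rw [hP]
  have h4 : (∑ i : a.support, algebraMap F Ω (y i) • (i : Matrix ι ι Ω)).map g =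
      ∑ i : a.support, algebraMap F Ω (y i) • (i : Matrix ι ι Ω).map g := by
    have := map_sum (AlgEquiv.mapMatrix (m := ι) g)
      (fun i : a.support => algebraMap F Ω (y i) • (i : Matrix ι ι Ω)) Finset.univ
    simp only [AlgEquiv.mapMatrix_apply] at this
    rw [this]
    refine Finset.sum_congr rfl fun i _ => ?_
    rw [Uni_map_smul, AlgEquiv.smul_def, AlgEquiv.commutes]
  rw [h4, Finset.mul_sum, Finset.sum_mul]
  refine Finset.sum_congr rfl fun i _ => ?_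
  rw [mul_smul_comm, smul_mul_assoc]
  congr 1
  exact ha i.2 g

/-- conjugation -/
private def Uni_conj (P : (Matrix ι ι Ω)ˣ) : Matrix ι ι Ω →ₐ[F] Matrix ι ι Ω where
  toFun X := ((P⁻¹ : (Matrix ι ι Ω)ˣ) : Matrix ι ι Ω) * X * (P : Matrix ι ι Ω)
  map_one' := by simp
  map_mul' X Y := by simp [mul_assoc]
  map_zero' := by simp
  map_add' X Y := by simp [mul_add, add_mul]
  commutes' r := by
    rw [mul_assoc, Algebra.commutes, ← mul_assoc, Units.inv_mul, one_mul]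

private theorem Uni_iso {B : Type} [Ring B] [Algebra F B] {T : Gal(Ω/F) → (Matrix ι ι Ω)ˣ}
    (hT : LC1 T) {c : Gal(Ω/F) → Gal(Ω/F) → Ωˣ}
    (hc : ∀ g h : Gal(Ω/F), (T g : Matrix ι ι Ω) * ((T h : Matrix ι ι Ω)).map g =
      (c g h : Ω) • (T (g * h) : Matrix ι ι Ω)) (hfin : Module.Finite F B)
    (ρ : B →ₐ[F] Matrix ι ι Ω) (hinj : Function.Injective ρ)
    (hdim : Module.finrank F B = Fintype.card ι ^ 2) (hmem : ∀ b, ρ b ∈ formT T) :
    Nonempty (B ≃ₐ[F] formT T) := by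
  obtain ⟨-, hf, hle⟩ := formT_span hT hc
  let f : B →ₐ[F] formT T := ρ.codRestrict (formT T) hmem
  have hfi : Function.Injective f := by
    intro x y hxy
    exact hinj (congrArg Subtype.val hxy)
  have heq : Module.finrank F B = Module.finrank F (formT T) := by
    refine le_antisymm ?_ (hle.trans hdim.ge)
    exact LinearMap.finrank_le_finrank_of_injective (f := f.toLinearMap) hfi
  have hfs : Function.Surjective f :=
    (LinearMap.injective_iff_surjective_of_finrank_eq_finrank (f := f.toLinearMap) heq).1 hfi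
  exact ⟨AlgEquiv.ofBijective f ⟨hfi, hfs⟩⟩

end uniq

theorem isRep_unique [Infinite F] {B B' : Type} [Ring B] [Algebra F B] [Ring B'] [Algebra F B']
    {ι : Type} [Fintype ι] [DecidableEq ι] {c : Gal(Ω/F) → Gal(Ω/F) → Ωˣ}
    (h : IsRep F Ω B ι c) (h' : IsRep F Ω B' ι c) : Nonempty (B ≃ₐ[F] B') := by
  obtain ⟨ρ, T, hs, hf, hd, hT, hρ, hc⟩ := h
  obtain ⟨ρ', T', hs', hf', hd', hT', hρ', hc'⟩ := h'
  obtain ⟨P, hP⟩ := Uni_exists_P hT hT' hc hc'
  obtain ⟨i1, i2⟩ := rho_inj ρ hs hf hd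
  obtain ⟨i1', i2'⟩ := rho_inj ρ' hs' hf' hd'
  obtain ⟨e⟩ := Uni_iso hT hc hf ρ i1 i2 fun b g => hρ g b
  have hinj : Function.Injective ((Uni_conj (F := F) P).comp ρ') := by
    intro x y hxy
    refine i1' ?_
    have : ((P⁻¹ : (Matrix ι ι Ω)ˣ) : Matrix ι ι Ω) * ρ' x * (P : Matrix ι ι Ω) =
      ((P⁻¹ : (Matrix ι ι Ω)ˣ) : Matrix ι ι Ω) * ρ' y * (P : Matrix ι ι Ω) := hxy
    exact (P⁻¹).isUnit.mul_left_cancel (P.isUnit.mul_right_cancel this)
  obtain ⟨e'⟩ := Uni_iso hT hc hf' ((Uni_conj (F := F) P).comp ρ') hinj i2' fun b g => by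
    change (T g : Matrix ι ι Ω) *
      (((P⁻¹ : (Matrix ι ι Ω)ˣ) : Matrix ι ι Ω) * ρ' b * (P : Matrix ι ι Ω)).map g =
      ((P⁻¹ : (Matrix ι ι Ω)ˣ) : Matrix ι ι Ω) * ρ' b * (P : Matrix ι ι Ω) * (T g : Matrix ι ι Ω)
    have h1 : (T g : Matrix ι ι Ω) * (((P⁻¹ : (Matrix ι ι Ω)ˣ) : Matrix ι ι Ω)).map g =
        ((P⁻¹ : (Matrix ι ι Ω)ˣ) : Matrix ι ι Ω) * (T' g : Matrix ι ι Ω) := by
      rw [← Units.mul_right_inj P, Units.mul_inv_cancel_left, ← mul_assoc, ← hP g, mul_assoc,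
        ← Uni_map_mul, Units.mul_inv, Uni_map_one, mul_one]
    rw [Uni_map_mul, Uni_map_mul, ← mul_assoc, ← mul_assoc, h1, mul_assoc _ (T' g : Matrix ι ι Ω),
      hρ' g b, mul_assoc, mul_assoc, hP g]
    simp only [mul_assoc]
  exact ⟨e.trans e'.symm⟩

end BrR
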