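import Pool.Agent.H48.BR.Tsb

set_option autoImplicit false

/-! # Row Vn: the group `VV p H` of classes killed by `p`, and the symbol `SF` on the fixed field of `H` (about 220 lines)

`Vg p H = {c ∈ Coc H | c^p ∈ Cob H}`, `VV p H = Additive (Vg p H / Cob H)`, a `ZMod p`-module
(`AddCommGroup.zmodModule`).

* `vc_eq_zero`: `QuotientGroup.eq_one_iff`, `Subgroup.mem_subgroupOf`. `vc_mul`: definition. `vc_smul`: `(a : ZMod p) • vc c =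
  vc (c ^ a.val)` (`ZMod` action through `a.val`: write `a = (a.val : ZMod p)`, `Nat.cast_smul_eq_nsmul`).
* `sy_mem_Vg`: `sy α β = ts {()}` for `T = PUnit` (trivial action; `ex (fun _ => α) h () = lg (h•α/α)`), so `ts_coc`; `(sy)^p = 1`.
* `SS_mul_left/right`: `sy (αα') β = sy α β * sy α' β` on `H × H` (`ts_mul_left` or directly by `lg_mul`), so the quotient is in
  `Cob H` (`div_mem_Cob_of_eq`).
* `SS_root`: `α'^p = α^p`, `β'^p = β^p` ⇒ `SS α' β' = SS α β` (`ts_root_left/right` with `T = PUnit`).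
* `SS_steinberg`: `ts_steinberg`.
* `SF a b = SS (rt a) (rt b)`, `rt a` a chosen `p`-th root (as a unit) of `a` if `a ≠ 0`, else `1`. `(rt a)^p = a`.
  All `SF` statements follow from the `SS` statements; e.g. `rt (a a')` and `rt a * rt a'` have the same `p`-th power. -/

namespace BrR

variable {F Ω : Type} [Field F] [Field Ω] [Algebra F Ω]

/-- cocycles on `H` whose `p`-th power is a coboundary on `H` -/
def Vg (p : ℕ) (H : Subgroup Gal(Ω/F)) : Subgroup (Gal(Ω/F) → Gal(Ω/F) → Ωˣ) :=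
  Coc H ⊓ (Cob H).comap (powMonoidHom p)

theorem mem_Vg {p : ℕ} {H : Subgroup Gal(Ω/F)} {c : Gal(Ω/F) → Gal(Ω/F) → Ωˣ} :
    c ∈ Vg p H ↔ c ∈ Coc H ∧ c ^ p ∈ Cob H := Iff.rfl

/-- classes killed by `p` on `H` -/
def VV (p : ℕ) (H : Subgroup Gal(Ω/F)) : Type :=
  Additive (↥(Vg p H) ⧸ (Cob H).subgroupOf (Vg p H))

noncomputable instance (p : ℕ) (H : Subgroup Gal(Ω/F)) : AddCommGroup (VV p H) :=
  inferInstanceAs (AddCommGroup (Additive (↥(Vg p H) ⧸ (Cob H).subgroupOf (Vg p H))))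

/-- the class of a cochain -/
def vc {p : ℕ} {H : Subgroup Gal(Ω/F)} (c : Gal(Ω/F) → Gal(Ω/F) → Ωˣ) (hc : c ∈ Vg p H) :
    VV p H := Additive.ofMul (QuotientGroup.mk (⟨c, hc⟩ : ↥(Vg p H)))

theorem vc_surj {p : ℕ} {H : Subgroup Gal(Ω/F)} (v : VV p H) : ∃ c, ∃ hc : c ∈ Vg p H, vc c hc = v := by
  obtain ⟨⟨c, hc⟩, h⟩ := QuotientGroup.mk_surjective (Additive.toMul v : ↥(Vg p H) ⧸ (Cob H).subgroupOf (Vg p H))
  exact ⟨c, hc, h⟩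

theorem vc_eq_zero {p : ℕ} {H : Subgroup Gal(Ω/F)} {c : Gal(Ω/F) → Gal(Ω/F) → Ωˣ}
    (hc : c ∈ Vg p H) : vc c hc = 0 ↔ c ∈ Cob H := by
  have h1 : vc c hc = 0 ↔
      (QuotientGroup.mk (⟨c, hc⟩ : ↥(Vg p H)) : ↥(Vg p H) ⧸ (Cob H).subgroupOf (Vg p H)) = 1 :=
    Iff.rfl
  rw [h1, QuotientGroup.eq_one_iff, Subgroup.mem_subgroupOf]

theorem vc_mul {p : ℕ} {H : Subgroup Gal(Ω/F)} {c c' : Gal(Ω/F) → Gal(Ω/F) → Ωˣ}
    (hc : c ∈ Vg p H) (hc' : c' ∈ Vg p H) : vc (c * c') (mul_mem hc hc') = vc c hc + vc c' hc' := by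
  rfl

/-- equal cochains have equal classes -/
theorem Vn_eq {p : ℕ} {H : Subgroup Gal(Ω/F)} {c c' : Gal(Ω/F) → Gal(Ω/F) → Ωˣ}
    (hc : c ∈ Vg p H) (hc' : c' ∈ Vg p H) (h : c = c') : vc c hc = vc c' hc' := by
  subst h
  rfl

theorem Vn_one {p : ℕ} {H : Subgroup Gal(Ω/F)} (h : (1 : Gal(Ω/F) → Gal(Ω/F) → Ωˣ) ∈ Vg p H) :
    vc 1 h = 0 := (vc_eq_zero h).2 (one_mem _)

theorem Vn_pow {p : ℕ} {H : Subgroup Gal(Ω/F)} {c : Gal(Ω/F) → Gal(Ω/F) → Ωˣ}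
    (hc : c ∈ Vg p H) (n : ℕ) : vc (c ^ n) (pow_mem hc n) = n • vc c hc := by
  induction n with
  | zero =>
    rw [zero_smul, Vn_eq _ (one_mem _) (pow_zero c), Vn_one]
  | succ n ih =>
    rw [succ_nsmul, ← ih, ← vc_mul]
    exact Vn_eq _ _ (pow_succ c n)

theorem vc_congr {p : ℕ} {H : Subgroup Gal(Ω/F)} {c c' : Gal(Ω/F) → Gal(Ω/F) → Ωˣ}
    (hc : c ∈ Vg p H) (hc' : c' ∈ Vg p H) (h : c / c' ∈ Cob H) : vc c hc = vc c' hc' := by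
  have h1 : vc (c / c' * c') (mul_mem (div_mem hc hc') hc') = vc (c / c') (div_mem hc hc') + vc c' hc' :=
    vc_mul _ _
  rw [(vc_eq_zero (div_mem hc hc')).2 h, zero_add] at h1
  rw [← h1]
  exact Vn_eq _ _ (div_mul_cancel c c').symm

theorem VV_nsmul_p {p : ℕ} {H : Subgroup Gal(Ω/F)} (v : VV p H) : p • v = 0 := by
  obtain ⟨c, hc, rfl⟩ := vc_surj v
  rw [← Vn_pow, vc_eq_zero]
  exact (mem_Vg.1 hc).2

noncomputable instance (p : ℕ) (H : Subgroup Gal(Ω/F)) : Module (ZMod p) (VV p H) :=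
  AddCommGroup.zmodModule VV_nsmul_p

theorem vc_smul {p : ℕ} [NeZero p] {H : Subgroup Gal(Ω/F)} {c : Gal(Ω/F) → Gal(Ω/F) → Ωˣ}
    (hc : c ∈ Vg p H) (a : ZMod p) : a • vc c hc = vc (c ^ a.val) (pow_mem hc _) := by
  have h1 : a • vc c hc = ((a.val : ℕ) : ZMod p) • vc c hc := by rw [ZMod.natCast_zmod_val]
  rw [h1, Nat.cast_smul_eq_nsmul, Vn_pow]

theorem vc_sum {p : ℕ} {H : Subgroup Gal(Ω/F)} {ι : Type} (s : Finset ι)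
    (c : ι → Gal(Ω/F) → Gal(Ω/F) → Ωˣ) (hc : ∀ i, c i ∈ Vg p H) :
    vc (∏ i ∈ s, c i) (prod_mem fun i _ => hc i) = ∑ i ∈ s, vc (c i) (hc i) := by
  classical
  induction s using Finset.induction_on with
  | empty =>
    rw [Finset.sum_empty, Vn_eq _ (one_mem _) Finset.prod_empty, Vn_one]
  | insert i s hi ih =>
    rw [Finset.sum_insert hi, ← ih, ← vc_mul]
    exact Vn_eq _ _ (Finset.prod_insert hi)

open Classical in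
/-- the class of the symbol -/
noncomputable def SS (p : ℕ) (ζ : Ωˣ) (H : Subgroup Gal(Ω/F)) (α β : Ωˣ) : VV p H :=
  if h : sy p ζ α β ∈ Vg p H then vc _ h else 0

open Classical in
/-- a chosen `p`-th root -/
noncomputable def rt' (p : ℕ) (a : Ω) : Ωˣ :=
  if h : ∃ u : Ωˣ, (u : Ω) ^ p = a then h.choose else 1

theorem rt'_spec [IsSepClosed Ω] {p : ℕ} (hpΩ : (p : Ω) ≠ 0) {a : Ω} (ha : a ≠ 0) :
    ((rt' p a : Ωˣ) : Ω) ^ p = a := by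
  have h : ∃ u : Ωˣ, (u : Ω) ^ p = a := by
    have : NeZero (p : Ω) := ⟨hpΩ⟩
    obtain ⟨z, hz⟩ := IsSepClosed.exists_pow_nat_eq a p
    have hp0 : p ≠ 0 := by
      rintro rfl
      exact hpΩ (by simp)
    have hz0 : z ≠ 0 := by
      rintro rfl
      exact ha (by rw [← hz, zero_pow hp0])
    exact ⟨Units.mk0 z hz0, hz⟩
  rw [rt', dif_pos h]
  exact h.choose_spec

theorem Vn_sy (p : ℕ) (ζ α β : Ωˣ) : (sy p ζ α β : Gal(Ω/F) → Gal(Ω/F) → Ωˣ) =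
    ts p ζ ({PUnit.unit} : Finset PUnit.{1}) (fun _ => α) (fun _ => β) := by
  funext h k
  simp only [sy, ts, ex, Finset.sum_singleton]

theorem Vn_stb (H : Subgroup Gal(Ω/F)) : Stb H ({PUnit.unit} : Finset PUnit.{1}) := by
  intro h _ x _
  exact Finset.mem_singleton.2 rfl

theorem Vn_smo : Smo F Ω PUnit.{1} := fun _ => ⟨⊤, ON.top, fun _ _ => rfl⟩

theorem Vn_good {p : ℕ} {H : Subgroup Gal(Ω/F)} {α : Ωˣ} (hα : ∀ h ∈ H, h • (α ^ p) = α ^ p) :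
    Good p H ({PUnit.unit} : Finset PUnit.{1}) (fun _ => α) := by
  intro h hh _ _
  rw [← smul_pow']
  exact hα h hh

theorem Vn_fix {p : ℕ} {H : Subgroup Gal(Ω/F)} {α : Ωˣ} {a : Ω} (hα : (α : Ω) ^ p = a)
    (ha : ∀ h ∈ H, h • a = a) : ∀ h ∈ H, h • (α ^ p) = α ^ p := by
  intro h hh
  refine Units.ext ?_
  have h1 : ((h • α ^ p : Ωˣ) : Ω) = h • ((α ^ p : Ωˣ) : Ω) := rfl
  rw [h1, Units.val_pow_eq_pow_val, hα]
  exact ha h hh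

theorem Vn_unit_eq {p : ℕ} {α β : Ωˣ} (h : (α : Ω) ^ p = (β : Ω) ^ p) : α ^ p = β ^ p := by
  refine Units.ext ?_
  rw [Units.val_pow_eq_pow_val, Units.val_pow_eq_pow_val, h]

theorem Vn_ne {p : ℕ} {α : Ωˣ} {a : Ω} (hα : (α : Ω) ^ p = a) : a ≠ 0 := by
  rw [← hα]
  exact pow_ne_zero _ α.ne_zero

/-- the symbol of two elements of the fixed field of `H` -/
noncomputable def SF (p : ℕ) (ζ : Ωˣ) (H : Subgroup Gal(Ω/F)) (a b : Ω) : VV p H :=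
  SS p ζ H (rt' p a) (rt' p b)

section

variable [IsGalois F Ω] [IsSepClosed Ω] {p : ℕ} [NeZero p] (hpΩ : (p : Ω) ≠ 0) {ζ : Ωˣ}
  (hζ : IsPrimitiveRoot ζ p) {H : Subgroup Gal(Ω/F)} (hζH : ∀ h ∈ H, h • ζ = ζ)

include hζ hζH in
theorem sy_mem_Vg {α β : Ωˣ} (hα : ∀ h ∈ H, h • (α ^ p) = α ^ p)
    (hβ : ∀ h ∈ H, h • (β ^ p) = β ^ p) : sy p ζ α β ∈ Vg p H := by
  rw [Vn_sy]
  refine mem_Vg.2 ⟨ts_coc hζ hζH (Vn_stb H) Vn_smo (Vn_good hα) (Vn_good hβ), ?_⟩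
  have h1 : (ts p ζ ({PUnit.unit} : Finset PUnit.{1}) (fun _ => α) (fun _ => β) :
      Gal(Ω/F) → Gal(Ω/F) → Ωˣ) ^ p = 1 := by
    funext h k
    exact ts_pow_p hζ _ _ _ h k
  rw [h1]
  exact one_mem _

include hpΩ hζ hζH in
/-- `SF` may be computed with any roots -/
theorem SF_eq {a b : Ω} {α β : Ωˣ} (hα : (α : Ω) ^ p = a) (hβ : (β : Ω) ^ p = b)
    (ha : ∀ h ∈ H, h • a = a) (hb : ∀ h ∈ H, h • b = b) (hmem : sy p ζ α β ∈ Vg p H) :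
    SF p ζ H a b = vc (sy p ζ α β) hmem := by
  have h1 : ((rt' p a : Ωˣ) : Ω) ^ p = a := rt'_spec hpΩ (Vn_ne hα)
  have h2 : ((rt' p b : Ωˣ) : Ω) ^ p = b := rt'_spec hpΩ (Vn_ne hβ)
  have h3 : sy p ζ (rt' p a) (rt' p b) ∈ Vg p H :=
    sy_mem_Vg hζ hζH (Vn_fix h1 ha) (Vn_fix h2 hb)
  rw [SF, SS, dif_pos h3]
  refine vc_congr _ _ ?_
  have h4 : sy p ζ (rt' p a) (rt' p b) / sy p ζ α (rt' p b) ∈ Cob H := by
    rw [Vn_sy, Vn_sy]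
    exact ts_root_left hζ hζH (Vn_stb H) Vn_smo (Vn_good (Vn_fix hα ha)) (Vn_good (Vn_fix h2 hb))
      (fun _ _ => Vn_unit_eq (h1.trans hα.symm))
  have h5 : sy p ζ α (rt' p b) / sy p ζ α β ∈ Cob H := by
    rw [Vn_sy, Vn_sy]
    exact ts_root_right hζ hζH (Vn_stb H) Vn_smo (Vn_good (Vn_fix hα ha)) (Vn_good (Vn_fix hβ hb))
      (fun _ _ => Vn_unit_eq (h2.trans hβ.symm))
  have h6 := mul_mem h4 h5
  rwa [div_mul_div_cancel] at h6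

include hpΩ hζ hζH in
theorem SF_mul_left {a a' b : Ω} (ha0 : a ≠ 0) (ha0' : a' ≠ 0) (hb0 : b ≠ 0)
    (ha : ∀ h ∈ H, h • a = a) (ha' : ∀ h ∈ H, h • a' = a') (hb : ∀ h ∈ H, h • b = b) :
    SF p ζ H (a * a') b = SF p ζ H a b + SF p ζ H a' b := by
  have h1 : ((rt' p a : Ωˣ) : Ω) ^ p = a := rt'_spec hpΩ ha0
  have h1' : ((rt' p a' : Ωˣ) : Ω) ^ p = a' := rt'_spec hpΩ ha0'
  have h2 : ((rt' p b : Ωˣ) : Ω) ^ p = b := rt'_spec hpΩ hb0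
  have h12 : ((rt' p a * rt' p a' : Ωˣ) : Ω) ^ p = a * a' := by
    rw [Units.val_mul, mul_pow, h1, h1']
  have haa : ∀ h ∈ H, h • (a * a') = a * a' := fun h hh => by
    rw [smul_mul', ha h hh, ha' h hh]
  rw [SF_eq hpΩ hζ hζH h12 h2 haa hb (sy_mem_Vg hζ hζH (Vn_fix h12 haa) (Vn_fix h2 hb)),
    SF_eq hpΩ hζ hζH h1 h2 ha hb (sy_mem_Vg hζ hζH (Vn_fix h1 ha) (Vn_fix h2 hb)),
    SF_eq hpΩ hζ hζH h1' h2 ha' hb (sy_mem_Vg hζ hζH (Vn_fix h1' ha') (Vn_fix h2 hb)), ← vc_mul]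
  refine vc_congr _ _ (div_mem_Cob_of_eq fun g hg k hk => ?_)
  rw [Pi.mul_apply, Pi.mul_apply, Vn_sy, Vn_sy, Vn_sy]
  exact ts_mul_left hζ (Vn_stb H) (Vn_good (Vn_fix h1 ha)) (Vn_good (Vn_fix h1' ha')) hg hk

include hpΩ hζ hζH in
theorem SF_mul_right {a b b' : Ω} (ha0 : a ≠ 0) (hb0 : b ≠ 0) (hb0' : b' ≠ 0)
    (ha : ∀ h ∈ H, h • a = a) (hb : ∀ h ∈ H, h • b = b) (hb' : ∀ h ∈ H, h • b' = b') :
    SF p ζ H a (b * b') = SF p ζ H a b + SF p ζ H a b' := by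
  have h1 : ((rt' p a : Ωˣ) : Ω) ^ p = a := rt'_spec hpΩ ha0
  have h2 : ((rt' p b : Ωˣ) : Ω) ^ p = b := rt'_spec hpΩ hb0
  have h2' : ((rt' p b' : Ωˣ) : Ω) ^ p = b' := rt'_spec hpΩ hb0'
  have h12 : ((rt' p b * rt' p b' : Ωˣ) : Ω) ^ p = b * b' := by
    rw [Units.val_mul, mul_pow, h2, h2']
  have hbb : ∀ h ∈ H, h • (b * b') = b * b' := fun h hh => by
    rw [smul_mul', hb h hh, hb' h hh]
  rw [SF_eq hpΩ hζ hζH h1 h12 ha hbb (sy_mem_Vg hζ hζH (Vn_fix h1 ha) (Vn_fix h12 hbb)),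
    SF_eq hpΩ hζ hζH h1 h2 ha hb (sy_mem_Vg hζ hζH (Vn_fix h1 ha) (Vn_fix h2 hb)),
    SF_eq hpΩ hζ hζH h1 h2' ha hb' (sy_mem_Vg hζ hζH (Vn_fix h1 ha) (Vn_fix h2' hb')), ← vc_mul]
  refine vc_congr _ _ (div_mem_Cob_of_eq fun g hg k hk => ?_)
  rw [Pi.mul_apply, Pi.mul_apply, Vn_sy, Vn_sy, Vn_sy]
  exact ts_mul_right hζ (Vn_stb H) (Vn_good (Vn_fix h2 hb)) (Vn_good (Vn_fix h2' hb')) hg hk

include hpΩ hζ hζH in
theorem SF_steinberg {a b : Ω} (ha0 : a ≠ 0) (hb0 : b ≠ 0)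
    (ha : ∀ h ∈ H, h • a = a) (hb : ∀ h ∈ H, h • b = b) (hab : a + b = 1) :
    SF p ζ H a b = 0 := by
  have h1 : ((rt' p a : Ωˣ) : Ω) ^ p = a := rt'_spec hpΩ ha0
  have h2 : ((rt' p b : Ωˣ) : Ω) ^ p = b := rt'_spec hpΩ hb0
  rw [SF_eq hpΩ hζ hζH h1 h2 ha hb (sy_mem_Vg hζ hζH (Vn_fix h1 ha) (Vn_fix h2 hb)), vc_eq_zero,
    Vn_sy]
  exact ts_steinberg hζ hζH (Vn_stb H) hpΩ Vn_smo (Vn_good (Vn_fix h1 ha))
    (Vn_good (Vn_fix h2 hb)) (fun _ _ => by rw [h1, h2, hab])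

end

end BrR
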