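import Pool.Agent.H48.BR.Cyt
import Pool.Agent.H48.BR.Tra

set_option autoImplicit false

/-! # Row Xl: lifting a character `χ : G → Z/p` to `Z/p^(n+1)(κ)` (about 150 lines)

THEOREM `xl`. There are `X n : G → ZMod (p^(n+1))`, LC1, `kap n`-crossed on `G`, compatible, `cast (X 0 g) = χ g`.
PROOF. `P = Gz ζ` open (`smo_units`), of index `m` coprime to `p` (hypothesis). `kummer` on `P` (`N = p`, `z = ζ`, `ε = 1`: `h • ζ = ζ = pw p ζ 1`): `α₀` with
`h • α₀ = pw p ζ (χ h) * α₀` for `h ∈ P`; `α₀^p` is fixed by `P`. Choose `β 0 = α₀`, `β (n+1)^p = β n` (`exists_root`, recursion). Then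
`β n ^ (p^n) = α₀`, `β n ^ (p^(n+1)) = α₀^p`. `x n g := lg (p^(n+1)) (z n) (g • β n / β n)`. `kummer_conv` (`H = P`, `N = p^(n+1)`, `ε = eps n`,
`eps_spec`): `x n` LC1, `Cr (eps n) P (x n)`, hence `Cr (kap n) P (x n)` (`kap_gz`). Compatible on `P`: `(h • β (n+1) / β (n+1))^p = h • β n / β n` so
`(z n)^((x (n+1) h).val) = (z (n+1))^(p * val) = ..`: `cast (x (n+1) h) = x n h`. `x 0 h = cast-inverse of χ h` on `P`.
`X n g := (m : ZMod (p^(n+1)))⁻¹ * trf (P := P) (kap n) (x n) g` with `m = Fintype.card (G ⧸ P)`, a unit mod `p^(n+1)`. `trf_cr`, `trf_lc`; compatibility: `trf_map`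
for the ring homomorphism `ZMod.castHom` (`kap_cast`), and `cast` of the inverse of `m` is the inverse of `m`. `X 0`: `kap 0 = 1`
(`kap_zero`), `trf_res` (apply `trf_map` along `ZMod (p^(0+1)) ≅ ZMod p`, or take `χ' g = (χ g).val` cast to `ZMod (p^(0+1))`, additive since `p^(0+1) = p`).
Then `cast (X 0 g) = m⁻¹ * m * χ g = χ g`. -/

namespace BrR

variable {F Ω : Type} [Field F] [Field Ω] [Algebra F Ω] [IsGalois F Ω] [IsSepClosed Ω]

omit [IsSepClosed Ω] in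
theorem Xl_open (ζ : Ωˣ) : IsOpen ((Gz (F := F) ζ : Subgroup Gal(Ω/F)) : Set Gal(Ω/F)) := by
  obtain ⟨U, hU, h1⟩ := smo_units (F := F) ζ
  exact Subgroup.isOpen_mono (fun u hu => mem_Gz.2 (h1 u hu)) hU.2

omit [IsGalois F Ω] [IsSepClosed Ω] in
theorem Xl_pw_one {p : ℕ} [NeZero p] {ζ : Ωˣ} (hζ : ζ ^ p = 1) : pw p ζ (1 : ZMod p) = ζ := by
  have h := pw_natCast (N := p) hζ 1
  rw [Nat.cast_one, pow_one] at h
  exact h

theorem Xl_roots {p : ℕ} (hpΩ : (p : Ω) ≠ 0) (α : Ωˣ) : ∃ β : ℕ → Ωˣ, β 0 = α ∧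
    ∀ n, (β (n + 1)) ^ p = β n := by
  have h := fun a : Ωˣ => exists_root p hpΩ a
  choose r hr using h
  refine ⟨fun n => r^[n] α, rfl, fun n => ?_⟩
  beta_reduce
  rw [Function.iterate_succ_apply']
  exact hr _

omit [IsGalois F Ω] [IsSepClosed Ω] in
theorem Xl_roots_pow {p : ℕ} {β : ℕ → Ωˣ} (hβ : ∀ n, (β (n + 1)) ^ p = β n) (n : ℕ) :
    (β n) ^ (p ^ (n + 1)) = (β 0) ^ p := by
  induction n with
  | zero => rw [zero_add, pow_one]
  | succ n ih =>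
    rw [pow_succ', pow_mul, hβ]
    exact ih

theorem xl {p : ℕ} [Fact p.Prime] (hodd : Odd p) (hpΩ : (p : Ω) ≠ 0) {ζ : Ωˣ} {z : ℕ → Ωˣ}
    (hz : ZSys p ζ z) (hm : Nat.Coprime (Gz (F := F) ζ).index p) (χ : Gal(Ω/F) → ZMod p)
    (hχ : LC1 χ) (hχ2 : Hm ⊤ χ) :
    ∃ X : ∀ n : ℕ, Gal(Ω/F) → ZMod (p ^ (n + 1)), (∀ n, LC1 (X n)) ∧
      (∀ n, Cr (kap p z n) ⊤ (X n)) ∧
      (∀ n g, ((X (n + 1) g).cast : ZMod (p ^ (n + 1))) = X n g) ∧
      ∀ g, ((X 0 g).cast : ZMod p) = χ g := by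
  have hζ : IsPrimitiveRoot ζ p := by
    have := hz.prim 0
    rwa [hz.zero, zero_add, pow_one] at this
  have hPo := Xl_open (F := F) ζ
  have hfin : Finite (Gal(Ω/F) ⧸ Gz (F := F) ζ) := finite_quot hPo
  let _ : Fintype (Gal(Ω/F) ⧸ Gz (F := F) ζ) := Fintype.ofFinite _
  set m : ℕ := Fintype.card (Gal(Ω/F) ⧸ Gz (F := F) ζ) with hmdef
  have hmc : Nat.Coprime m p := by
    have h1 : (Gz (F := F) ζ).index = m := by
      rw [Subgroup.index, Nat.card_eq_fintype_card]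
    rwa [h1] at hm
  -- the root
  obtain ⟨α₀, hα₀⟩ := kummer hPo hζ (fun _ => (1 : ZMod p))
    (fun g hg => by rw [Xl_pw_one hζ.pow_eq_one]; exact mem_Gz.1 hg) χ hχ
    (fun g _ h _ => by rw [one_mul]; exact hχ2 g (Subgroup.mem_top g) h (Subgroup.mem_top h))
  obtain ⟨β, hβ0, hβ⟩ := Xl_roots hpΩ α₀
  have hfix0 : ∀ h ∈ Gz (F := F) ζ, h • (α₀ ^ p) = α₀ ^ p := by
    intro h hh
    rw [smul_pow', hα₀ h hh, mul_pow, pw_pow_self hζ.pow_eq_one, one_mul]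
  have hfix : ∀ n, ∀ h ∈ Gz (F := F) ζ, h • ((β n) ^ (p ^ (n + 1))) = (β n) ^ (p ^ (n + 1)) := by
    intro n h hh
    rw [Xl_roots_pow hβ n, hβ0]
    exact hfix0 h hh
  set x : ∀ n : ℕ, Gal(Ω/F) → ZMod (p ^ (n + 1)) :=
    fun n g => lg (p ^ (n + 1)) (z n) (g • β n / β n) with hx
  have hconv := fun n => kummer_conv (H := Gz (F := F) ζ) (N := p ^ (n + 1)) (hz.prim n)
    (eps p z n) (fun g _ => eps_spec hz n g) (β n) (hfix n)
  have hxlc : ∀ n, LC1 (x n) := fun n => (hconv n).1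
  have hxpw : ∀ n, ∀ g ∈ Gz (F := F) ζ, pw (p ^ (n + 1)) (z n) (x n g) = g • β n / β n :=
    fun n => (hconv n).2.1
  have hxcr : ∀ n, Cr (kap p z n) (Gz (F := F) ζ) (x n) := by
    intro n g hg h hh
    rw [kap_gz hz n hg]
    exact (hconv n).2.2 g hg h hh
  have hdvd : ∀ n, p ^ (n + 1) ∣ p ^ (n + 1 + 1) := fun n => pow_dvd_pow p (Nat.le_succ _)
  have hxcast : ∀ n, ∀ g ∈ Gz (F := F) ζ,
      x n g = ZMod.castHom (hdvd n) (ZMod (p ^ (n + 1))) (x (n + 1) g) := by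
    intro n g hg
    apply pw_injective (hz.prim n)
    rw [ZMod.castHom_apply, ← ZMod.natCast_val, pw_natCast (hz.prim n).pow_eq_one, hxpw n g hg]
    have h1 := hxpw (n + 1) g hg
    have h2 : (g • β (n + 1) / β (n + 1)) ^ p = g • β n / β n := by
      rw [div_pow, ← smul_pow', hβ]
    rw [← h2, ← h1]
    unfold pw
    rw [← pow_mul, mul_comm, pow_mul, hz.pow]
  have hdvd0 : p ∣ p ^ (0 + 1) := by rw [zero_add, pow_one]
  have hx0 : ∀ g ∈ Gz (F := F) ζ, χ g = ZMod.castHom hdvd0 (ZMod p) (x 0 g) := by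
    intro g hg
    apply pw_injective hζ
    rw [ZMod.castHom_apply, ← ZMod.natCast_val, pw_natCast hζ.pow_eq_one]
    have h1 := hxpw 0 g hg
    rw [hβ0, hα₀ g hg, mul_div_cancel_right] at h1
    rw [← h1]
    unfold pw
    rw [hz.zero]
  -- the inverse of the index
  have hmu : ∀ n : ℕ, ((m : ZMod (p ^ (n + 1)))) * ((m : ZMod (p ^ (n + 1))))⁻¹ = 1 := fun n =>
    ZMod.coe_mul_inv_eq_one m (hmc.pow_right (n + 1))
  set u : ∀ n : ℕ, ZMod (p ^ (n + 1)) := fun n => ((m : ZMod (p ^ (n + 1))))⁻¹ with hu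
  have hmu' : ∀ n : ℕ, (m : ZMod (p ^ (n + 1))) * u n = 1 := hmu
  have hucast : ∀ n, ZMod.castHom (hdvd n) (ZMod (p ^ (n + 1))) (u (n + 1)) = u n := by
    intro n
    have h1 := congrArg (ZMod.castHom (hdvd n) (ZMod (p ^ (n + 1)))) (hmu' (n + 1))
    rw [map_mul, map_natCast, map_one] at h1
    calc ZMod.castHom (hdvd n) (ZMod (p ^ (n + 1))) (u (n + 1))
        = ((m : ZMod (p ^ (n + 1))) * u n) *
          ZMod.castHom (hdvd n) (ZMod (p ^ (n + 1))) (u (n + 1)) := by rw [hmu' n, one_mul]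
      _ = u n * ((m : ZMod (p ^ (n + 1))) *
          ZMod.castHom (hdvd n) (ZMod (p ^ (n + 1))) (u (n + 1))) := by ring
      _ = u n := by rw [h1, mul_one]
  refine ⟨fun n g => u n * trf (P := Gz (F := F) ζ) (kap p z n) (x n) g, ?_, ?_, ?_, ?_⟩
  · intro n
    exact (trf_lc hPo (kap p z n) (x n) (kap_lc p z n) (hxlc n)).comp (fun y => u n * y)
  · intro n g hg h hh
    have h1 := trf_cr (P := Gz (F := F) ζ) (kap p z n) (x n) (kap_mul hz n) (hxcr n) g hg h hh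
    beta_reduce
    rw [h1]
    ring
  · intro n g
    have h1 := trf_map (P := Gz (F := F) ζ) (ZMod.castHom (hdvd n) (ZMod (p ^ (n + 1))))
      (kap p z (n + 1)) (x (n + 1)) (kap p z n) (x n)
      (fun g => (kap_cast hz n g).symm) (hxcast n) g
    beta_reduce
    rw [← ZMod.castHom_apply (h := hdvd n), map_mul, hucast, ← h1]
  · intro g
    have h1 := trf_map (P := Gz (F := F) ζ) (ZMod.castHom hdvd0 (ZMod p))
      (kap p z 0) (x 0) (fun _ => 1) χ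
      (fun g => by rw [kap_zero hodd hz, map_one]) hx0 g
    have h2 := trf_res (P := Gz (F := F) ζ) (fun _ => (1 : ZMod p)) χ χ (fun _ => rfl) hχ2
      (fun _ _ => rfl) g
    have h3 := congrArg (ZMod.castHom hdvd0 (ZMod p)) (hmu' 0)
    rw [map_mul, map_natCast, map_one] at h3
    beta_reduce
    rw [← ZMod.castHom_apply (h := hdvd0), map_mul, ← h1, h2]
    calc ZMod.castHom hdvd0 (ZMod p) (u 0) * ((m : ZMod p) * χ g)
        = ((m : ZMod p) * ZMod.castHom hdvd0 (ZMod p) (u 0)) * χ g := by ring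
      _ = χ g := by rw [h3, one_mul]

end BrR
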